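import Pool.Agent.P.MP_7ebcb6_ag.G8.Place

/-! Chow forms of finite families of points and their reduction at a place. -/

open MvPolynomial

namespace Pool.Agent.P.MP_7ebcb6_ag.G8

noncomputable section

variable {K L : Type} [Field K] [Field L] {n : ℕ} {ι : Type} [Fintype ι]

/-- The linear form with coefficient vector `P`. -/
def lin (P : Fin n → K) : MvPolynomial (Fin n) K := ∑ i, monomial (Finsupp.single i 1) (P i)

/-- The Chow form of a finite family of points. -/
def ch (P : ι → Fin n → K) : MvPolynomial (Fin n) K := ∏ j, lin (P j)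

lemma coeff_lin (P : Fin n → K) (i : Fin n) : coeff (Finsupp.single i 1) (lin P) = P i := by
  classical
  rw [lin, coeff_sum, Finset.sum_eq_single i]
  · simp
  · intro j _ hj
    rw [coeff_monomial, if_neg fun h => hj (Finsupp.single_left_injective one_ne_zero h)]
  · simp

lemma lin_ne_zero {P : Fin n → K} (h : P ≠ 0) : lin P ≠ 0 := fun h0 =>
  h (funext fun i => by rw [← coeff_lin P, h0]; simp)

lemma ch_ne_zero {P : ι → Fin n → K} (h : ∀ j, P j ≠ 0) : ch P ≠ 0 :=
  Finset.prod_ne_zero_iff.mpr fun j _ => lin_ne_zero (h j)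

lemma lin_smul (c : K) (P : Fin n → K) : lin (fun i => c * P i) = C c * lin P := by
  simp only [lin, Finset.mul_sum, C_mul_monomial]

lemma map_lin (f : K →+* L) (P : Fin n → K) : map f (lin P) = lin fun i => f (P i) := by
  simp only [lin, map_sum, map_monomial]

lemma irreducible_lin {P : Fin n → K} (h : P ≠ 0) : Irreducible (lin P) := by
  obtain ⟨i, hi⟩ := Function.ne_iff.mp h
  have hi' : P i ≠ 0 := hi
  refine irreducible_of_totalDegree_eq_one (le_antisymm ?_ ?_) fun x hx => ?_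
  · refine totalDegree_finsetSum_le fun j _ => (totalDegree_monomial_le _ _).trans ?_
    simp
  · have := le_totalDegree (p := lin P) (s := Finsupp.single i 1)
      (mem_support_iff.mpr (by rw [coeff_lin]; exact hi'))
    simpa using this
  · have := hx (Finsupp.single i 1)
    rw [coeff_lin] at this
    exact isUnit_of_dvd_unit this hi'.isUnit

lemma sum_eq_of_ch {M : Type} [AddCommGroup M] (γ : (Fin n → K) → M)
    (hγ : ∀ (c : K) (P : Fin n → K), c ≠ 0 → γ (fun i => c * P i) = γ P)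
    {P Q : ι → Fin n → K} (hP : ∀ j, P j ≠ 0) (hQ : ∀ j, Q j ≠ 0) {a b : K} (ha : a ≠ 0)
    (hb : b ≠ 0) (h : C a * ch P = C b * ch Q) : ∑ j, γ (P j) = ∑ j, γ (Q j) := by
  have h1 : Associated ((Finset.univ.val.map P).map lin).prod
      ((Finset.univ.val.map Q).map lin).prod := by
    rw [Multiset.map_map, Multiset.map_map]
    change Associated (ch P) (ch Q)
    have h2 : Associated (C a * ch P) (C b * ch Q) := h ▸ Associated.refl _
    exact ((associated_unit_mul_left _ _ (ha.isUnit.map C)).symm.trans h2).trans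
      (associated_unit_mul_left _ _ (hb.isUnit.map C))
  have h2 := UniqueFactorizationMonoid.factors_unique (fun x hx => ?_) (fun x hx => ?_) h1
  · rw [Multiset.rel_map] at h2
    have h3 : Multiset.Rel (fun p q => γ p = γ q) (Finset.univ.val.map P)
        (Finset.univ.val.map Q) := by
      refine h2.mono fun p _ q _ ⟨u, hu⟩ => ?_
      obtain ⟨r, hr, hur⟩ := isUnit_iff_eq_C_of_isReduced.mp u.isUnit
      have : q = fun i => r * p i := funext fun i => by
        rw [← coeff_lin q, ← hu, hur, mul_comm, coeff_C_mul, coeff_lin]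
      rw [this, hγ r p hr.ne_zero]
    rw [← Multiset.rel_map (p := (· = ·)), Multiset.rel_eq, Multiset.map_map,
      Multiset.map_map] at h3
    exact congrArg Multiset.sum h3
  · simp only [Multiset.mem_map] at hx
    obtain ⟨_, ⟨j, -, rfl⟩, rfl⟩ := hx
    exact irreducible_lin (hP j)
  · simp only [Multiset.mem_map] at hx
    obtain ⟨_, ⟨j, -, rfl⟩, rfl⟩ := hx
    exact irreducible_lin (hQ j)

namespace Plc

variable {pl : Plc K L}

/-- Coefficientwise reduction of polynomials. -/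
def PTo (pl : Plc K L) (p : MvPolynomial (Fin n) K) (q : MvPolynomial (Fin n) L) : Prop :=
  ∀ m, (coeff m p, coeff m q) ∈ pl.G

lemma sum_mem {σ : Type} (s : Finset σ) {f : σ → K} {g : σ → L} (h : ∀ i ∈ s, (f i, g i) ∈ pl.G) :
    (∑ i ∈ s, f i, ∑ i ∈ s, g i) ∈ pl.G := by
  rw [prod_mk_sum]
  exact _root_.sum_mem h

namespace PTo

variable {p p' : MvPolynomial (Fin n) K} {q q' : MvPolynomial (Fin n) L}

lemma uniq (h : pl.PTo p q) (h' : pl.PTo p q') : q = q' :=
  MvPolynomial.ext _ _ fun m => Plc.uniq (h m) (h' m)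

lemma zero : pl.PTo (0 : MvPolynomial (Fin n) K) 0 := fun _ => zero_mem _

lemma mon (s : Fin n →₀ ℕ) {a : K} {b : L} (h : (a, b) ∈ pl.G) :
    pl.PTo (monomial s a) (monomial s b) := fun m => by
  classical
  rw [coeff_monomial, coeff_monomial]
  split_ifs
  exacts [h, zero_mem _]

lemma const {a : K} {b : L} (h : (a, b) ∈ pl.G) : pl.PTo (C a : MvPolynomial (Fin n) K) (C b) :=
  mon 0 h

lemma mul (h : pl.PTo p q) (h' : pl.PTo p' q') : pl.PTo (p * p') (q * q') := fun m => by
  classical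
  rw [coeff_mul, coeff_mul]
  exact sum_mem _ fun x _ => Plc.mul (h _) (h' _)

lemma sum {σ : Type} (s : Finset σ) {f : σ → MvPolynomial (Fin n) K}
    {g : σ → MvPolynomial (Fin n) L} (h : ∀ i ∈ s, pl.PTo (f i) (g i)) :
    pl.PTo (∑ i ∈ s, f i) (∑ i ∈ s, g i) := fun m => by
  rw [coeff_sum, coeff_sum]
  exact sum_mem _ fun i hi => h i hi m

lemma prod {σ : Type} (s : Finset σ) {f : σ → MvPolynomial (Fin n) K}
    {g : σ → MvPolynomial (Fin n) L} (h : ∀ i ∈ s, pl.PTo (f i) (g i)) :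
    pl.PTo (∏ i ∈ s, f i) (∏ i ∈ s, g i) := by
  classical
  induction s using Finset.induction_on with
  | empty => exact const (one_mem _)
  | insert a s ha ih =>
    rw [Finset.prod_insert ha, Finset.prod_insert ha]
    exact (h a (Finset.mem_insert_self _ _)).mul (ih fun i hi => h i (Finset.mem_insert_of_mem hi))

end PTo

/-- The reduction of a multiple of a Chow form is a multiple of the Chow form of the reductions. -/
lemma ch_red {P : ι → Fin n → K} {Q : ι → Fin n → L} (h : ∀ j, pl.Red (P j) (Q j)) {c : K}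
    {B : MvPolynomial (Fin n) L} (hB : pl.PTo (C c * ch P) B) (hB0 : B ≠ 0) :
    ∃ d : L, d ≠ 0 ∧ B = C d * ch Q := by
  choose e he using fun j => (h j).2
  have he0 : ∀ j, e j ≠ 0 := fun j h0 =>
    (h j).1 (funext fun i => pl.func _ (by simpa [h0] using he j i))
  have hE : ∏ j, e j ≠ 0 := Finset.prod_ne_zero_iff.mpr fun j _ => he0 j
  have h1 : pl.PTo (C (∏ j, e j) * ch P) (ch Q) := by
    rw [ch, map_prod, ← Finset.prod_mul_distrib]
    refine PTo.prod _ fun j _ => ?_
    rw [← lin_smul]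
    exact PTo.sum _ fun i _ => PTo.mon _ (he j i)
  have hc : c ≠ 0 := by
    rintro rfl
    rw [C_0, zero_mul] at hB
    exact hB0 (hB.uniq PTo.zero)
  rcases pl.val (c / ∏ j, e j) with ⟨d, hd⟩ | ⟨d, hd⟩
  · have h2 := (PTo.const hd).mul h1
    rw [← mul_assoc, ← C_mul, div_mul_cancel₀ _ hE] at h2
    have h3 := hB.uniq h2
    exact ⟨d, by rintro rfl; exact hB0 (by rw [h3, C_0, zero_mul]), h3⟩
  · have h2 := (PTo.const hd).mul hB
    rw [← mul_assoc, ← C_mul, inv_div, div_mul_cancel₀ _ hc] at h2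
    have h3 := h1.uniq h2
    have hd0 : d ≠ 0 := by
      rintro rfl
      exact ch_ne_zero (fun j => (h j).1) (by rw [h3, C_0, zero_mul])
    exact ⟨d⁻¹, inv_ne_zero hd0, by rw [h3, ← mul_assoc, ← C_mul, inv_mul_cancel₀ hd0, C_1, one_mul]⟩

/-- The valuation ring of a place. -/
def ring (pl : Plc K L) : ValuationSubring K :=
  { (gfst pl.G).range with
    mem_or_inv_mem' := fun a => (pl.val a).imp (fun ⟨_, h⟩ => ⟨⟨_, h⟩, rfl⟩)
      fun ⟨_, h⟩ => ⟨⟨_, h⟩, rfl⟩ }

lemma exists_of_le {a : K} (h : pl.ring.valuation a ≤ 1) : ∃ b, (a, b) ∈ pl.G := by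
  obtain ⟨⟨⟨a', b⟩, hab⟩, rfl⟩ := (pl.ring.valuation_le_one_iff a).mp h
  exact ⟨b, hab⟩

lemma le_of_mem {a : K} {b : L} (h : (a, b) ∈ pl.G) : pl.ring.valuation a ≤ 1 :=
  (pl.ring.valuation_le_one_iff a).mpr ⟨⟨_, h⟩, rfl⟩

lemma lt_iff {a : K} {b : L} (h : (a, b) ∈ pl.G) : pl.ring.valuation a < 1 ↔ b = 0 := by
  constructor
  · intro hlt
    by_contra hb
    have h1 := le_of_mem (pl.loc a b h hb)
    rw [map_inv₀, inv_le_one₀ (zero_lt_iff.mpr (by simpa using ne_zero h hb))] at h1
    exact absurd hlt (not_lt.mpr h1)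
  · rintro rfl
    by_contra hge
    have h0 : a ≠ 0 := by
      rintro rfl
      simp at hge
    have h1 : pl.ring.valuation a⁻¹ ≤ 1 := by
      rw [map_inv₀]
      exact inv_le_one_of_one_le₀ (not_lt.mp hge)
    obtain ⟨b, hb⟩ := exists_of_le h1
    have h2 := mul h hb
    rw [mul_inv_cancel₀ h0, zero_mul] at h2
    exact zero_ne_one (uniq h2 (one_mem _))

/-- Every polynomial is a constant times a polynomial with nonzero reduction. -/
lemma exists_content (pl : Plc K L) (p : MvPolynomial (Fin n) K) :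
    ∃ (a : K) (p' : MvPolynomial (Fin n) K) (q : MvPolynomial (Fin n) L),
      p = C a * p' ∧ pl.PTo p' q ∧ q ≠ 0 := by
  classical
  by_cases hp : p = 0
  · exact ⟨0, C 1, C 1, by simp [hp], PTo.const (one_mem _), by simp⟩
  obtain ⟨m0, hm0, hmax⟩ := Finset.exists_max_image p.support
    (fun m => pl.ring.valuation (coeff m p)) (support_nonempty.mpr hp)
  have ha : coeff m0 p ≠ 0 := mem_support_iff.mp hm0
  have hex : ∀ m, ∃ b, m ∈ p.support → ((coeff m0 p)⁻¹ * coeff m p, b) ∈ pl.G := by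
    intro m
    by_cases hm : m ∈ p.support
    · obtain ⟨b, hb⟩ := exists_of_le (pl := pl) (a := (coeff m0 p)⁻¹ * coeff m p) (by
        rw [map_mul, map_inv₀, inv_mul_le_one₀ (zero_lt_iff.mpr (by simpa using ha))]
        exact hmax m hm)
      exact ⟨b, fun _ => hb⟩
    · exact ⟨0, fun h => absurd h hm⟩
  choose b hb using hex
  have h1 : pl.PTo (∑ m ∈ p.support, monomial m ((coeff m0 p)⁻¹ * coeff m p))
      (∑ m ∈ p.support, monomial m (b m)) := PTo.sum _ fun m hm => PTo.mon _ (hb m hm)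
  have h2 : ∑ m ∈ p.support, monomial m ((coeff m0 p)⁻¹ * coeff m p) = C (coeff m0 p)⁻¹ * p := by
    simp only [← C_mul_monomial, ← Finset.mul_sum, ← p.as_sum]
  refine ⟨coeff m0 p, _, _, ?_, h1, fun h0 => ?_⟩
  · rw [h2, ← mul_assoc, ← C_mul, mul_inv_cancel₀ ha, C_1, one_mul]
  · have h3 := h1 m0
    rw [h0, h2, coeff_C_mul, inv_mul_cancel₀ ha, coeff_zero] at h3
    exact zero_ne_one (uniq h3 (one_mem _))

end Plc

/-- Induction along the Newton polygon of a finite sequence. -/
lemma newton_polygon [IsAlgClosed K] {Γ : Type} [LinearOrderedCommGroupWithZero Γ]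
    (v : Valuation K Γ) (a : ℕ → K) (N : ℕ) (T : ℕ → Prop)
    (step : ∀ (c : K) (i j : ℕ), c ≠ 0 → i < j → j < N → a i ≠ 0 →
      v (c ^ j * a j) = v (c ^ i * a i) → (∀ k < N, v (c ^ k * a k) ≤ v (c ^ i * a i)) →
      (∀ k < i, v (c ^ k * a k) < v (c ^ i * a i)) →
      (∀ k, j < k → k < N → v (c ^ k * a k) < v (c ^ i * a i)) → T i → T j)
    {i0 i1 : ℕ} (h0 : a i0 ≠ 0) (h0' : ∀ k < i0, a k = 0) (hN : i1 < N) (h1 : a i1 ≠ 0)
    (h1' : ∀ k, i1 < k → k < N → a k = 0) (hle : i0 ≤ i1) (hT : T i0) : T i1 := by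
  classical
  have hpos : ∀ x : K, x ≠ 0 → 0 < v x := fun x hx => zero_lt_iff.mpr (by simpa using hx)
  suffices key : ∀ d i, i1 - i ≤ d → i ≤ i1 → a i ≠ 0 →
      (∀ c : K, c ≠ 0 → ∀ l, i < l → l < N → v (c ^ l * a l) = v (c ^ i * a i) →
        ∀ k < i, v (c ^ k * a k) < v (c ^ i * a i)) → T i → T i1 from
    key _ i0 le_rfl hle h0 (fun c hc l _ _ _ k hk => by
      rw [h0' k hk, mul_zero, map_zero]
      exact hpos _ (mul_ne_zero (pow_ne_zero _ hc) h0)) hT
  intro d
  induction d with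
  | zero =>
    intro i hd hi _ _ hT
    obtain rfl : i = i1 := by omega
    exact hT
  | succ d ih =>
    intro i hd hi ha hconv hT
    rcases hi.eq_or_lt with rfl | hlt
    · exact hT
    have hroot : ∀ k, ∃ c : K, i < k → c ^ (k - i) = a i / a k := by
      intro k
      by_cases hk : i < k
      · obtain ⟨c, hc⟩ := IsAlgClosed.exists_pow_nat_eq (a i / a k) (Nat.sub_pos_of_lt hk)
        exact ⟨c, fun _ => hc⟩
      · exact ⟨0, fun h => absurd h hk⟩
    choose r hr using hroot
    let S := (Finset.range N).filter fun k => i < k ∧ a k ≠ 0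
    have hS : ∀ k, k ∈ S ↔ k < N ∧ i < k ∧ a k ≠ 0 := fun k => by simp [S]
    obtain ⟨l, hl, hmin⟩ := Finset.exists_min_image S (fun k => v (r k))
      ⟨i1, (hS _).mpr ⟨hN, hlt, h1⟩⟩
    obtain ⟨hlN, hil, hal⟩ := (hS l).mp hl
    have hkey : ∀ (c : K) (k : ℕ), i < k → a k ≠ 0 →
        c ^ k * a k * r k ^ (k - i) = c ^ i * a i * c ^ (k - i) := by
      intro c k hk hak
      rw [hr k hk, mul_right_comm (c ^ i), ← pow_add, Nat.add_sub_cancel' hk.le]
      field_simp
    have hr0 : ∀ k, i < k → a k ≠ 0 → r k ≠ 0 := fun k hk hak h => by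
      have := hr k hk
      rw [h, zero_pow (Nat.sub_pos_of_lt hk).ne'] at this
      exact div_ne_zero ha hak this.symm
    set c := r l with hc
    have hc0 : c ≠ 0 := hr0 l hil hal
    have hw : 0 < v (c ^ i * a i) := hpos _ (mul_ne_zero (pow_ne_zero _ hc0) ha)
    have hleq : v (c ^ l * a l) = v (c ^ i * a i) :=
      congrArg v (mul_right_cancel₀ (pow_ne_zero _ hc0) (hkey c l hil hal))
    have hlow := hconv c hc0 l hil hlN hleq
    have hall : ∀ k < N, v (c ^ k * a k) ≤ v (c ^ i * a i) := by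
      intro k hk
      rcases lt_trichotomy k i with h | rfl | h
      · exact (hlow k h).le
      · exact le_rfl
      · by_cases hak : a k = 0
        · simp [hak]
        have h2 := congrArg v (hkey c k h hak)
        rw [map_mul, map_mul _ (c ^ i * a i), map_pow _ (r k), map_pow _ c (k - i)] at h2
        refine le_of_mul_le_mul_right ?_ (pow_pos (hpos _ (hr0 k h hak)) (k - i))
        rw [h2]
        exact mul_le_mul_right (pow_le_pow_left₀ zero_le (hmin k ((hS k).mpr ⟨hk, h, hak⟩)) _) _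
    let S' := (Finset.range N).filter fun k => v (c ^ k * a k) = v (c ^ i * a i)
    have hS' : ∀ k, k ∈ S' ↔ k < N ∧ v (c ^ k * a k) = v (c ^ i * a i) := fun k => by simp [S']
    obtain ⟨j, hj, hmax⟩ := Finset.exists_max_image S' id ⟨l, (hS' l).mpr ⟨hlN, hleq⟩⟩
    obtain ⟨hjN, hjeq⟩ := (hS' j).mp hj
    have hij : i < j := hil.trans_le (hmax l ((hS' l).mpr ⟨hlN, hleq⟩))
    have haj : a j ≠ 0 := fun h => by
      rw [h, mul_zero, map_zero] at hjeq
      exact hw.ne hjeq
    have hhigh : ∀ k, j < k → k < N → v (c ^ k * a k) < v (c ^ i * a i) := fun k hk hkN =>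
      lt_of_le_of_ne (hall k hkN) fun h => absurd (hmax k ((hS' k).mpr ⟨hkN, h⟩)) (not_le.mpr hk)
    have hj1 : j ≤ i1 := not_lt.mp fun h => haj (h1' j h hjN)
    refine ih j (by omega) hj1 haj (fun e he m hjm hmN hm k hk => ?_)
      (step c i j hc0 hij hjN ha hjeq hall hlow hhigh hT)
    have hsc : ∀ p : ℕ, v (e ^ p * a p) = v (e / c) ^ p * v (c ^ p * a p) := by
      intro p
      rw [← map_pow, ← map_mul]
      congr 1
      rw [div_pow]
      field_simp
    have hq : 0 < v (e / c) := hpos _ (div_ne_zero he hc0)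
    have hgt : 1 < v (e / c) := by
      by_contra hle1
      rw [hsc, hsc, hjeq] at hm
      have h3 : v (e / c) ^ m ≤ v (e / c) ^ j := pow_le_pow_of_le_one zero_le (not_lt.mp hle1) hjm.le
      exact absurd hm (ne_of_lt ((mul_lt_mul_of_pos_left (hhigh m hjm hmN) (pow_pos hq m)).trans_le
        (mul_le_mul_left h3 _)))
    rw [hsc, hsc, hjeq]
    exact (mul_le_mul_right (hall k (hk.trans hjN)) _).trans_lt
      (mul_lt_mul_of_pos_right (pow_lt_pow_right₀ hgt hk) hw)

end

end Pool.Agent.P.MP_7ebcb6_ag.G8
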