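import Pool.Agent.P.MP_7ebcb6_ag.G8.Loc

/-! The cone over a curve on another member of the pencil. -/

open scoped WithZero IntermediateField
open WithZero

namespace Pool.Agent.P.MP_7ebcb6_ag.G8

noncomputable section

open Classical in
lemma cone_local {K M : Type} [Field K] [Algebra ℂ K] [AddCommGroup M] (hK : IsCurveField K)
    {w : Valuation K ℤᵐ⁰} (hw : IsPlace w) {g : Fin 6 → ℂ} {s k : ℂ} {cl : ℂ → ℂ → ℂ → M}
    (hbad : ∀ y m n, c3 1 y m n = 0 → cl y m n = 0) (hk : k ≠ 0) (h4 : f4 g s ≠ 0)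
    {l y m n : K} {U : Fin 8 → K} {c : Fin 8 → M} {m0 n0 : ℂ}
    (hD : phi (fun i => algebraMap ℂ K (g i)) l 1 y m n
      = algebraMap ℂ K k * (y - algebraMap ℂ K s) * c3 1 y m n ^ 2)
    (hne : ∀ j, 1 - U j ≠ 0)
    (hU : ∀ x : K, phi (fun i => algebraMap ℂ K (g i)) (l * x) x (y * x) m n
      = f4 (fun i => algebraMap ℂ K (g i)) y ^ 2 * ∏ j, (x - U j))
    (hl : w l ≤ 1) (hy : w y ≤ 1) (hm : Tends w m m0) (hn : Tends w n n0)
    (hc : ∀ j, U j ≠ 0 → ∀ y0 a b, Tends w y y0 → Tends w ((U j)⁻¹ * m) a →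
      Tends w ((U j)⁻¹ * n) b → c j = cl y0 a b) :
    ∑ j, ord w (1 - U j) • c j
      = (if w (y - algebraMap ℂ K s) < 1 then ord w (y - algebraMap ℂ K s) else 0) • cl s m0 n0 := by
  have := hw.trivialOn
  obtain ⟨y0, hy0⟩ : ∃ y0, Tends w y y0 := hK.exists_residue hw y hy
  obtain ⟨l0, hl0⟩ : ∃ l0, Tends w l l0 := hK.exists_residue hw l hl
  have hroot : ∀ j, phi (fun i => algebraMap ℂ K (g i)) (l * U j) (U j) (y * U j) m n = 0 :=
    fun j => by rw [hU, Finset.prod_eq_zero (Finset.mem_univ j) (sub_self _), mul_zero]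
  have hone : ∀ j, w (1 - U j) < 1 → Tends w (U j) 1 := fun j h => by
    rwa [Tends, map_one, Valuation.map_sub_swap]
  have hbig : ∀ j, 1 < w (1 - U j) → 1 < w (U j) := fun j h => by
    by_contra hle
    exact not_le.mpr h (w.map_sub_le w.map_one.le (not_lt.mp hle))
  have hterm : ∀ j, ord w (1 - U j) • c j
      = (if w (1 - U j) < 1 then ord w (1 - U j) else 0) • cl y0 m0 n0 := by
    intro j
    rcases lt_trichotomy (w (1 - U j)) 1 with h | h | h
    · have h1 := (hone j h).inv one_ne_zero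
      rw [if_pos h, hc j ((hone j h).ne_zero one_ne_zero) y0 m0 n0 hy0
        ((h1.mul hm).of_eq_right (by simp)) ((h1.mul hn).of_eq_right (by simp))]
    · rw [if_neg h.not_lt, ord_eq_zero_of_eq_one h, zero_smul, zero_smul]
    · have h0 : U j ≠ 0 := by
        intro h0
        have := hbig j h
        rw [h0, map_zero] at this
        exact not_lt_zero this
      have h1 : Tends w (U j)⁻¹ 0 :=
        Tends.zero_iff.mpr ((Valuation.one_lt_val_iff w h0).mp (hbig j h))
      rw [if_neg h.not_gt, hc j h0 y0 0 0 hy0 ((h1.mul hm).of_eq_right (zero_mul _))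
        ((h1.mul hn).of_eq_right (zero_mul _)), hbad _ _ _ (c3_zero _ _), smul_zero, zero_smul]
  simp only [hterm, ← Finset.sum_smul]
  have hc3 := tends_c3 Tends.one hy0 hm hn
  have hprod := (hU 1).symm
  rw [mul_one, mul_one, hD] at hprod
  by_cases hs : w (y - algebraMap ℂ K s) < 1
  · obtain rfl : y0 = s := hy0.unique hs
    by_cases h3 : c3 1 y0 m0 n0 = 0
    · rw [hbad _ _ _ h3, smul_zero, smul_zero]
    rw [if_pos hs]
    congr 1
    have e1 : w (∏ j, (1 - U j)) = w (y - algebraMap ℂ K y0) := by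
      have := congrArg w hprod
      rwa [map_mul, map_mul, map_mul, map_pow, map_pow, (tends_f4 g hy0).eq_one h4, hc3.eq_one h3,
        hw.2 k hk, one_pow, one_mul, one_mul, mul_one] at this
    rw [← ord_congr e1, ord_prod w _ fun j _ => hne j]
    refine Finset.sum_congr rfl fun j _ => ?_
    split_ifs with h
    · rfl
    · refine (ord_eq_zero_of_eq_one (le_antisymm (not_lt.mp fun h' => h4 ?_) (not_lt.mp h))).symm
      have h5 := hbig j h'
      exact not_tends_zero (fun h0 => by rw [h0, map_zero] at h5; exact not_lt_zero h5) (hroot j)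
        hl0 hy0 (hm.le_one.trans_lt h5) (hn.le_one.trans_lt h5)
  · rw [if_neg hs, zero_smul]
    by_cases h3 : c3 1 y0 m0 n0 = 0
    · rw [hbad _ _ _ h3, smul_zero]
    rw [Finset.sum_eq_zero fun j _ => if_neg fun h => ?_, zero_smul]
    have h5 := (tends_phi g (hl0.mul (hone j h)) (hone j h) (hy0.mul (hone j h)) hm hn).eq_zero
      (hroot j)
    rw [mul_one, mul_one] at h5
    have h6 := (tends_phi g hl0 Tends.one hy0 hm hn).eq_of_eq
      (((Tends.const k).mul (hy0.sub (Tends.const s))).mul (hc3.pow 2)) hD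
    rw [h5] at h6
    have h7 : y0 = s := by simpa [hk, h3, sub_eq_zero] using h6
    exact hs (h7 ▸ hy0)

theorem coneLemma : ConeLemma := by
  classical
  intro g mu s ph t M _ _ G m n Ψ ht h4 hD hc3 hint hΨ
  have hys : NonConst (lam - algebraMap ℂ Om s) := fun c hc =>
    nonConst_lam (c + s) (by rw [map_add, ← hc, sub_add_cancel])
  have h4' : f4 (fun i => algebraMap ℂ Om (g i)) lam ≠ 0 := by
    obtain ⟨sp, hsp⟩ := nonConst_lam.exists_sp s
    exact (tends_f4 g hsp).ne_zero h4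
  set l : Om := algebraMap ℂ Om (ph - mu * s) + algebraMap ℂ Om mu * lam with hl
  choose U hU using fun k => phi_split (fun i => algebraMap ℂ Om (g i)) l lam (m k) (n k) h4'
  have hD' : ∀ k, phi (fun i => algebraMap ℂ Om (g i)) l 1 lam (m k) (n k)
      = algebraMap ℂ Om (mu - t) * (lam - algebraMap ℂ Om s) * c3 1 lam (m k) (n k) ^ 2 := by
    intro k
    rw [← sub_zero (phi _ l _ _ _ _), ← hD k, phi_sub, hl, map_sub, map_sub, map_mul]
    ring
  have hne : ∀ k j, 1 - U k j ≠ 0 := by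
    intro k j h
    have h1 := hU k 1
    rw [mul_one, mul_one, hD', Finset.prod_eq_zero (Finset.mem_univ j) h, mul_zero] at h1
    exact mul_ne_zero (mul_ne_zero (by simpa [sub_eq_zero] using ht.symm) hys.ne_zero)
      (pow_ne_zero _ (hc3 k)) h1
  have hfam : ∀ p : Fin 4 × Fin 8, ∃ γ : Sp → M, IsFam γ ∧
      (U p.1 p.2 ≠ 0 → ∀ (sp : Sp) (y0 a b : ℂ), Tends sp.v lam y0 →
        Tends sp.v ((U p.1 p.2)⁻¹ * m p.1) a → Tends sp.v ((U p.1 p.2)⁻¹ * n p.1) b →
        γ sp = G.cl y0 a b) ∧ ∀ sp : Sp, 1 < sp.v lam → γ sp = 0 := by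
    rintro ⟨k, j⟩
    by_cases h0 : U k j = 0
    · exact ⟨fun _ => 0, IsFam.zero, fun h => absurd h0 h, fun _ _ => rfl⟩
    have h1 := phi_smul (fun i => algebraMap ℂ Om (g i)) (U k j)⁻¹ (l * U k j) (U k j)
      (lam * U k j) (m k) (n k)
    rw [hU, Finset.prod_eq_zero (Finset.mem_univ j) (sub_self _), mul_zero, mul_zero, mul_comm l,
      mul_comm lam, inv_mul_cancel_left₀ h0, inv_mul_cancel_left₀ h0, inv_mul_cancel₀ h0] at h1
    obtain ⟨γ, h2, h3, h5⟩ := G.fam _ _ _ h1
    exact ⟨γ, h2, fun _ => h3, fun sp h => h5 sp (Or.inl h)⟩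
  choose γ hγ hγ1 hγ2 using hfam
  obtain ⟨K, hfin, hT, γK, hK1, hK2⟩ := isFam_pack hγ (insert lam (Finset.univ.image m ∪
    Finset.univ.image n ∪ Finset.univ.image fun p : Fin 4 × Fin 8 => U p.1 p.2))
  have hK := isCurveField_finK K
  let y' : K := ⟨lam, hT _ (by simp)⟩
  let m' : Fin 4 → K := fun k => ⟨m k, hT _ (by simp)⟩
  let n' : Fin 4 → K := fun k => ⟨n k, hT _ (by simp)⟩
  let U' : Fin 4 → Fin 8 → K := fun k j => ⟨U k j, hT _ (by simp)⟩
  let l' : K := algebraMap ℂ K (ph - mu * s) + algebraMap ℂ K mu * y'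
  have hH := hom_of_ringHom (algebraMap K Om)
  have hinj := (algebraMap K Om).injective
  have hne' : ∀ k j, 1 - U' k j ≠ 0 := fun k j h => hne k j (congrArg Subtype.val h)
  have htr : Transcendental ℂ (y' - algebraMap ℂ K s) :=
    transcendental_of_notMem_range fun d hd => hys d (congrArg Subtype.val hd)
  obtain ⟨S, hS, -, hS'⟩ := exists_support hK (ι := Option (Fin 4 × Fin 8))
    (f := fun o => o.elim (y' - algebraMap ℂ K s) fun p => 1 - U' p.1 p.2) (by
      rintro (_ | p)
      exacts [fun h => hys.ne_zero (congrArg Subtype.val h), hne' _ _])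
  have hsum : ∑ w ∈ S, ∑ k, ∑ j, ord w (1 - U' k j) • γK (k, j) w = 0 := by
    rw [Finset.sum_comm]
    refine Finset.sum_eq_zero fun k _ => ?_
    rw [Finset.sum_comm]
    exact Finset.sum_eq_zero fun j _ => hK2 _ _ S (hne' k j) hS fun w hw hwS =>
      ord_eq_zero_of_eq_one (hS' (some (k, j)) w hw hwS)
  have hloc : ∀ w ∈ S, ∑ k, ∑ j, ord w (1 - U' k j) • γK (k, j) w
      = (if w (y' - algebraMap ℂ K s) < 1 then ord w (y' - algebraMap ℂ K s) else 0) • Ψ := by
    intro w hwS
    have hw := hS w hwS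
    have := hw.trivialOn
    obtain ⟨sp, hsp⟩ := exists_sp_lies K hw
    by_cases hy : w y' ≤ 1
    · have hy' := (hsp.le_one y').mp hy
      choose m0 hm0 using fun k => hK.exists_residue hw (m' k)
        ((hsp.le_one _).mpr (hint sp k hy').1)
      choose n0 hn0 using fun k => hK.exists_residue hw (n' k)
        ((hsp.le_one _).mpr (hint sp k hy').2)
      rw [Finset.sum_congr rfl fun k _ => cone_local hK hw G.cl_bad (sub_ne_zero.mpr ht.symm) h4
        (l := l') (y := y') (m := m' k) (n := n' k) (hinj ?_) (hne' k) (fun x => hinj ?_)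
        (w.map_add_le (hw.const_le_one _) (by
          rw [map_mul]; exact mul_le_one' (hw.const_le_one _) hy)) hy (hm0 k) (hn0 k)
        fun j hj y0 a b h1 h2 h3 => (hK1 _ sp w hw hsp).symm.trans (hγ1 (k, j)
          (fun h => hj (Subtype.ext h)) sp y0 a b (hsp.tends h1) (hsp.tends h2) (hsp.tends h3)),
        ← Finset.smul_sum]
      · split_ifs with h
        · rw [hΨ sp m0 n0 (hsp.tends h) (fun k => hsp.tends (hm0 k)) fun k => hsp.tends (hn0 k)]
        · rw [zero_smul, zero_smul]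
      · rw [hH.phi, map_mul, map_mul, map_pow, hH.c3]
        exact hD' k
      · rw [hH.phi, map_mul _ (_ ^ 2), map_prod, map_pow]
        refine (hU k x).trans ?_
        simp only [f4, map_add, map_sub, map_mul, map_pow]
        rfl
    · rw [if_neg (show ¬ w (y' - algebraMap ℂ K s) < 1 from fun h =>
        hy (Tends.le_one (v := w) (c := s) h)), zero_smul]
      refine Finset.sum_eq_zero fun k _ => Finset.sum_eq_zero fun j _ => ?_
      rw [← hK1 _ sp w hw hsp, hγ2 _ sp (hsp.one_lt (not_le.mp hy)), smul_zero]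
  rw [Finset.sum_congr rfl hloc, ← Finset.sum_smul, sum_ite_ord hK htr hS (hS' none),
    natCast_zsmul] at hsum
  have := hK.finite htr
  exact (nsmul_eq_zero_iff_right Module.finrank_pos.ne').mp hsum

end

end Pool.Agent.P.MP_7ebcb6_ag.G8
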