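import Pool.Agent.P.MP_7ebcb6_ag.G8.SysNat

/-! Degree bounds of some coordinates, read off from the lengths of coefficient lists. -/

namespace Pool.Agent.P.MP_7ebcb6_ag.G8

variable {R S : Type} [Add R] [Mul R] [Neg R] [Sub R] [Add S] [Mul S] [Neg S] [Sub S]

def shapes (C : Cv (Pl R)) : List (List R) :=
  [(C.R1 (trunc C.Q)).c.c.drop 2, (C.R1 (trunc C.Q)).d.c.drop 2, (C.W (trunc C.Q)).c.c.drop 2,
    (C.W (trunc C.Q)).d.c.drop 2, C.E.b.c.drop 2, C.E.c.c.drop 2, C.E.d.c.drop 2]

lemma Hom.shapes {f : R → S} (h : Hom f) (C : Cv (Pl R)) :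
    (shapes C).map (List.map f) = shapes (C.map (Pl.map f)) := by
  simp only [G8.shapes, ← h.pl.cQ, ← trunc_map, ← h.pl.cR1, ← h.pl.cW, ← h.pl.cE, List.map_cons,
    List.map_nil, List.map_drop]
  rfl

lemma shapes_unit : (shapes (blkCv () (fun _ => ()) () () () () fun _ => ())).all List.isEmpty
    = true := by decide +kernel

lemma shapes_nil (o : R) (g : Fin 6 → R) (s ph nu a : R) (x : ℕ → R) :
    ∀ l ∈ shapes (blkCv o g s ph nu a x), l = [] := by
  have h : Hom fun _ : R => () := ⟨fun _ _ => rfl, fun _ _ => rfl, fun _ => rfl, fun _ _ => rfl⟩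
  have e := (h.shapes _).trans (congrArg shapes (h.blkCv o g s ph nu a x))
  have h2 := (congrArg (fun l => l.all List.isEmpty) e).trans shapes_unit
  intro l hl
  have h3 := List.all_eq_true.mp h2 _ (List.mem_map_of_mem hl)
  simpa using h3

end Pool.Agent.P.MP_7ebcb6_ag.G8
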