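import Pool.Agent.P.MP_7ebcb6_ag.G8.RowsZ
import Pool.Agent.P.MP_7ebcb6_ag.G8.Shape
import Pool.Agent.P.MP_7ebcb6_ag.G8.Cone

/-! One block of the system gives four points of class sum zero. -/

namespace Pool.Agent.P.MP_7ebcb6_ag.G8

open Polynomial

lemma fib_core {K : Type} [Field K] {mu s t V : K} {f : Fin 17 → K} {T : Tb K}
    {k h1 h2 io mm mn x1 mx3 wp : V4 K} {ot : List (V4 K)}
    (h : Zs (eqFib 1 mu s f T t k h1 h2 io mm mn x1 mx3 wp ot)) (hV : quart k V = 0) {ξ η w : K}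
    (hξ : ξ = qe V h1) (hη : η = qe V h2) (hw : w = evE T ξ η mm) :
    OnE T ξ η ∧ evE T ξ η mn = V * w ∧
    (T.A * T.B * T.c * (t - mu) * T.nu * qe V io * ((w - V * (V * w) - (1 + s * s) + (s + s) * V) * w)
      * (qe V ⟨k.b, k.c + k.c, k.d + k.d + k.d, 1 + 1 + (1 + 1)⟩
        * (quart wp V * (ot.map fun p => quart p V).prod)) = 1) ∧
    w * (w * (f 0 + V * (f 1 + V * (f 2 + f 3 * V + f 4 * V ^ 2 + f 5 * V ^ 3)))
      + (f 6 + f 7 * V + f 8 * V ^ 2 + f 9 * V ^ 3)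
      + (f 10 + f 11 * V + f 12 * V ^ 2 + f 13 * V ^ 3) * evE T ξ η x1)
      + (f 14 + f 15 * V + f 16 * V ^ 2) * evE T ξ η mx3 = 0 := by
  simp only [eqFib, Zs.append] at h
  obtain ⟨e1, e2, e3, e4, e5⟩ := h
  have hev : ∀ v, qe V (qev (V4.sm T.A h1) (V4.sm T.B h2) (qmul k (V4.sm T.A h1) h1
      + V4.sm T.p1 h1) v) = evE T ξ η v := fun v => by
    simp only [qev, qe_ac, qe_add, qe_sm, qe_qmul _ _ hV, evE, hξ, hη]; ring
  replace e1 := (congrArg (qe V) e1.v4).trans qe_z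
  replace e2 := (congrArg (qe V) e2.v4).trans qe_z
  replace e3 := (congrArg (qe V) e3.v4).trans qe_z
  replace e4 := (congrArg (qe V) e4.v4).trans qe_z
  replace e5 := (congrArg (qe V) e5.v4).trans qe_z
  rw [qe_sc, qe_qmul _ _ hV, qe_qmul _ _ hV, qe_qmul _ _ hV, qe_qmul _ _ hV, qe_qprod _ hV,
    qe_diff _ hV] at e4
  simp only [qe_sc, qe_ac, qe_add, qe_sub, qe_sm, qe_qmul _ _ hV, qe_qx _ hV, hev, ← hξ, ← hη,
    ← hw] at e1 e2 e3 e4 e5
  refine ⟨⟨by linear_combination e1, by linear_combination e2⟩, by linear_combination e3, ?_, ?_⟩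
  · simp only [qe] at e4 ⊢
    linear_combination e4
  · simp only [qe] at e5
    linear_combination e5

section

variable {R S : Type} [Add R] [Mul R] [Neg R] [Sub R] [Add S] [Mul S] [Neg S] [Sub S]

/-- The form `m * ft / c3`. -/
def ftR (f : Fin 17 → R) (m n z1 z3 : R) : R :=
  m * (f 0 * (m * m * m * m * m) + f 1 * (m * m * m * m * n) + f 2 * (m * m * m * n * n)
      + f 3 * (m * m * n * n * n) + f 4 * (m * n * n * n * n) + f 5 * (n * n * n * n * n)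
      + (f 6 * (m * m * m) + f 7 * (m * m * n) + f 8 * (m * n * n) + f 9 * (n * n * n))
      + (f 10 * (m * m * m) + f 11 * (m * m * n) + f 12 * (m * n * n) + f 13 * (n * n * n)) * z1)
    + (f 14 * (m * m) + f 15 * (m * n) + f 16 * (n * n)) * z3

lemma Hom.ftR {φ : R → S} (h : Hom φ) (f : Fin 17 → R) (m n z1 z3 : R) :
    φ (ftR f m n z1 z3) = ftR (fun i => φ (f i)) (φ m) (φ n) (φ z1) (φ z3) := by
  simp only [G8.ftR, h.add, h.mul]

end

lemma tends_ftR {sp : Sp} (f : Fin 17 → ℂ) {m n z1 z3 : Om} {m0 n0 a b : ℂ} (hm : Tends sp.v m m0)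
    (hn : Tends sp.v n n0) (h1 : Tends sp.v z1 a) (h3 : Tends sp.v z3 b) :
    Tends sp.v (ftR (fun i => algebraMap ℂ Om (f i)) m n z1 z3) (ftR f m0 n0 a b) := by
  have := (ftR (fun i => (⟨_, _, Tends.const (f i)⟩ : TP sp.v)) ⟨_, _, hm⟩ ⟨_, _, hn⟩ ⟨_, _, h1⟩
    ⟨_, _, h3⟩).h
  rwa [hom_a.ftR, hom_c.ftR] at this

lemma ft_of_rows {K : Type} [CommRing K] {D : Cv K} (hD : D.ok) {q : Pt D.T} (h : Rows3 D q)
    (f : Fin 17 → K) : q.o D.m * ft D.g f 1 D.y (q.o D.m) (q.o D.n)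
      = c3 1 D.y (q.o D.m) (q.o D.n) * ftR f (q.o D.m) (q.o D.n) (q.e D.x1) (q.e D.mx3) := by
  obtain ⟨e1, -, e3⟩ := x_of_rows D.g 1 D.y _ _ h.1 h.2.1 h.2.2
  rw [ft, e1, e3, hD.e_mx3, ftR]; ring

theorem block_core {D : Cv ℂ[X]} (hD : D.ok) {g : Fin 6 → ℂ} {mu s ph t : ℂ} {f : Fin 17 → ℂ}
    (hy : D.y = X) (hg : D.g = fun i => C (g i)) (hl : D.l = C (ph - t * s) + X * C t)
    (hcab : D.T.cab ≠ 0) (h1a : (D.R1 D.Q).a = 0)
    (h1b : (D.R1 D.Q).b = 0) (h1c : ∃ b, (D.R1 D.Q).c = X * C b)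
    (h1d : ∃ b, (D.R1 D.Q).d = X * C b) (h2 : D.R2 D.Q = V4.z) (h3 : D.R3 = V4.z)
    (hWc : Lin (D.W D.Q).c) (hWd : Lin (D.W D.Q).d) {i j : V4 ℂ}
    (hi : (mulEE (D.T.map (evalRingHom (-1))) i
      ((D.mm + D.nn + (D.mn + D.mn)).map (evalRingHom (-1)))).sc 1 = V4.z)
    (hj : (mulEE (D.T.map (evalRingHom 1)) j
      ((D.mm + D.nn - (D.mn + D.mn)).map (evalRingHom 1))).sc 1 = V4.z)
    (ha : Lin D.E.a) (hb : Lin D.E.b) (hc : Lin D.E.c) (hd : Lin D.E.d)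
    {k h1 h2' io wp : V4 ℂ} {ot : List (V4 ℂ)}
    (h : Zs (eqFib 1 mu s f (D.T.map (evalRingHom s)) t k h1 h2' io (D.mm.map (evalRingHom s))
      (D.mn.map (evalRingHom s)) (D.x1.map (evalRingHom s)) (D.mx3.map (evalRingHom s)) wp ot))
    (h4 : f4 g s ≠ 0) :
    ∃ V pm : Fin 4 → ℂ, Function.Injective V ∧
      (∀ i, quart k (V i) = 0 ∧ quart wp (V i) ≠ 0 ∧ (∀ k ∈ ot, quart k (V i) ≠ 0) ∧
        pm i ≠ 0 ∧ phi g ph 1 s (pm i) (V i * pm i) = 0 ∧ c3 1 s (pm i) (V i * pm i) ≠ 0 ∧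
        ft g f 1 s (pm i) (V i * pm i) = 0) ∧
      ∀ (M : Type) [AddCommGroup M] [IsAddTorsionFree M] (G : ClassMap g (ph - mu * s) mu M),
        ∑ i, G.cl s (pm i) (V i * pm i) = 0 := by
  obtain ⟨V, hV⟩ := exists_wpol k
  have hV0 : ∀ a, quart k (V a) = 0 := fun a => by rw [hV]; exact quart_root V a
  let ξ : Fin 4 → ℂ := fun a => qe (V a) h1
  let η : Fin 4 → ℂ := fun a => qe (V a) h2'
  let w : Fin 4 → ℂ := fun a => evE (D.T.map (evalRingHom s)) (ξ a) (η a) (D.mm.map (evalRingHom s))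
  have hf := fun a => fib_core h (hV0 a) (ξ := ξ a) (η := η a) (w := w a) rfl rfl rfl
  have hu := fun a => ne_of_eq_of_ne (hf a).2.2.1 one_ne_zero
  simp only [ne_eq, mul_eq_zero, not_or, List.prod_eq_zero_iff, List.mem_map, not_exists,
    not_and] at hu
  obtain ⟨⟨⟨⟨⟨⟨⟨hA, hB⟩, hc0⟩, ht⟩, hnu⟩, -⟩, -⟩, -⟩ := hu 0
  have hVi : Function.Injective V := inj_of_deriv hV fun a => (hu a).2.1
  have hw0 : ∀ a, w a ≠ 0 := fun a => (hu a).1.2.2
  have hξ : Function.Injective ξ := fun a b hab => by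
    have e1 : ξ a * η a = _ := (hf a).1.1
    have e2 : ξ b * η b = _ := (hf b).1.1
    have h0 : ξ b ≠ 0 := fun h0 => hc0 (by rw [← e2, h0, zero_mul])
    have e3 : η a = η b := mul_left_cancel₀ h0 (by rw [e2, ← e1, hab])
    have e4 : w a = w b := by simp only [w, hab, e3]
    have e5 := (hf a).2.1
    rw [hab, e3, (hf b).2.1, e4] at e5
    exact hVi (mul_right_cancel₀ (hw0 b) e5).symm
  obtain ⟨p, hp, hσ⟩ := exists_branches hD.T hA hB hc0 hnu (fun a => (hf a).1) hξ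
  have hO := hD.map am
  have hr := rows_zero hD (p := p) hp (am_ne' hA) (am_ne' hB) (am_ne' hc0) hy (am_ne' hnu)
    (am_ne hcab) h1a h1b h1c h1d h2 h3 hWc hWd
  have hphi := phi_zero hD (p := p) hp (am_ne' hA) (am_ne' hB) (am_ne' hc0) hy hr hi hj ha hb hc hd
  have hft := fun k => ft_of_rows hO (hr k) fun i => algebraMap ℂ Om (f i)
  have hy' : (D.map am).y = lam := by
    change am D.y = lam
    rw [hy, am_X]
  have hg' : (D.map am).g = fun i => algebraMap ℂ Om (g i) := by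
    change (fun i => am (D.g i)) = _
    simp only [hg, am_C]
  have hl' : (D.map am).l
      = algebraMap ℂ Om ph + algebraMap ℂ Om t * (lam - algebraMap ℂ Om s) := by
    change am D.l = _
    simp only [hl, map_add, map_mul, map_sub, am_C, am_X]; ring
  rw [hg', hl'] at hphi
  rw [hg', hy'] at hft
  have hmm : ∀ k, (p k).e (D.mm.map am) = _ := fun k => hO.e_mm (p k)
  have hmn : ∀ k, (p k).e (D.mn.map am) = _ := fun k => hO.e_mn (p k)
  have hnn : ∀ k, (p k).e (D.nn.map am) = _ := fun k => hO.e_nn (p k)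
  generalize hm : (fun k => Pt.o (T := (D.map am).T) (p k) (D.map am).m) = m
  generalize hn : (fun k => Pt.o (T := (D.map am).T) (p k) (D.map am).n) = n
  replace hm := congrFun hm
  replace hn := congrFun hn
  simp only [hm, hn] at hphi hft hmm hmn hnn
  have hfin : ∀ (sp : Sp) (k : Fin 4), sp.v lam ≤ 1 → sp.v (m k) ≤ 1 ∧ sp.v (n k) ≤ 1 :=
    fun sp k hl => by
      have a1 := evE_le hD.T (p k).on sp hl D.mm
      have a2 := evE_le hD.T (p k).on sp hl D.nn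
      change sp.v ((p k).e _) ≤ 1 at a1 a2
      rw [hmm, map_mul, ← sq] at a1
      rw [hnn, map_mul, ← sq] at a2
      exact ⟨(pow_le_one_iff two_ne_zero).mp a1, (pow_le_one_iff two_ne_zero).mp a2⟩
  choose pm hpm using fun a => IsAlgClosed.exists_eq_mul_self (w a)
  have hpm0 : ∀ a, pm a ≠ 0 := fun a h0 => hw0 a (by rw [hpm, h0, mul_zero])
  have hc3 : ∀ a, c3 1 s (pm a) (V a * pm a) ≠ 0 := fun a => by
    have := mul_ne_zero (hpm0 a) (hu a).1.2.1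
    rw [hpm] at this
    convert this using 1
    simp only [c3]; ring
  have lim : ∀ (sp : Sp) (k a : Fin 4) (m0 n0 : ℂ), Tends sp.v lam s →
      Tends sp.v (p k).X1 (ξ a) ∧ Tends sp.v (p k).X2 (η a) → Tends sp.v (m k) m0 →
      Tends sp.v (n k) n0 → (m0 = pm a ∧ n0 = V a * pm a) ∨ (m0 = -pm a ∧ n0 = -(V a * pm a)) :=
    fun sp k a m0 n0 hl hx h1 h2 => by
      have a1 : m0 * m0 = w a := (h1.mul h1).eq_of_eq (tends_evE hl hx.1 hx.2 D.mm) (hmm k).symm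
      have a2 := (h1.mul h2).eq_of_eq (tends_evE hl hx.1 hx.2 D.mn) (hmn k).symm
      rw [(hf a).2.1, ← a1] at a2
      have a3 : m0 ≠ 0 := fun h0 => hw0 a (by rw [← a1, h0, mul_zero])
      have a4 : n0 = V a * m0 := mul_left_cancel₀ a3 (by rw [a2]; ring)
      rw [hpm, mul_self_eq_mul_self_iff] at a1
      rcases a1 with a1 | a1
      · exact Or.inl ⟨a1, by rw [a4, a1]⟩
      · exact Or.inr ⟨a1, by rw [a4, a1]; ring⟩
  obtain ⟨sp0, hl0⟩ := nonConst_lam.exists_sp s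
  obtain ⟨σ0, hσ0⟩ := hσ sp0 hl0
  have pts : ∀ k, c3 1 lam (m k) (n k) ≠ 0 ∧ phi g ph 1 s (pm (σ0 k)) (V (σ0 k) * pm (σ0 k)) = 0 ∧
      ft g f 1 s (pm (σ0 k)) (V (σ0 k) * pm (σ0 k)) = 0 := fun k => by
    obtain ⟨m0, hm0⟩ := sp0.exists_tends (hfin sp0 k hl0.le_one).1
    obtain ⟨n0, hn0⟩ := sp0.exists_tends (hfin sp0 k hl0.le_one).2
    have t3 := tends_c3 Tends.one hl0 hm0 hn0
    have a1 := (tends_phi g ((Tends.const ph).add ((Tends.const t).mul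
      (hl0.sub (Tends.const s)))) Tends.one hl0 hm0 hn0).eq_zero (hphi k)
    have a2 := (hm0.mul (tends_ft g f Tends.one hl0 hm0 hn0)).eq_of_eq (t3.mul (tends_ftR f hm0 hn0
      (tends_evE hl0 (hσ0 k).1 (hσ0 k).2 D.x1) (tends_evE hl0 (hσ0 k).1 (hσ0 k).2 D.mx3))) (hft k)
    have a3 := (hf (σ0 k)).2.2.2
    rw [hpm] at a3
    rw [sub_self, mul_zero, add_zero] at a1
    rcases lim sp0 k _ m0 n0 hl0 (hσ0 k) hm0 hn0 with ⟨rfl, rfl⟩ | ⟨rfl, rfl⟩
    · refine ⟨t3.ne_zero (hc3 _), a1, mul_left_cancel₀ (hpm0 (σ0 k)) ?_⟩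
      rw [a2, ftR]
      linear_combination c3 1 s (pm (σ0 k)) (V (σ0 k) * pm (σ0 k)) * pm (σ0 k) ^ 2 * a3
    · rw [phi_neg] at a1
      rw [ft_neg, c3_neg] at a2
      rw [c3_neg] at t3
      refine ⟨t3.ne_zero (neg_ne_zero.mpr (hc3 _)), a1,
        mul_left_cancel₀ (neg_ne_zero.mpr (hpm0 (σ0 k))) ?_⟩
      rw [a2, ftR]
      linear_combination -c3 1 s (pm (σ0 k)) (V (σ0 k) * pm (σ0 k)) * pm (σ0 k) ^ 2 * a3
  refine ⟨V, pm, hVi, fun a => ?_, fun M _ _ G => ?_⟩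
  · obtain ⟨k, rfl⟩ := σ0.surjective a
    exact ⟨hV0 _, (hu _).2.2.1, fun q hq => (hu _).2.2.2 q hq, hpm0 _, (pts k).2.1, hc3 _,
      (pts k).2.2⟩
  · refine coneLemma g mu s ph t M G m n _ (sub_ne_zero.mp ht) h4 hphi (fun k => (pts k).1) hfin
      fun sp m0 n0 hl h1 h2 => ?_
    obtain ⟨σ, hσ⟩ := hσ sp hl
    rw [← σ.sum_comp fun a => G.cl s (pm a) (V a * pm a)]
    refine Finset.sum_congr rfl fun k _ => ?_
    rcases lim sp k _ _ _ hl (hσ k) (h1 k) (h2 k) with ⟨e1, e2⟩ | ⟨e1, e2⟩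
    · rw [e1, e2]
    · rw [e1, e2, G.cl_neg]

lemma evAt_toP (y : ℂ) (v : V4 (Pl ℂ)) :
    evAt (1 - 1) y v = (v.map toP).map (evalRingHom y) := by
  simp only [evAt, V4.map, toP, coe_evalRingHom, eval_toP']

lemma trunc_toP {Q : V4 (Pl ℂ)} (h1 : Zs (Q.a.c.drop 2)) (h2 : Zs Q.d.c) :
    (trunc Q).map toP = Q.map toP := by
  refine V4.ext ?_ rfl rfl h2.toP'.symm
  change toP' (Q.a.c.take 2) = toP' Q.a.c
  rw [toP'_take 2 Q.a.c, h1.toP', mul_zero, add_zero]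

lemma zs_nil {l : List ℂ} (h : l = []) : Zs l := by simp [h, Zs]

theorem blockLemma : BlockLemma := by
  intro g mu s ph f nu a x wp ot h h4
  have hs := shapes_nil 1 g s ph nu a x
  have hT : ∀ y, tbAt nu a x y
      = ((blkCv 1 g s ph nu a x).map toP).T.map (evalRingHom y) := fun y => by
    simp only [blkCv, hom_toP.mkCv, hom_toP.mkTb]
    simp only [mkCv, (hom_of_ringHom (evalRingHom y)).mkTb, tbAt]
    congr 1 <;> simp [toP, toP'] <;> ring
  have hok : ((blkCv 1 g s ph nu a x).map toP).ok := by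
    simp only [blkCv, hom_toP.mkCv, hom_toP.mkTb]
    exact ⟨ok_mkTb .., by simp [mkCv, toP, toP'], rfl, rfl, rfl, rfl, rfl, rfl, rfl⟩
  have hy : ((blkCv 1 g s ph nu a x).map toP).y = X := by simp [blkCv, mkCv, Cv.map, toP, toP']
  have hg : ((blkCv 1 g s ph nu a x).map toP).g = fun i => C (g i) := by
    simp [blkCv, mkCv, Cv.map, toP, toP']
  have hl : ((blkCv 1 g s ph nu a x).map toP).l = C (ph - x 26 * s) + X * C (x 26) := by
    simp [blkCv, mkCv, Cv.map, toP, toP']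
  have hcab : ((blkCv 1 g s ph nu a x).map toP).T.cab ≠ 0 := by
    simp only [blkCv, hom_toP.mkCv, hom_toP.mkTb]
    simp only [mkCv, mkTb, toP, toP']
    intro h0
    have b0 := congrArg (eval 0) h0
    have b1 := congrArg (eval 1) h0
    simp only [eval_sub, eval_add, eval_mul, eval_C, eval_X, eval_zero] at b0 b1
    exact one_ne_zero (α := ℂ) (by linear_combination b1 - b0)
  simp only [block, hT, evAt_toP] at h
  generalize blkCv 1 g s ph nu a x = B at *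
  simp only [shapes, List.forall_mem_cons] at hs
  obtain ⟨s1, s2, s3, s4, s5, s6, s7, -⟩ := hs
  simp only [eqCv, Zs.append, hom_toP.vadd, hom_toP.vsub] at h
  obtain ⟨⟨q1, q2, a1, a2, a3, a4, a5, a6, a7⟩, hi, hj, h⟩ := h
  have hq : (trunc B.Q).map toP = (B.map toP).Q := (trunc_toP q1 q2).trans (hom_toP.cQ B)
  have e1 := hom_toP.cR1 B (trunc B.Q)
  have e2 := hom_toP.cR2 B (trunc B.Q)
  have eW := hom_toP.cW B (trunc B.Q)
  have eE := hom_toP.cE B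
  rw [hq] at e1 e2 eW
  refine block_core hok hy hg hl hcab ?_ ?_ ?_ ?_ (e2 ▸ a5.flat) (hom_toP.cR3 B ▸ a6.flat)
    ?_ ?_ hi.v4 hj.v4 ?_ ?_ ?_ ?_ h h4
  · rw [← e1]; exact a1.toP'
  · rw [← e1]; exact a2.toP'
  · rw [← e1]; exact lin_of_take a3 s1
  · rw [← e1]; exact lin_of_take a4 s2
  · rw [← eW]; exact lin_of_drop (zs_nil s3)
  · rw [← eW]; exact lin_of_drop (zs_nil s4)
  · rw [← eE]; exact lin_of_drop a7
  · rw [← eE]; exact lin_of_drop (zs_nil s5)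
  · rw [← eE]; exact lin_of_drop (zs_nil s6)
  · rw [← eE]; exact lin_of_drop (zs_nil s7)

end Pool.Agent.P.MP_7ebcb6_ag.G8
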