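import Pool.Agent.P.MP_7ebcb6_ag.G8.FLoc

/-! The zeros of the form `ft` on a plane section. -/

open scoped WithZero IntermediateField
open WithZero

namespace Pool.Agent.P.MP_7ebcb6_ag.G8

noncomputable section

section loc

variable {K : Type} [Field K] [Algebra ℂ K]

/-- The function `ft / c3` at the point `(u, s u, 1, V)`. -/
def fh (g : Fin 6 → ℂ) (f : Fin 17 → ℂ) (s : ℂ) (V u : K) : K :=
  ft (fun i => algebraMap ℂ K (g i)) (fun i => algebraMap ℂ K (f i)) u (algebraMap ℂ K s * u) 1 V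
    / c3 u (algebraMap ℂ K s * u) 1 V

/-- The eight points `(U k, s U k, 1, V)` of the plane section on a line through its centre. -/
structure Sec (g : Fin 6 → ℂ) (f : Fin 17 → ℂ) (s ph : ℂ) (V : K) (U : Fin 8 → K) : Prop where
  h4 : f4 g s ≠ 0
  split : ∀ x, phi (fun i => algebraMap ℂ K (g i)) (algebraMap ℂ K ph * x) x
    (algebraMap ℂ K s * x) 1 V
      = f4 (fun i => algebraMap ℂ K (g i)) (algebraMap ℂ K s) ^ 2 * ∏ k, (x - U k)
  U_ne : ∀ k, U k ≠ 0
  ft_ne : ∀ k, ft (fun i => algebraMap ℂ K (g i)) (fun i => algebraMap ℂ K (f i)) (U k)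
    (algebraMap ℂ K s * U k) 1 V ≠ 0

variable {g : Fin 6 → ℂ} {f : Fin 17 → ℂ} {s ph : ℂ} {V : K} {U : Fin 8 → K}
  (H : Sec g f s ph V U)
include H

lemma Sec.root (k : Fin 8) : phi (fun i => algebraMap ℂ K (g i)) (algebraMap ℂ K ph * U k) (U k)
    (algebraMap ℂ K s * U k) 1 V = 0 := by
  rw [H.split, Finset.prod_eq_zero (Finset.mem_univ k) (sub_self _), mul_zero]

lemma Sec.c3_ne (k : Fin 8) : c3 (U k) (algebraMap ℂ K s * U k) 1 V ≠ 0 := fun h =>
  H.ft_ne k (ft_eq_zero _ _ (H.root k) h)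

lemma Sec.fh_ne (k : Fin 8) : fh g f s V (U k) ≠ 0 := div_ne_zero (H.ft_ne k) (H.c3_ne k)

variable {w : Valuation K ℤᵐ⁰} [w.IsTrivialOn ℂ]

lemma Sec.U_le {t : K} (h1 : w 1 ≤ w t) (hV : w V ≤ w t) (k : Fin 8) : w (U k) ≤ w t :=
  not_lt.mp fun h => H.h4 (not_tends_zero (H.U_ne k) (H.root k) (Tends.const ph) (Tends.const s)
    (h1.trans_lt h) (hV.trans_lt h))

lemma Sec.fh_ge {t : K} (ht : t ≠ 0) (h1 : w 1 ≤ w t) (hV : w V ≤ w t) (k : Fin 8) :
    5 * ord w t ≤ ord w (fh g f s V (U k)) := by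
  have hU := H.U_le h1 hV k
  have hc : ∀ c : ℂ, w (algebraMap ℂ K c * U k) ≤ w t := fun c => by
    rw [map_mul]; exact (mul_le_of_le_one_left' (Tends.const c).le_one).trans hU
  have := ord_le_ord (H.fh_ne k)
    (fh_le g f ht (hc ph) hU (hc s) h1 hV (H.U_ne k) (H.c3_ne k) (H.root k))
  rwa [← show ∏ _i : Fin 5, t = t ^ 5 by simp, ord_prod w _ fun _ _ => ht, Finset.sum_const,
    Finset.card_univ, Fintype.card_fin, nsmul_eq_mul] at this

open Classical in
lemma Sec.near {m0 n0 V0 : ℂ} (hm : m0 ≠ 0) (h1 : phi g ph 1 s m0 n0 = 0)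
    (h2 : c3 1 s m0 n0 ≠ 0) (h3 : ft g f 1 s m0 n0 = 0) (hV0 : V0 = n0 / m0) (hV : Tends w V V0) :
    ord w (V - algebraMap ℂ K V0)
      ≤ ∑ k ∈ Finset.univ.filter fun k => Tends w (U k) m0⁻¹, ord w (fh g f s V (U k)) := by
  rw [← ord_prod w _ fun k _ => H.fh_ne k]
  refine ord_le_ord (Finset.prod_ne_zero_iff.mpr fun k _ => H.fh_ne k) ?_
  have e1 := phi_smul g m0⁻¹ ph 1 s m0 n0
  have e2 := c3_smul m0⁻¹ 1 s m0 n0
  have e3 := ft_smul g m0⁻¹ 1 s m0 n0 f
  rw [mul_one, inv_mul_cancel₀ hm, mul_comm _ s, ← div_eq_inv_mul n0, ← hV0] at e1 e2 e3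
  rw [h1, mul_zero, mul_comm] at e1
  rw [h3, mul_zero] at e3
  have e2' : c3 m0⁻¹ (s * m0⁻¹) 1 V0 ≠ 0 := by
    rw [e2]; exact mul_ne_zero (pow_ne_zero _ (inv_ne_zero hm)) h2
  have hU : ∀ k, w (U k) ≤ 1 := fun k => by
    simpa using H.U_le (t := 1) le_rfl (by simpa using hV.le_one) k
  have hF : ∀ k, Tends w (U k) m0⁻¹ → ∀ δ, w (U k - algebraMap ℂ K m0⁻¹) ≤ δ →
      w (V - algebraMap ℂ K V0) ≤ δ → w (fh g f s V (U k)) ≤ δ := by
    intro k hk δ h4 h5
    rw [fh, map_div₀, (tends_c3 hk ((Tends.const s).mul hk) Tends.one hV).eq_one e2', div_one]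
    have := lip_ft g f ⟨h4, hU k⟩ ((Near.const s).mul ⟨h4, hU k⟩) Near.one ⟨h5, hV.le_one⟩
    rwa [e3, map_zero, sub_zero] at this
  rw [map_prod]
  by_cases hex : ∃ k, Tends w (U k) m0⁻¹ ∧
      w (U k - algebraMap ℂ K m0⁻¹) ≤ w (V - algebraMap ℂ K V0)
  · obtain ⟨k, hk, hk'⟩ := hex
    rw [← Finset.mul_prod_erase _ _ (Finset.mem_filter.mpr ⟨Finset.mem_univ k, hk⟩)]
    refine (mul_le_of_le_one_right' (Finset.prod_le_one' fun j hj => ?_)).trans
      (hF k hk _ hk' le_rfl)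
    have hj' := (Finset.mem_filter.mp (Finset.mem_of_mem_erase hj)).2
    exact hF j hj' 1 (le_of_lt hj') (le_of_lt hV)
  · have h7 := lip_phi (n0 := V0) g ((Near.const ph).mul (Near.const m0⁻¹)) (Near.const m0⁻¹)
      ((Near.const s).mul (Near.const m0⁻¹)) Near.one ⟨le_rfl, hV.le_one⟩
    rw [e1, map_zero, sub_zero, H.split, map_mul, map_pow,
      (tends_f4 g (Tends.const s)).eq_one H.h4, one_pow, one_mul, map_prod,
      ← Finset.prod_filter_of_ne (p := fun k => Tends w (U k) m0⁻¹)] at h7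
    · refine le_trans (Finset.prod_le_prod' fun k hk => ?_) h7
      have hk' := (Finset.mem_filter.mp hk).2
      rw [w.map_sub_swap]
      exact hF k hk' _ le_rfl (not_le.mp fun h => hex ⟨k, hk', h⟩).le
    · intro k _ hk
      rw [Tends, w.map_sub_swap]
      exact lt_of_le_of_ne (w.map_sub_le (Tends.const _).le_one (hU k)) hk

omit [w.IsTrivialOn ℂ] in
open Classical in
lemma Sec.loc {M : Type} [AddCommGroup M] (hK : IsCurveField K) (hw : IsPlace w)
    {cl : ℂ → ℂ → M} (hneg : ∀ m n, cl (-m) (-n) = cl m n) {pm pn : Fin 20 → ℂ}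
    (hm : ∀ a, pm a ≠ 0) (h1 : ∀ a, phi g ph 1 s (pm a) (pn a) = 0)
    (h2 : ∀ a, c3 1 s (pm a) (pn a) ≠ 0) (h3 : ∀ a, ft g f 1 s (pm a) (pn a) = 0)
    (hinj : Function.Injective fun a => pn a / pm a) {c : Fin 8 → M}
    (hc : ∀ k a b, Tends w ((U k)⁻¹ * 1) a → Tends w ((U k)⁻¹ * V) b → c k = cl a b)
    (hc0 : ∀ k, 1 < w ((U k)⁻¹ * 1) ∨ 1 < w ((U k)⁻¹ * V) → c k = 0) :
    2 * ∑ a, ord w (V - algebraMap ℂ K (pn a / pm a)) ≤ ∑ k, ord w (fh g f s V (U k)) ∧
      (2 * ∑ a, ord w (V - algebraMap ℂ K (pn a / pm a)) = ∑ k, ord w (fh g f s V (U k)) →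
        ∑ k, (ord w (fh g f s V (U k)) - 5 * ord w (U k)) • c k
          = ∑ a, (if w (V - algebraMap ℂ K (pn a / pm a)) < 1
            then ord w (V - algebraMap ℂ K (pn a / pm a)) else 0) • (2 • cl (pm a) (pn a))) := by
  have := hw.trivialOn
  have hpos : ∀ k, 0 < w (U k) := fun k => zero_lt_iff.mpr (by simpa using H.U_ne k)
  by_cases hV : w V ≤ 1
  · obtain ⟨V0, hV0⟩ : ∃ V0, Tends w V V0 := hK.exists_residue hw V hV
    have he : ∀ k, 0 ≤ ord w (fh g f s V (U k)) := fun k => by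
      simpa [ord] using H.fh_ge (w := w) one_ne_zero le_rfl (by simpa using hV) k
    have hU : ∀ k, (ord w (fh g f s V (U k)) - 5 * ord w (U k)) • c k
        = ord w (fh g f s V (U k)) • c k := fun k => by
      rcases (H.U_le (w := w) (t := 1) le_rfl (by simpa using hV) k).lt_or_eq with h | h
      · rw [hc0 k (Or.inl (by rwa [mul_one, map_inv₀, one_lt_inv₀ (hpos k), ← w.map_one])),
          smul_zero, smul_zero]
      · rw [ord_eq_zero_of_eq_one (h.trans w.map_one), mul_zero, sub_zero]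
    have hfar : ∀ a, pn a / pm a ≠ V0 → w (V - algebraMap ℂ K (pn a / pm a)) = 1 := fun a ha =>
      (hV0.sub (Tends.const _)).eq_one (sub_ne_zero.mpr ha.symm)
    simp only [hU]
    by_cases hex : ∃ a, pn a / pm a = V0
    · obtain ⟨a, rfl⟩ := hex
      have hfar' : ∀ b, b ≠ a → w (V - algebraMap ℂ K (pn b / pm b)) = 1 := fun b hb =>
        hfar b fun h => hb (hinj h)
      rw [Finset.sum_eq_single a (fun b _ hb => ord_eq_zero_of_eq_one (hfar' b hb))
        (fun h => absurd (Finset.mem_univ a) h), Finset.sum_eq_single a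
        (f := fun a => (if w (V - algebraMap ℂ K (pn a / pm a)) < 1
          then ord w (V - algebraMap ℂ K (pn a / pm a)) else 0) • (2 • cl (pm a) (pn a)))
        (fun b _ hb => by rw [if_neg (hfar' b hb).not_lt, zero_smul])
        (fun h => absurd (Finset.mem_univ a) h),
        if_pos (show w (V - algebraMap ℂ K (pn a / pm a)) < 1 from hV0)]
      have hA := H.near (hm a) (h1 a) (h2 a) (h3 a) rfl hV0
      have hB := H.near (neg_ne_zero.mpr (hm a)) ((phi_neg _ _ _ _ _ _).trans (h1 a))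
        (by rw [c3_neg]; exact neg_ne_zero.mpr (h2 a)) ((ft_neg _ _ _ _ _ _).trans (h3 a))
        (neg_div_neg_eq _ _).symm hV0
      have hdisj : Disjoint (Finset.univ.filter fun k => Tends w (U k) (pm a)⁻¹)
          (Finset.univ.filter fun k => Tends w (U k) (-pm a)⁻¹) := by
        rw [Finset.disjoint_filter]
        intro k _ h h'
        have := inv_injective (h.unique h')
        exact hm a (by linear_combination this / 2)
      have hsplit := Finset.sum_add_sum_compl ((Finset.univ.filter fun k => Tends w (U k) (pm a)⁻¹)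
        ∪ (Finset.univ.filter fun k => Tends w (U k) (-pm a)⁻¹))
        fun k => ord w (fh g f s V (U k))
      rw [Finset.sum_union hdisj] at hsplit
      have hrest := Finset.sum_nonneg (s := ((Finset.univ.filter fun k => Tends w (U k) (pm a)⁻¹)
        ∪ (Finset.univ.filter fun k => Tends w (U k) (-pm a)⁻¹))ᶜ) fun k _ => he k
      refine ⟨by omega, fun heq => ?_⟩
      have hz := (Finset.sum_eq_zero_iff_of_nonneg fun k _ => he k).mp
        (le_antisymm (by omega) hrest)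
      rw [two_nsmul, ← two_zsmul, smul_smul, mul_comm, heq, Finset.sum_smul]
      refine Finset.sum_congr rfl fun k _ => ?_
      have key : ∀ m0 n0, m0 ≠ 0 → n0 / m0 = pn a / pm a → Tends w (U k) m0⁻¹ →
          c k = cl m0 n0 := fun m0 n0 h0 h5 h6 => by
        have h7 := h6.inv (inv_ne_zero h0)
        refine hc k _ _ ((h7.mul Tends.one).of_eq_right (by simp))
          ((h7.mul hV0).of_eq_right ?_)
        rw [← h5]; field_simp
      by_cases hk : Tends w (U k) (pm a)⁻¹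
      · rw [key _ _ (hm a) rfl hk]
      by_cases hk' : Tends w (U k) (-pm a)⁻¹
      · rw [key _ _ (neg_ne_zero.mpr (hm a)) (neg_div_neg_eq _ _) hk', hneg]
      rw [hz k (by simp [-inv_neg, hk, hk']), zero_smul, zero_smul]
    · have hfar' := fun a => hfar a fun h => hex ⟨a, h⟩
      rw [Finset.sum_eq_zero fun a _ => ord_eq_zero_of_eq_one (hfar' a), mul_zero]
      refine ⟨Finset.sum_nonneg fun k _ => he k, fun heq => ?_⟩
      have hz := (Finset.sum_eq_zero_iff_of_nonneg fun k _ => he k).mp heq.symm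
      rw [Finset.sum_eq_zero fun k hk => by rw [hz k hk, zero_smul],
        Finset.sum_eq_zero fun a _ => by rw [if_neg (hfar' a).not_lt, zero_smul]]
  · have hV := not_le.mp hV
    have hV0 : V ≠ 0 := fun h => by rw [h, map_zero] at hV; exact not_lt_zero hV
    have he := H.fh_ge (w := w) hV0 (w.map_one.trans_le hV.le) le_rfl
    have hfar : ∀ c : ℂ, w (V - algebraMap ℂ K c) = w V := fun c =>
      w.map_sub_eq_of_lt_left ((Tends.const c).le_one.trans_lt hV)
    have h5 : 2 * ∑ a, ord w (V - algebraMap ℂ K (pn a / pm a)) = ∑ _k : Fin 8, 5 * ord w V := by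
      simp only [fun a => ord_congr (hfar (pn a / pm a)), Finset.sum_const, Finset.card_univ,
        Fintype.card_fin, nsmul_eq_mul]
      push_cast
      ring
    rw [h5]
    refine ⟨Finset.sum_le_sum fun k _ => he k, fun heq => ?_⟩
    have hz := (Finset.sum_eq_sum_iff_of_le fun k _ => he k).mp heq
    rw [Finset.sum_eq_zero fun k hk => ?_,
      Finset.sum_eq_zero fun a _ => by rw [if_neg (by rw [hfar]; exact hV.not_gt), zero_smul]]
    rcases (H.U_le (w := w) (w.map_one.trans_le hV.le) le_rfl k).lt_or_eq with h | h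
    · rw [hc0 k (Or.inr (by rwa [map_mul, map_inv₀, one_lt_inv_mul₀ (hpos k)])), smul_zero]
    · rw [← hz k hk, ord_congr h, sub_self, zero_smul]

end loc

lemma Sec.descend {g : Fin 6 → ℂ} {f : Fin 17 → ℂ} {s ph : ℂ}
    {K : IntermediateField (RatFunc ℂ) Om} {V : K} {U : Fin 8 → K}
    (H : Sec g f s ph (V : Om) fun k => (U k : Om)) : Sec g f s ph V U := by
  have hH := hom_of_ringHom (algebraMap K Om)
  refine ⟨H.h4, fun x => (algebraMap K Om).injective ?_, fun k h => H.U_ne k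
    (congrArg Subtype.val h), fun k h => H.ft_ne k ?_⟩
  · rw [hH.phi, map_mul _ (_ ^ 2), map_prod, map_pow]
    refine (H.split x).trans ?_
    simp only [f4, map_add, map_sub, map_mul, map_pow]
    rfl
  · have := congrArg (algebraMap K Om) h
    rwa [hH.ft, map_zero] at this

lemma exists_sec {g : Fin 6 → ℂ} {f : Fin 17 → ℂ} {s ph v0 : ℂ} (h4 : f4 g s ≠ 0)
    (hv : ∀ U : ℂ, phi g (ph * U) U (s * U) 1 v0 = 0 → ft g f U (s * U) 1 v0 ≠ 0) :
    ∃ U : Fin 8 → Om, Sec g f s ph lam U := by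
  obtain ⟨sp, hsp⟩ := nonConst_lam.exists_sp v0
  obtain ⟨U, hU⟩ := phi_split (fun i => algebraMap ℂ Om (g i)) (algebraMap ℂ Om ph)
    (algebraMap ℂ Om s) 1 lam ((tends_f4 g (Tends.const (v := sp.v) s)).ne_zero h4)
  have hroot : ∀ k, phi (fun i => algebraMap ℂ Om (g i)) (algebraMap ℂ Om ph * U k) (U k)
      (algebraMap ℂ Om s * U k) 1 lam = 0 := fun k => by
    rw [hU, Finset.prod_eq_zero (Finset.mem_univ k) (sub_self _), mul_zero]
  have h0 : ∀ k, U k ≠ 0 := fun k h => by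
    have h1 := hroot k
    rw [h, mul_zero, mul_zero, phi_top, pow_eq_zero_iff four_ne_zero] at h1
    obtain ⟨sp', hsp'⟩ := nonConst_lam.exists_sp 0
    simpa using ((Tends.one.pow 2).sub (hsp'.pow 2)).eq_zero h1
  refine ⟨U, h4, hU, h0, fun k => ?_⟩
  obtain ⟨u0, hu0⟩ := sp.exists_tends (a := U k) (not_lt.mp fun h => h4 (not_tends_zero (h0 k)
    (hroot k) (Tends.const ph) (Tends.const s) (sp.v.map_one.trans_lt h) (hsp.le_one.trans_lt h)))
  exact (tends_ft g f hu0 ((Tends.const s).mul hu0) Tends.one hsp).ne_zero (hv u0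
    ((tends_phi g ((Tends.const ph).mul hu0) hu0 ((Tends.const s).mul hu0) Tends.one hsp).eq_zero
      (hroot k)))

theorem fLemma : FLemma := by
  classical
  intro g mu s ph v0 f M _ _ G pm pn h4 hm h1 h2 h3 hinj hv
  obtain ⟨U, H⟩ := exists_sec h4 hv
  have hfam := fun k => G.fam (algebraMap ℂ Om s) ((U k)⁻¹ * 1) ((U k)⁻¹ * lam) (by
    have h5 := phi_smul (fun i => algebraMap ℂ Om (g i)) (U k)⁻¹ (algebraMap ℂ Om ph * U k) (U k)
      (algebraMap ℂ Om s * U k) 1 lam
    rw [H.root, mul_zero, mul_comm (algebraMap ℂ Om ph), mul_comm (algebraMap ℂ Om s),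
      inv_mul_cancel_left₀ (H.U_ne k), inv_mul_cancel_left₀ (H.U_ne k),
      inv_mul_cancel₀ (H.U_ne k)] at h5
    rwa [← map_mul, ← map_add, sub_add_cancel])
  choose γ hγ hγ1 hγ2 using hfam
  obtain ⟨K, hfin, hT, γK, hK1, hK2⟩ := isFam_pack hγ (insert lam (Finset.univ.image U))
  have hK := isCurveField_finK K
  let V : K := ⟨lam, hT _ (by simp)⟩
  let U' : Fin 8 → K := fun k => ⟨U k, hT _ (by simp)⟩
  have H' : Sec g f s ph V U' := Sec.descend H
  have htr : ∀ c : ℂ, Transcendental ℂ (V - algebraMap ℂ K c) := fun c =>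
    transcendental_of_notMem_range fun d hd => nonConst_lam (d + c) (by
      rw [map_add]; exact sub_eq_iff_eq_add.mp (congrArg Subtype.val hd))
  have hne : ∀ c : ℂ, V - algebraMap ℂ K c ≠ 0 := fun c h => htr c (h ▸ isAlgebraic_zero)
  obtain ⟨S, hS, hS0, hS1⟩ := exists_support hK (ι := Fin 20 ⊕ Fin 8 ⊕ Fin 8)
    (f := Sum.elim (fun a => V - algebraMap ℂ K (pn a / pm a))
      (Sum.elim (fun k => fh g f s V (U' k)) U')) (by
      rintro (a | k | k)
      exacts [hne _, H'.fh_ne k, H'.U_ne k])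
  choose sp hsp using fun w (hw : w ∈ S) => exists_sp_lies K (hS w hw)
  have hloc := fun w (hw : w ∈ S) =>
    H'.loc hK (hS w hw) (G.cl_neg s) hm h1 h2 h3 hinj (c := fun k => γK k w)
      (fun k a b ha hb => (hK1 k _ w (hS w hw) (hsp w hw)).symm.trans
        (hγ1 k _ s a b (Tends.const s) ((hsp w hw).tends ha) ((hsp w hw).tends hb)))
      fun k h => (hK1 k _ w (hS w hw) (hsp w hw)).symm.trans
        (hγ2 k _ (Or.inr (h.imp (hsp w hw).one_lt (hsp w hw).one_lt)))
  have heq := (Finset.sum_eq_sum_iff_of_le fun w hw => (hloc w hw).1).mp (by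
    rw [← Finset.mul_sum, Finset.sum_comm, Finset.sum_comm (s := S)]
    exact (mul_eq_zero_of_right _ (Finset.sum_eq_zero fun a _ => hS0 (Sum.inl a))).trans
      (Finset.sum_eq_zero fun k _ => hS0 (Sum.inr (Sum.inl k))).symm)
  have hord : ∀ k w, ord w (fh g f s V (U' k) / U' k ^ 5)
      = ord w (fh g f s V (U' k)) - 5 * ord w (U' k) := fun k w => by
    rw [div_eq_mul_inv, ord_mul w (H'.fh_ne k) (inv_ne_zero (pow_ne_zero _ (H'.U_ne k))), ord_inv,
      ← show ∏ _i : Fin 5, U' k = U' k ^ 5 by simp, ord_prod w _ fun _ _ => H'.U_ne k,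
      Finset.sum_const, Finset.card_univ, Fintype.card_fin, nsmul_eq_mul, sub_eq_add_neg]
    rfl
  have hsum : ∑ w ∈ S, ∑ k, (ord w (fh g f s V (U' k)) - 5 * ord w (U' k)) • γK k w = 0 := by
    rw [Finset.sum_comm]
    refine Finset.sum_eq_zero fun k _ => ?_
    simp only [← hord]
    refine hK2 k _ S (div_ne_zero (H'.fh_ne k) (pow_ne_zero _ (H'.U_ne k))) hS fun w hw hwS => ?_
    rw [hord, ord_eq_zero_of_eq_one (f := fh g f s V (U' k)) (hS1 (Sum.inr (Sum.inl k)) w hw hwS),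
      ord_eq_zero_of_eq_one (f := U' k) (hS1 (Sum.inr (Sum.inr k)) w hw hwS), mul_zero, sub_zero]
  rw [Finset.sum_congr rfl fun w hw => (hloc w hw).2 (heq w hw), Finset.sum_comm,
    Finset.sum_congr rfl fun a _ => by
      rw [← Finset.sum_smul, sum_ite_ord hK (htr _) hS (hS1 (Sum.inl a)), adjoin_sub_const,
        natCast_zsmul], ← Finset.smul_sum, ← Finset.smul_sum] at hsum
  have := hK.finite (htr 0)
  rw [adjoin_sub_const] at this
  exact two_nsmul_eq_zero.mp ((nsmul_eq_zero_iff_right Module.finrank_pos.ne').mp hsum)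

end

end Pool.Agent.P.MP_7ebcb6_ag.G8
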