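import Mathlib

/-! Algebraically independent complex numbers. -/

namespace Pool.Agent.P.MP_7ebcb6_ag.G8

open Set

lemma indep_of_algebraic {n : ℕ} {z y : Fin n → ℂ} (hz : AlgebraicIndependent ℚ z)
    (h : ∀ i, IsAlgebraic (Algebra.adjoin ℚ (range y)) (z i)) : AlgebraicIndependent ℚ y := by
  classical
  let M := AlgebraicIndependent.matroid ℚ ℂ
  have hI : M.Indep (range z) := AlgebraicIndependent.matroid_indep_iff.mpr hz.to_subtype_range
  obtain ⟨J, hJ⟩ := M.exists_isBasis (range y)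
  have hsub : range z ⊆ M.closure J := by
    rw [hJ.closure_eq_closure, AlgebraicIndependent.matroid_closure_eq]
    rintro _ ⟨i, rfl⟩
    exact h i
  have h1 : (range z).encard = n := by
    rw [← image_univ, hz.injective.encard_image, encard_univ]; simp
  have h2 : (n : ℕ∞) ≤ J.encard := by
    rw [← h1, ← hI.eRk_eq_encard, ← hJ.indep.eRk_eq_encard, ← M.eRk_closure_eq J]
    exact M.eRk_mono hsub
  have h3 : (range y).encard ≤ n := by
    rw [← image_univ]
    exact (encard_image_le _ _).trans (by rw [encard_univ]; simp)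
  have hJe : J = range y := (finite_range y).subset hJ.subset |>.eq_of_subset_of_encard_le
    hJ.subset (h3.trans h2)
  have hinj : Function.Injective y := by
    rw [← injOn_univ]
    refine finite_univ.injOn_of_encard_image_eq (le_antisymm (encard_image_le _ _) ?_)
    rw [image_univ, ← hJe, encard_univ]
    simpa using h2
  have := AlgebraicIndependent.matroid_indep_iff.mp hJ.indep
  rw [hJe] at this
  exact (algebraicIndependent_subtype_range hinj).mp this

lemma exists_indep (n : ℕ) : ∃ z : Fin n → ℂ, AlgebraicIndependent ℚ z := by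
  obtain ⟨ι, x, hx⟩ := exists_isTranscendenceBasis' ℚ ℂ
  have hc : Cardinal.mk ℂ = Cardinal.mk ι :=
    IsAlgClosed.cardinal_eq_cardinal_transcendence_basis_of_aleph0_lt' x hx (by simp)
      (by rw [Cardinal.mk_complex]; exact Cardinal.aleph0_lt_continuum)
  have : Infinite ι := by
    rw [Cardinal.infinite_iff, ← hc, Cardinal.mk_complex]
    exact Cardinal.aleph0_le_continuum
  exact ⟨_, hx.1.comp (fun i : Fin n => Infinite.natEmbedding ι i)
    fun i j h => Fin.ext ((Infinite.natEmbedding ι).injective h)⟩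

lemma alg_of_mul {S : Subalgebra ℚ ℂ} {x a b : ℂ} (ha : a ∈ S) (hb : b ∈ S) (h0 : a ≠ 0)
    (h : a * x = b) : IsAlgebraic S x := by
  refine ⟨Polynomial.C ⟨a, ha⟩ * Polynomial.X - Polynomial.C ⟨b, hb⟩, fun e => h0 ?_, ?_⟩
  · have := congrArg (fun p => Polynomial.coeff p 1) e
    simpa [Subtype.ext_iff] using this
  · simp [sub_eq_zero, ← h]

/-- Passing from `(w, V)` coordinates to `(m, n)` coordinates. -/
lemma indep_points {z : Fin 13 → ℂ} (hz : AlgebraicIndependent ℚ z) {m : Fin 4 → ℂ}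
    (h0 : m 0 * m 0 = z 8) (h1 : m 1 * m 1 = z 10) (h2 : m 2 * m 2 = z 11)
    (h3 : m 3 * m 3 = z 12) (hm : ∀ i, m i ≠ 0) :
    AlgebraicIndependent ℚ ![z 0, z 1, z 2, z 3, z 4, z 5, z 6, z 7, m 0, z 9 * m 0,
      (m 1)⁻¹, (m 2)⁻¹, (m 3)⁻¹] := by
  refine indep_of_algebraic hz fun i => ?_
  set y := ![z 0, z 1, z 2, z 3, z 4, z 5, z 6, z 7, m 0, z 9 * m 0, (m 1)⁻¹, (m 2)⁻¹, (m 3)⁻¹]
  have hy : ∀ i, y i ∈ Algebra.adjoin ℚ (range y) := fun i => Algebra.subset_adjoin ⟨i, rfl⟩
  have a1 : ∀ i, IsAlgebraic (Algebra.adjoin ℚ (range y)) (y i) := fun i =>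
    alg_of_mul (one_mem _) (hy i) one_ne_zero (one_mul _)
  have a2 : ∀ (a w : ℂ), a⁻¹ ∈ Algebra.adjoin ℚ (range y) → a ≠ 0 → a * a = w →
      IsAlgebraic (Algebra.adjoin ℚ (range y)) w := fun a w ha h0 hw =>
    alg_of_mul (mul_mem ha ha) (one_mem _) (by simpa using h0) (by rw [← hw]; field_simp)
  fin_cases i
  · exact a1 0
  · exact a1 1
  · exact a1 2
  · exact a1 3
  · exact a1 4
  · exact a1 5
  · exact a1 6
  · exact a1 7
  · exact alg_of_mul (one_mem _) (mul_mem (hy 8) (hy 8)) one_ne_zero ((one_mul _).trans h0.symm)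
  · exact alg_of_mul (hy 8) (hy 9) (hm 0) (mul_comm _ _)
  · exact a2 _ _ (hy 10) (hm 1) h1
  · exact a2 _ _ (hy 11) (hm 2) h2
  · exact a2 _ _ (hy 12) (hm 3) h3

end Pool.Agent.P.MP_7ebcb6_ag.G8
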