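import Pool.Agent.P.MP_7ebcb6_ag.G8.Curve

/-! Coefficient lists as polynomials, quartics and their roots. -/

namespace Pool.Agent.P.MP_7ebcb6_ag.G8

open Polynomial

section ring

variable {K : Type} [CommRing K]

noncomputable def toP' : List K → K[X]
  | [] => 0
  | a :: p => C a + X * toP' p

lemma toP'_padd : ∀ p q : List K, toP' (padd p q) = toP' p + toP' q
  | [], _ => by simp [padd, toP']
  | _ :: _, [] => by simp [padd, toP']
  | a :: p, b :: q => by simp only [padd, toP', toP'_padd p q, map_add]; ring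

lemma toP'_neg : ∀ p : List K, toP' (p.map fun b => -b) = -toP' p
  | [] => by simp [toP']
  | a :: p => by simp only [List.map_cons, toP', toP'_neg p, map_neg]; ring

lemma toP'_psub : ∀ p q : List K, toP' (psub p q) = toP' p - toP' q
  | [], q => by simp [psub, toP', toP'_neg]
  | _ :: _, [] => by simp [psub, toP']
  | a :: p, b :: q => by simp only [psub, toP', toP'_psub p q, map_sub]; ring

lemma toP'_sm (a : K) : ∀ p : List K, toP' (p.map fun b => a * b) = C a * toP' p
  | [] => by simp [toP']
  | b :: p => by simp only [List.map_cons, toP', toP'_sm a p, map_mul]; ring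

lemma toP'_pmul : ∀ p q : List K, toP' (pmul p q) = toP' p * toP' q
  | [], _ => by simp [pmul, toP']
  | _ :: _, [] => by simp [pmul, toP']
  | a :: p, b :: q => by
    simp only [pmul, toP'_padd, toP'_sm, toP'_pmul p (b :: q), map_mul, toP']; ring

noncomputable def toP (p : Pl K) : K[X] := toP' p.c

lemma hom_toP : Hom (toP : Pl K → K[X]) :=
  ⟨fun p q => toP'_padd p.c q.c, fun p q => toP'_pmul p.c q.c, fun p => toP'_neg p.c,
    fun p q => toP'_psub p.c q.c⟩

lemma eval_toP' (x : K) : ∀ p : List K, (toP' p).eval x = pev (1 - 1) x p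
  | [] => by simp [toP', pev]
  | [a] => by simp [toP', pev]
  | a :: b :: p => by
    rw [toP', pev, ← eval_toP' x (b :: p)]; simp

/-- All entries vanish. -/
def Zs (l : List K) : Prop := ∀ e ∈ l, e = 0

lemma Zs.append {l l' : List K} : Zs (l ++ l') ↔ Zs l ∧ Zs l' := List.forall_mem_append

lemma Zs.toP' : ∀ {l : List K}, Zs l → toP' l = 0
  | [], _ => rfl
  | a :: p, h => by
    rw [G8.toP', h a (by simp), Zs.toP' fun e he => h e (by simp [he])]; simp

lemma Zs.v4 {v : V4 K} (h : Zs v.l) : v = V4.z :=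
  V4.ext (h _ (by simp [V4.l])) (h _ (by simp [V4.l])) (h _ (by simp [V4.l]))
    (h _ (by simp [V4.l]))

lemma Zs.flat {v : V4 (Pl K)} (h : Zs (flat v)) : v.map toP = V4.z := by
  simp only [G8.flat, Zs.append] at h
  exact V4.ext h.1.toP' h.2.1.toP' h.2.2.1.toP' h.2.2.2.toP'

lemma toP'_take (n : ℕ) : ∀ l : List K, toP' l = toP' (l.take n) + X ^ n * toP' (l.drop n) := by
  induction n with
  | zero => intro l; simp [toP']
  | succ n ih =>
    rintro (_ | ⟨a, l⟩)
    · simp [toP']
    · simp only [List.take_succ_cons, List.drop_succ_cons, toP']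
      rw [ih l]; ring

lemma lin_of_drop {l : List K} (h : Zs (l.drop 2)) : ∃ a b : K, toP' l = C a + X * C b := by
  rw [toP'_take 2 l, h.toP']
  match l with
  | [] => exact ⟨0, 0, by simp [toP']⟩
  | [a] => exact ⟨a, 0, by simp [toP']⟩
  | a :: b :: l => exact ⟨a, b, by simp [toP']⟩

lemma lin_of_take {l : List K} (h0 : Zs (l.take 1)) (h : l.drop 2 = []) :
    ∃ b : K, toP' l = X * C b := by
  rw [toP'_take 2 l, h]
  match l with
  | [] => exact ⟨0, by simp [toP']⟩
  | [a] => exact ⟨0, by simp [toP', h0 a (by simp)]⟩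
  | a :: b :: l => exact ⟨b, by simp [toP', h0 a (by simp)]⟩

lemma eq_zero_of_sq {b c d : K} (h : X * (X * C b) = C c + X * C d) : b = 0 := by
  have := congrArg (fun p => coeff p 2) h
  simpa [coeff_X_mul, coeff_C, coeff_X] using this

/-- The monic quartic with lower coefficients `k`. -/
def quart (k : V4 K) (x : K) : K := x ^ 4 + k.d * x ^ 3 + k.c * x ^ 2 + k.b * x + k.a

lemma quart_wpol (a b c d x : K) :
    quart (wpol a b c d) x = (x - a) * (x - b) * (x - c) * (x - d) := by
  simp only [quart, wpol]; ring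

/-- The value at a root of the modulus. -/
def qe (x : K) (v : V4 K) : K := v.a + v.b * x + v.c * x ^ 2 + v.d * x ^ 3

variable {k : V4 K} {x : K} (u v : V4 K) (a : K)

lemma qe_add : qe x (u + v) = qe x u + qe x v := by simp only [qe, vadd_def]; ring
lemma qe_sub : qe x (u - v) = qe x u - qe x v := by simp only [qe, vsub_def]; ring
lemma qe_sm : qe x (V4.sm a v) = a * qe x v := by simp only [qe, V4.sm]; ring
lemma qe_ac : qe x (v.ac a) = qe x v + a := by simp only [qe, V4.ac]; ring
lemma qe_sc : qe x (v.sc a) = qe x v - a := by simp only [qe, V4.sc]; ring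
lemma qe_z : qe x V4.z = 0 := by simp [qe, V4.z]
lemma qe_qx (h : quart k x = 0) : qe x (qx k v) = x * qe x v := by
  simp only [qe, qx, quart] at h ⊢; linear_combination -v.d * h
lemma qe_qmul (h : quart k x = 0) : qe x (qmul k u v) = qe x u * qe x v := by
  simp only [qmul, qe_add, qe_qx _ h, qe_sm]; simp only [qe]; ring
lemma qe_diff (h : quart k x = 0) : qe x (u - k) = quart u x := by
  simp only [qe, quart, vsub_def] at h ⊢; linear_combination -h
lemma qe_qprod (h : quart k x = 0) : ∀ l : List (V4 K),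
    qe x (qprod k u l) = qe x u * (l.map fun p => quart p x).prod
  | [] => by simp [qprod]
  | p :: l => by simp only [qprod, qe_qmul _ _ h, qe_qprod h l, qe_diff _ h, List.map_cons,
      List.prod_cons]; ring

end ring

lemma exists_wpol {K : Type} [Field K] [IsAlgClosed K] [CharZero K] (k : V4 K) :
    ∃ r : Fin 4 → K, k = wpol (r 0) (r 1) (r 2) (r 3) := by
  let p : K[X] := X ^ 4 + C k.d * X ^ 3 + C k.c * X ^ 2 + C k.b * X + C k.a
  have hd : p.natDegree = 4 := by
    simp only [p]
    compute_degree!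
  have hm : p.leadingCoeff = 1 := by
    rw [leadingCoeff, hd]
    simp [p, coeff_X, coeff_C]
  have hs := IsAlgClosed.splits p
  obtain ⟨a, b, c, d, hr⟩ := Multiset.card_eq_four.mp (hs.natDegree_eq_card_roots.symm.trans hd)
  have h : ∀ x, quart k x = quart (wpol a b c d) x := fun x => by
    have e1 : p.eval x = quart k x := by simp [p, quart]
    rw [← e1, hs.eval_eq_prod_roots, hm, hr, quart_wpol]
    simp only [Multiset.insert_eq_cons, Multiset.map_cons, Multiset.map_singleton,
      Multiset.prod_cons, Multiset.prod_singleton]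
    ring
  refine ⟨![a, b, c, d], ?_⟩
  change k = wpol a b c d
  generalize wpol a b c d = w at h
  have h0 := h 0
  have h1 := h 1
  have h2 := h (-1)
  have h3 := h 2
  simp only [quart] at h0 h1 h2 h3
  refine V4.ext ?_ ?_ ?_ ?_
  · linear_combination h0
  · linear_combination (h1 - h2) / 2 - (h3 + 3 * h0 - 3 * h1 - h2) / 6
  · linear_combination (h1 + h2) / 2 - h0
  · linear_combination (h3 + 3 * h0 - 3 * h1 - h2) / 6

lemma quart_root {K : Type} [CommRing K] (r : Fin 4 → K) (i : Fin 4) :
    quart (wpol (r 0) (r 1) (r 2) (r 3)) (r i) = 0 := by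
  rw [quart_wpol]
  fin_cases i <;> simp

lemma root_of_quart {K : Type} [Field K] {r : Fin 4 → K} {x : K}
    (h : quart (wpol (r 0) (r 1) (r 2) (r 3)) x = 0) : ∃ i, x = r i := by
  simp only [quart_wpol, mul_eq_zero, sub_eq_zero] at h
  rcases h with ((h | h) | h) | h <;> exact ⟨_, h⟩

lemma inj_of_deriv {K : Type} [Field K] {r : Fin 4 → K} {k : V4 K}
    (hk : k = wpol (r 0) (r 1) (r 2) (r 3))
    (h : ∀ i, qe (r i) ⟨k.b, k.c + k.c, k.d + k.d + k.d, 1 + 1 + (1 + 1)⟩ ≠ 0) :
    Function.Injective r := by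
  have h0 : (r 0 - r 1) * (r 0 - r 2) * (r 0 - r 3) ≠ 0 := by
    convert h 0 using 1; simp only [hk, qe, wpol]; ring
  have h1 : (r 1 - r 0) * (r 1 - r 2) * (r 1 - r 3) ≠ 0 := by
    convert h 1 using 1; simp only [hk, qe, wpol]; ring
  have h2 : (r 2 - r 0) * (r 2 - r 1) * (r 2 - r 3) ≠ 0 := by
    convert h 2 using 1; simp only [hk, qe, wpol]; ring
  simp only [ne_eq, mul_eq_zero, sub_eq_zero, not_or] at h0 h1 h2
  intro i j hij
  fin_cases i <;> fin_cases j <;> simp_all

end Pool.Agent.P.MP_7ebcb6_ag.G8
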