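import Pool.Agent.P.MP_7ebcb6_ag.G8.Stmts
import Pool.Agent.P.MP_7ebcb6_ag.G8.Poly

/-! What one block of the system gives. -/

namespace Pool.Agent.P.MP_7ebcb6_ag.G8

def BlockLemma : Prop :=
  ∀ (g : Fin 6 → ℂ) (mu s ph : ℂ) (f : Fin 17 → ℂ) (nu a : ℂ) (x : ℕ → ℂ) (wp : V4 ℂ)
    (ot : List (V4 ℂ)), Zs (block 1 g mu s ph f nu a x wp ot) → f4 g s ≠ 0 →
    ∃ V pm : Fin 4 → ℂ, Function.Injective V ∧
      (∀ i, quart (V4.at x 35) (V i) = 0 ∧ quart wp (V i) ≠ 0 ∧ (∀ k ∈ ot, quart k (V i) ≠ 0) ∧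
        pm i ≠ 0 ∧ phi g ph 1 s (pm i) (V i * pm i) = 0 ∧ c3 1 s (pm i) (V i * pm i) ≠ 0 ∧
        ft g f 1 s (pm i) (V i * pm i) = 0) ∧
      ∀ (M : Type) [AddCommGroup M] [IsAddTorsionFree M] (G : ClassMap g (ph - mu * s) mu M),
        ∑ i, G.cl s (pm i) (V i * pm i) = 0

end Pool.Agent.P.MP_7ebcb6_ag.G8
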