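import Pool.Agent.P.MP_7ebcb6_ag.G8.Sol
import Pool.Agent.P.MP_7ebcb6_ag.G8.Stmts2
import Pool.Agent.P.MP_7ebcb6_ag.G8.Indep
import Pool.Agent.P.MP_7ebcb6_ag.G8.FLem

/-! The generic relation from the four blocks and the form on the plane section. -/

namespace Pool.Agent.P.MP_7ebcb6_ag.G8

section hat

variable {R : Type} [CommRing R] (g : Fin 6 → R) (l y m V : R)

lemma hat_c3 : c3 1 y m (V * m) = m * (mkHat 1 g y (m * m) V).c3 := by
  simp only [mkHat, c3]; ring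

lemma hat_phi : (mkHat 1 g y (m * m) V).phi 1 g l y (m * m) V = phi g l 1 y m (V * m) := by
  have h1 : x1 g 1 y m (V * m) = m * (mkHat 1 g y (m * m) V).x1 := by
    simp only [mkHat, x1, n1, n2, n3, r1, r2, r3, a11, a12, a13, a22, a23, a33, qQ]; ring
  have h2 : x2 g 1 y m (V * m) = (mkHat 1 g y (m * m) V).x2 := by
    simp only [mkHat, x2, n1, n2, n3, r1, r2, r3, a12, a13, a22, a23, a33, qQ]; ring
  have h3 : x3 g 1 y m (V * m) = (mkHat 1 g y (m * m) V).x3 := by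
    simp only [mkHat, x3, n1, n2, n3, r1, r2, r3, a12, a13, a22, a23, a33, qQ]; ring
  have h4 : g0 g 1 y m (V * m) = m * (mkHat 1 g y (m * m) V).g0 1 g y (m * m) V := by
    simp only [mkHat, Hat.g0, g0, a22, a23, a33, qQ]; ring
  have h5 : m * n1 g 1 y m (V * m) = (mkHat 1 g y (m * m) V).wn := by
    simp only [mkHat, n1, r1, a12, a13, qQ]; ring
  have h6 : n2 g 1 y m (V * m) = (mkHat 1 g y (m * m) V).n2 := by
    simp only [mkHat, n2, r2, a22, a23, a33, qQ]; ring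
  have h7 : n3 g 1 m = (mkHat 1 g y (m * m) V).n3 := by
    simp only [mkHat, n3, r3, a33]; ring
  have h8 : qQ y m (V * m) = (mkHat 1 g y (m * m) V).Q := by
    simp only [mkHat, qQ]; ring
  rw [phi, fp, hat_c3 g, h1, h2, h3, h4, h6, h7, h8, Hat.phi, ← h5]
  ring

lemma hat_ft (f : Fin 17 → R) :
    ft g f 1 y m (V * m) = m * m * (mkHat 1 g y (m * m) V).ft f (m * m) V := by
  have h1 : x1 g 1 y m (V * m) = m * (mkHat 1 g y (m * m) V).x1 := by
    simp only [mkHat, x1, n1, n2, n3, r1, r2, r3, a11, a12, a13, a22, a23, a33, qQ]; ring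
  have h3 : x3 g 1 y m (V * m) = (mkHat 1 g y (m * m) V).x3 := by
    simp only [mkHat, x3, n1, n2, n3, r1, r2, r3, a12, a13, a22, a23, a33, qQ]; ring
  rw [ft, hat_c3 g, h1, h3, Hat.ft]
  ring

lemma hc3_eq : hc3 1 y (m * m) V = c3 1 y m (V * m) * m := by
  simp only [hc3, c3]; ring

lemma f4'_eq : f4' g y = f4 g y := by simp only [f4', f4]; ring

end hat

lemma test_of_bezout {g : Fin 6 → ℂ} {s ph v : ℂ} {f : Fin 17 → ℂ} {a b : Pl ℂ}
    (h : Zs (eqTest 1 g s ph f v a b)) (hv : 1 - v * v ≠ 0) (U : ℂ)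
    (h1 : phi g (ph * U) U (s * U) 1 v = 0) : ft g f U (s * U) 1 v ≠ 0 := by
  intro h2
  have hU : U ≠ 0 := by
    rintro rfl
    rw [mul_zero, mul_zero, phi_top, pow_eq_zero_iff four_ne_zero] at h1
    exact hv (by linear_combination h1)
  have e1 := phi_smul g U⁻¹ (ph * U) U (s * U) 1 v
  have e2 := ft_smul g U⁻¹ U (s * U) 1 v f
  rw [h1] at e1
  rw [h2] at e2
  rw [mul_comm s, inv_mul_cancel_left₀ hU, inv_mul_cancel₀ hU, mul_one, mul_comm _ v] at e1 e2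
  rw [mul_zero, mul_comm ph, inv_mul_cancel_left₀ hU, ← hat_phi] at e1
  rw [mul_zero, hat_ft, mul_eq_zero, or_iff_right (by simpa using hU)] at e2
  generalize U⁻¹ * U⁻¹ = w at e1 e2
  have hE : Hom fun p : Pl ℂ => (toP p).eval w :=
    ⟨fun p q => by rw [hom_toP.add, Polynomial.eval_add],
      fun p q => by rw [hom_toP.mul, Polynomial.eval_mul],
      fun p => by rw [hom_toP.neg, Polynomial.eval_neg],
      fun p q => by rw [hom_toP.sub, Polynomial.eval_sub]⟩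
  have h3 : (fun p : Pl ℂ => (toP p).eval w) ⟨eqTest 1 g s ph f v a b⟩ = 0 := by
    simp only [toP, h.toP', Polynomial.eval_zero]
  have hc : ∀ c : ℂ, (toP ⟨[c]⟩).eval w = c := fun c => by simp [toP, toP']
  have hw : (toP ⟨[1 - 1, 1]⟩).eval w = w := by simp [toP, toP']
  simp only [eqTest] at h3
  rw [hE.sub, hE.add, hE.mul, hE.mul, hE.hphi, hE.hft, hE.mkHat] at h3
  simp only [hc, hw, e1, e2] at h3
  simp at h3

theorem genericRel_of (hb : BlockLemma) : GenericRel := by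
  obtain ⟨z, hz⟩ := exists_indep 23
  obtain ⟨P, X, hP, h⟩ := exists_solution z hz
  simp only [sys, glob, Zs.append] at h
  obtain ⟨b0, b1, b2, b3, q0, q1, q2, q3, hT, hU⟩ := h
  let W : Fin 4 → ℂ := ![P 8, P 10, P 11, P 12]
  let V : Fin 4 → ℂ := ![P 9, X 205, X 206, X 207]
  choose m hm using fun i => IsAlgClosed.exists_eq_mul_self (W i)
  have hu := hU _ (List.mem_singleton_self _)
  rw [unitEq, sub_eq_zero] at hu
  have hu0 := hu.trans_ne one_ne_zero
  simp only [ne_eq, mul_eq_zero, not_or, sub_eq_zero, f4'_eq] at hu0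
  obtain ⟨⟨⟨-, ⟨c0, c1⟩, c2, c3'⟩, h4, hv⟩, ⟨⟨d1, d2⟩, d3⟩, ⟨d4, d5⟩, d6⟩ := hu0
  have hc : ∀ i, c3 1 (P 7) (m i) (V i * m i) * m i ≠ 0 := fun i => by
    rw [← hc3_eq, ← hm]
    fin_cases i
    exacts [c0, c1, c2, c3']
  have hq : ∀ i, Zs (eqPt 1 (gOf P) (P 7) (X 204) (fOf P X) (m i * m i) (V i)) := fun i => by
    rw [← hm]
    fin_cases i
    exacts [q0, q1, q2, q3]
  have hphi : ∀ i, phi (gOf P) (X 204) 1 (P 7) (m i) (V i * m i) = 0 := fun i =>
    (hat_phi _ _ _ _ _).symm.trans (hq i _ (by simp [eqPt]))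
  have hft : ∀ i, ft (gOf P) (fOf P X) 1 (P 7) (m i) (V i * m i) = 0 := fun i => by
    rw [hat_ft, hq i _ (show Hat.ft _ _ _ _ ∈ _ by simp [eqPt]), mul_zero]
  have hVinj : Function.Injective V := by
    intro i j hij
    fin_cases i <;> fin_cases j <;> simp_all [V]
  obtain ⟨V0, m0, i0, a0, s0⟩ := hb _ _ _ _ _ _ _ _ _ _ b0 h4
  obtain ⟨V1, m1, i1, a1, s1⟩ := hb _ _ _ _ _ _ _ _ _ _ b1 h4
  obtain ⟨V2, m2, i2, a2, s2⟩ := hb _ _ _ _ _ _ _ _ _ _ b2 h4
  obtain ⟨V3, m3, i3, a3, s3⟩ := hb _ _ _ _ _ _ _ _ _ _ b3 h4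
  refine ⟨gOf P, P 6, P 7, X 204, m, fun i => V i * m i, ?_,
    fun i => ⟨hphi i, left_ne_zero_of_mul (hc i)⟩, fun M _ _ G => ?_⟩
  · have := indep_points (hz.comp (Fin.castLE (by norm_num : 13 ≤ 23)) (Fin.castLE_injective _))
      (m := m) ((hm 0).symm.trans (hP 8)) ((hm 1).symm.trans (hP 10)) ((hm 2).symm.trans (hP 11))
      ((hm 3).symm.trans (hP 12)) fun i => right_ne_zero_of_mul (hc i)
    simp only [Function.comp_apply, ← hP] at this
    exact this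
  let VV : Fin 5 → Fin 4 → ℂ := ![V0, V1, V2, V3, V]
  let mm : Fin 5 → Fin 4 → ℂ := ![m0, m1, m2, m3, m]
  let K : Fin 5 → V4 ℂ := ![V4.at X 35, V4.at X 86, V4.at X 137, V4.at X 188,
    wpol (P 9) (X 205) (X 206) (X 207)]
  have k0 : ∀ i j, quart (K i) (VV i j) = 0 := fun i j => by
    fin_cases i
    exacts [(a0 j).1, (a1 j).1, (a2 j).1, (a3 j).1, quart_root V j]
  have k1 : ∀ i i' j, i < i' → quart (K i') (VV i j) ≠ 0 := fun i i' j hi => by
    fin_cases i <;> fin_cases i' <;> try exact absurd hi (by decide)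
    exacts [(a0 j).2.2.1 _ (.head _), (a0 j).2.2.1 _ (.tail _ (.head _)),
      (a0 j).2.2.1 _ (.tail _ (.tail _ (.head _))), (a0 j).2.1, (a1 j).2.2.1 _ (.head _),
      (a1 j).2.2.1 _ (.tail _ (.head _)), (a1 j).2.1, (a2 j).2.2.1 _ (.head _), (a2 j).2.1,
      (a3 j).2.1]
  have k2 : ∀ i, Function.Injective (VV i) := fun i => by
    fin_cases i
    exacts [i0, i1, i2, i3, hVinj]
  have k3 : ∀ i j, mm i j ≠ 0 ∧ phi (gOf P) (X 204) 1 (P 7) (mm i j) (VV i j * mm i j) = 0 ∧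
      c3 1 (P 7) (mm i j) (VV i j * mm i j) ≠ 0 ∧
      ft (gOf P) (fOf P X) 1 (P 7) (mm i j) (VV i j * mm i j) = 0 := fun i j => by
    fin_cases i
    exacts [(a0 j).2.2.2, (a1 j).2.2.2, (a2 j).2.2.2, (a3 j).2.2.2,
      ⟨right_ne_zero_of_mul (hc j), hphi j, left_ne_zero_of_mul (hc j), hft j⟩]
  let e : Fin 20 ≃ Fin 5 × Fin 4 := (finProdFinEquiv (m := 5) (n := 4)).symm
  have := fLemma (gOf P) (P 6) (P 7) (X 204) (P 22) (fOf P X) M G (fun a => mm (e a).1 (e a).2)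
    (fun a => VV (e a).1 (e a).2 * mm (e a).1 (e a).2) h4 (fun a => (k3 _ _).1)
    (fun a => (k3 _ _).2.1) (fun a => (k3 _ _).2.2.1) (fun a => (k3 _ _).2.2.2)
    (fun a b hab => ?_) (test_of_bezout hT (sub_ne_zero.mpr hv))
  · rw [e.sum_comp fun p => G.cl (P 7) (mm p.1 p.2) (VV p.1 p.2 * mm p.1 p.2),
      Fintype.sum_prod_type, Fin.sum_univ_five] at this
    simp only [VV, mm, Matrix.cons_val_zero, Matrix.cons_val_one, Matrix.cons_val] at this
    rwa [s0 M G, s1 M G, s2 M G, s3 M G, zero_add, zero_add, zero_add, zero_add] at this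
  · simp only [mul_div_cancel_right₀ _ (k3 _ _).1] at hab
    refine e.injective ?_
    have h1 : (e a).1 = (e b).1 := by
      rcases lt_trichotomy (e a).1 (e b).1 with h | h | h
      · exact absurd ((congrArg _ hab).trans (k0 _ _)) (k1 _ _ _ h)
      · exact h
      · exact absurd ((congrArg _ hab.symm).trans (k0 _ _)) (k1 _ _ _ h)
    exact Prod.ext h1 (k2 _ (by rw [hab, h1]))

end Pool.Agent.P.MP_7ebcb6_ag.G8
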