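import Mathlib

/-! The octic model of the eight-dimensional family, as functions over bare ring operations,
and the configuration of curves and points that the geometric argument uses. -/

namespace Pool.Agent.P.MP_7ebcb6_ag.G8

section Ops

variable {R : Type} [Add R] [Mul R] [Neg R] [Sub R]

/-- The conic `Q`. -/
def qQ (y m n : R) : R := y * y + n * n - m * m
/-- The Cayley cubic `det S`, `S = [[m,u,y],[u,m,n],[y,n,m]]`. -/
def c3 (u y m n : R) : R := m * m * m - m * (u * u + y * y + n * n) + (u * y * n + u * y * n)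
/-- Entries of the adjugate of `S`. -/
def a11 (m n : R) : R := m * m - n * n
def a12 (u y m n : R) : R := n * y - u * m
def a13 (u y m n : R) : R := u * n - y * m
def a22 (y m : R) : R := m * m - y * y
def a23 (u y m n : R) : R := u * y - m * n
def a33 (u m : R) : R := m * m - u * u
/-- The three quadrics `r`. -/
def r1 (g : Fin 6 → R) (u y m n : R) : R := g 0 * a12 u y m n + g 1 * a13 u y m n - y * m
def r2 (g : Fin 6 → R) (u y m n : R) : R :=
  g 2 * a22 y m + g 3 * a23 u y m n + g 4 * a33 u m + m * n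
def r3 (g : Fin 6 → R) (u m : R) : R := g 5 * a33 u m
/-- The cubics `N = Q c - u r`, `c = (-n, y, 0)`. -/
def n1 (g : Fin 6 → R) (u y m n : R) : R := -(qQ y m n * n) - u * r1 g u y m n
def n2 (g : Fin 6 → R) (u y m n : R) : R := qQ y m n * y - u * r2 g u y m n
def n3 (g : Fin 6 → R) (u m : R) : R := -(u * r3 g u m)
/-- The quintics `adj S * N`; the functions `xi_i` are these divided by `c3`. -/
def x1 (g : Fin 6 → R) (u y m n : R) : R :=
  a11 m n * n1 g u y m n + a12 u y m n * n2 g u y m n + a13 u y m n * n3 g u m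
def x2 (g : Fin 6 → R) (u y m n : R) : R :=
  a12 u y m n * n1 g u y m n + a22 y m * n2 g u y m n + a23 u y m n * n3 g u m
def x3 (g : Fin 6 → R) (u y m n : R) : R :=
  a13 u y m n * n1 g u y m n + a23 u y m n * n2 g u y m n + a33 u m * n3 g u m
/-- The sextic `u * c3 * tau`. -/
def th (g : Fin 6 → R) (u y m n : R) : R :=
  m * qQ y m n * c3 u y m n + n * x1 g u y m n - y * x2 g u y m n
/-- The cubic `G0`. -/
def g0 (g : Fin 6 → R) (u y m n : R) : R :=
  -(m * m * m) - (g 1 + g 3 + g 5 + g 5) * (m * (y * y - n * n))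
    + (g 4 * g 4 - g 3 * g 5 - g 1 * g 5 - g 1 * g 3) * (m * a33 u m)
    + (g 3 * g 4 - g 2 * g 5 - g 1 * g 2 - g 0 * g 5 - g 0 * g 3) * (m * a23 u y m n)
    + g 2 * (g 4 - g 0) * (m * a22 y m) + (g 4 + g 4) * (u * y * m - n * qQ y m n)
    + (g 0 + g 2) * (y * y * n + y * y * n - u * y * m - m * m * n)
    + g 1 * g 4 * (u * y * m + m * m * n - u * u * n - u * u * n)
    + g 0 * g 4 * (m * (u * u - n * n))
/-- The quartic `F' = u G0 + l c3`; here `l` is the value of the linear form `lam u + mu y`. -/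
def fp (g : Fin 6 → R) (l u y m n : R) : R := u * g0 g u y m n + l * c3 u y m n
/-- The octic. -/
def phi (g : Fin 6 → R) (l u y m n : R) : R :=
  c3 u y m n * (u * fp g l u y m n + m * (qQ y m n * qQ y m n))
    - (n1 g u y m n * x1 g u y m n + n2 g u y m n * x2 g u y m n + n3 g u m * x3 g u y m n)
/-- `c3 * G` with `G = a0 u² + a1 uy + a2 y² + a3 m² + a4 mn + a5 n² + xi_1`. -/
def gt (g a : Fin 6 → R) (u y m n : R) : R :=
  c3 u y m n * (a 0 * (u * u) + a 1 * (u * y) + a 2 * (y * y) + a 3 * (m * m) + a 4 * (m * n)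
    + a 5 * (n * n)) + x1 g u y m n
/-- `u * c3 * H` with `H = h0 um + h1 un + h2 ym + h3 yn + h4 xi_2 + h5 xi_3 + h6 tau`. -/
def ht (g : Fin 6 → R) (h : Fin 7 → R) (u y m n : R) : R :=
  u * (c3 u y m n * (h 0 * (u * m) + h 1 * (u * n) + h 2 * (y * m) + h 3 * (y * n))
    + h 4 * x2 g u y m n + h 5 * x3 g u y m n) + h 6 * th g u y m n
/-- `c3 * F` with `F = a5(m,n) + b3(m,n) u² + c3(m,n) xi_1 + d2(m,n) u xi_3`. -/
def ft (g : Fin 6 → R) (f : Fin 17 → R) (u y m n : R) : R :=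
  c3 u y m n * (f 0 * (m * m * m * m * m) + f 1 * (m * m * m * m * n) + f 2 * (m * m * m * n * n)
      + f 3 * (m * m * n * n * n) + f 4 * (m * n * n * n * n) + f 5 * (n * n * n * n * n)
      + (f 6 * (m * m * m) + f 7 * (m * m * n) + f 8 * (m * n * n) + f 9 * (n * n * n)) * (u * u))
    + (f 10 * (m * m * m) + f 11 * (m * m * n) + f 12 * (m * n * n) + f 13 * (n * n * n))
      * x1 g u y m n
    + (f 14 * (m * m) + f 15 * (m * n) + f 16 * (n * n)) * (u * x3 g u y m n)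

/-- The dual number `a + b ε`. -/
def du (a b : R) : DualNumber R := (a, b)

/-- The Jacobian determinant in `(m, n)` of two functions; `o` is one and `z` is zero. -/
def jac2 (A B : DualNumber R → DualNumber R → DualNumber R) (o z m n : R) : R :=
  (A (du m o) (du n z)).snd * (B (du m z) (du n o)).snd
    - (A (du m z) (du n o)).snd * (B (du m o) (du n z)).snd

/-- The Jacobian determinant of `phi` and `gt` in `(m, n)` at `(o, s, m, n)`. -/
def jacG (g a : Fin 6 → R) (l o z s m n : R) : R :=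
  jac2 (phi (fun i => du (g i) z) (du l z) (du o z) (du s z))
    (gt (fun i => du (g i) z) (fun i => du (a i) z) (du o z) (du s z)) o z m n

/-- The Jacobian determinant of `phi` and `ft` in `(m, n)` at `(o, s, m, n)`. -/
def jacF (g : Fin 6 → R) (f : Fin 17 → R) (l o z s m n : R) : R :=
  jac2 (phi (fun i => du (g i) z) (du l z) (du o z) (du s z))
    (ft (fun i => du (g i) z) (fun i => du (f i) z) (du o z) (du s z)) o z m n

end Ops

/-- A configuration over `ℂ`: a plane section `C = {y = s u}` of the octic with `l = ph u`,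
four curves `gt = ht (h1 i) = 0` on the octics with `l = ph u + t i (y - s u)`, their
intersection points `(i, j)`, `j < 4`, with `C`, and a form `ft` on `C` whose zeros are these
sixteen points and four more points `(i, 4)`. -/
structure Cfg where
  g : Fin 6 → ℂ
  mu : ℂ
  s : ℂ
  ph : ℂ
  t : Fin 4 → ℂ
  a : Fin 4 → Fin 6 → ℂ
  h1 : Fin 4 → Fin 7 → ℂ
  h2 : Fin 4 → Fin 7 → ℂ
  f : Fin 17 → ℂ
  pm : Fin 4 → Fin 5 → ℂ
  pn : Fin 4 → Fin 5 → ℂ
  indep : AlgebraicIndependent ℚ ![g 0, g 1, g 2, g 3, g 4, g 5, mu, s, pm 0 4, pn 0 4,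
    (pm 1 4)⁻¹, (pm 2 4)⁻¹, (pm 3 4)⁻¹]
  on_C : ∀ i j, phi g ph 1 s (pm i j) (pn i j) = 0
  off_Z : ∀ i j, c3 1 s (pm i j) (pn i j) ≠ 0
  m_ne : ∀ i j, pm i j ≠ 0
  dist : ∀ i j k l, pm i j * pn k l = pm k l * pn i j → i = k ∧ j = l
  f_zero : ∀ i j, ft g f 1 s (pm i j) (pn i j) = 0
  f_jac : ∀ i j, jacF g f ph 1 0 s (pm i j) (pn i j) ≠ 0
  f_all : ∀ m n : ℂ, phi g ph 1 s m n = 0 → c3 1 s m n ≠ 0 → ft g f 1 s m n = 0 →
    ∃ i j, (m = pm i j ∧ n = pn i j) ∨ (m = -pm i j ∧ n = -pn i j)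
  g_zero : ∀ i j, j ≠ 4 → gt g (a i) 1 s (pm i j) (pn i j) = 0
  h2_ne : ∀ i j, j ≠ 4 → ht g (h2 i) 1 s (pm i j) (pn i j) ≠ 0
  g_jac : ∀ i j, j ≠ 4 → jacG g (a i) ph 1 0 s (pm i j) (pn i j) ≠ 0
  g_all : ∀ i, ∀ m n : ℂ, phi g ph 1 s m n = 0 → c3 1 s m n ≠ 0 → gt g (a i) 1 s m n = 0 →
    ht g (h1 i) 1 s m n = 0 →
    ∃ j, j ≠ 4 ∧ ((m = pm i j ∧ n = pn i j) ∨ (m = -pm i j ∧ n = -pn i j))
  prod : ∀ i, ∀ (K : Type) [Field K] (ι : ℂ →+* K) (y m n : K),
    phi (fun k => ι (g k)) (ι ph + ι (t i) * (y - ι s)) 1 y m n = 0 → c3 1 y m n ≠ 0 →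
    gt (fun k => ι (g k)) (fun k => ι (a i k)) 1 y m n = 0 →
    ht (fun k => ι (g k)) (fun k => ι (h1 i k)) 1 y m n
      * ht (fun k => ι (g k)) (fun k => ι (h2 i k)) 1 y m n = 0
  t_ne : ∀ i, t i ≠ mu
  a_pos : ∀ i, a i 3 + a i 4 + a i 5 ≠ 0
  a_neg : ∀ i, a i 3 - a i 4 + a i 5 ≠ 0
  h1_ne : ∀ i, h1 i 6 ≠ 0
  g_pos : g 5 - (g 2 + g 4) + g 3 - 1 ≠ 0
  g_neg : g 5 + (g 2 + g 4) + g 3 - 1 ≠ 0

end Pool.Agent.P.MP_7ebcb6_ag.G8
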