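import Pool.Agent.P.MP_7ebcb6_ag.G8.Defs
import Pool.Agent.P.MP_7ebcb6_ag.G8.Model
import Pool.Agent.P.MP_7ebcb6_ag.Cycle

/-! The determinant of the matrix is the octic of the model; naturality and homogeneity. -/

open MvPolynomial

namespace Pool.Agent.P.MP_7ebcb6_ag.G8

noncomputable section

lemma det_four (M : Matrix (Fin 4) (Fin 4) ℂ) : M.det =
    M 0 0 * (M 1 1 * (M 2 2 * M 3 3 - M 2 3 * M 3 2) - M 1 2 * (M 2 1 * M 3 3 - M 2 3 * M 3 1)
      + M 1 3 * (M 2 1 * M 3 2 - M 2 2 * M 3 1))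
    - M 0 1 * (M 1 0 * (M 2 2 * M 3 3 - M 2 3 * M 3 2) - M 1 2 * (M 2 0 * M 3 3 - M 2 3 * M 3 0)
      + M 1 3 * (M 2 0 * M 3 2 - M 2 2 * M 3 0))
    + M 0 2 * (M 1 0 * (M 2 1 * M 3 3 - M 2 3 * M 3 1) - M 1 1 * (M 2 0 * M 3 3 - M 2 3 * M 3 0)
      + M 1 3 * (M 2 0 * M 3 1 - M 2 1 * M 3 0))
    - M 0 3 * (M 1 0 * (M 2 1 * M 3 2 - M 2 2 * M 3 1) - M 1 1 * (M 2 0 * M 3 2 - M 2 2 * M 3 0)
      + M 1 2 * (M 2 0 * M 3 1 - M 2 1 * M 3 0)) := by
  rw [Matrix.det_succ_row_zero, Fin.sum_univ_four]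
  simp only [Matrix.det_fin_three, Matrix.submatrix_apply]
  simp [Fin.succAbove]
  ring

lemma det_six (A a b c d Q x y m n : ℂ) :
    (!![A, x * a, x * b, x * c, x * d, Q;
     x * a, m, -n, y, 0, x;
     x * b, -n, m, x ^ 2, y, 0;
     x * c, y, x ^ 2, m, n, 0;
     x * d, 0, y, n, m, 0;
     Q, x, 0, 0, 0, 0] : Matrix (Fin 6) (Fin 6) ℂ).det
    = -(c3 (x ^ 2) y m n * (x ^ 2 * (A - 2 * a * Q) + m * Q ^ 2)
      - ((-(Q * n) - x ^ 2 * b) ^ 2 * a11 m n + (Q * y - x ^ 2 * c) ^ 2 * a22 y m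
        + (x ^ 2 * d) ^ 2 * a33 (x ^ 2) m
        + 2 * (-(Q * n) - x ^ 2 * b) * (Q * y - x ^ 2 * c) * a12 (x ^ 2) y m n
        - 2 * (-(Q * n) - x ^ 2 * b) * (x ^ 2 * d) * a13 (x ^ 2) y m n
        - 2 * (Q * y - x ^ 2 * c) * (x ^ 2 * d) * a23 (x ^ 2) y m n)) := by
  rw [Matrix.det_succ_row _ 5, Fin.sum_univ_six, Matrix.det_succ_column _ 4,
    Matrix.det_succ_column _ 4]
  simp only [Fin.sum_univ_five, det_four, Matrix.submatrix_apply, c3, a11, a12, a13, a22, a23, a33]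
  simp [Fin.succAbove]
  ring

lemma det_cd (g : Fin 6 → ℂ) (la mu x y m n : ℂ) :
    (cdMatrix g la mu x y m n).det = -phi g (la * x ^ 2 + 2 * mu * y) (x ^ 2) y m n := by
  unfold cdMatrix
  rw [det_six]
  simp only [phi, fp, g0, x1, x2, x3, n1, n2, n3, r1, r2, r3, qQ, c3, a11, a12, a13, a22, a23, a33,
    cubicG, quadQ, cayley, Matrix.cons_val_zero, Matrix.cons_val_one, Matrix.cons_val]
  ring

lemma cayley_eq (u y m n : ℂ) : cayley u y m n = c3 u y m n := by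
  simp only [cayley, c3]; ring

lemma mem_octic {g : Fin 6 → ℂ} {la mu : ℂ} {p : Fin 4 → ℂ} : p ∈ octic g la mu ↔
    phi g (la * p 0 + 2 * mu * p 1) (p 0) (p 1) (p 2) (p 3) = 0 := by
  constructor
  · rintro ⟨x, hx, h⟩
    rwa [det_cd, neg_eq_zero, hx] at h
  · intro h
    obtain ⟨x, hx⟩ := IsAlgClosed.exists_pow_nat_eq (p 0) two_pos
    exact ⟨x, hx, by rw [det_cd, hx, h, neg_zero]⟩

section ring

variable {R S : Type} [CommRing R] [CommRing S]

lemma map_c3 (f : R →+* S) (u y m n : R) : f (c3 u y m n) = c3 (f u) (f y) (f m) (f n) := by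
  simp only [c3, map_add, map_sub, map_mul]

lemma map_phi (f : R →+* S) (g : Fin 6 → R) (l u y m n : R) :
    f (phi g l u y m n) = phi (fun i => f (g i)) (f l) (f u) (f y) (f m) (f n) := by
  simp only [phi, fp, g0, x1, x2, x3, n1, n2, n3, r1, r2, r3, qQ, c3, a11, a12, a13, a22, a23, a33,
    map_add, map_sub, map_mul, map_neg]

lemma c3_scale (c u y m n : R) : c3 (c * u) (c * y) (c * m) (c * n) = c ^ 3 * c3 u y m n := by
  simp only [c3]; ring

lemma c3_sign (u y m n : R) : c3 u y (-m) (-n) = -c3 u y m n := by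
  simp only [c3]; ring

lemma phi_scale (g : Fin 6 → R) (c l u y m n : R) :
    phi g (c * l) (c * u) (c * y) (c * m) (c * n) = c ^ 8 * phi g l u y m n := by
  have h0 : g0 g (c * u) (c * y) (c * m) (c * n) = c ^ 3 * g0 g u y m n := by
    simp only [g0, qQ, a22, a23, a33]; ring
  have h1 : n1 g (c * u) (c * y) (c * m) (c * n) = c ^ 3 * n1 g u y m n := by
    simp only [n1, r1, qQ, a12, a13]; ring
  have h2 : n2 g (c * u) (c * y) (c * m) (c * n) = c ^ 3 * n2 g u y m n := by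
    simp only [n2, r2, qQ, a22, a23, a33]; ring
  have h3 : n3 g (c * u) (c * m) = c ^ 3 * n3 g u m := by
    simp only [n3, r3, a33]; ring
  simp only [phi, fp, x1, x2, x3, h0, h1, h2, h3, c3_scale, qQ, a11, a12, a13, a22, a23, a33]
  ring

lemma phi_sign (g : Fin 6 → R) (l u y m n : R) : phi g l u y (-m) (-n) = phi g l u y m n := by
  have h0 : g0 g u y (-m) (-n) = -g0 g u y m n := by
    simp only [g0, qQ, a22, a23, a33]; ring
  have h1 : n1 g u y (-m) (-n) = -n1 g u y m n := by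
    simp only [n1, r1, qQ, a12, a13]; ring
  have h2 : n2 g u y (-m) (-n) = n2 g u y m n := by
    simp only [n2, r2, qQ, a22, a23, a33]; ring
  have h3 : n3 g u (-m) = n3 g u m := by
    simp only [n3, r3, a33]; ring
  simp only [phi, fp, x1, x2, x3, h0, h1, h2, h3, c3_sign, qQ, a11, a12, a13, a22, a23, a33]
  ring

lemma phi_lin (g : Fin 6 → R) (l u y m n : R) :
    phi g l u y m n = phi g 0 u y m n + l * u * c3 u y m n ^ 2 := by
  simp only [phi, fp]; ring

/-- The octic with the linear form `la u + mu y`, at a vector. -/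
def phiV (g : Fin 6 → R) (la mu : R) (p : Fin 4 → R) : R :=
  phi g (la * p 0 + mu * p 1) (p 0) (p 1) (p 2) (p 3)

/-- The quartic `u c3`, at a vector. -/
def badV (p : Fin 4 → R) : R := p 0 * c3 (p 0) (p 1) (p 2) (p 3)

lemma map_phiV (f : R →+* S) (g : Fin 6 → R) (la mu : R) (p : Fin 4 → R) :
    f (phiV g la mu p) = phiV (fun i => f (g i)) (f la) (f mu) fun i => f (p i) := by
  simp only [phiV, map_phi, map_add, map_mul]

lemma map_badV (f : R →+* S) (p : Fin 4 → R) : f (badV p) = badV fun i => f (p i) := by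
  simp only [badV, map_c3, map_mul]

lemma phiV_smul (g : Fin 6 → R) (la mu c : R) (p : Fin 4 → R) :
    phiV g la mu (fun i => c * p i) = c ^ 8 * phiV g la mu p := by
  rw [phiV, phiV, ← phi_scale]
  congr 1
  ring

lemma badV_smul (c : R) (p : Fin 4 → R) : badV (fun i => c * p i) = c ^ 4 * badV p := by
  rw [badV, badV, c3_scale]; ring

/-- The involution. -/
def sg (p : Fin 4 → R) : Fin 4 → R := ![p 0, p 1, -p 2, -p 3]

lemma phiV_sg (g : Fin 6 → R) (la mu : R) (p : Fin 4 → R) :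
    phiV g la mu (sg p) = phiV g la mu p := phi_sign _ _ _ _ _ _

lemma badV_sg (p : Fin 4 → R) : badV (sg p) = -badV p := by
  rw [badV, badV, ← mul_neg, ← c3_sign]; rfl

variable [Algebra ℂ R]

lemma N_smul {P : MvPolynomial (Fin 4) ℂ} {d : ℕ × ZMod 2} (h : IsWeightedHomogeneous wt4 P d)
    (c : R) (p : Fin 4 → R) : aeval (fun i => c * p i) P = c ^ d.1 * aeval p P := by
  rw [← aeval_scale (fun a : ℕ × ZMod 2 => c ^ a.1) (pow_zero c) (fun a b => pow_add c _ _) h p]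
  congr 2
  ext i
  fin_cases i <;> simp [wt4]

lemma N_sg {P : MvPolynomial (Fin 4) ℂ} {d : ℕ × ZMod 2} (h : IsWeightedHomogeneous wt4 P d)
    (p : Fin 4 → ℂ) : eval (sg p) P = (-1) ^ d.2.val * eval p P := by
  have := aeval_scale (fun a : ℕ × ZMod 2 => (-1 : ℂ) ^ a.2.val) (by simp) (fun a b => by
    rw [Prod.snd_add, ZMod.val_add, ← pow_add, ← neg_one_pow_eq_pow_mod_two]) h p
  rw [← aeval_eq_eval, ← aeval_eq_eval, ← this]
  congr 2
  ext i
  fin_cases i <;> simp [wt4, sg, ZMod.val_one]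

end ring

/-- A polynomial that vanishes at the complex points of the octic vanishes at all its points. -/
lemma aeval_eq_zero_of_octic {K : Type} [Field K] [Algebra ℂ K] {g : Fin 6 → ℂ} {la mu : ℂ}
    {F : MvPolynomial (Fin 4) ℂ} (hF : ∀ p, phiV g la mu p = 0 → eval p F = 0) {P : Fin 4 → K}
    (hP : phiV (fun i => algebraMap ℂ K (g i)) (algebraMap ℂ K la) (algebraMap ℂ K mu) P = 0) :
    aeval P F = 0 := by
  let Φ : MvPolynomial (Fin 4) ℂ := phiV (fun i => C (g i)) (C la) (C mu) X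
  have hmem : F ∈ vanishingIdeal ℂ (zeroLocus ℂ (Ideal.span {Φ})) := by
    intro p hp
    have h1 : eval p Φ = 0 := hp Φ (Ideal.mem_span_singleton_self _)
    rw [map_phiV] at h1
    simp only [eval_C, eval_X] at h1
    exact hF p h1
  rw [vanishingIdeal_zeroLocus_eq_radical] at hmem
  obtain ⟨k, hk⟩ := hmem
  obtain ⟨H, hH⟩ := Ideal.mem_span_singleton'.mp hk
  have h2 : aeval P Φ = 0 := by
    rw [← hP]
    refine (map_phiV (aeval P : MvPolynomial (Fin 4) ℂ →ₐ[ℂ] K).toRingHom _ _ _ _).trans ?_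
    simp
  have h3 : aeval P F ^ k = 0 := by rw [← map_pow, ← hH, map_mul, h2, mul_zero]
  exact IsNilpotent.eq_zero ⟨k, h3⟩

/-- An invariant form of even degree is a form in the invariant quadrics. -/
lemma exists_comp_nu {P : MvPolynomial (Fin 4) ℂ} {d : ℕ}
    (h : IsWeightedHomogeneous wt4 P (2 * d, 0)) :
    ∃ S : MvPolynomial (Fin 6) ℂ, S.IsHomogeneous d ∧ ∀ p, eval (nu p) S = eval p P := by
  have key : ∀ s : Fin 4 →₀ ℕ, ∃ T : MvPolynomial (Fin 6) ℂ, s ∈ P.support →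
      T.IsHomogeneous d ∧ ∀ p, eval (nu p) T = ∏ i, p i ^ s i := by
    intro s
    refine ⟨X 0 ^ (s 0 / 2) * X 1 ^ (s 0 % 2) * X 2 ^ (s 1 / 2) * X 3 ^ (s 2 / 2)
      * X 4 ^ (s 2 % 2) * X 5 ^ (s 3 / 2), fun hs => ?_⟩
    have hw := h (mem_support_iff.mp hs)
    rw [Finsupp.weight_apply, Finsupp.sum_fintype _ _ (by simp), Fin.sum_univ_four] at hw
    have h1 : s 0 + s 1 + s 2 + s 3 = 2 * d := by simpa [wt4] using congrArg Prod.fst hw
    have h2 : ((s 2 + s 3 : ℕ) : ZMod 2) = 0 := by simpa [wt4] using congrArg Prod.snd hw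
    rw [ZMod.natCast_eq_zero_iff] at h2
    constructor
    · have hd : d = s 0 / 2 + s 0 % 2 + s 1 / 2 + s 2 / 2 + s 2 % 2 + s 3 / 2 := by omega
      rw [hd]
      exact ((((((isHomogeneous_X_pow _ _).mul (isHomogeneous_X_pow _ _)).mul
        (isHomogeneous_X_pow _ _)).mul (isHomogeneous_X_pow _ _)).mul
        (isHomogeneous_X_pow _ _)).mul (isHomogeneous_X_pow _ _))
    · intro p
      obtain ⟨a, b, hb, ha⟩ : ∃ a b, b < 2 ∧ s 0 = 2 * a + b := ⟨s 0 / 2, s 0 % 2, by omega, by omega⟩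
      obtain ⟨a', b', hb', ha'⟩ : ∃ a b, b < 2 ∧ s 2 = 2 * a + b :=
        ⟨s 2 / 2, s 2 % 2, by omega, by omega⟩
      obtain ⟨c, hc⟩ : ∃ c, s 1 = 2 * c + b := ⟨s 1 / 2, by omega⟩
      obtain ⟨c', hc'⟩ : ∃ c, s 3 = 2 * c + b' := ⟨s 3 / 2, by omega⟩
      rw [Fin.prod_univ_four, show s 0 / 2 = a by omega, show s 0 % 2 = b by omega,
        show s 1 / 2 = c by omega, show s 2 / 2 = a' by omega, show s 2 % 2 = b' by omega,
        show s 3 / 2 = c' by omega, ha, ha', hc, hc']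
      simp [nu]
      ring
  choose T hT using key
  refine ⟨∑ s ∈ P.support, C (coeff s P) * T s, IsHomogeneous.sum _ _ _ fun s hs => ?_,
    fun p => ?_⟩
  · simpa using (isHomogeneous_C _ (coeff s P)).mul (hT s hs).1
  · rw [map_sum, eval_eq']
    exact Finset.sum_congr rfl fun s hs => by rw [map_mul, eval_C, (hT s hs).2]

/-- Points with proportional invariant quadrics agree up to scaling and the involution. -/
lemma eq_of_nu {p q : Fin 4 → ℂ} (hp : p ≠ 0) (hq : badV q ≠ 0)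
    (h : ∀ j k, nu q j * nu p k = nu q k * nu p j) :
    ∃ t : ℂ, t ≠ 0 ∧ (p = (fun i => t * q i) ∨ p = fun i => t * sg q i) := by
  have hq0 : q 0 ≠ 0 := left_ne_zero_of_mul hq
  have h1 := h 0 1
  have h2 := h 0 2
  have h3 := h 0 3
  have h4 := h 0 4
  have h5 := h 0 5
  simp only [nu, Matrix.cons_val_zero, Matrix.cons_val_one, Matrix.cons_val] at h1 h2 h3 h4 h5
  have hp0 : p 0 ≠ 0 := by
    intro h0
    rw [h0] at h2 h3 h5
    refine hp (funext fun i => ?_)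
    fin_cases i
    · exact h0
    · simpa [hq0] using h2
    · simpa [hq0] using h3
    · simpa [hq0] using h5
  obtain ⟨t, ht⟩ : ∃ t, p 0 = t * q 0 := ⟨p 0 / q 0, by field_simp⟩
  have ht0 : t ≠ 0 := by rintro rfl; exact hp0 (by rw [ht, zero_mul])
  have e1 : p 1 = t * q 1 := mul_left_cancel₀ (mul_ne_zero (mul_ne_zero hq0 hq0) hp0) (by
    linear_combination h1 + q 0 * q 1 * p 0 * ht)
  have hqq := mul_ne_zero hq0 hq0
  have e3 : p 2 ^ 2 = (t * q 2) ^ 2 := mul_left_cancel₀ hqq (by rw [ht] at h3; linear_combination h3)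
  have e4 : p 2 * p 3 = t * q 2 * (t * q 3) :=
    mul_left_cancel₀ hqq (by rw [ht] at h4; linear_combination h4)
  have e5 : p 3 ^ 2 = (t * q 3) ^ 2 := mul_left_cancel₀ hqq (by rw [ht] at h5; linear_combination h5)
  have key : (p 2 = t * q 2 ∧ p 3 = t * q 3) ∨ (p 2 = -(t * q 2) ∧ p 3 = -(t * q 3)) := by
    rcases sq_eq_sq_iff_eq_or_eq_neg.mp e3 with a | a <;>
      rcases sq_eq_sq_iff_eq_or_eq_neg.mp e5 with b | b
    · exact Or.inl ⟨a, b⟩
    · rw [a, b] at e4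
      rcases mul_eq_zero.mp (show t * q 2 * (t * q 3) = 0 by linear_combination -e4 / 2) with c | c
      · exact Or.inr ⟨by rw [a, c, neg_zero], b⟩
      · exact Or.inl ⟨a, by rw [b, c, neg_zero]⟩
    · rw [a, b] at e4
      rcases mul_eq_zero.mp (show t * q 2 * (t * q 3) = 0 by linear_combination -e4 / 2) with c | c
      · exact Or.inl ⟨by rw [a, c, neg_zero], b⟩
      · exact Or.inr ⟨a, by rw [b, c, neg_zero]⟩
    · exact Or.inr ⟨a, b⟩
  refine ⟨t, ht0, key.imp (fun ⟨a, b⟩ => funext fun i => ?_) fun ⟨a, b⟩ => funext fun i => ?_⟩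
  · fin_cases i
    exacts [ht, e1, a, b]
  · fin_cases i
    exacts [ht, e1, a.trans (mul_neg _ _).symm, b.trans (mul_neg _ _).symm]

end

end Pool.Agent.P.MP_7ebcb6_ag.G8
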