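import Pool.Agent.P.MP_7ebcb6_ag.Spec
import Pool.Agent.P.MP_7ebcb6_ag.G8.Model

/-! The interface between the geometric part and the certificate part: an abstract class map
on the points `(1, y, m, n)` of one member of the net. -/

namespace Pool.Agent.P.MP_7ebcb6_ag.G8

/-- Classes of the points `(1, y, m, n)` of the octic with `l = la + mu * y`, modulo rational
equivalence and modulo the cycles on `u * c3 = 0`. -/
structure ClassMap (g : Fin 6 → ℂ) (la mu : ℂ) (M : Type) [AddCommGroup M] where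
  cl : ℂ → ℂ → ℂ → M
  cl_neg : ∀ y m n, cl y (-m) (-n) = cl y m n
  cl_bad : ∀ y m n, c3 1 y m n = 0 → cl y m n = 0
  fam : ∀ y m n : Om, phi (fun i => algebraMap ℂ Om (g i))
      (algebraMap ℂ Om la + algebraMap ℂ Om mu * y) 1 y m n = 0 →
    ∃ γ : Sp → M, IsFam γ ∧
      (∀ (sp : Sp) (y0 m0 n0 : ℂ), Tends sp.v y y0 → Tends sp.v m m0 → Tends sp.v n n0 →
        γ sp = cl y0 m0 n0) ∧
      ∀ sp : Sp, 1 < sp.v y ∨ 1 < sp.v m ∨ 1 < sp.v n → γ sp = 0

/-- The statement supplied by the certificate part. -/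
def GenericRel : Prop :=
  ∃ (g : Fin 6 → ℂ) (mu s ph : ℂ) (pm pn : Fin 4 → ℂ),
    AlgebraicIndependent ℚ ![g 0, g 1, g 2, g 3, g 4, g 5, mu, s, pm 0, pn 0,
      (pm 1)⁻¹, (pm 2)⁻¹, (pm 3)⁻¹] ∧
    (∀ i, phi g ph 1 s (pm i) (pn i) = 0 ∧ c3 1 s (pm i) (pn i) ≠ 0) ∧
    ∀ (M : Type) [AddCommGroup M] [IsAddTorsionFree M] (G : ClassMap g (ph - mu * s) mu M),
      ∑ i, G.cl s (pm i) (pn i) = 0

end Pool.Agent.P.MP_7ebcb6_ag.G8
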