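import Pool.Agent.P.MP_7ebcb6_ag.G8.Tab
import Pool.Agent.P.MP_7ebcb6_ag.G8.Iface

/-! Naturality, homogeneity, continuity and integrality for the octic model. -/

namespace Pool.Agent.P.MP_7ebcb6_ag.G8

section hom

variable {R S : Type} [Add R] [Mul R] [Neg R] [Sub R] [Add S] [Mul S] [Neg S] [Sub S]

/-- A map that commutes with the four ring operations. -/
structure Hom (f : R → S) : Prop where
  add : ∀ a b, f (a + b) = f a + f b
  mul : ∀ a b, f (a * b) = f a * f b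
  neg : ∀ a, f (-a) = -f a
  sub : ∀ a b, f (a - b) = f a - f b

variable {f : R → S} (h : Hom f) (g : Fin 6 → R) (l u y m n : R)
include h

lemma Hom.qQ : f (qQ y m n) = qQ (f y) (f m) (f n) := by
  simp only [G8.qQ, h.add, h.mul, h.sub]
lemma Hom.c3 : f (c3 u y m n) = c3 (f u) (f y) (f m) (f n) := by
  simp only [G8.c3, h.add, h.mul, h.sub]
lemma Hom.a11 : f (a11 m n) = a11 (f m) (f n) := by simp only [G8.a11, h.mul, h.sub]
lemma Hom.a12 : f (a12 u y m n) = a12 (f u) (f y) (f m) (f n) := by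
  simp only [G8.a12, h.mul, h.sub]
lemma Hom.a13 : f (a13 u y m n) = a13 (f u) (f y) (f m) (f n) := by
  simp only [G8.a13, h.mul, h.sub]
lemma Hom.a22 : f (a22 y m) = a22 (f y) (f m) := by simp only [G8.a22, h.mul, h.sub]
lemma Hom.a23 : f (a23 u y m n) = a23 (f u) (f y) (f m) (f n) := by
  simp only [G8.a23, h.mul, h.sub]
lemma Hom.a33 : f (a33 u m) = a33 (f u) (f m) := by simp only [G8.a33, h.mul, h.sub]
lemma Hom.r1 : f (r1 g u y m n) = r1 (fun i => f (g i)) (f u) (f y) (f m) (f n) := by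
  simp only [G8.r1, h.add, h.mul, h.sub, h.a12, h.a13]
lemma Hom.r2 : f (r2 g u y m n) = r2 (fun i => f (g i)) (f u) (f y) (f m) (f n) := by
  simp only [G8.r2, h.add, h.mul, h.a22, h.a23, h.a33]
lemma Hom.r3 : f (r3 g u m) = r3 (fun i => f (g i)) (f u) (f m) := by
  simp only [G8.r3, h.mul, h.a33]
lemma Hom.n1 : f (n1 g u y m n) = n1 (fun i => f (g i)) (f u) (f y) (f m) (f n) := by
  simp only [G8.n1, h.neg, h.mul, h.sub, h.qQ, h.r1]
lemma Hom.n2 : f (n2 g u y m n) = n2 (fun i => f (g i)) (f u) (f y) (f m) (f n) := by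
  simp only [G8.n2, h.mul, h.sub, h.qQ, h.r2]
lemma Hom.n3 : f (n3 g u m) = n3 (fun i => f (g i)) (f u) (f m) := by
  simp only [G8.n3, h.neg, h.mul, h.r3]
lemma Hom.x1 : f (x1 g u y m n) = x1 (fun i => f (g i)) (f u) (f y) (f m) (f n) := by
  simp only [G8.x1, h.add, h.mul, h.a11, h.a12, h.a13, h.n1, h.n2, h.n3]
lemma Hom.x2 : f (x2 g u y m n) = x2 (fun i => f (g i)) (f u) (f y) (f m) (f n) := by
  simp only [G8.x2, h.add, h.mul, h.a12, h.a22, h.a23, h.n1, h.n2, h.n3]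
lemma Hom.x3 : f (x3 g u y m n) = x3 (fun i => f (g i)) (f u) (f y) (f m) (f n) := by
  simp only [G8.x3, h.add, h.mul, h.a13, h.a23, h.a33, h.n1, h.n2, h.n3]
lemma Hom.th : f (th g u y m n) = th (fun i => f (g i)) (f u) (f y) (f m) (f n) := by
  simp only [G8.th, h.add, h.mul, h.sub, h.qQ, h.c3, h.x1, h.x2]
lemma Hom.g0 : f (g0 g u y m n) = g0 (fun i => f (g i)) (f u) (f y) (f m) (f n) := by
  simp only [G8.g0, h.add, h.mul, h.sub, h.neg, h.qQ, h.a22, h.a23, h.a33]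
lemma Hom.fp : f (fp g l u y m n) = fp (fun i => f (g i)) (f l) (f u) (f y) (f m) (f n) := by
  simp only [G8.fp, h.add, h.mul, h.g0, h.c3]
lemma Hom.phi : f (phi g l u y m n) = phi (fun i => f (g i)) (f l) (f u) (f y) (f m) (f n) := by
  simp only [G8.phi, h.add, h.mul, h.sub, h.fp, h.c3, h.qQ, h.n1, h.n2, h.n3, h.x1, h.x2, h.x3]
lemma Hom.ft (a : Fin 17 → R) :
    f (ft g a u y m n) = ft (fun i => f (g i)) (fun i => f (a i)) (f u) (f y) (f m) (f n) := by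
  simp only [G8.ft, h.add, h.mul, h.c3, h.x1, h.x3]

end hom

lemma hom_of_ringHom {R S F : Type} [CommRing R] [CommRing S] [FunLike F R S]
    [RingHomClass F R S] (f : F) : Hom f :=
  ⟨map_add f, map_mul f, map_neg f, map_sub f⟩

section ring

variable {R : Type} [CommRing R] (g : Fin 6 → R) (t l l' u y m n : R)

lemma c3_smul : c3 (t * u) (t * y) (t * m) (t * n) = t ^ 3 * c3 u y m n := by
  simp only [c3]; ring
lemma qQ_smul : qQ (t * y) (t * m) (t * n) = t ^ 2 * qQ y m n := by simp only [qQ]; ring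
lemma n1_smul : n1 g (t * u) (t * y) (t * m) (t * n) = t ^ 3 * n1 g u y m n := by
  simp only [n1, r1, a12, a13, qQ]; ring
lemma n2_smul : n2 g (t * u) (t * y) (t * m) (t * n) = t ^ 3 * n2 g u y m n := by
  simp only [n2, r2, a22, a23, a33, qQ]; ring
lemma n3_smul : n3 g (t * u) (t * m) = t ^ 3 * n3 g u m := by
  simp only [n3, r3, a33]; ring
lemma x1_smul : x1 g (t * u) (t * y) (t * m) (t * n) = t ^ 5 * x1 g u y m n := by
  simp only [x1, n1_smul, n2_smul, n3_smul, a11, a12, a13]; ring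
lemma x2_smul : x2 g (t * u) (t * y) (t * m) (t * n) = t ^ 5 * x2 g u y m n := by
  simp only [x2, n1_smul, n2_smul, n3_smul, a12, a22, a23]; ring
lemma x3_smul : x3 g (t * u) (t * y) (t * m) (t * n) = t ^ 5 * x3 g u y m n := by
  simp only [x3, n1_smul, n2_smul, n3_smul, a13, a23, a33]; ring
lemma fp_smul : fp g (t * l) (t * u) (t * y) (t * m) (t * n) = t ^ 4 * fp g l u y m n := by
  simp only [fp, g0, c3_smul, a22, a23, a33, qQ]; ring
lemma phi_smul : phi g (t * l) (t * u) (t * y) (t * m) (t * n) = t ^ 8 * phi g l u y m n := by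
  simp only [phi, c3_smul, fp_smul, qQ_smul, n1_smul, n2_smul, n3_smul, x1_smul, x2_smul, x3_smul]
  ring
lemma ft_smul (a : Fin 17 → R) :
    ft g a (t * u) (t * y) (t * m) (t * n) = t ^ 8 * ft g a u y m n := by
  simp only [ft, c3_smul, x1_smul, x3_smul]; ring

lemma c3_neg : c3 u y (-m) (-n) = -c3 u y m n := by simp only [c3]; ring
lemma n1_neg : n1 g u y (-m) (-n) = -n1 g u y m n := by simp only [n1, r1, a12, a13, qQ]; ring
lemma n2_neg : n2 g u y (-m) (-n) = n2 g u y m n := by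
  simp only [n2, r2, a22, a23, a33, qQ]; ring
lemma n3_neg : n3 g u (-m) = n3 g u m := by simp only [n3, r3, a33]; ring
lemma x1_neg : x1 g u y (-m) (-n) = -x1 g u y m n := by
  simp only [x1, n1_neg, n2_neg, n3_neg, a11, a12, a13]; ring
lemma x2_neg : x2 g u y (-m) (-n) = x2 g u y m n := by
  simp only [x2, n1_neg, n2_neg, n3_neg, a12, a22, a23]; ring
lemma x3_neg : x3 g u y (-m) (-n) = x3 g u y m n := by
  simp only [x3, n1_neg, n2_neg, n3_neg, a13, a23, a33]; ring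
lemma fp_neg : fp g l u y (-m) (-n) = -fp g l u y m n := by
  simp only [fp, g0, c3_neg, a22, a23, a33, qQ]; ring
lemma phi_neg : phi g l u y (-m) (-n) = phi g l u y m n := by
  simp only [phi, c3_neg, fp_neg, n1_neg, n2_neg, n3_neg, x1_neg, x2_neg, x3_neg, qQ]; ring
lemma ft_neg (a : Fin 17 → R) : ft g a u y (-m) (-n) = ft g a u y m n := by
  simp only [ft, c3_neg, x1_neg, x3_neg]; ring

lemma phi_sub : phi g l u y m n - phi g l' u y m n = (l - l') * u * c3 u y m n ^ 2 := by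
  simp only [phi, fp]; ring

lemma c3_zero : c3 u y 0 0 = 0 := by simp [c3]

/-- The rows imply that the quintics are `c3` times the functions. -/
lemma x_of_rows {X1 X2 X3 : R} (h1 : m * X1 + u * X2 + y * X3 = n1 g u y m n)
    (h2 : u * X1 + m * X2 + n * X3 = n2 g u y m n) (h3 : y * X1 + n * X2 + m * X3 = n3 g u m) :
    x1 g u y m n = c3 u y m n * X1 ∧ x2 g u y m n = c3 u y m n * X2 ∧
      x3 g u y m n = c3 u y m n * X3 := by
  simp only [x1, x2, x3, ← h1, ← h2, ← h3, a11, a12, a13, a22, a23, a33, c3]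
  refine ⟨by ring, by ring, by ring⟩

end ring

/-- On the octic and off `u * c3 = 0` the five relations hold. -/
lemma rows_of_phi {K : Type} [Field K] (g : Fin 6 → K) {l u y m n : K} (hu : u ≠ 0)
    (hc : c3 u y m n ≠ 0) (h : phi g l u y m n = 0) :
    Rows g l u y m n (x1 g u y m n / c3 u y m n) (x2 g u y m n / c3 u y m n)
      (x3 g u y m n / c3 u y m n) (th g u y m n / (u * c3 u y m n)) := by
  refine ⟨?_, ?_, ?_, ?_, ?_⟩
  · field_simp
    simp only [x1, x2, x3, a11, a12, a13, a22, a23, a33, c3]; ring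
  · field_simp
    simp only [x1, x2, x3, a11, a12, a13, a22, a23, a33, c3]; ring
  · field_simp
    simp only [x1, x2, x3, a11, a12, a13, a22, a23, a33, c3]; ring
  · field_simp
    simp only [th]; ring
  · field_simp
    simp only [phi, n1, n2, n3] at h
    simp only [th]
    linear_combination h

/-- The octic on a line through a point of `m = n = 0` splits into eight linear factors. -/
lemma phi_split {K : Type} [Field K] [IsAlgClosed K] (g : Fin 6 → K) (l y m n : K)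
    (h4 : f4 g y ≠ 0) : ∃ U : Fin 8 → K, ∀ x,
      phi g (l * x) x (y * x) m n = f4 g y ^ 2 * ∏ k, (x - U k) := by
  obtain ⟨f3, f2, f1, h⟩ := phi_even g l y m n
  let p : Polynomial K := Polynomial.C (f4 g y ^ 2) * Polynomial.X ^ 8
    + Polynomial.C f3 * Polynomial.X ^ 6 + Polynomial.C f2 * Polynomial.X ^ 4
    + Polynomial.C f1 * Polynomial.X ^ 2 + Polynomial.C ((m ^ 2 - n ^ 2) ^ 4)
  have hne : f4 g y ^ 2 ≠ 0 := pow_ne_zero _ h4
  have hd : p.natDegree = 8 := by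
    simp only [p]
    compute_degree!
  have hl : p.leadingCoeff = f4 g y ^ 2 := by
    rw [Polynomial.leadingCoeff, hd]
    simp only [p, Polynomial.coeff_add, Polynomial.coeff_C_mul, Polynomial.coeff_X_pow,
      Polynomial.coeff_C]
    simp
  have hs := IsAlgClosed.splits p
  have hcard : p.roots.toList.length = 8 := by
    rw [Multiset.length_toList, ← hd, hs.natDegree_eq_card_roots]
  refine ⟨fun k => p.roots.toList.get (k.cast hcard.symm), fun x => ?_⟩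
  have e1 : p.eval x = phi g (l * x) x (y * x) m n := by
    rw [h]; simp [p]
  rw [← e1, hs.eval_eq_prod_roots, hl]
  congr 1
  conv_lhs => rw [← Multiset.coe_toList p.roots, Multiset.map_coe, Multiset.prod_coe,
    ← List.ofFn_get p.roots.toList, List.map_ofFn, List.prod_ofFn]
  exact Fintype.prod_equiv (finCongr hcard) _ _ fun k => rfl

lemma phi_zero_zero {R : Type} [CommRing R] (g : Fin 6 → R) (l y : R) :
    phi g l 1 y 0 0 = f4 g y ^ 2 := by
  simp only [phi, c3_zero, x1, x2, x3, n1, n2, n3, r1, r2, r3, a11, a12, a13, a22, a23, a33,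
    qQ, f4]
  ring

lemma phi_top {R : Type} [CommRing R] (g : Fin 6 → R) (l m n : R) :
    phi g l 0 0 m n = (m ^ 2 - n ^ 2) ^ 4 := by
  simp only [phi, c3, x1, x2, x3, n1, n2, n3, r1, r2, r3, a11, a12, a13, a22, a23, a33, qQ]
  ring

section tends

variable {L Γ : Type} [Field L] [Algebra ℂ L] [LinearOrderedCommGroupWithZero Γ]
  {v : Valuation L Γ} [v.IsTrivialOn ℂ]

/-- An element together with its limit. -/
structure TP (v : Valuation L Γ) where
  a : L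
  c : ℂ
  h : Tends v a c

instance : Add (TP v) := ⟨fun x y => ⟨_, _, x.h.add y.h⟩⟩
instance : Mul (TP v) := ⟨fun x y => ⟨_, _, x.h.mul y.h⟩⟩
instance : Neg (TP v) := ⟨fun x => ⟨_, _, x.h.neg⟩⟩
instance : Sub (TP v) := ⟨fun x y => ⟨_, _, x.h.sub y.h⟩⟩

lemma hom_a : Hom (TP.a : TP v → L) := ⟨fun _ _ => rfl, fun _ _ => rfl, fun _ => rfl, fun _ _ => rfl⟩
lemma hom_c : Hom (TP.c : TP v → ℂ) := ⟨fun _ _ => rfl, fun _ _ => rfl, fun _ => rfl, fun _ _ => rfl⟩

variable {l u y m n : L} {l0 u0 y0 m0 n0 : ℂ}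

lemma tends_c3 (hu : Tends v u u0) (hy : Tends v y y0) (hm : Tends v m m0) (hn : Tends v n n0) :
    Tends v (c3 u y m n) (c3 u0 y0 m0 n0) := by
  have := (c3 (⟨_, _, hu⟩ : TP v) ⟨_, _, hy⟩ ⟨_, _, hm⟩ ⟨_, _, hn⟩).h
  rwa [hom_a.c3, hom_c.c3] at this

lemma tends_phi (g : Fin 6 → ℂ) (hl : Tends v l l0) (hu : Tends v u u0) (hy : Tends v y y0)
    (hm : Tends v m m0) (hn : Tends v n n0) :
    Tends v (phi (fun i => algebraMap ℂ L (g i)) l u y m n) (phi g l0 u0 y0 m0 n0) := by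
  have := (phi (fun i => (⟨_, _, Tends.const (g i)⟩ : TP v)) ⟨_, _, hl⟩ ⟨_, _, hu⟩ ⟨_, _, hy⟩
    ⟨_, _, hm⟩ ⟨_, _, hn⟩).h
  rwa [hom_a.phi, hom_c.phi] at this

lemma tends_ft (g : Fin 6 → ℂ) (a : Fin 17 → ℂ) (hu : Tends v u u0) (hy : Tends v y y0)
    (hm : Tends v m m0) (hn : Tends v n n0) :
    Tends v (ft (fun i => algebraMap ℂ L (g i)) (fun i => algebraMap ℂ L (a i)) u y m n)
      (ft g a u0 y0 m0 n0) := by
  have := (ft (fun i => (⟨_, _, Tends.const (g i)⟩ : TP v)) (fun i => ⟨_, _, Tends.const (a i)⟩)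
    ⟨_, _, hu⟩ ⟨_, _, hy⟩ ⟨_, _, hm⟩ ⟨_, _, hn⟩).h
  rwa [hom_a.ft, hom_c.ft] at this

lemma tends_f4 (g : Fin 6 → ℂ) (hy : Tends v y y0) :
    Tends v (f4 (fun i => algebraMap ℂ L (g i)) y) (f4 g y0) :=
  ((((hy.pow 4).add ((Tends.const _).mul (hy.pow 3))).sub ((Tends.const _).mul (hy.pow 2))).add
    ((Tends.const _).mul hy)).sub (Tends.const _)

end tends

/-- The functions `xi_i` and `tau` are integral over the coordinate ring. -/
lemma integral_of_rows {L Γ : Type} [Field L] [LinearOrderedCommGroupWithZero Γ]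
    (v : Valuation L Γ) {g : Fin 6 → L} {l u y m n X1 X2 X3 T : L} (hg : ∀ i, v (g i) ≤ 1)
    (hl : v l ≤ 1) (hu : v u ≤ 1) (hy : v y ≤ 1) (hm : v m ≤ 1) (hn : v n ≤ 1) (hu0 : u ≠ 0)
    (hc : c3 u y m n ≠ 0) (h : Rows g l u y m n X1 X2 X3 T) :
    v X1 ≤ 1 ∧ v X2 ≤ 1 ∧ v X3 ≤ 1 ∧ v T ≤ 1 := by
  let f : v.integer →+* L := v.integer.subtype
  have key : ∀ (Z : L) (p : Fin 5 → v.integer), v X1 ≤ v Z → v X2 ≤ v Z → v X3 ≤ v Z →
      v T ≤ v Z → Z ^ 2 + f (p 0) + f (p 1) * X1 + f (p 2) * X2 + f (p 3) * X3 + f (p 4) * T = 0 →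
      v Z ≤ 1 := by
    intro Z p h1 h2 h3 h4 he
    by_contra hlt
    have hlt : 1 < v Z := not_le.mp hlt
    have hb : ∀ (i : Fin 5) (W : L), v W ≤ v Z → v (f (p i) * W) ≤ v Z := fun i W hW => by
      rw [map_mul]; exact (mul_le_of_le_one_left' (p i).2).trans hW
    have h0 : v (f (p 0)) ≤ v Z := le_trans (p 0).2 hlt.le
    have : v (Z ^ 2) ≤ v Z := by
      rw [show Z ^ 2 = -(f (p 0) + f (p 1) * X1 + f (p 2) * X2 + f (p 3) * X3 + f (p 4) * T) by
        linear_combination he, Valuation.map_neg]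
      exact v.map_add_le (v.map_add_le (v.map_add_le (v.map_add_le h0 (hb 1 _ h1)) (hb 2 _ h2))
        (hb 3 _ h3)) (hb 4 _ h4)
    rw [map_pow, pow_two] at this
    exact absurd this (not_le.mpr (lt_mul_of_one_lt_right (zero_lt_one.trans hlt) hlt))
  obtain ⟨p1, e1⟩ := tab1 f (fun i => ⟨g i, hg i⟩) ⟨l, hl⟩ ⟨u, hu⟩ ⟨y, hy⟩ ⟨m, hm⟩ ⟨n, hn⟩
  obtain ⟨p2, e2⟩ := tab2 f (fun i => ⟨g i, hg i⟩) ⟨l, hl⟩ ⟨u, hu⟩ ⟨y, hy⟩ ⟨m, hm⟩ ⟨n, hn⟩
  obtain ⟨p3, e3⟩ := tab3 f (fun i => ⟨g i, hg i⟩) ⟨l, hl⟩ ⟨u, hu⟩ ⟨y, hy⟩ ⟨m, hm⟩ ⟨n, hn⟩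
  obtain ⟨p4, e4⟩ := tab4 f (fun i => ⟨g i, hg i⟩) ⟨l, hl⟩ ⟨u, hu⟩ ⟨y, hy⟩ ⟨m, hm⟩ ⟨n, hn⟩
  have e1 := (mul_eq_zero.mp (e1 X1 X2 X3 T h)).resolve_left hc
  have e2 := (mul_eq_zero.mp (e2 X1 X2 X3 T h)).resolve_left hc
  have e3 := (mul_eq_zero.mp (e3 X1 X2 X3 T h)).resolve_left hc
  have e4 := (mul_eq_zero.mp (e4 X1 X2 X3 T h)).resolve_left (mul_ne_zero hu0 hc)
  obtain ⟨i, -, hi⟩ := Finset.exists_max_image Finset.univ (fun i => v (![X1, X2, X3, T] i))
    Finset.univ_nonempty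
  have a1 : v X1 ≤ v (![X1, X2, X3, T] i) := hi 0 (Finset.mem_univ _)
  have a2 : v X2 ≤ v (![X1, X2, X3, T] i) := hi 1 (Finset.mem_univ _)
  have a3 : v X3 ≤ v (![X1, X2, X3, T] i) := hi 2 (Finset.mem_univ _)
  have a4 : v T ≤ v (![X1, X2, X3, T] i) := hi 3 (Finset.mem_univ _)
  have hz : v (![X1, X2, X3, T] i) ≤ 1 := by
    fin_cases i
    · exact key _ p1 a1 a2 a3 a4 e1
    · exact key _ p2 a1 a2 a3 a4 e2
    · exact key _ p3 a1 a2 a3 a4 e3
    · exact key _ p4 a1 a2 a3 a4 e4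
  exact ⟨a1.trans hz, a2.trans hz, a3.trans hz, a4.trans hz⟩

end Pool.Agent.P.MP_7ebcb6_ag.G8
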