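import Pool.Agent.P.MP_7ebcb6_ag.G8.Stmts2

/-! The four branches of a curve over the `y`-line. -/

namespace Pool.Agent.P.MP_7ebcb6_ag.G8

open Polynomial

noncomputable section

/-- Substitution of the variable of `Om`. -/
def am : ℂ[X] →+* Om := (aeval lam : ℂ[X] →ₐ[ℂ] Om)

lemma am_X : am X = lam := aeval_X lam
lemma am_C (c : ℂ) : am (C c) = algebraMap ℂ Om c := aeval_C lam c

lemma am_ne {P : ℂ[X]} (h : P ≠ 0) : am P ≠ 0 := nonConst_lam.aeval_ne_zero h

lemma am_inj : Function.Injective am :=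
  (injective_iff_map_eq_zero am).mpr fun _ h => by_contra fun h' => am_ne h' h

lemma am_ne' {P : ℂ[X]} {s : ℂ} (h : evalRingHom s P ≠ 0) : am P ≠ 0 :=
  am_ne fun e => h (by rw [e, map_zero])

lemma vam_inj {P Q : V4 ℂ[X]} (h : P.map am = Q.map am) : P = Q := by
  simp only [V4.map, V4.mk.injEq, am_inj.eq_iff] at h
  exact V4.ext h.1 h.2.1 h.2.2.1 h.2.2.2

lemma tends_am {sp : Sp} {s : ℂ} (h : Tends sp.v lam s) (P : ℂ[X]) :
    Tends sp.v (am P) (evalRingHom s P) := h.aeval P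

lemma am_le (sp : Sp) (h : sp.v lam ≤ 1) (P : ℂ[X]) : sp.v (am P) ≤ 1 := by
  obtain ⟨s, hs⟩ := sp.exists_tends h
  exact (tends_am hs P).le_one

variable {T : Tb ℂ[X]} {X1 X2 : Om}

lemma evE_le (hT : T.ok) (h : OnE (T.map am) X1 X2) (sp : Sp) (hl : sp.v lam ≤ 1)
    (P : V4 ℂ[X]) : sp.v (evE (T.map am) X1 X2 (P.map am)) ≤ 1 := by
  set e1 := am T.A * X1 with he1
  set e2 := am T.B * X2 with he2
  set e3 := am T.A * X1 * X1 + am T.p1 * X1 with he3
  have key : ∀ Z, 1 ≤ Z → sp.v e1 ≤ Z → sp.v e2 ≤ Z → sp.v e3 ≤ Z → ∀ P : V4 ℂ[X],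
      sp.v (evE (T.map am) X1 X2 (P.map am)) ≤ Z := fun Z h0 h1 h2 h3 P => by
    have hm : ∀ (Q : ℂ[X]) (e : Om), sp.v e ≤ Z → sp.v (am Q * e) ≤ Z := fun Q e he => by
      rw [map_mul]
      exact (mul_le_mul' (am_le sp hl Q) he).trans_eq (one_mul Z)
    exact sp.v.map_add_le (sp.v.map_add_le (sp.v.map_add_le ((am_le sp hl _).trans h0)
      (hm _ _ h1)) (hm _ _ h2)) (hm _ _ h3)
  let Z := max (max 1 (sp.v e1)) (max (sp.v e2) (sp.v e3))
  have hZ := key Z (by simp [Z]) (by simp [Z]) (by simp [Z]) (by simp [Z])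
  have sq : ∀ b : V4 ℂ[X], Z = sp.v (evE (T.map am) X1 X2 (b.map am)) → Z ≤ 1 := fun b hb => by
    have := hZ (mulEE T b b)
    rw [(hom_of_ringHom am).mulEE, evE_mul (hT.map (hom_of_ringHom am)) h, map_mul, ← hb] at this
    by_contra hc
    push Not at hc
    have h0 : 0 < Z := zero_lt_one.trans hc
    exact absurd this (not_le.mpr (lt_mul_of_one_lt_right h0 hc))
  have hZ1 : Z ≤ 1 := by
    rcases max_choice (max 1 (sp.v e1)) (max (sp.v e2) (sp.v e3)) with h1 | h1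
    · rcases max_choice 1 (sp.v e1) with h2 | h2
      · exact (h1.trans h2).le
      · exact sq ⟨0, 1, 0, 0⟩ ((h1.trans h2).trans (by simp [evE, V4.map, Tb.map, he1]))
    · rcases max_choice (sp.v e2) (sp.v e3) with h2 | h2
      · exact sq ⟨0, 0, 1, 0⟩ ((h1.trans h2).trans (by simp [evE, V4.map, Tb.map, he2]))
      · exact sq ⟨0, 0, 0, 1⟩ ((h1.trans h2).trans (by simp [evE, V4.map, Tb.map, he3]))
  exact (hZ P).trans hZ1

lemma tends_evE {sp : Sp} {s ξ η : ℂ} (h : Tends sp.v lam s) (h1 : Tends sp.v X1 ξ)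
    (h2 : Tends sp.v X2 η) (P : V4 ℂ[X]) : Tends sp.v (evE (T.map am) X1 X2 (P.map am))
      (evE (T.map (evalRingHom s)) ξ η (P.map (evalRingHom s))) :=
  (((tends_am h _).add ((tends_am h _).mul ((tends_am h _).mul h1))).add
    ((tends_am h _).mul ((tends_am h _).mul h2))).add
    ((tends_am h _).mul ((((tends_am h _).mul h1).mul h1).add ((tends_am h _).mul h1)))

lemma exists_branches (hT : T.ok) {s : ℂ} (hA : evalRingHom s T.A ≠ 0)
    (hB : evalRingHom s T.B ≠ 0) (hc : evalRingHom s T.c ≠ 0) (hnu : evalRingHom s T.nu ≠ 0)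
    {ξ η : Fin 4 → ℂ} (hon : ∀ a, OnE (T.map (evalRingHom s)) (ξ a) (η a))
    (hξ : Function.Injective ξ) :
    ∃ p : Fin 4 → Pt (T.map am), (Function.Injective fun k => (p k).X1) ∧
      ∀ sp : Sp, Tends sp.v lam s → ∃ σ : Fin 4 ≃ Fin 4,
        ∀ k, Tends sp.v (p k).X1 (ξ (σ k)) ∧ Tends sp.v (p k).X2 (η (σ k)) := by
  have hA' := am_ne' hA
  have hB' := am_ne' hB
  have hc' := am_ne' hc
  obtain ⟨r, hr⟩ := exists_wpol (K := Om) ⟨am T.B * am T.c ^ 2 / am T.A,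
    am T.pm * am T.c / am T.A, am T.p0 / am T.A, am T.p1 / am T.A⟩
  have hq : ∀ x, am T.A * x ^ 4 + am T.p1 * x ^ 3 + am T.p0 * x ^ 2 + am T.pm * am T.c * x
      + am T.B * am T.c ^ 2 = am T.A * ((x - r 0) * (x - r 1) * (x - r 2) * (x - r 3)) := fun x => by
    rw [← quart_wpol, ← hr]
    simp only [quart]
    field_simp
  have hq0 : ∀ k, am T.A * r k ^ 4 + am T.p1 * r k ^ 3 + am T.p0 * r k ^ 2
      + am T.pm * am T.c * r k + am T.B * am T.c ^ 2 = 0 := fun k => by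
    rw [hq, ← quart_wpol, quart_root, mul_zero]
  have hr0 : ∀ k, r k ≠ 0 := fun k h0 => by
    have := hq0 k
    simp [h0, hB', hc'] at this
  have hon' : ∀ k, OnE (T.map am) (r k) (am T.c / r k) := fun k => by
    have := hr0 k
    refine ⟨by simp only [Tb.map]; field_simp, ?_⟩
    simp only [Tb.map]
    field_simp
    linear_combination hq0 k
  choose p hp1 hp2 using fun k =>
    exists_pt (hT.map (hom_of_ringHom am)) (am_ne' hnu) (hon' k)
  have main : ∀ sp : Sp, Tends sp.v lam s → ∃ σ : Fin 4 ≃ Fin 4,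
      ∀ k, Tends sp.v (p k).X1 (ξ (σ k)) ∧ Tends sp.v (p k).X2 (η (σ k)) := fun sp hl => by
    have hfin : ∀ k, ∃ ρ, Tends sp.v (r k) ρ := fun k => sp.exists_tends (by
      have := evE_le hT (hon' k) sp hl.le_one ⟨0, 1, 0, 0⟩
      simpa [evE, V4.map, Tb.map, (tends_am hl _).eq_one hA] using this)
    choose ρ hρ using hfin
    have hex : ∀ a, ∃ k, ξ a = ρ k := fun a => by
      have c := Tends.const (v := sp.v) (ξ a)
      have := (((((((tends_am hl T.A).mul (c.pow 4)).add ((tends_am hl T.p1).mul (c.pow 3))).add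
        ((tends_am hl T.p0).mul (c.pow 2))).add
        (((tends_am hl T.pm).mul (tends_am hl T.c)).mul c)).add
        ((tends_am hl T.B).mul ((tends_am hl T.c).pow 2)))).eq_of_eq
        ((tends_am hl T.A).mul ((((c.sub (hρ 0)).mul (c.sub (hρ 1))).mul (c.sub (hρ 2))).mul
          (c.sub (hρ 3)))) (hq _)
      obtain ⟨e1, e2⟩ := hon a
      simp only [Tb.map] at e1 e2
      have h0 : evalRingHom s T.A * quart (wpol (ρ 0) (ρ 1) (ρ 2) (ρ 3)) (ξ a) = 0 := by
        rw [quart_wpol, ← this, ← e1]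
        linear_combination ξ a ^ 2 * e2
      exact root_of_quart ((mul_eq_zero.mp h0).resolve_left hA)
    choose τ hτ using hex
    have hinj : Function.Injective τ := fun a b hab => hξ (by rw [hτ a, hτ b, hab])
    let e := Equiv.ofBijective τ (Finite.injective_iff_bijective.mp hinj)
    refine ⟨e.symm, fun k => ?_⟩
    have h1 : ξ (e.symm k) = ρ k := by
      rw [hτ]; exact congrArg ρ (e.apply_symm_apply k)
    have e1 : ξ (e.symm k) * η (e.symm k) = evalRingHom s T.c := (hon _).1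
    have h2 : ξ (e.symm k) ≠ 0 := fun h => hc (by rw [← e1, h, zero_mul])
    rw [hp1, hp2]
    refine ⟨h1 ▸ hρ k, ((tends_am hl T.c).div (h1 ▸ hρ k) h2).of_eq_right ?_⟩
    rw [← e1]; field_simp
  refine ⟨p, fun k l hkl => ?_, main⟩
  obtain ⟨sp, hl⟩ := nonConst_lam.exists_sp s
  obtain ⟨σ, hσ⟩ := main sp hl
  exact σ.injective (hξ ((hσ k).1.eq_of_eq (hσ l).1 hkl))

/-- The ring of even functions on the four branches. -/
def Ev (hT : T.ok) (p : Fin 4 → Pt (T.map am)) : Subring (Fin 4 → Om) where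
  carrier := {z | ∃ P : V4 ℂ[X], ∀ k, z k = (p k).e (P.map am)}
  mul_mem' := by
    rintro a b ⟨P, hP⟩ ⟨Q, hQ⟩
    refine ⟨mulEE T P Q, fun k => ?_⟩
    rw [(hom_of_ringHom am).mulEE, (p k).e_mulEE _ _ (hT.map (hom_of_ringHom am)), ← hP, ← hQ]
    rfl
  one_mem' := ⟨⟨1, 0, 0, 0⟩, fun k => by simp [Pt.e, evE, V4.map]⟩
  add_mem' := by
    rintro a b ⟨P, hP⟩ ⟨Q, hQ⟩
    refine ⟨P + Q, fun k => ?_⟩
    rw [(hom_of_ringHom am).vadd, (p k).e_add, ← hP, ← hQ]
    rfl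
  zero_mem' := ⟨⟨0, 0, 0, 0⟩, fun k => by simp [Pt.e, evE, V4.map]⟩
  neg_mem' := by
    rintro a ⟨P, hP⟩
    refine ⟨V4.sm (-1) P, fun k => ?_⟩
    rw [(hom_of_ringHom am).sm, (p k).e_sm, ← hP]
    simp

def Ev.of (hT : T.ok) (p : Fin 4 → Pt (T.map am)) (P : V4 ℂ[X]) : Ev hT p :=
  ⟨fun k => (p k).e (P.map am), P, fun _ => rfl⟩

def Ev.sc (hT : T.ok) (p : Fin 4 → Pt (T.map am)) (P : ℂ[X]) : Ev hT p :=
  ⟨fun _ => am P, ⟨P, 0, 0, 0⟩, fun k => by simp [Pt.e, evE, V4.map]⟩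

def Ev.ev (hT : T.ok) (p : Fin 4 → Pt (T.map am)) (k : Fin 4) : Ev hT p →+* Om :=
  (Pi.evalRingHom (fun _ => Om) k).comp (Ev hT p).subtype

lemma mulEE_one {K : Type} [CommRing K] (T : Tb K) (v : V4 K) : mulEE T ⟨1, 0, 0, 0⟩ v = v := by
  simp [mulEE]

/-- Division by a function that is invertible in one fibre. -/
lemma vanish_at (hT : T.ok) {p : Fin 4 → Pt (T.map am)}
    (hp : Function.Injective fun k => (p k).X1) (hA : am T.A ≠ 0) (hB : am T.B ≠ 0)
    (hc : am T.c ≠ 0) {t : ℂ} {S E : V4 ℂ[X]} {L : ℂ[X]} (hL : evalRingHom t L = 0) {i : V4 ℂ}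
    (hi : (mulEE (T.map (evalRingHom t)) i (S.map (evalRingHom t))).sc 1 = V4.z) (Z : Ev hT p)
    (h : ∀ k, (p k).e (S.map am) * (p k).e (E.map am) = am L * Ev.ev hT p k Z) :
    E.map (evalRingHom t) = V4.z := by
  obtain ⟨Z, P, hP⟩ := Z
  have hh := hom_of_ringHom am
  have he := hom_of_ringHom (evalRingHom t)
  have hT' := hT.map hh
  have e : mulEE T (mulEE T (i.map C) S) E = V4.sm L (mulEE T (i.map C) P) :=
    vam_inj (vsub_eq_z (indepE hp hA hB hc fun k => by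
      simp only [Pt.e_sub, hh.mulEE, hh.sm, Pt.e_mulEE _ _ _ hT', Pt.e_sm, ← hP]
      have := h k
      change _ = am L * Z k at this
      linear_combination (p k).e ((i.map C).map am) * this))
  have e2 := congrArg (V4.map (evalRingHom t)) e
  have e3 : (i.map C).map (evalRingHom t) = i := by simp [V4.map]
  have e4 : mulEE (T.map (evalRingHom t)) i (S.map (evalRingHom t)) = ⟨1, 0, 0, 0⟩ := by
    simp only [V4.sc, V4.z, V4.mk.injEq, sub_eq_zero] at hi
    exact V4.ext hi.1 hi.2.1 hi.2.2.1 hi.2.2.2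
  rw [he.mulEE, he.mulEE, he.sm, e3, e4, mulEE_one, hL] at e2
  rw [e2]
  simp [V4.sm, V4.z]

end

end Pool.Agent.P.MP_7ebcb6_ag.G8
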