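import Pool.Agent.P.MP_7ebcb6_ag.G8.Data

/-! Kernel check of one part of the system at the solution modulo 41. -/

namespace Pool.Agent.P.MP_7ebcb6_ag.G8

theorem cert2 : chkL bB 232 (blk oF pF xF 2 [V4.at xF 188]) 108 = true := by
  decide +kernel

end Pool.Agent.P.MP_7ebcb6_ag.G8
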