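import Pool.Agent.P.MP_7ebcb6_ag.G8.Syz

/-! Values of the coordinate vectors at the points of a curve, and linear independence. -/

namespace Pool.Agent.P.MP_7ebcb6_ag.G8

section ring

variable {K : Type} [CommRing K] {T : Tb K} (X1 X2 : K) (x y : V4 K) (k : K)

lemma evE_add : evE T X1 X2 (x + y) = evE T X1 X2 x + evE T X1 X2 y := by
  simp only [evE, vadd_def]; ring
lemma evE_sub : evE T X1 X2 (x - y) = evE T X1 X2 x - evE T X1 X2 y := by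
  simp only [evE, vsub_def]; ring
lemma evE_sm : evE T X1 X2 (V4.sm k x) = k * evE T X1 X2 x := by simp only [evE, V4.sm]; ring
lemma evE_ac : evE T X1 X2 (x.ac k) = evE T X1 X2 x + k := by simp only [evE, V4.ac]; ring
lemma evE_sc : evE T X1 X2 (x.sc k) = evE T X1 X2 x - k := by simp only [evE, V4.sc]; ring

variable (p : Pt T)

lemma Pt.e_add : p.e (x + y) = p.e x + p.e y := evE_add ..
lemma Pt.e_sub : p.e (x - y) = p.e x - p.e y := evE_sub ..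
lemma Pt.e_sm : p.e (V4.sm k x) = k * p.e x := evE_sm ..
lemma Pt.e_ac : p.e (x.ac k) = p.e x + k := evE_ac ..
lemma Pt.e_sc : p.e (x.sc k) = p.e x - k := evE_sc ..
lemma Pt.e_mulEE (hT : T.ok) : p.e (mulEE T x y) = p.e x * p.e y := evE_mul hT p.on x y
lemma Pt.o_add : p.o (x + y) = p.o x + p.o y := by simp only [Pt.o, vadd_def]; ring
lemma Pt.o_sub : p.o (x - y) = p.o x - p.o y := by simp only [Pt.o, vsub_def]; ring
lemma Pt.o_sm : p.o (V4.sm k x) = k * p.o x := by simp only [Pt.o, V4.sm]; ring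

def V4.z : V4 K := ⟨0, 0, 0, 0⟩

lemma Pt.e_z : p.e V4.z = 0 := by simp [Pt.e, evE, V4.z]
lemma Pt.o_z : p.o V4.z = 0 := by simp [Pt.o, V4.z]

lemma vsub_eq_z {x y : V4 K} (h : x - y = V4.z) : x = y := by
  simp only [vsub_def, V4.z, V4.mk.injEq, sub_eq_zero] at h
  exact V4.ext h.1 h.2.1 h.2.2.1 h.2.2.2

structure Cv.ok (C : Cv K) : Prop where
  T : C.T.ok
  o : C.o = 1
  mm : C.mm = mulOO C.T C.m C.m
  mn : C.mn = mulOO C.T C.m C.n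
  nn : C.nn = mulOO C.T C.n C.n
  mx2 : C.mx2 = mulOO C.T C.m C.x2
  mx3 : C.mx3 = mulOO C.T C.m C.x3
  nx2 : C.nx2 = mulOO C.T C.n C.x2
  nx3 : C.nx3 = mulOO C.T C.n C.x3

lemma Tb.ok.map {S : Type} [CommRing S] {f : K → S} (h : Hom f) (hT : T.ok) : (T.map f).ok := by
  rw [hT, h.mkTb]; exact ok_mkTb ..

lemma Cv.ok.map {S : Type} [CommRing S] {C : Cv K} (hC : C.ok) (f : K →+* S) : (C.map f).ok := by
  have h := hom_of_ringHom f
  refine ⟨hC.T.map h, by simp [Cv.map, hC.o], ?_, ?_, ?_, ?_, ?_, ?_, ?_⟩ <;>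
    simp only [Cv.map, ← h.mulOO, ← hC.mm, ← hC.mn, ← hC.nn, ← hC.mx2, ← hC.mx3, ← hC.nx2,
      ← hC.nx3]

variable {C : Cv K} (hC : C.ok) (q : Pt C.T) (z : V4 K)
include hC

lemma Cv.ok.e_mm : q.e C.mm = q.o C.m * q.o C.m := by rw [hC.mm, q.e_mulOO hC.T]
lemma Cv.ok.e_mn : q.e C.mn = q.o C.m * q.o C.n := by rw [hC.mn, q.e_mulOO hC.T]
lemma Cv.ok.e_nn : q.e C.nn = q.o C.n * q.o C.n := by rw [hC.nn, q.e_mulOO hC.T]
lemma Cv.ok.e_mx2 : q.e C.mx2 = q.o C.m * q.o C.x2 := by rw [hC.mx2, q.e_mulOO hC.T]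
lemma Cv.ok.e_mx3 : q.e C.mx3 = q.o C.m * q.o C.x3 := by rw [hC.mx3, q.e_mulOO hC.T]
lemma Cv.ok.e_nx2 : q.e C.nx2 = q.o C.n * q.o C.x2 := by rw [hC.nx2, q.e_mulOO hC.T]
lemma Cv.ok.e_nx3 : q.e C.nx3 = q.o C.n * q.o C.x3 := by rw [hC.nx3, q.e_mulOO hC.T]

lemma Cv.ok.e_Q : q.e C.Q = qQ C.y (q.o C.m) (q.o C.n) := by
  simp only [Cv.Q, q.e_ac, q.e_sub, hC.e_mm, hC.e_nn, qQ]; ring
lemma Cv.ok.o_r1 : q.o C.r1 = G8.r1 C.g 1 C.y (q.o C.m) (q.o C.n) := by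
  simp only [Cv.r1, q.o_add, q.o_sub, q.o_sm, G8.r1, a12, a13]; ring
lemma Cv.ok.e_r2 : q.e C.r2 = G8.r2 C.g 1 C.y (q.o C.m) (q.o C.n) := by
  simp only [Cv.r2, q.e_add, q.e_sub, q.e_sm, q.e_sc, hC.e_mm, hC.e_mn, hC.o, G8.r2, a22, a23, a33]
  ring
lemma Cv.ok.e_r3 : q.e C.r3 = G8.r3 C.g 1 (q.o C.m) := by
  simp only [Cv.r3, q.e_sm, q.e_sc, hC.e_mm, hC.o, G8.r3, a33]; ring

lemma Cv.ok.o_R1 : q.o (C.R1 C.Q) = q.o C.m * q.e C.x1 + 1 * q.o C.x2 + C.y * q.o C.x3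
    - n1 C.g 1 C.y (q.o C.m) (q.o C.n) := by
  simp only [Cv.R1, q.o_add, q.o_sm, q.o_mulEO hC.T, hC.e_Q, hC.o_r1, n1]; ring
lemma Cv.ok.e_R2 : q.e (C.R2 C.Q) = 1 * q.e C.x1 + q.o C.m * q.o C.x2 + q.o C.n * q.o C.x3
    - n2 C.g 1 C.y (q.o C.m) (q.o C.n) := by
  simp only [Cv.R2, q.e_add, q.e_sub, q.e_sm, hC.e_mx2, hC.e_nx3, hC.e_Q, hC.e_r2, n2]; ring
lemma Cv.ok.e_R3 : q.e C.R3 = C.y * q.e C.x1 + q.o C.n * q.o C.x2 + q.o C.m * q.o C.x3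
    - n3 C.g 1 (q.o C.m) := by
  simp only [Cv.R3, q.e_add, q.e_sm, hC.e_mx3, hC.e_nx2, hC.e_r3, n3]; ring

lemma Cv.ok.o_W : q.o (C.W C.Q) = C.y * q.o (C.R1 C.Q) + q.o C.n * q.e (C.R2 C.Q)
    - q.o C.m * q.e C.R3 := by
  rw [hC.o_R1, hC.e_R2, hC.e_R3]
  simp only [Cv.W, q.o_add, q.o_sub, q.o_sm, q.o_mulEO hC.T, hC.e_Q, hC.o_r1, hC.e_r2, hC.e_r3,
    n1, n2, n3, qQ]
  ring

lemma Cv.ok.e_E : q.e C.E = eE C.g C.l C.y (q.o C.m) (q.o C.n) (q.e C.x1) (q.o C.x2)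
    (q.o C.x3) := by
  simp only [Cv.E, q.e_ac, q.e_add, q.e_sub, q.e_sm, q.e_mulOO hC.T, q.o_add, q.o_sub, hC.e_mm,
    hC.e_mn, hC.e_nn, hC.e_nx2, hC.e_nx3, hC.o, eE]

end ring

section field

variable {K : Type} [Field K] {T : Tb K} {p : Fin 4 → Pt T}

lemma indepE (hp : Function.Injective fun k => (p k).X1) (hA : T.A ≠ 0) (hB : T.B ≠ 0)
    (hc : T.c ≠ 0) {v : V4 K} (h : ∀ k, (p k).e v = 0) : v = V4.z := by
  have := Matrix.eq_zero_of_forall_index_sum_mul_pow_eq_zero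
    (v := ![v.c * T.B * T.c, v.a, v.b * T.A + v.d * T.p1, v.d * T.A]) hp fun k => by
      have h1 := h k
      have h2 := (p k).on.1
      simp only [Pt.e, evE] at h1
      simp only [Fin.sum_univ_four, Matrix.cons_val_zero, Matrix.cons_val_one, Matrix.cons_val]
      simp
      linear_combination (p k).X1 * h1 - v.c * T.B * h2
  have h0 := congrFun this 0
  have h1 := congrFun this 1
  have h2 := congrFun this 2
  have h3 := congrFun this 3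
  simp only [Matrix.cons_val_zero, Matrix.cons_val_one, Matrix.cons_val, Pi.zero_apply,
    mul_eq_zero, hA, hB, hc, or_false] at h0 h1 h2 h3
  rw [h3, zero_mul, add_zero, mul_eq_zero] at h2
  exact V4.ext h1 (h2.resolve_right hA) h0 h3

lemma indepO (hT : T.ok) (hp : Function.Injective fun k => (p k).X1) (hA : T.A ≠ 0)
    (hB : T.B ≠ 0) (hc : T.c ≠ 0) (hnu : T.nu ≠ 0) (hcab : T.cab ≠ 0) {v : V4 K}
    (h : ∀ k, (p k).o v = 0) : v = V4.z := by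
  have h1 := indepE hp hA hB hc (v := mulOO T ⟨1, 0, 0, 0⟩ v) fun k => by
    rw [(p k).e_mulOO hT, h, mul_zero]
  have h2 := indepE hp hA hB hc (v := mulOO T ⟨0, 1, 0, 0⟩ v) fun k => by
    rw [(p k).e_mulOO hT, h, mul_zero]
  simp only [mulOO, V4.sm, V4.z, V4.mk.injEq, mul_eq_zero, hnu, false_or, one_mul, zero_mul,
    add_zero, sub_zero, zero_add, zero_sub, neg_eq_zero] at h1 h2
  obtain ⟨-, -, h3, h4⟩ := h1
  obtain ⟨-, h5, -, h6⟩ := h2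
  simp only [h4, h6, zero_mul, sub_zero, mul_eq_zero, hcab, or_false] at h3 h5
  exact V4.ext h4 h6 h3 h5

lemma exists_pt [IsAlgClosed K] (hT : T.ok) (hnu : T.nu ≠ 0) {X1 X2 : K} (h : OnE T X1 X2) :
    ∃ p : Pt T, p.X1 = X1 ∧ p.X2 = X2 := by
  have hq : (T.ka + T.q * X2 + X2 * X2) * (T.rho + T.r * X1 + X1 * X1)
      = (T.M + T.a * X1 + T.b * X2) * (T.M + T.a * X1 + T.b * X2) := by
    obtain ⟨c, A, B, M, a, b, q, r, nu, ka, rho, cab, mar, mbq, p1, pm, p0⟩ := T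
    simp only [Tb.ok, mkTb, Tb.mk.injEq, true_and] at hT
    obtain ⟨rfl, rfl, rfl, rfl, rfl, rfl, rfl, rfl⟩ := hT
    obtain ⟨hc, hf⟩ := h
    simp only at hc hf ⊢
    subst hc
    linear_combination hf
  have key : ∃ s1 s3 : K, s1 * s1 = T.nu * (T.ka + T.q * X2 + X2 * X2) ∧
      s1 * s3 = T.nu * (T.M + T.a * X1 + T.b * X2) ∧
      s3 * s3 = T.nu * (T.rho + T.r * X1 + X1 * X1) := by
    obtain ⟨s1, h1⟩ := IsAlgClosed.exists_eq_mul_self (T.nu * (T.ka + T.q * X2 + X2 * X2))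
    by_cases h0 : s1 = 0
    · obtain ⟨s3, h3⟩ := IsAlgClosed.exists_eq_mul_self (T.nu * (T.rho + T.r * X1 + X1 * X1))
      have h4 : T.ka + T.q * X2 + X2 * X2 = 0 := by
        rw [h0, mul_zero, mul_eq_zero] at h1
        exact h1.resolve_left hnu
      rw [h4, zero_mul, eq_comm, mul_self_eq_zero] at hq
      exact ⟨s1, s3, h1.symm, by rw [h0, hq]; ring, h3.symm⟩
    · refine ⟨s1, T.nu * (T.M + T.a * X1 + T.b * X2) / s1, h1.symm, by field_simp, ?_⟩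
      field_simp
      linear_combination -T.nu * hq + (T.rho + T.r * X1 + X1 * X1) * h1
  obtain ⟨s1, s3, h1, h2, h3⟩ := key
  refine ⟨⟨X1, X2, s1, s3, h, h1, h2, h3, mul_left_cancel₀ hnu ?_, mul_left_cancel₀ hnu ?_⟩,
    rfl, rfl⟩
  · linear_combination s3 * h1 - s1 * h2
  · linear_combination s3 * h2 - s1 * h3

end field

end Pool.Agent.P.MP_7ebcb6_ag.G8
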