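import Pool.Agent.P.MP_7ebcb6_ag.Defs

/-!
The eight-parameter family of Catanese-Debarre matrices whose surfaces carry a free involution.
The weighted coordinates are `x, y, m, n` of degrees `1, 2, 2, 2`, and `u = x²`.
The involution negates `m` and `n`.
-/

open scoped LinearAlgebra.Projectivization
open MvPolynomial

namespace Pool.Agent.P.MP_7ebcb6_ag.G8

noncomputable section

/-- The Cayley cubic `det [[m,u,y],[u,m,n],[y,n,m]]`. -/
def cayley (u y m n : ℂ) : ℂ := m ^ 3 - m * (u ^ 2 + y ^ 2 + n ^ 2) + 2 * u * y * n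

/-- The cubic form in the corner of the matrix. -/
def cubicG (g : Fin 6 → ℂ) (la mu u y m n : ℂ) : ℂ :=
  -m ^ 3 - (g 1 + g 3 + 2 * g 5) * m * (y ^ 2 - n ^ 2)
    + (g 4 ^ 2 - g 3 * g 5 - g 1 * g 5 - g 1 * g 3) * m * (m ^ 2 - u ^ 2)
    + (g 3 * g 4 - g 2 * g 5 - g 1 * g 2 - g 0 * g 5 - g 0 * g 3) * m * (u * y - m * n)
    + g 2 * (g 4 - g 0) * m * (m ^ 2 - y ^ 2)
    + 2 * g 4 * (u * y * m - n * (y ^ 2 + n ^ 2 - m ^ 2))
    + (g 0 + g 2) * (2 * y ^ 2 * n - u * y * m - m ^ 2 * n)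
    + g 1 * g 4 * (u * y * m + m ^ 2 * n - 2 * u ^ 2 * n) + g 0 * g 4 * m * (u ^ 2 - n ^ 2)
    + la * cayley u y m n + 2 * mu * y * (2 * y * n - u * m)

/-- The four quadrics in the first row of the matrix. -/
def quadQ (g : Fin 6 → ℂ) (mu u y m n : ℂ) : Fin 4 → ℂ :=
  ![mu * y * m, g 0 * (n * y - u * m) + g 1 * (u * n - y * m) - y * m,
    g 2 * (m ^ 2 - y ^ 2) + g 3 * (u * y - m * n) + g 4 * (m ^ 2 - u ^ 2) + m * n,
    g 5 * (m ^ 2 - u ^ 2)]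

/-- The symmetric `6 × 6` matrix in Catanese-Debarre form. -/
def cdMatrix (g : Fin 6 → ℂ) (la mu x y m n : ℂ) : Matrix (Fin 6) (Fin 6) ℂ :=
  let G := cubicG g la mu (x ^ 2) y m n
  let q := quadQ g mu (x ^ 2) y m n
  let Q := y ^ 2 + n ^ 2 - m ^ 2
  !![x ^ 2 * G, x * q 0, x * q 1, x * q 2, x * q 3, Q;
     x * q 0, m, -n, y, 0, x;
     x * q 1, -n, m, x ^ 2, y, 0;
     x * q 2, y, x ^ 2, m, n, 0;
     x * q 3, 0, y, n, m, 0;
     Q, x, 0, 0, 0, 0]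

/-- The cone over the octic surface in `ℙ³` with coordinates `(u, y, m, n) = (x², y, m, n)`. -/
def octic (g : Fin 6 → ℂ) (la mu : ℂ) : Set (Fin 4 → ℂ) :=
  {p | ∃ x, x ^ 2 = p 0 ∧ (cdMatrix g la mu x (p 1) (p 2) (p 3)).det = 0}

/-- The invariant quadrics, which embed the quotient of `ℙ³` by the involution in `ℙ⁵`. -/
def nu (p : Fin 4 → ℂ) : Fin 6 → ℂ :=
  ![p 0 ^ 2, p 0 * p 1, p 1 ^ 2, p 2 ^ 2, p 2 * p 3, p 3 ^ 2]

/-- The degree and the sign under the involution of the variables `u, y, m, n`. -/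
def wt4 : Fin 4 → ℕ × ZMod 2 := ![(1, 0), (1, 0), (1, 1), (1, 1)]

/-- The Zariski closure of the image of `S` under the map given by the forms `N`. -/
def closedImage {n : ℕ} (S : Set (Fin 4 → ℂ)) (N : Fin (n + 1) → MvPolynomial (Fin 4) ℂ) :
    Set (ℙ ℂ (Fin (n + 1) → ℂ)) :=
  zariskiClosure {z | ∃ p ∈ S, ∃ h : (fun i => eval p (N i)) ≠ 0, z = Projectivization.mk ℂ _ h}

/-- The map `R` to `ℙ⁵` is undefined at `z`, or sends `z` to the image of a point of `S` that lies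
on the plane `u = 0`, on the Cayley cubic, or in the base locus of `N`. -/
def Exceptional {n : ℕ} (S : Set (Fin 4 → ℂ)) (N : Fin (n + 1) → MvPolynomial (Fin 4) ℂ)
    (R : Fin 6 → MvPolynomial (Fin (n + 1)) ℂ) (z : ℙ ℂ (Fin (n + 1) → ℂ)) : Prop :=
  ∀ p ∈ S, (fun j => eval z.rep (R j)) = nu p →
    p 0 * cayley (p 0) (p 1) (p 2) (p 3) = 0 ∨ ∀ i, eval p (N i) = 0

end

end Pool.Agent.P.MP_7ebcb6_ag.G8
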