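import Pool.Agent.P.MP_7ebcb6_ag.G8.Fam

/-! Embeddings of a function field into `Om` and places with their ramification indices. -/

open scoped WithZero IntermediateField Polynomial
open WithZero

namespace Pool.Agent.P.MP_7ebcb6_ag.G8

noncomputable section

variable {K : Type} [Field K] [Algebra ℂ K]

/-- The specialisation `sp` induces the valuation `w` through the embedding `σ`. -/
def LiesV (sp : Sp) (σ : K →ₐ[ℂ] Om) (w : Valuation K ℤᵐ⁰) : Prop :=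
  w.IsEquiv (sp.v.comap (σ : K →+* Om))

lemma exists_liesV (hK : IsCurveField K) (sp : Sp) (σ : K →ₐ[ℂ] Om) {x : K} (hx0 : x ≠ 0)
    (hx : sp.v (σ x) < 1) : ∃ w : Valuation K ℤᵐ⁰, IsPlace w ∧ LiesV sp σ w := by
  have hne : sp.O.comap (σ : K →+* Om) ≠ ⊤ := by
    intro htop
    have h1 : x⁻¹ ∈ sp.O.comap (σ : K →+* Om) := htop ▸ ValuationSubring.mem_top _
    have h2 : sp.v (σ x⁻¹) ≤ 1 := (sp.O.valuation_le_one_iff _).mpr h1
    rw [map_inv₀] at h2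
    exact absurd ((Valuation.one_lt_val_iff sp.v (inv_ne_zero ((map_ne_zero σ).mpr hx0))).mpr
      (by rwa [inv_inv])) (not_lt.mpr h2)
  obtain ⟨w, hw, hO⟩ := hK.exists_place (sp.O.comap (σ : K →+* Om))
    (fun c => by
      change σ (algebraMap ℂ K c) ∈ sp.O
      rw [σ.commutes]; exact sp.const_mem c) hne
  refine ⟨w, hw, Valuation.isEquiv_iff_val_le_one.mpr fun {x} => ?_⟩
  rw [← Valuation.mem_valuationSubring_iff, hO]
  exact (sp.O.valuation_le_one_iff _).symm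

lemma exists_sp_liesV (σ : K →ₐ[ℂ] Om) {w : Valuation K ℤᵐ⁰}
    (hw : IsPlace w) : ∃ sp : Sp, LiesV sp σ w := by
  obtain ⟨A, hA, hloc⟩ := IsLocalRing.exists_factor_valuationRing
    ((σ : K →+* Om).comp w.valuationSubring.subtype)
  have key : ∀ x : K, w x ≤ 1 ↔ σ x ∈ A := by
    intro x
    refine ⟨fun hx => hA ⟨x, hx⟩, fun hx => ?_⟩
    by_contra hx'
    push Not at hx'
    have h0 : x ≠ 0 := by rintro rfl; simp at hx'
    have h1 : w x⁻¹ < 1 := (Valuation.one_lt_val_iff w h0).mp hx'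
    have hu : IsUnit (((σ : K →+* Om).comp w.valuationSubring.subtype).codRestrict A.toSubring hA
        ⟨x⁻¹, h1.le⟩) := by
      refine IsUnit.of_mul_eq_one ⟨σ x, hx⟩ (Subtype.ext ?_)
      change σ x⁻¹ * σ x = 1
      rw [← map_mul, inv_mul_cancel₀ h0, map_one]
    have hu' := (isUnit_map_iff _ _).mp hu
    obtain ⟨y, hy⟩ := hu'.exists_right_inv
    have hy' : x⁻¹ * (y : K) = 1 := congrArg Subtype.val hy
    have hy2 : w (y : K) ≤ 1 := y.2
    have := congrArg w hy'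
    rw [map_mul, map_one] at this
    exact absurd this (mul_lt_one_of_nonneg_of_lt_one_left zero_le h1 hy2).ne
  have hne : A ≠ ⊤ := by
    intro htop
    apply hw.ne_top
    rw [eq_top_iff]
    intro x _
    exact (key x).mpr (htop ▸ ValuationSubring.mem_top _)
  refine ⟨⟨A, fun c => σ.commutes c ▸ (key (algebraMap ℂ K c)).mp (hw.const_le_one c), hne⟩,
    Valuation.isEquiv_iff_val_le_one.mpr fun {x} => ?_⟩
  rw [key]
  exact (A.valuation_le_one_iff _).symm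

lemma aeval_lam (p : ℂ[X]) : Polynomial.aeval lam p
    = algebraMap (RatFunc ℂ) Om (algebraMap ℂ[X] (RatFunc ℂ) p) := by
  rw [lam, Polynomial.aeval_algebraMap_apply, RatFunc.aeval_X_left_eq_algebraMap]

/-- Every rational function is a power of `x` times a unit at the zero of `x`. -/
def Unif (x : RatFunc ℂ) : Prop :=
  x ≠ 0 ∧ ∀ r : RatFunc ℂ, r ≠ 0 → ∃ k : ℤ, ∀ sp : Sp, sp.v (algebraMap _ Om x) < 1 →
    sp.v (algebraMap _ Om r) = sp.v (algebraMap _ Om x) ^ k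

lemma unif_of_poly {x : RatFunc ℂ} (h0 : x ≠ 0) (h : ∀ p : ℂ[X], p ≠ 0 → ∃ k : ℤ, ∀ sp : Sp,
    sp.v (algebraMap _ Om x) < 1 → sp.v (Polynomial.aeval lam p) = sp.v (algebraMap _ Om x) ^ k) :
    Unif x := by
  refine ⟨h0, fun r hr => ?_⟩
  obtain ⟨k, hk⟩ := h r.num (RatFunc.num_ne_zero hr)
  obtain ⟨l, hl⟩ := h r.denom r.denom_ne_zero
  refine ⟨k - l, fun sp hsp => ?_⟩
  rw [zpow_sub₀ (by simpa using h0), ← hk sp hsp, ← hl sp hsp, aeval_lam, aeval_lam, ← map_div₀,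
    ← map_div₀, RatFunc.num_div_denom]

lemma unif_X : Unif RatFunc.X := by
  refine unif_of_poly RatFunc.X_ne_zero fun p hp => ?_
  obtain ⟨q, hq, hq'⟩ := Polynomial.exists_eq_pow_rootMultiplicity_mul_and_not_dvd p hp 0
  refine ⟨p.rootMultiplicity 0, fun sp hsp => ?_⟩
  have h1 : Tends sp.v lam 0 := Tends.zero_iff.mpr hsp
  have h2 := (h1.aeval q).eq_one fun h => hq' (Polynomial.dvd_iff_isRoot.mpr h)
  conv_lhs => rw [hq]
  rw [map_mul, map_mul, h2, mul_one, map_zero, sub_zero, map_pow, map_pow, Polynomial.aeval_X,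
    zpow_natCast]
  rfl

lemma unif_inv : Unif RatFunc.X⁻¹ := by
  refine unif_of_poly (inv_ne_zero RatFunc.X_ne_zero) fun p hp => ?_
  refine ⟨-(p.natDegree : ℤ), fun sp hsp => ?_⟩
  rw [map_inv₀] at hsp ⊢
  rw [Polynomial.valuation_aeval_eq_valuation_X_pow_natDegree_of_one_lt_valuation_X lam
    ((Valuation.one_lt_val_iff _ nonConst_lam.ne_zero).mpr hsp) hp, map_inv₀, inv_zpow', neg_neg,
    zpow_natCast]
  rfl

section core

variable [Algebra (RatFunc ℂ) K] [IsScalarTower ℂ (RatFunc ℂ) K] [FiniteDimensional (RatFunc ℂ) K]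

open Classical in
lemma card_fiber (hK : IsCurveField K) {x : RatFunc ℂ} (hx : Unif x)
    {Z : Finset (Valuation K ℤᵐ⁰)} (hZ : ∀ w, w ∈ Z ↔ IsPlace w ∧ w (algebraMap _ K x) < 1)
    {w : Valuation K ℤᵐ⁰} (hw : w ∈ Z) : ∃ k : ℤ, ∀ (sp : Sp)
      (W : (K →ₐ[RatFunc ℂ] Om) → Valuation K ℤᵐ⁰), sp.v (algebraMap _ Om x) < 1 →
      (∀ σ, IsPlace (W σ) ∧ LiesV sp (σ.restrictScalars ℂ) (W σ)) →
      ((Finset.univ.filter fun σ => W σ = w).card : ℤ) = k * ord w (algebraMap _ K x) := by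
  obtain ⟨g, hg, hg'⟩ := hK.exists_approx Z (fun w h => ((hZ w).mp h).1) w hw
  have hg0 : g ≠ 0 := by
    rintro rfl
    rw [map_zero] at hg
    exact exp_ne_zero hg.symm
  have hx0 : algebraMap _ K x ≠ 0 := by simpa using hx.1
  obtain ⟨k, hk⟩ := hx.2 (Algebra.norm _ g) (Algebra.norm_ne_zero_iff.mpr hg0)
  refine ⟨k, fun sp W hsp hW => ?_⟩
  obtain ⟨e, he⟩ := Int.eq_ofNat_of_zero_le (ord_pos_of_lt_one hx0 ((hZ w).mp hw).2).le
  have hwe : w (g ^ e) = w (algebraMap _ K x) := by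
    have hne : w (algebraMap _ K x) ≠ 0 := by simpa using hx0
    rw [map_pow, hg, ← exp_nsmul, ← exp_log hne, exp_inj]
    have : log (w (algebraMap _ K x)) = -(e : ℤ) := by rw [← he, ord, neg_neg]
    rw [this]; simp
  have h1 : ∀ σ : K →ₐ[RatFunc ℂ] Om,
      sp.v (σ g) ^ e = if W σ = w then sp.v (algebraMap _ Om x) else 1 := by
    intro σ
    split_ifs with h
    · have := (hW σ).2.eq_iff.mp (h ▸ hwe)
      rw [← map_pow, ← map_pow, ← σ.commutes x]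
      exact this
    · have h2 : W σ ∈ Z := (hZ _).mpr ⟨(hW σ).1, (hW σ).2.lt_one_iff_lt_one.mpr (by
        change sp.v (σ (algebraMap _ K x)) < 1
        rwa [σ.commutes])⟩
      have h3 : sp.v (σ g) = 1 := (hW σ).2.eq_one_iff_eq_one.mp (hg' _ h2 h)
      rw [h3, one_pow]
  have h2 := congrArg (· ^ e) (hk sp hsp)
  simp only [Algebra.norm_eq_prod_embeddings, map_prod, ← Finset.prod_pow, h1] at h2
  rw [Finset.prod_ite, Finset.prod_const_one, mul_one, Finset.prod_const, ← zpow_natCast,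
    ← zpow_natCast, ← zpow_mul] at h2
  rw [he]
  exact zpow_right_injective₀ (zero_lt_iff.mpr (by simpa using hx.1)) hsp.ne h2

lemma sum_embeddings {M : Type} [AddCommGroup M] (hK : IsCurveField K) {x : RatFunc ℂ}
    (hx : Unif x) {Z : Finset (Valuation K ℤᵐ⁰)}
    (hZ : ∀ w, w ∈ Z ↔ IsPlace w ∧ w (algebraMap _ K x) < 1)
    (hsum : ∑ w ∈ Z, ord w (algebraMap _ K x) = Module.finrank (RatFunc ℂ) K)
    (sp : Sp) (hsp : sp.v (algebraMap _ Om x) < 1) (g : Valuation K ℤᵐ⁰ → M) :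
    ∃ W : (K →ₐ[RatFunc ℂ] Om) → Valuation K ℤᵐ⁰,
      (∀ σ, IsPlace (W σ) ∧ LiesV sp (σ.restrictScalars ℂ) (W σ)) ∧
      ∑ σ, g (W σ) = ∑ w ∈ Z, ord w (algebraMap _ K x) • g w := by
  classical
  have hx0 : algebraMap _ K x ≠ 0 := by simpa using hx.1
  have hex : ∀ sp : Sp, sp.v (algebraMap _ Om x) < 1 →
      ∃ W : (K →ₐ[RatFunc ℂ] Om) → Valuation K ℤᵐ⁰,
        ∀ σ, IsPlace (W σ) ∧ LiesV sp (σ.restrictScalars ℂ) (W σ) := fun sp hsp => by
    choose W hW using fun σ : K →ₐ[RatFunc ℂ] Om =>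
      exists_liesV hK sp (σ.restrictScalars ℂ) hx0 (by
        change sp.v (σ (algebraMap _ K x)) < 1
        rwa [σ.commutes])
    exact ⟨W, hW⟩
  obtain ⟨W, hW⟩ := hex sp hsp
  have hWZ : ∀ σ, W σ ∈ Z := fun σ => (hZ _).mpr ⟨(hW σ).1, (hW σ).2.lt_one_iff_lt_one.mpr (by
    change sp.v (σ (algebraMap _ K x)) < 1
    rwa [σ.commutes])⟩
  have hle : ∀ w ∈ Z, ord w (algebraMap _ K x)
      ≤ ((Finset.univ.filter fun σ => W σ = w).card : ℤ) := by
    intro w hw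
    obtain ⟨k, hk⟩ := card_fiber hK hx hZ hw
    have hpos := ord_pos_of_lt_one hx0 ((hZ w).mp hw).2
    let σ0 : K →ₐ[RatFunc ℂ] Om := IsAlgClosed.lift
    obtain ⟨sp', hsp'⟩ := exists_sp_liesV (σ0.restrictScalars ℂ) ((hZ w).mp hw).1
    have h1 : sp'.v (algebraMap _ Om x) < 1 := by
      rw [← σ0.commutes]
      exact hsp'.lt_one_iff_lt_one.mp ((hZ w).mp hw).2
    obtain ⟨W', hW'⟩ := hex sp' h1
    have h2 : W' σ0 = w := val_eq_of_isEquiv (hW' σ0).1.1 ((hZ w).mp hw).1.1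
      ((hW' σ0).2.trans hsp'.symm)
    have h3 : 0 < (Finset.univ.filter fun σ => W' σ = w).card :=
      Finset.card_pos.mpr ⟨σ0, by simp [h2]⟩
    have h4 := hk sp' W' h1 hW'
    have h5 : 0 < k := (mul_pos_iff_of_pos_right hpos).mp (by rw [← h4]; exact_mod_cast h3)
    rw [hk sp W hsp hW]
    nlinarith
  have heq := (Finset.sum_eq_sum_iff_of_le hle).mp (by
    rw [hsum, ← Nat.cast_sum, ← Finset.card_eq_sum_card_fiberwise fun σ _ => hWZ σ,
      Finset.card_univ, AlgHom.card])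
  refine ⟨W, hW, ?_⟩
  rw [← Finset.sum_fiberwise_of_maps_to' (fun σ _ => hWZ σ) g]
  exact Finset.sum_congr rfl fun w hw => by rw [Finset.sum_const, heq w hw, natCast_zsmul]

end core

lemma Plc.Red.uniq {E L : Type} [Field E] [Field L] {pl : Plc E L} {n : ℕ} {P : Fin n → E}
    {Q Q' : Fin n → L} (h : pl.Red P Q) (h' : pl.Red P Q') :
    ∃ c, c ≠ 0 ∧ Q = fun i => c * Q' i := by
  obtain ⟨h0, c, hc⟩ := h
  obtain ⟨h0', d, hd⟩ := h'
  obtain ⟨i, hi⟩ := Function.ne_iff.mp h0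
  obtain ⟨j, hj⟩ := Function.ne_iff.mp h0'
  have key : ∀ k l, Q k * Q' l = Q l * Q' k := fun k l =>
    Plc.uniq (Plc.mul (hc k) (hd l)) (by
      rw [show c * P k * (d * P l) = c * P l * (d * P k) by ring]; exact Plc.mul (hc l) (hd k))
  have hj' : Q' j ≠ 0 := hj
  have hQj : Q j ≠ 0 := fun h => hi (by
    have := key i j
    rw [h, zero_mul] at this
    exact (mul_eq_zero.mp this).resolve_right hj')
  refine ⟨Q j / Q' j, div_ne_zero hQj hj', funext fun k => ?_⟩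
  field_simp
  exact key k j

lemma LiesV.red {n : ℕ} {sp : Sp} {σ : K →ₐ[ℂ] Om} {w : Valuation K ℤᵐ⁰} (hl : LiesV sp σ w)
    {η : Fin (n + 1) → K} {x : Projectivization ℂ (Fin (n + 1) → ℂ)} (hx : IsValueAt w η x) :
    (spPl sp).Red (fun i => σ (η i)) x.rep := by
  obtain ⟨c, hc⟩ := hx
  refine ⟨x.rep_nonzero, σ c, fun i => ?_⟩
  have : sp.v (σ (c * η i - algebraMap ℂ K (x.rep i))) < 1 := hl.lt_one_iff_lt_one.mp (hc i)
  rwa [map_sub, map_mul, σ.commutes] at this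

lemma sum_div_eq_zero {n : ℕ} {M : Type} [AddCommGroup M] (cls : (Fin (n + 1) → ℂ) → M)
    (On : (Fin (n + 1) → Om) → Prop)
    (H : ∀ (ι : Type) [Fintype ι] (P : ι → Fin (n + 1) → Om), (∀ j, P j ≠ 0) → (∀ j, On (P j)) →
      (∀ τ : Om ≃ₐ[RatFunc ℂ] Om, ∃ e : ι ≃ ι, ∀ j i, τ (P j i) = P (e j) i) →
      ∀ (sp0 sp1 : Sp) (Q0 Q1 : ι → Fin (n + 1) → ℂ), Tends sp0.v lam 0 → Tends sp1.v lam⁻¹ 0 →
      (∀ j, (spPl sp0).Red (P j) (Q0 j)) → (∀ j, (spPl sp1).Red (P j) (Q1 j)) →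
      ∑ j, cls (Q0 j) = ∑ j, cls (Q1 j))
    (hC : IsCurveField K) {η : Fin (n + 1) → K} (hη : η ≠ 0)
    (hOn : ∀ σ : K →ₐ[ℂ] Om, On fun i => σ (η i))
    {φ : Valuation K ℤᵐ⁰ → Projectivization ℂ (Fin (n + 1) → ℂ)}
    (hφ : ∀ w, IsPlace w → IsValueAt w η (φ w)) {f : K} {S : Finset (Valuation K ℤᵐ⁰)}
    (hf : f ≠ 0) (hS : ∀ w ∈ S, IsPlace w) (hS' : ∀ w, IsPlace w → w ∉ S → ord w f = 0) :
    ∑ w ∈ S, ord w f • cls (φ w).rep = 0 := by
  classical
  by_cases htr : Transcendental ℂ f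
  swap
  · refine Finset.sum_eq_zero fun w hw => ?_
    rw [ord_eq_zero_of_eq_one (by by_contra h; exact htr ((hS w hw).transcendental hf h)),
      zero_smul]
  obtain ⟨Z0, hZ0, e0⟩ := hC.sum_ord_zeros htr
  obtain ⟨Z1, hZ1, e1⟩ := hC.sum_ord_zeros (f := f⁻¹) fun h' => htr (IsAlgebraic.inv_iff.mp h')
  have hadj : ℂ⟮f⁻¹⟯ = ℂ⟮f⟯ := by
    apply le_antisymm <;> rw [IntermediateField.adjoin_simple_le_iff]
    · exact inv_mem (IntermediateField.mem_adjoin_simple_self ℂ f)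
    · simpa using inv_mem (IntermediateField.mem_adjoin_simple_self ℂ f⁻¹)
  rw [hadj] at e1
  have := hC.finite htr
  obtain ⟨_, _, _, _, _, hfin, hX, hrk⟩ := exists_ratFunc_structure f htr
  have : FiniteDimensional (RatFunc ℂ) K := hfin
  have hX' : algebraMap (RatFunc ℂ) K RatFunc.X = f := by
    rw [← hX, IsScalarTower.algebraMap_apply ℂ[X] (RatFunc ℂ) K, RatFunc.algebraMap_X]
  have hX'' : algebraMap (RatFunc ℂ) K RatFunc.X⁻¹ = f⁻¹ := by rw [map_inv₀, hX']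
  obtain ⟨sp0, h0⟩ := nonConst_lam.exists_sp 0
  obtain ⟨sp1, h1⟩ := nonConst_lam.inv.exists_sp 0
  obtain ⟨W0, hW0, s0⟩ := sum_embeddings hC unif_X (hX' ▸ hZ0) (by rw [hX', e0, hrk]) sp0
    (Tends.zero_iff.mp h0) fun w => cls (φ w).rep
  obtain ⟨W1, hW1, s1⟩ := sum_embeddings hC unif_inv (hX'' ▸ hZ1) (by rw [hX'', e1, hrk]) sp1
    (by rw [map_inv₀]; exact Tends.zero_iff.mp h1) fun w => cls (φ w).rep
  have key := H (K →ₐ[RatFunc ℂ] Om) (fun σ i => σ (η i))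
    (fun σ h => hη (funext fun i => (map_eq_zero σ).mp (congrFun h i)))
    (fun σ => hOn (σ.restrictScalars ℂ))
    (fun τ => ⟨⟨fun σ => τ.toAlgHom.comp σ, fun σ => τ.symm.toAlgHom.comp σ,
      fun σ => AlgHom.ext fun a => τ.symm_apply_apply _,
      fun σ => AlgHom.ext fun a => τ.apply_symm_apply _⟩, fun _ _ => rfl⟩) sp0 sp1 _ _ h0 h1
    (fun σ => (hW0 σ).2.red (hφ _ (hW0 σ).1)) fun σ => (hW1 σ).2.red (hφ _ (hW1 σ).1)
  rw [s0, s1, hX', hX''] at key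
  simp only [ord_inv, neg_smul, Finset.sum_neg_distrib] at key
  have hdisj : Disjoint Z0 Z1 := by
    rw [Finset.disjoint_left]
    intro w hw1 hw2
    exact absurd ((hZ0 w).mp hw1).2
      (not_lt.mpr ((Valuation.one_lt_val_iff w hf).mpr ((hZ1 w).mp hw2).2).le)
  have hmem : ∀ w, w ∈ Z0 ∪ Z1 ↔ IsPlace w ∧ w f ≠ 1 := fun w => by
    rw [Finset.mem_union, hZ0, hZ1, ← and_or_left, ← Valuation.one_lt_val_iff w hf,
      ← ne_iff_lt_or_gt]
  rw [← Finset.sum_subset (s₁ := Z0 ∪ Z1), Finset.sum_union hdisj, key, neg_add_cancel]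
  · intro w hw
    by_contra hwS
    have h2 := hS' w ((hmem w).mp hw).1 hwS
    rcases Finset.mem_union.mp hw with h | h
    · exact (ord_pos_of_lt_one hf ((hZ0 w).mp h).2).ne' h2
    · have := ord_pos_of_lt_one (inv_ne_zero hf) ((hZ1 w).mp h).2
      rw [ord_inv, h2] at this
      exact lt_irrefl _ this
  · intro w hw hw'
    rw [ord_eq_zero_of_eq_one (by by_contra h; exact hw' ((hmem w).mpr ⟨hS w hw, h⟩)), zero_smul]

/-- A class function that is invariant along Galois stable families kills principal divisors. -/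
theorem isFam_of_galois {n : ℕ} {M : Type} [AddCommGroup M] (cls : (Fin (n + 1) → ℂ) → M)
    (hcls : ∀ (c : ℂ) (P : Fin (n + 1) → ℂ), c ≠ 0 → cls (fun i => c * P i) = cls P)
    (On : (Fin (n + 1) → Om) → Prop)
    (hOn : ∀ (K : IntermediateField (RatFunc ℂ) Om) (η : Fin (n + 1) → K) (σ : K →ₐ[ℂ] Om),
      On (fun i => η i) → On fun i => σ (η i))
    (H : ∀ (ι : Type) [Fintype ι] (P : ι → Fin (n + 1) → Om), (∀ j, P j ≠ 0) → (∀ j, On (P j)) →
      (∀ τ : Om ≃ₐ[RatFunc ℂ] Om, ∃ e : ι ≃ ι, ∀ j i, τ (P j i) = P (e j) i) →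
      ∀ (sp0 sp1 : Sp) (Q0 Q1 : ι → Fin (n + 1) → ℂ), Tends sp0.v lam 0 → Tends sp1.v lam⁻¹ 0 →
      (∀ j, (spPl sp0).Red (P j) (Q0 j)) → (∀ j, (spPl sp1).Red (P j) (Q1 j)) →
      ∑ j, cls (Q0 j) = ∑ j, cls (Q1 j))
    {P : Fin (n + 1) → Om} (h0 : P ≠ 0) (hP : On P) :
    ∃ δ : Sp → M, IsFam δ ∧ ∀ sp Q, (spPl sp).Red P Q → δ sp = cls Q := by
  classical
  choose val hval using fun sp : Sp => (spPl sp).exists_red h0
  have hδ : ∀ sp Q, (spPl sp).Red P Q → cls (val sp) = cls Q := fun sp Q hQ => by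
    obtain ⟨c, hc, h⟩ := (hval sp).uniq hQ
    rw [h, hcls c Q hc]
  refine ⟨fun sp => cls (val sp), ⟨Finset.univ.image P, fun K hK hT => ?_⟩, hδ⟩
  have hC := isCurveField_finK K
  let η : Fin (n + 1) → K := fun i => ⟨P i, hT _ (by simp)⟩
  have hη : η ≠ 0 := fun hz => h0 (funext fun i => congrArg Subtype.val (congrFun hz i))
  have hexK : ∀ w : Valuation K ℤᵐ⁰, ∃ x, IsPlace w → IsValueAt w η x := by
    intro w
    by_cases hw : IsPlace w
    · obtain ⟨x, hx⟩ := hC.exists_value hw hη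
      exact ⟨x, fun _ => hx⟩
    · exact ⟨Projectivization.mk ℂ 1 one_ne_zero, fun h => absurd h hw⟩
  choose φ hφ using hexK
  refine ⟨fun w => cls (φ w).rep, fun sp w hw hl =>
    hδ sp _ (LiesV.red (σ := K.val.restrictScalars ℂ) hl (hφ w hw)), fun f S hf hS hS' => ?_⟩
  exact sum_div_eq_zero cls On H hC hη (fun σ => hOn K η σ hP) hφ hf hS hS'

end

end Pool.Agent.P.MP_7ebcb6_ag.G8
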