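import Pool.Agent.P.MP_7ebcb6_ag.G8.Loc

/-! Local computations for the form `ft` on a plane section. -/

open scoped WithZero IntermediateField
open WithZero

namespace Pool.Agent.P.MP_7ebcb6_ag.G8

noncomputable section

lemma ft_eq_zero {K : Type} [Field K] (g : Fin 6 → K) (f : Fin 17 → K) {l u y m n : K}
    (h : phi g l u y m n = 0) (hc : c3 u y m n = 0) : ft g f u y m n = 0 := by
  have h0 : n1 g u y m n * x1 g u y m n + n2 g u y m n * x2 g u y m n + n3 g u m * x3 g u y m n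
      = 0 := by
    rw [phi, hc] at h
    linear_combination -h
  have h1 : x1 g u y m n ^ 2 = a11 m n * (n1 g u y m n * x1 g u y m n
      + n2 g u y m n * x2 g u y m n + n3 g u m * x3 g u y m n) - c3 u y m n * (n2 g u y m n ^ 2 * m
      - 2 * n2 g u y m n * n3 g u m * n + n3 g u m ^ 2 * m) := by
    simp only [x1, x2, x3, a11, a12, a13, a22, a23, a33, c3]; ring
  have h3 : x3 g u y m n ^ 2 = a33 u m * (n1 g u y m n * x1 g u y m n
      + n2 g u y m n * x2 g u y m n + n3 g u m * x3 g u y m n) - c3 u y m n * (n1 g u y m n ^ 2 * m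
      - 2 * n1 g u y m n * n2 g u y m n * u + n2 g u y m n ^ 2 * m) := by
    simp only [x1, x2, x3, a11, a12, a13, a22, a23, a33, c3]; ring
  rw [h0, hc, mul_zero, zero_mul, sub_zero, pow_eq_zero_iff two_ne_zero] at h1 h3
  simp only [ft, hc, h1, h3, zero_mul, mul_zero, add_zero]

lemma adjoin_sub_const {K : Type} [Field K] [Algebra ℂ K] (f : K) (c : ℂ) :
    ℂ⟮f - algebraMap ℂ K c⟯ = ℂ⟮f⟯ := by
  apply le_antisymm <;> rw [IntermediateField.adjoin_simple_le_iff]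
  · exact sub_mem (IntermediateField.mem_adjoin_simple_self _ _)
      (IntermediateField.algebraMap_mem _ c)
  · have := add_mem (IntermediateField.mem_adjoin_simple_self ℂ (f - algebraMap ℂ K c))
      (IntermediateField.algebraMap_mem _ c)
    rwa [sub_add_cancel] at this

section lip

variable {L Γ : Type} [Field L] [Algebra ℂ L] [LinearOrderedCommGroupWithZero Γ]
  {v : Valuation L Γ} [v.IsTrivialOn ℂ] {δ : Γ}

/-- An integral element together with a constant within distance `δ`. -/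
structure LP (v : Valuation L Γ) (δ : Γ) where
  a : L
  c : ℂ
  h : v (a - algebraMap ℂ L c) ≤ δ
  h1 : v a ≤ 1

instance : Add (LP v δ) := ⟨fun x y => ⟨x.a + y.a, x.c + y.c, by
  rw [map_add, add_sub_add_comm]; exact v.map_add_le x.h y.h, v.map_add_le x.h1 y.h1⟩⟩
instance : Neg (LP v δ) := ⟨fun x => ⟨-x.a, -x.c, by
  rw [map_neg, neg_sub_neg, v.map_sub_swap]; exact x.h, by rw [v.map_neg]; exact x.h1⟩⟩
instance : Sub (LP v δ) := ⟨fun x y => ⟨x.a - y.a, x.c - y.c, by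
  rw [map_sub (algebraMap ℂ L), sub_sub_sub_comm]; exact v.map_sub_le x.h y.h, v.map_sub_le x.h1 y.h1⟩⟩
instance : Mul (LP v δ) := ⟨fun x y => ⟨x.a * y.a, x.c * y.c, by
  rw [map_mul, show x.a * y.a - algebraMap ℂ L x.c * algebraMap ℂ L y.c
    = x.a * (y.a - algebraMap ℂ L y.c) + (x.a - algebraMap ℂ L x.c) * algebraMap ℂ L y.c by ring]
  refine v.map_add_le ?_ ?_ <;> rw [map_mul]
  · exact (mul_le_of_le_one_left' x.h1).trans y.h
  · exact (mul_le_of_le_one_right' (Tends.const y.c).le_one).trans x.h, by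
  rw [map_mul]; exact mul_le_one' x.h1 y.h1⟩⟩

lemma lip_a : Hom (LP.a : LP v δ → L) :=
  ⟨fun _ _ => rfl, fun _ _ => rfl, fun _ => rfl, fun _ _ => rfl⟩
lemma lip_c : Hom (LP.c : LP v δ → ℂ) :=
  ⟨fun _ _ => rfl, fun _ _ => rfl, fun _ => rfl, fun _ _ => rfl⟩

/-- An integral element within distance `δ` of a constant. -/
def Near (v : Valuation L Γ) (δ : Γ) (a : L) (c : ℂ) : Prop :=
  v (a - algebraMap ℂ L c) ≤ δ ∧ v a ≤ 1

lemma Near.const (c : ℂ) : Near v δ (algebraMap ℂ L c) c := ⟨by simp, (Tends.const c).le_one⟩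

omit [v.IsTrivialOn ℂ] in
lemma Near.one : Near v δ 1 1 := ⟨by simp, by simp⟩

variable {l u y m n : L} {l0 u0 y0 m0 n0 : ℂ}

lemma Near.mul (hu : Near v δ u u0) (hy : Near v δ y y0) : Near v δ (u * y) (u0 * y0) :=
  ⟨((⟨_, _, hu.1, hu.2⟩ : LP v δ) * ⟨_, _, hy.1, hy.2⟩).h,
    ((⟨_, _, hu.1, hu.2⟩ : LP v δ) * ⟨_, _, hy.1, hy.2⟩).h1⟩

lemma lip_phi (g : Fin 6 → ℂ) (hl : Near v δ l l0) (hu : Near v δ u u0) (hy : Near v δ y y0)
    (hm : Near v δ m m0) (hn : Near v δ n n0) :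
    v (phi (fun i => algebraMap ℂ L (g i)) l u y m n - algebraMap ℂ L (phi g l0 u0 y0 m0 n0))
      ≤ δ := by
  have := (phi (fun i => (⟨_, _, (Near.const (g i)).1, (Near.const (δ := δ) (g i)).2⟩ : LP v δ))
    ⟨_, _, hl.1, hl.2⟩ ⟨_, _, hu.1, hu.2⟩ ⟨_, _, hy.1, hy.2⟩ ⟨_, _, hm.1, hm.2⟩
    ⟨_, _, hn.1, hn.2⟩).h
  rwa [lip_a.phi, lip_c.phi] at this

lemma lip_ft (g : Fin 6 → ℂ) (f : Fin 17 → ℂ) (hu : Near v δ u u0) (hy : Near v δ y y0)
    (hm : Near v δ m m0) (hn : Near v δ n n0) :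
    v (ft (fun i => algebraMap ℂ L (g i)) (fun i => algebraMap ℂ L (f i)) u y m n
      - algebraMap ℂ L (ft g f u0 y0 m0 n0)) ≤ δ := by
  have := (ft (fun i => (⟨_, _, (Near.const (g i)).1, (Near.const (δ := δ) (g i)).2⟩ : LP v δ))
    (fun i => ⟨_, _, (Near.const (f i)).1, (Near.const (δ := δ) (f i)).2⟩)
    ⟨_, _, hu.1, hu.2⟩ ⟨_, _, hy.1, hy.2⟩ ⟨_, _, hm.1, hm.2⟩ ⟨_, _, hn.1, hn.2⟩).h
  rwa [lip_a.ft, lip_c.ft] at this

/-- The form `ft / c3` of degree five is integral. -/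
lemma fh_le (g : Fin 6 → ℂ) (f : Fin 17 → ℂ) {l u y m n t : L} (ht : t ≠ 0)
    (hl : v l ≤ v t) (hu : v u ≤ v t) (hy : v y ≤ v t) (hm : v m ≤ v t) (hn : v n ≤ v t)
    (hu0 : u ≠ 0) (hc : c3 u y m n ≠ 0) (h : phi (fun i => algebraMap ℂ L (g i)) l u y m n = 0) :
    v (ft (fun i => algebraMap ℂ L (g i)) (fun i => algebraMap ℂ L (f i)) u y m n / c3 u y m n)
      ≤ v (t ^ 5) := by
  have h0 : 0 < v t := zero_lt_iff.mpr (by simpa using ht)
  have hs : ∀ {a : L}, v a ≤ v t → v (t⁻¹ * a) ≤ 1 := fun ha => by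
    rwa [map_mul, map_inv₀, inv_mul_le_one₀ h0]
  have hc' : c3 (t⁻¹ * u) (t⁻¹ * y) (t⁻¹ * m) (t⁻¹ * n) ≠ 0 := by
    rw [c3_smul]; exact mul_ne_zero (pow_ne_zero _ (inv_ne_zero ht)) hc
  have hu' : t⁻¹ * u ≠ 0 := mul_ne_zero (inv_ne_zero ht) hu0
  obtain ⟨h1, -, h3, -⟩ := integral_of_rows v (fun i => (Tends.const (g i)).le_one) (hs hl)
    (hs hu) (hs hy) (hs hm) (hs hn) hu' hc'
    (rows_of_phi _ hu' hc' (by rw [phi_smul, h, mul_zero]))
  have e : ft (fun i => algebraMap ℂ L (g i)) (fun i => algebraMap ℂ L (f i)) u y m n / c3 u y m n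
      = t ^ 5 * (ft (fun i => algebraMap ℂ L (g i)) (fun i => algebraMap ℂ L (f i)) (t⁻¹ * u)
        (t⁻¹ * y) (t⁻¹ * m) (t⁻¹ * n) / c3 (t⁻¹ * u) (t⁻¹ * y) (t⁻¹ * m) (t⁻¹ * n)) := by
    rw [ft_smul, c3_smul]; field_simp
  rw [e, map_mul]
  refine mul_le_of_le_one_right' ?_
  have hu1 := hs hu
  have hm1 := hs hm
  have hn1 := hs hn
  generalize t⁻¹ * u = u, t⁻¹ * y = y, t⁻¹ * m = m, t⁻¹ * n = n at h1 h3 hu1 hm1 hn1 hc' ⊢
  let F : Fin 17 → v.integer := fun i => ⟨algebraMap ℂ L (f i), (Tends.const (f i)).le_one⟩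
  let u' : v.integer := ⟨u, hu1⟩
  let m' : v.integer := ⟨m, hm1⟩
  let n' : v.integer := ⟨n, hn1⟩
  let p : v.integer := F 0 * m' ^ 5 + F 1 * m' ^ 4 * n' + F 2 * m' ^ 3 * n' ^ 2
    + F 3 * m' ^ 2 * n' ^ 3 + F 4 * m' * n' ^ 4 + F 5 * n' ^ 5
    + (F 6 * m' ^ 3 + F 7 * m' ^ 2 * n' + F 8 * m' * n' ^ 2 + F 9 * n' ^ 3) * u' ^ 2
    + (F 10 * m' ^ 3 + F 11 * m' ^ 2 * n' + F 12 * m' * n' ^ 2 + F 13 * n' ^ 3) * ⟨_, h1⟩
    + (F 14 * m' ^ 2 + F 15 * m' * n' + F 16 * n' ^ 2) * u' * ⟨_, h3⟩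
  refine le_of_eq_of_le (congrArg v ?_) p.2
  simp only [p, F, u', m', n', Subring.coe_add, Subring.coe_mul, Subring.coe_pow, ft]
  field_simp

end lip

end

end Pool.Agent.P.MP_7ebcb6_ag.G8
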