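import Pool.Agent.P.MP_7ebcb6_ag.G8.Chow
import Pool.Agent.P.MP_7ebcb6_ag.Cycle

/-! Specialisation of one-parameter families of zero-cycles along a place of `ℂ`. -/

open MvPolynomial

namespace Pool.Agent.P.MP_7ebcb6_ag.G8

noncomputable section

variable {n : ℕ} {ι : Type} [Fintype ι] {M : Type} [AddCommGroup M]

/-- The place of `Om` given by a specialisation. -/
def spPl (sp : Sp) : Plc Om ℂ where
  G :=
    { carrier := {p | Tends sp.v p.1 p.2}
      mul_mem' := fun h h' => Tends.mul (v := sp.v) h h'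
      one_mem' := Tends.one (v := sp.v)
      add_mem' := fun h h' => Tends.add (v := sp.v) h h'
      zero_mem' := Tends.zero (v := sp.v)
      neg_mem' := fun h => Tends.neg (v := sp.v) h }
  func := fun _ h => Tends.eq_zero (v := sp.v) h rfl
  val := fun a => (sp.O.mem_or_inv_mem a).imp
    (fun h => sp.exists_tends ((sp.O.valuation_le_one_iff _).mpr h))
    fun h => sp.exists_tends ((sp.O.valuation_le_one_iff _).mpr h)
  loc := fun _ _ h hb => Tends.inv (v := sp.v) h hb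

lemma mem_spPl {sp : Sp} {a : Om} {b : ℂ} : (a, b) ∈ (spPl sp).G ↔ Tends sp.v a b := Iff.rfl

/-- A polynomial in `lam` whose coefficients are forms. -/
def ev (N : ℕ) (A : ℕ → MvPolynomial (Fin n) ℂ) : MvPolynomial (Fin n) Om :=
  ∑ k ∈ Finset.range N, C (lam ^ k) * map (algebraMap ℂ Om) (A k)

lemma pto_ev (sp : Sp) {N : ℕ} (A : ℕ → MvPolynomial (Fin n) ℂ) {i : ℕ} (hi : i < N)
    (h : ∀ k < N, k ≠ i → A k = 0 ∨ Tends sp.v ((lam ^ i)⁻¹ * lam ^ k) 0) :
    (spPl sp).PTo (C (lam ^ i)⁻¹ * ev N A) (A i) := by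
  have h1 : A i = ∑ k ∈ Finset.range N, if k = i then A k else 0 := by simp [hi]
  rw [h1, ev, Finset.mul_sum]
  refine Plc.PTo.sum _ fun k hk => ?_
  have hA : (spPl sp).PTo (map (algebraMap ℂ Om) (A k)) (A k) := fun m => by
    rw [coeff_map]; exact Tends.const (v := sp.v) _
  rw [← mul_assoc, ← C_mul]
  split_ifs with hki
  · subst hki
    rw [inv_mul_cancel₀ (pow_ne_zero _ nonConst_lam.ne_zero), C_1, one_mul]
    exact hA
  · rcases h k (Finset.mem_range.mp hk) hki with h0 | h0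
    · rw [h0, map_zero, mul_zero]; exact Plc.PTo.zero
    · simpa using (Plc.PTo.const (mem_spPl.mpr h0)).mul hA

lemma pto_low {sp : Sp} (hsp : Tends sp.v lam 0) {N : ℕ} (A : ℕ → MvPolynomial (Fin n) ℂ) {i : ℕ}
    (hi : i < N) (h : ∀ k < i, A k = 0) : (spPl sp).PTo (C (lam ^ i)⁻¹ * ev N A) (A i) := by
  refine pto_ev sp A hi fun k _ hk => ?_
  rcases lt_or_gt_of_ne hk with hlt | hlt
  · exact Or.inl (h k hlt)
  · obtain ⟨d, rfl⟩ := Nat.exists_eq_add_of_lt hlt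
    refine Or.inr (((hsp.pow (d + 1)).of_eq_right (by simp)).of_eq_left ?_)
    have := nonConst_lam.ne_zero
    rw [add_assoc, pow_add lam i]
    field_simp

lemma pto_high {sp : Sp} (hsp : Tends sp.v lam⁻¹ 0) {N : ℕ} (A : ℕ → MvPolynomial (Fin n) ℂ)
    {i : ℕ} (hi : i < N) (h : ∀ k, i < k → k < N → A k = 0) :
    (spPl sp).PTo (C (lam ^ i)⁻¹ * ev N A) (A i) := by
  refine pto_ev sp A hi fun k hkN hk => ?_
  rcases lt_or_gt_of_ne hk with hlt | hlt
  · obtain ⟨d, rfl⟩ := Nat.exists_eq_add_of_lt hlt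
    refine Or.inr (((hsp.pow (d + 1)).of_eq_right (by simp)).of_eq_left ?_)
    have := nonConst_lam.ne_zero
    rw [add_assoc, pow_add lam k, inv_pow]
    field_simp
  · exact Or.inl (h k hlt hkN)

lemma red_of_pto {sp : Sp} {N : ℕ} {A : ℕ → MvPolynomial (Fin n) ℂ} {i : ℕ} (hi : A i ≠ 0)
    (h : (spPl sp).PTo (C (lam ^ i)⁻¹ * ev N A) (A i)) {P : ι → Fin n → Om} {c : Om}
    (hc : ev N A = C c * ch P) {Q : ι → Fin n → ℂ} (hQ : ∀ j, (spPl sp).Red (P j) (Q j)) :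
    ∃ d : ℂ, d ≠ 0 ∧ A i = C d * ch Q := by
  rw [hc, ← mul_assoc, ← C_mul] at h
  exact Plc.ch_red hQ h hi

/-- The form `B` is the Chow form of a cycle of class `α`. -/
def Val (ι : Type) [Fintype ι] (γ : (Fin n → ℂ) → M) (B : MvPolynomial (Fin n) ℂ) (α : M) : Prop :=
  ∃ (Q : ι → Fin n → ℂ) (a : ℂ), a ≠ 0 ∧ (∀ j, Q j ≠ 0) ∧ B = C a * ch Q ∧ ∑ j, γ (Q j) = α

variable {γ : (Fin n → ℂ) → M}

lemma Val.uniq (hγ : ∀ (c : ℂ) (P : Fin n → ℂ), c ≠ 0 → γ (fun i => c * P i) = γ P)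
    {B : MvPolynomial (Fin n) ℂ} {α β : M} (h : Val ι γ B α) (h' : Val ι γ B β) : α = β := by
  obtain ⟨Q, a, ha, hQ, hB, rfl⟩ := h
  obtain ⟨Q', a', ha', hQ', hB', rfl⟩ := h'
  exact sum_eq_of_ch γ hγ hQ hQ' ha ha' (hB.symm.trans hB')

lemma Val.smul {B : MvPolynomial (Fin n) ℂ} {α : M} (h : Val ι γ B α) {c : ℂ} (hc : c ≠ 0) :
    Val ι γ (C c * B) α := by
  obtain ⟨Q, a, ha, hQ, hB, hs⟩ := h
  exact ⟨Q, c * a, mul_ne_zero hc ha, hQ, by rw [hB, ← mul_assoc, ← C_mul], hs⟩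

lemma Val.of_smul {B : MvPolynomial (Fin n) ℂ} {α : M} {c : ℂ} (hc : c ≠ 0)
    (h : Val ι γ (C c * B) α) : Val ι γ B α := by
  have := h.smul (inv_ne_zero hc)
  rwa [← mul_assoc, ← C_mul, inv_mul_cancel₀ hc, C_1, one_mul] at this

lemma isFam_sum {σ : Type} (s : Finset σ) {δ : σ → Sp → M} (h : ∀ j, IsFam (δ j)) :
    IsFam fun sp => ∑ j ∈ s, δ j sp := by
  classical
  induction s using Finset.induction_on with
  | empty => simpa using IsFam.zero
  | insert a s ha ih => simpa only [Finset.sum_insert ha] using (h a).add ih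

/-- The two ends of a rational curve of Chow forms have the same class. -/
lemma exists_val [IsAddTorsionFree M]
    (hγ : ∀ (c : ℂ) (P : Fin n → ℂ), c ≠ 0 → γ (fun i => c * P i) = γ P)
    {P : ι → Fin n → Om} (hP : ∀ j, P j ≠ 0)
    (hfam : ∀ j, ∃ δ : Sp → M, IsFam δ ∧ ∀ sp Q, (spPl sp).Red (P j) Q → δ sp = γ Q)
    {N : ℕ} {A : ℕ → MvPolynomial (Fin n) ℂ} {c : Om} (hc : ev N A = C c * ch P) {i j : ℕ}
    (hi : i < N) (hj : j < N) (hi0 : A i ≠ 0) (hj0 : A j ≠ 0) (hlow : ∀ k < i, A k = 0)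
    (hhigh : ∀ k, j < k → k < N → A k = 0) : ∃ α, Val ι γ (A i) α ∧ Val ι γ (A j) α := by
  choose δ hδ hval using hfam
  have key : ∀ (sp : Sp) (k : ℕ), A k ≠ 0 → (spPl sp).PTo (C (lam ^ k)⁻¹ * ev N A) (A k) →
      Val ι γ (A k) (∑ l, δ l sp) := by
    intro sp k hk h
    choose Q hQ using fun l => (spPl sp).exists_red (hP l)
    obtain ⟨d, hd, hA⟩ := red_of_pto hk h hc hQ
    exact ⟨Q, d, hd, fun l => (hQ l).1, hA,
      Finset.sum_congr rfl fun l _ => (hval l sp _ (hQ l)).symm⟩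
  obtain ⟨sp0, h0⟩ := nonConst_lam.exists_sp 0
  obtain ⟨sp1, h1⟩ := nonConst_lam.inv.exists_sp 0
  have v0 := key sp0 i hi0 (pto_low h0 A hi hlow)
  have v1 := key sp1 j hj0 (pto_high h1 A hj hhigh)
  have := (isFam_sum Finset.univ hδ).eq_of_lam
    (fun sp h => (key sp i hi0 (pto_low h A hi hlow)).uniq hγ v0)
    fun sp h => (key sp j hj0 (pto_high h A hj hhigh)).uniq hγ v1
  exact ⟨_, v0, this ▸ v1⟩

/-- A place of `ℂ` extends to `Om` along the Gauss extension with respect to `lam / c`. -/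
lemma exists_gauss (ρ : Plc ℂ ℂ) {c : ℂ} (hc : c ≠ 0) : ∃ pl : Plc Om Om,
    (∀ a b, (a, b) ∈ ρ.G → (algebraMap ℂ Om a, algebraMap ℂ Om b) ∈ pl.G) ∧
      (lam / algebraMap ℂ Om c, lam) ∈ pl.G := by
  have hn : NonConst (lam / algebraMap ℂ Om c) := fun d hd => nonConst_lam (d * c) (by
    rw [map_mul, ← hd, div_mul_cancel₀ _ (by simpa using hc)])
  obtain ⟨pl, hpl⟩ := exists_pl
    (Polynomial.eval₂RingHom ((algebraMap ℂ Om).comp (gfst ρ.G)) (lam / algebraMap ℂ Om c))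
    (by
      rw [injective_iff_map_eq_zero]
      intro p hp
      by_contra h0
      refine hn.aeval_ne_zero ((Polynomial.map_ne_zero_iff ρ.fst_injective).mpr h0) ?_
      rw [Polynomial.aeval_def, Polynomial.eval₂_map]
      exact hp)
    (Polynomial.eval₂RingHom ((algebraMap ℂ Om).comp (gsnd ρ.G)) lam)
  refine ⟨pl, fun a b h => ?_, ?_⟩
  · have := hpl (Polynomial.C ⟨_, h⟩)
    rwa [Polynomial.coe_eval₂RingHom, Polynomial.coe_eval₂RingHom, Polynomial.eval₂_C,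
      Polynomial.eval₂_C] at this
  · have := hpl Polynomial.X
    rwa [Polynomial.coe_eval₂RingHom, Polynomial.coe_eval₂RingHom, Polynomial.eval₂_X,
      Polynomial.eval₂_X] at this

lemma ev_ne_zero {N : ℕ} {A : ℕ → MvPolynomial (Fin n) ℂ} {i : ℕ} (hi : i < N) (hi0 : A i ≠ 0)
    (hlow : ∀ k < i, A k = 0) : ev N A ≠ 0 := by
  obtain ⟨sp0, h0⟩ := nonConst_lam.exists_sp 0
  intro h
  have := pto_low h0 A hi hlow
  rw [h, mul_zero] at this
  exact hi0 (this.uniq Plc.PTo.zero)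

/-- The Chow form of a Galois stable family has coefficients in `ℂ(lam)`. -/
lemma exists_ev {P : ι → Fin n → Om}
    (hG : ∀ τ : Om ≃ₐ[RatFunc ℂ] Om, ∃ e : ι ≃ ι, ∀ j i, τ (P j i) = P (e j) i) :
    ∃ (N : ℕ) (A : ℕ → MvPolynomial (Fin n) ℂ) (c : Om), c ≠ 0 ∧ ev N A = C c * ch P := by
  have hfix : ∀ m, coeff m (ch P) ∈ Set.range (algebraMap (RatFunc ℂ) Om) := by
    intro m
    rw [InfiniteGalois.mem_range_algebraMap_iff_fixed]
    intro τ
    obtain ⟨e, he⟩ := hG τ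
    have : map (τ : Om →+* Om) (ch P) = ch P := by
      rw [ch, map_prod, ← e.prod_comp fun j => lin (P j)]
      refine Finset.prod_congr rfl fun j _ => ?_
      rw [map_lin]
      exact congrArg lin (funext (he j))
    conv_rhs => rw [← this, coeff_map]
    rfl
  let Ψ : Polynomial (MvPolynomial (Fin n) ℂ) →+* MvPolynomial (Fin n) Om :=
    Polynomial.eval₂RingHom (map (algebraMap ℂ Om)) (C lam)
  have hΨ : ∀ d : Polynomial ℂ, Ψ (d.map C) = C (Polynomial.aeval lam d) := by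
    intro d
    rw [Polynomial.coe_eval₂RingHom, Polynomial.eval₂_map, Polynomial.aeval_def,
      Polynomial.hom_eval₂]
    congr 1
    ext a : 1
    simp
  have key : ∀ s : Finset (Fin n →₀ ℕ), ∃ d : Polynomial ℂ, d ≠ 0 ∧ ∃ B,
      Ψ B = C (Polynomial.aeval lam d) * ∑ m ∈ s, monomial m (coeff m (ch P)) := by
    classical
    intro s
    induction s using Finset.induction_on with
    | empty => exact ⟨1, one_ne_zero, 0, by simp⟩
    | insert m s hm ih =>
      obtain ⟨d, hd, B, hB⟩ := ih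
      obtain ⟨r, hr⟩ := hfix m
      have hal : ∀ p : Polynomial ℂ, Polynomial.aeval lam p
          = algebraMap (RatFunc ℂ) Om (algebraMap (Polynomial ℂ) (RatFunc ℂ) p) := by
        intro p
        rw [lam, Polynomial.aeval_algebraMap_apply, RatFunc.aeval_X_left_eq_algebraMap]
      have h1 : Polynomial.aeval lam r.denom * coeff m (ch P) = Polynomial.aeval lam r.num := by
        rw [← hr, hal, hal, ← map_mul]
        congr 1
        rw [mul_comm, eq_comm, ← div_eq_iff (RatFunc.algebraMap_ne_zero r.denom_ne_zero),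
          RatFunc.num_div_denom]
      refine ⟨d * r.denom, mul_ne_zero hd r.denom_ne_zero,
        (d * r.num).map C * Polynomial.C (monomial m 1) + r.denom.map C * B, ?_⟩
      have h2 : Ψ (Polynomial.C (monomial m 1)) = monomial m 1 := by
        rw [Polynomial.coe_eval₂RingHom, Polynomial.eval₂_C, map_monomial, map_one]
      have h3 : monomial m (coeff m (ch P)) = C (coeff m (ch P)) * monomial m 1 := by
        rw [C_mul_monomial, mul_one]
      rw [map_add, map_mul, map_mul, hΨ, hΨ, hB, h2, Finset.sum_insert hm, h3, map_mul, ← h1]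
      simp only [map_mul]
      ring
  obtain ⟨d, hd, B, hB⟩ := key (ch P).support
  refine ⟨B.natDegree + 1, B.coeff, _, nonConst_lam.aeval_ne_zero hd, ?_⟩
  rw [← (ch P).as_sum] at hB
  rw [← hB, Polynomial.coe_eval₂RingHom, Polynomial.eval₂_eq_sum_range, ev]
  exact Finset.sum_congr rfl fun k _ => by rw [mul_comm, C_pow]

/-- A Galois stable family over `Om`, specialised at `lam = 0` and at `lam = ∞` and then along a
place of `ℂ`, gives two cycles with the same class. -/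
theorem fam_main [IsAddTorsionFree M]
    (hγ : ∀ (c : ℂ) (P : Fin n → ℂ), c ≠ 0 → γ (fun i => c * P i) = γ P) (ρ : Plc ℂ ℂ)
    {P : ι → Fin n → Om} (hP : ∀ j, P j ≠ 0)
    (hG : ∀ τ : Om ≃ₐ[RatFunc ℂ] Om, ∃ e : ι ≃ ι, ∀ j i, τ (P j i) = P (e j) i)
    (hfam : ∀ pl : Plc Om Om,
      (∀ a b, (a, b) ∈ ρ.G → (algebraMap ℂ Om a, algebraMap ℂ Om b) ∈ pl.G) → ∀ j P',
      pl.Red (P j) P' → ∃ δ : Sp → M, IsFam δ ∧ ∀ sp Q, (spPl sp).Red P' Q → δ sp = γ Q)
    {sp0 sp1 : Sp} (h0 : Tends sp0.v lam 0) (h1 : Tends sp1.v lam⁻¹ 0)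
    {Q0 Q1 R0 R1 : ι → Fin n → ℂ} (hQ0 : ∀ j, (spPl sp0).Red (P j) (Q0 j))
    (hQ1 : ∀ j, (spPl sp1).Red (P j) (Q1 j)) (hR0 : ∀ j, ρ.Red (Q0 j) (R0 j))
    (hR1 : ∀ j, ρ.Red (Q1 j) (R1 j)) : ∑ j, γ (R0 j) = ∑ j, γ (R1 j) := by
  classical
  obtain ⟨N, A, c, hc, hA⟩ := exists_ev hG
  choose a A' B hA' hB hB0 using fun k => ρ.exists_content (A k)
  have haA : ∀ k, a k = 0 ↔ A k = 0 := fun k => ⟨fun h => by rw [hA' k, h, C_0, zero_mul],
    fun h => by
      by_contra hne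
      have h2 : A' k = 0 := (mul_eq_zero.mp ((hA' k).symm.trans h)).resolve_left (by simpa)
      exact hB0 k ((h2 ▸ hB k).uniq Plc.PTo.zero)⟩
  let S := (Finset.range N).filter fun k => A k ≠ 0
  have hS : ∀ k, k ∈ S ↔ k < N ∧ A k ≠ 0 := fun k => by simp [S]
  have hSne : S.Nonempty := by
    by_contra h
    have : ev N A = 0 := Finset.sum_eq_zero fun k hk => by
      have : A k = 0 := by
        by_contra hk0
        exact h ⟨k, (hS k).mpr ⟨Finset.mem_range.mp hk, hk0⟩⟩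
      rw [this, map_zero, mul_zero]
    exact mul_ne_zero (by simpa using hc) (ch_ne_zero hP) (hA.symm.trans this)
  obtain ⟨hi0N, hi0⟩ := (hS _).mp (S.min'_mem hSne)
  obtain ⟨hi1N, hi1⟩ := (hS _).mp (S.max'_mem hSne)
  have hlow : ∀ k < S.min' hSne, A k = 0 := fun k hk => by
    by_contra h
    exact absurd (S.min'_le k ((hS k).mpr ⟨hk.trans hi0N, h⟩)) (not_le.mpr hk)
  have hhigh : ∀ k, S.max' hSne < k → k < N → A k = 0 := fun k hk hkN => by
    by_contra h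
    exact absurd (S.le_max' k ((hS k).mpr ⟨hkN, h⟩)) (not_le.mpr hk)
  have hend : ∀ (k : ℕ) (Q R : ι → Fin n → ℂ), A k ≠ 0 → (∃ d : ℂ, d ≠ 0 ∧ A k = C d * ch Q) →
      (∀ j, ρ.Red (Q j) (R j)) → Val ι γ (B k) (∑ j, γ (R j)) := by
    rintro k Q R hk ⟨d, -, hd⟩ hR
    have ha : a k ≠ 0 := fun h => hk ((haA k).mp h)
    have h2 : A' k = C ((a k)⁻¹ * d) * ch Q := by
      rw [C_mul, mul_assoc, ← hd, hA' k, ← mul_assoc, ← C_mul, inv_mul_cancel₀ ha, C_1, one_mul]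
    obtain ⟨e, he, hBe⟩ := Plc.ch_red hR (h2 ▸ hB k) (hB0 k)
    exact ⟨R, e, he, fun j => (hR j).1, hBe, rfl⟩
  have v0 := hend _ Q0 R0 hi0 (red_of_pto hi0 (pto_low h0 A hi0N hlow) hA hQ0) hR0
  have v1 := hend _ Q1 R1 hi1 (red_of_pto hi1 (pto_high h1 A hi1N hhigh) hA hQ1) hR1
  refine Val.uniq hγ (newton_polygon ρ.ring.valuation a N
    (fun k => Val ι γ (B k) (∑ j, γ (R0 j))) ?_ (fun h => hi0 ((haA _).mp h))
    (fun k hk => (haA k).mpr (hlow k hk)) hi1N (fun h => hi1 ((haA _).mp h))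
    (fun k hk hkN => (haA k).mpr (hhigh k hk hkN)) (S.min'_le_max' hSne) v0) v1
  intro r i j hr hij hjN hai hjeq hall hlo hhi hT
  have hw : r ^ i * a i ≠ 0 := mul_ne_zero (pow_ne_zero _ hr) hai
  have hw' : 0 < ρ.ring.valuation (r ^ i * a i) := zero_lt_iff.mpr (by simpa using hw)
  have hex : ∀ k, ∃ b, k < N → ((r ^ i * a i)⁻¹ * (r ^ k * a k), b) ∈ ρ.G := by
    intro k
    by_cases hk : k < N
    · obtain ⟨b, hb⟩ := Plc.exists_of_le (pl := ρ) (a := (r ^ i * a i)⁻¹ * (r ^ k * a k)) (by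
        rw [map_mul, map_inv₀, inv_mul_le_one₀ hw']
        exact hall k hk)
      exact ⟨b, fun _ => hb⟩
    · exact ⟨0, fun h => absurd h hk⟩
  choose b hb using hex
  have hb0 : ∀ k < N, b k = 0 ↔
      ρ.ring.valuation (r ^ k * a k) < ρ.ring.valuation (r ^ i * a i) := fun k hk => by
    rw [← Plc.lt_iff (hb k hk), map_mul, map_inv₀, inv_mul_lt_one₀ hw']
  have hbi : b i ≠ 0 := fun h => lt_irrefl _ ((hb0 i (hij.trans hjN)).mp h)
  have hbj : b j ≠ 0 := fun h => hjeq.not_lt ((hb0 j hjN).mp h)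
  obtain ⟨pl, hpl, hlam⟩ := exists_gauss ρ hr
  have hlo' : ∀ k < i, C (b k) * B k = 0 := fun k hk => by
    rw [(hb0 k (hk.trans (hij.trans hjN))).mpr (hlo k hk), C_0, zero_mul]
  have hhi' : ∀ k, j < k → k < N → C (b k) * B k = 0 := fun k hk hkN => by
    rw [(hb0 k hkN).mpr (hhi k hk hkN), C_0, zero_mul]
  have hi' : C (b i) * B i ≠ 0 := mul_ne_zero (by simpa using hbi) (hB0 i)
  have hj' : C (b j) * B j ≠ 0 := mul_ne_zero (by simpa using hbj) (hB0 j)
  have hpto : pl.PTo (C (algebraMap ℂ Om (r ^ i * a i)⁻¹ * c) * ch P)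
      (ev N fun k => C (b k) * B k) := by
    rw [C_mul, mul_assoc, ← hA, ev, ev, Finset.mul_sum]
    refine Plc.PTo.sum _ fun k hk => ?_
    have h2 : pl.PTo (map (algebraMap ℂ Om) (C ((r ^ i * a i)⁻¹ * (r ^ k * a k)) * A' k))
        (map (algebraMap ℂ Om) (C (b k) * B k)) := fun m => by
      rw [coeff_map, coeff_map]
      exact hpl _ _ ((Plc.PTo.const (hb k (Finset.mem_range.mp hk))).mul (hB k) m)
    have h3 := (Plc.PTo.const (pow_mem hlam k)).mul h2
    have h4 : (C ((lam / algebraMap ℂ Om r) ^ k) : MvPolynomial (Fin n) Om)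
        * C (algebraMap ℂ Om (r ^ k)) = C (lam ^ k) := by
      rw [← C_mul, map_pow, ← mul_pow, div_mul_cancel₀ _ (by simpa using hr)]
    have h5 : C (algebraMap ℂ Om (r ^ i * a i)⁻¹) * (C (lam ^ k) * map (algebraMap ℂ Om) (A k))
        = C ((lam / algebraMap ℂ Om r) ^ k)
          * map (algebraMap ℂ Om) (C ((r ^ i * a i)⁻¹ * (r ^ k * a k)) * A' k) := by
      rw [hA' k, ← h4]
      simp only [map_mul, map_C]
      ring
    rw [h5]
    exact h3
  choose P' hP' using fun l => pl.exists_red (hP l)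
  obtain ⟨d, -, hd⟩ := Plc.ch_red hP' hpto (ev_ne_zero (hij.trans hjN) hi' hlo')
  obtain ⟨α, hα, hα'⟩ := exists_val hγ (fun l => (hP' l).1) (fun l => hfam pl hpl l _ (hP' l)) hd
    (hij.trans hjN) hjN hi' hj' hlo' hhi'
  rw [hT.uniq hγ (hα.of_smul hbi)]
  exact hα'.of_smul hbj

end

end Pool.Agent.P.MP_7ebcb6_ag.G8
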