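import Pool.Agent.P.MP_7ebcb6_ag.G8.Basic

/-! Packed arithmetic for first order jets modulo 41 in many directions at once. -/

namespace Pool.Agent.P.MP_7ebcb6_ag.G8

/-- Evaluate `n` before passing it on. -/
def frc {α : Type} (n : ℕ) (k : ℕ → α) : α :=
  Nat.rec (motive := fun _ => α) (k 0) (fun m _ => k m.succ) n

lemma frc_eq {α : Type} (n : ℕ) (k : ℕ → α) : frc n k = k n := by cases n <;> rfl

/-- A value modulo 41, packed derivatives and the sum of the derivatives. -/
structure Fa where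
  a : ℕ
  t : ℕ
  s : ℕ

def Fa.mk' (a t s : ℕ) : Fa := frc (Nat.mod a 41) fun a => frc t fun t => frc s fun s => ⟨a, t, s⟩

lemma Fa.mk'_eq (a t s : ℕ) : Fa.mk' a t s = ⟨a % 41, t, s⟩ := by
  simp only [Fa.mk', frc_eq]; rfl

instance : Add Fa := ⟨fun x y => Fa.mk' (Nat.add x.a y.a) (Nat.add x.t y.t) (Nat.add x.s y.s)⟩
instance : Mul Fa := ⟨fun x y => Fa.mk' (Nat.mul x.a y.a)
  (Nat.add (Nat.mul x.a y.t) (Nat.mul y.a x.t)) (Nat.add (Nat.mul x.a y.s) (Nat.mul y.a x.s))⟩
instance : Neg Fa := ⟨fun x => Fa.mk' (Nat.mul 40 x.a) (Nat.mul 40 x.t) (Nat.mul 40 x.s)⟩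
instance : Sub Fa := ⟨fun x y => Fa.mk' (Nat.add x.a (Nat.mul 40 y.a))
  (Nat.add x.t (Nat.mul 40 y.t)) (Nat.add x.s (Nat.mul 40 y.s))⟩

/-- The unpacked version. -/
structure Gh where
  a : ℕ
  t : ℕ → ℕ

instance : Add Gh := ⟨fun x y => ⟨(x.a + y.a) % 41, fun j => x.t j + y.t j⟩⟩
instance : Mul Gh := ⟨fun x y => ⟨(x.a * y.a) % 41, fun j => x.a * y.t j + y.a * x.t j⟩⟩
instance : Neg Gh := ⟨fun x => ⟨(40 * x.a) % 41, fun j => 40 * x.t j⟩⟩
instance : Sub Gh := ⟨fun x y => ⟨(x.a + 40 * y.a) % 41, fun j => x.t j + 40 * y.t j⟩⟩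

/-- The number with digits `t 0, …, t (n - 1)` in base `B`. -/
def pack (B : ℕ) : ℕ → (ℕ → ℕ) → ℕ
  | 0, _ => 0
  | n + 1, t => t 0 + B * pack B n fun j => t (j + 1)

lemma pack_lin (B a b : ℕ) : ∀ (n : ℕ) (t u : ℕ → ℕ),
    pack B n (fun j => a * t j + b * u j) = a * pack B n t + b * pack B n u
  | 0, _, _ => by simp [pack]
  | n + 1, t, u => by simp only [pack, pack_lin B a b n]; ring

lemma le_pack_one : ∀ (n : ℕ) (t : ℕ → ℕ) (j : ℕ), j < n → t j ≤ pack 1 n t
  | n + 1, t, 0, _ => by simp [pack]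
  | n + 1, t, j + 1, h => by
    have := le_pack_one n (fun j => t (j + 1)) j (by omega)
    simp only [pack]; omega

def Gh.fa (B n : ℕ) (x : Gh) : Fa := ⟨x.a, pack B n x.t, pack 1 n x.t⟩

lemma hom_fa (B n : ℕ) : Hom (Gh.fa B n) where
  add x y := by
    have h := fun C => pack_lin C 1 1 n x.t y.t
    simp only [one_mul] at h
    exact (congrArg₂ (Fa.mk _) (h B) (h 1)).trans (Fa.mk'_eq _ _ _).symm
  mul x y := (congrArg₂ (Fa.mk _) (pack_lin B x.a y.a n y.t x.t)
    (pack_lin 1 x.a y.a n y.t x.t)).trans (Fa.mk'_eq _ _ _).symm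
  neg x := by
    have h := fun C => pack_lin C 40 0 n x.t x.t
    simp only [zero_mul, add_zero] at h
    exact (congrArg₂ (Fa.mk _) (h B) (h 1)).trans (Fa.mk'_eq _ _ _).symm
  sub x y := by
    have h := fun C => pack_lin C 1 40 n x.t y.t
    simp only [one_mul] at h
    exact (congrArg₂ (Fa.mk _) (h B) (h 1)).trans (Fa.mk'_eq _ _ _).symm

def Gh.du (j : ℕ) (x : Gh) : DualNumber (ZMod 41) := ((x.a : ZMod 41), (x.t j : ZMod 41))

lemma cast_forty : ((40 : ℕ) : ZMod 41) = -1 := by decide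

lemma hom_du (j : ℕ) : Hom (Gh.du j) where
  add x y := TrivSqZeroExt.ext (by
      change (((x.a + y.a) % 41 : ℕ) : ZMod 41) = x.a + y.a
      rw [ZMod.natCast_mod, Nat.cast_add]) (by
      change ((x.t j + y.t j : ℕ) : ZMod 41) = x.t j + y.t j
      rw [Nat.cast_add])
  mul x y := TrivSqZeroExt.ext (by
      change (((x.a * y.a) % 41 : ℕ) : ZMod 41) = x.a * y.a
      rw [ZMod.natCast_mod, Nat.cast_mul]) (by
      rw [DualNumber.snd_mul]
      change ((x.a * y.t j + y.a * x.t j : ℕ) : ZMod 41) = x.a * y.t j + x.t j * y.a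
      push_cast; ring)
  neg x := TrivSqZeroExt.ext (by
      change (((40 * x.a) % 41 : ℕ) : ZMod 41) = -x.a
      rw [ZMod.natCast_mod, Nat.cast_mul, cast_forty]; ring) (by
      change ((40 * x.t j : ℕ) : ZMod 41) = -x.t j
      rw [Nat.cast_mul, cast_forty]; ring)
  sub x y := TrivSqZeroExt.ext (by
      change (((x.a + 40 * y.a) % 41 : ℕ) : ZMod 41) = x.a - y.a
      rw [ZMod.natCast_mod, Nat.cast_add, Nat.cast_mul, cast_forty]; ring) (by
      change ((x.t j + 40 * y.t j : ℕ) : ZMod 41) = x.t j - y.t j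
      rw [Nat.cast_add, Nat.cast_mul, cast_forty]; ring)

/-- Change the base of a number from 64 to `B`. -/
def expand (B n : ℕ) : ℕ → ℕ :=
  Nat.rec (motive := fun _ => ℕ → ℕ) (fun _ => 0)
    (fun _ ih D => Nat.add (Nat.mod D 64) (Nat.mul B (frc (Nat.div D 64) ih))) n

lemma expand_eq (B : ℕ) : ∀ n D : ℕ, expand B n D = pack B n fun j => D / 64 ^ j % 64
  | 0, _ => rfl
  | n + 1, D => by
    have : expand B (n + 1) D = D % 64 + B * frc (D / 64) (expand B n) := rfl
    rw [this, frc_eq, expand_eq B n]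
    simp only [pack, pow_zero, Nat.div_one, pow_succ', Nat.div_div_eq_div_mul]

/-- The digits of `T` are `0` modulo 41, except digit `i`, which is `1`. -/
def chkT (B n : ℕ) : ℕ → ℕ → Bool :=
  Nat.rec (motive := fun _ => ℕ → ℕ → Bool) (fun _ _ => true)
    (fun _ ih i T => and (Nat.beq (Nat.mod (Nat.mod T B) 41) (cond (Nat.beq i 1) 1 0))
      (frc (Nat.pred i) fun i => frc (Nat.div T B) fun T => ih i T)) n

lemma chkT_sound (B : ℕ) : ∀ (n i : ℕ) (t : ℕ → ℕ), (∀ j < n, t j < B) →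
    chkT B n i (pack B n t) = true → ∀ j < n, t j % 41 = if i = j + 1 then 1 else 0
  | n + 1, i, t, hB, h, j, hj => by
    have e : chkT B (n + 1) i (pack B (n + 1) t) = and (Nat.beq (pack B (n + 1) t % B % 41)
      (cond (Nat.beq i 1) 1 0)) (frc (i - 1) fun i => frc (pack B (n + 1) t / B) fun T =>
        chkT B n i T) := rfl
    have h0 := hB 0 (by omega)
    have e1 : pack B (n + 1) t % B = t 0 := by
      simp only [pack, Nat.add_mul_mod_self_left, Nat.mod_eq_of_lt h0]
    have e2 : pack B (n + 1) t / B = pack B n fun j => t (j + 1) := by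
      simp only [pack]
      rw [Nat.add_mul_div_left _ _ (by omega), Nat.div_eq_of_lt h0, zero_add]
    rw [e, frc_eq, frc_eq, e1, e2, Bool.and_eq_true] at h
    rcases j with _ | j
    · have := Nat.eq_of_beq_eq_true h.1
      rw [this]
      by_cases hi : i = 1
      · simp [hi]
      · have : Nat.beq i 1 = false := by
          rw [← Bool.not_eq_true, Nat.beq_eq]; exact hi
        simp [this, hi]
    · have := chkT_sound B n (i - 1) (fun j => t (j + 1)) (fun j hj => hB _ (by omega)) h.2 j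
        (by omega)
      rw [this]
      by_cases hi : i = j + 1 + 1
      · simp [hi]
      · rw [if_neg hi, if_neg (by omega)]

/-- All entries vanish and entry number `i + k` has derivative the unit vector. -/
def chkL (B n : ℕ) : List Fa → ℕ → Bool
  | [], _ => true
  | x :: l, i => and (and (Nat.beq x.a 0) (Nat.ble (Nat.succ x.s) B))
      (and (chkT B n (Nat.succ i) x.t) (frc (Nat.succ i) (chkL B n l)))

lemma chkL_sound (B n : ℕ) : ∀ (l : List Gh) (i : ℕ), chkL B n (l.map (Gh.fa B n)) i = true →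
    ∀ (k : ℕ) (hk : k < l.length) (j : ℕ), j < n →
      l[k].du j = ((0, if i + k = j then 1 else 0) : DualNumber (ZMod 41))
  | x :: l, i, h, k, hk, j, hj => by
    simp only [List.map_cons, chkL, Bool.and_eq_true, frc_eq, Nat.beq_eq, Nat.ble_eq] at h
    obtain ⟨⟨h1, h2⟩, h3, h4⟩ := h
    rcases k with _ | k
    · have := chkT_sound B n (i + 1) x.t
        (fun j hj => lt_of_le_of_lt (le_pack_one n x.t j hj) h2) h3 j hj
      have ha : x.a = 0 := h1
      simp only [List.getElem_cons_zero, Gh.du, ha, Nat.cast_zero, add_zero]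
      rw [← ZMod.natCast_mod, this]
      by_cases e : i = j <;> simp [e]
    · have := chkL_sound B n l (i + 1) h4 k (by simpa using hk) j hj
      simp only [List.getElem_cons_succ, this]
      rw [show i + 1 + k = i + (k + 1) by ring]

end Pool.Agent.P.MP_7ebcb6_ag.G8
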