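import Pool.Agent.P.MP_7ebcb6_ag.G8.Main

/-! The exceptional points lie on a hypersurface section. -/

open scoped LinearAlgebra.Projectivization
open MvPolynomial

namespace Pool.Agent.P.MP_7ebcb6_ag.G8

noncomputable section

lemma exists_bad_form : ∃ B : MvPolynomial (Fin 6) ℂ, B.IsHomogeneous 4 ∧
    ∀ p : Fin 4 → ℂ, eval (nu p) B = (p 0 * cayley (p 0) (p 1) (p 2) (p 3)) ^ 2 := by
  refine ⟨(X 0 * X 3 * (X 3 - X 0 - X 2 - X 5) ^ 2
    + C 4 * (X 0 * X 1 * X 4 * (X 3 - X 0 - X 2 - X 5))) + C 4 * (X 0 * X 0 * X 2 * X 5), ?_,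
    fun p => ?_⟩
  · have h : ∀ i : Fin 6, (X i : MvPolynomial (Fin 6) ℂ).IsHomogeneous 1 := isHomogeneous_X ℂ
    have hl := (((h 3).sub (h 0)).sub (h 2)).sub (h 5)
    exact ((((h 0).mul (h 3)).mul (hl.pow 2)).add
      (((((h 0).mul (h 1)).mul (h 4)).mul hl).C_mul 4)).add
      (((((h 0).mul (h 0)).mul (h 2)).mul (h 5)).C_mul 4)
  · simp [nu, cayley]
    ring

lemma coeff_scale {P : MvPolynomial (Fin 4) ℂ} {a : Fin 4 → ℂ} {c : ℂ}
    (h : ∀ p, eval (fun i => a i * p i) P = c * eval p P) {s : Fin 4 →₀ ℕ} (hs : coeff s P ≠ 0) :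
    ∏ i, a i ^ s i = c := by
  have h1 : ∑ t ∈ P.support, monomial t ((∏ i, a i ^ t i) * coeff t P) = C c * P := by
    refine MvPolynomial.funext fun p => ?_
    rw [map_mul, eval_C, ← h, map_sum, eval_eq']
    refine Finset.sum_congr rfl fun t _ => ?_
    rw [eval_monomial, Finsupp.prod_fintype _ _ (by simp)]
    simp only [mul_pow, Finset.prod_mul_distrib]
    ring
  have h2 := congrArg (coeff s) h1
  rw [coeff_C_mul, coeff_sum, Finset.sum_eq_single s (fun t _ ht => by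
    rw [coeff_monomial, if_neg ht]) (fun h => absurd (mem_support_iff.mpr hs) h),
    coeff_monomial, if_pos rfl] at h2
  exact mul_right_cancel₀ hs h2

lemma exists_phi_form (g : Fin 6 → ℂ) (la mu : ℂ) : ∃ Φ : MvPolynomial (Fin 6) ℂ,
    Φ.IsHomogeneous 4 ∧ ∀ p : Fin 4 → ℂ, eval (nu p) Φ = phiV g la mu p := by
  have he : ∀ p : Fin 4 → ℂ, eval p (phiV (fun i => C (g i)) (C la) (C mu) X) = phiV g la mu p :=
    fun p => by simp only [map_phiV, eval_C, eval_X]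
  simp only [← he]
  refine exists_comp_nu fun s hs => ?_
  have h1 := coeff_scale (a := fun _ => 2) (fun p => by rw [he, he, phiV_smul]) hs
  have h2 := coeff_scale (a := ![1, 1, -1, -1]) (c := 1) (fun p => by
    rw [he, he, one_mul, ← phiV_sg g la mu p]
    congr 1
    ext i
    fin_cases i <;> simp [sg]) hs
  rw [Finset.prod_pow_eq_pow_sum, Fin.sum_univ_four] at h1
  have h3 : s 0 + s 1 + s 2 + s 3 = 8 :=
    Nat.pow_right_injective le_rfl (by exact_mod_cast h1)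
  have h4 : Even (s 2 + s 3) := by
    rw [← neg_one_pow_eq_one_iff_even (R := ℂ) (by norm_num), pow_add]
    simpa [Fin.prod_univ_four] using h2
  rw [Finsupp.weight_apply, Finsupp.sum_fintype _ _ (by simp), Fin.sum_univ_four]
  refine Prod.ext (by simpa [wt4] using h3) ?_
  simpa [wt4] using (ZMod.natCast_eq_zero_iff_even.mpr h4)

lemma exists_pair {a b c : ℂ} (h : a * c = b ^ 2) : ∃ u y : ℂ, a = u ^ 2 ∧ b = u * y ∧ c = y ^ 2 := by
  obtain ⟨u, rfl⟩ := IsAlgClosed.exists_pow_nat_eq a two_pos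
  obtain ⟨y, rfl⟩ := IsAlgClosed.exists_pow_nat_eq c two_pos
  rcases sq_eq_sq_iff_eq_or_eq_neg.mp (show b ^ 2 = (u * y) ^ 2 by rw [← h, mul_pow]) with h | h
  · exact ⟨u, y, rfl, h, rfl⟩
  · exact ⟨u, -y, rfl, by rw [h, mul_neg], (neg_sq y).symm⟩

theorem main_hyp (H : GenericRel) (g : Fin 6 → ℂ) (la mu : ℂ) {n e : ℕ} {d : ℕ × ZMod 2}
    (N : Fin (n + 1) → MvPolynomial (Fin 4) ℂ) (hN : ∀ i, IsWeightedHomogeneous wt4 (N i) d)
    (R : Fin 6 → MvPolynomial (Fin (n + 1)) ℂ) (hR : ∀ j, (R j).IsHomogeneous e)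
    (hinv : ∀ p ∈ octic g la mu, ∃ c, ∀ j, eval (fun i => eval p (N i)) (R j) = c * nu p j)
    (p₀ : Fin 4 → ℂ) (h₀ : p₀ ∈ octic g la mu)
    (h₁ : p₀ 0 * cayley (p₀ 0) (p₀ 1) (p₀ 2) (p₀ 3) ≠ 0) (h₂ : ∃ i, eval p₀ (N i) ≠ 0)
    (h₃ : ∃ j, eval (fun i => eval p₀ (N i)) (R j) ≠ 0) :
    ∃ (F : MvPolynomial (Fin (n + 1)) ℂ) (r : ℕ), F.IsHomogeneous r ∧
      eval (fun i => eval p₀ (N i)) F ≠ 0 ∧ ∀ D : closedImage (octic g la mu) N →₀ ℤ,
        ∃ (k : ℕ) (D' : closedImage (octic g la mu) N →₀ ℤ), 0 < k ∧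
          (∀ x ∈ D'.support, eval x.1.rep F = 0) ∧
          k • D - D' ∈ ratTrivial (closedImage (octic g la mu) N) := by
  obtain ⟨i, hi⟩ := h₂
  obtain ⟨j, hj⟩ := h₃
  obtain ⟨B, hB, hB'⟩ := exists_bad_form
  obtain ⟨S, hS, hS'⟩ : ∃ S : MvPolynomial (Fin 6) ℂ, S.IsHomogeneous d.1 ∧
      ∀ p, eval (nu p) S = eval p (N i * N i) := exists_comp_nu (by
    have := (hN i).mul (hN i)
    rwa [show d + d = (2 * d.1, 0) from Prod.ext (two_mul _).symm (CharTwo.add_self_eq_zero _)]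
      at this)
  have h4 : ∀ (v : Fin (n + 1) → ℂ) (F : MvPolynomial (Fin 6) ℂ),
      eval v (aeval R F) = aeval (fun j => eval v (R j)) F := fun v F => by
    rw [← aeval_eq_eval, ← AlgHom.comp_apply, comp_aeval]
  refine ⟨aeval R (B * S), _, (hB.mul hS).aeval R hR, ?_, fun D => ?_⟩
  · obtain ⟨c, hc⟩ := hinv p₀ h₀
    have hc0 : c ≠ 0 := fun h => hj (by rw [hc, h, zero_mul])
    rw [h4, funext hc, aeval_smul_homog (hB.mul hS), aeval_eq_eval, map_mul, hB', hS', map_mul]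
    exact mul_ne_zero (pow_ne_zero _ hc0) (mul_ne_zero (pow_ne_zero _ h₁) (mul_ne_zero hi hi))
  obtain ⟨k, D', hk, hD', hrat⟩ := main H g la mu N hN R hR hinv D
  refine ⟨k, D', hk, fun x hx => ?_, hrat⟩
  have key : ∀ (T : MvPolynomial (Fin 6) ℂ) (r : ℕ), T.IsHomogeneous r →
      (∀ p ∈ octic g la mu, eval (nu p) T = 0) → eval (fun j => eval x.1.rep (R j)) T = 0 := by
    intro T r hT h0
    refine (h4 _ _).symm.trans (x.2 _ _ (hT.aeval R hR) ?_)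
    rintro _ ⟨p, hp, h, rfl⟩
    obtain ⟨a, ha⟩ := Projectivization.exists_smul_eq_mk_rep ℂ _ h
    obtain ⟨t, ht⟩ := hinv p hp
    have h5 : (fun k => eval ((a : ℂ) • fun i => eval p (N i)) (R k))
        = fun k => (a ^ e * t) * nu p k := funext fun k => by
      rw [mul_assoc, ← ht]
      exact aeval_smul_homog (hR k) (a : ℂ) fun i => eval p (N i)
    rw [← ha, h4, Units.smul_def, h5, aeval_smul_homog hT, aeval_eq_eval, h0 p hp, mul_zero]
  have hX : ∀ i : Fin 6, (X i : MvPolynomial (Fin 6) ℂ).IsHomogeneous 1 := isHomogeneous_X ℂ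
  obtain ⟨u, y, e0, e1, e2⟩ := exists_pair (sub_eq_zero.mp (by
    simpa using key (X 0 * X 2 - X 1 ^ 2) 2 (((hX 0).mul (hX 2)).sub ((hX 1).pow 2))
      fun p _ => by simp [nu, mul_pow]))
  obtain ⟨m, n, e3, e4, e5⟩ := exists_pair (sub_eq_zero.mp (by
    simpa using key (X 3 * X 5 - X 4 ^ 2) 2 (((hX 3).mul (hX 5)).sub ((hX 4).pow 2))
      fun p _ => by simp [nu, mul_pow]))
  have hv : (fun j => eval x.1.rep (R j)) = nu ![u, y, m, n] := by
    ext j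
    fin_cases j
    exacts [e0, e1, e2, e3, e4, e5]
  obtain ⟨Φ, hΦ, hΦ'⟩ := exists_phi_form g la (2 * mu)
  have hp := key Φ 4 hΦ fun p hp => (hΦ' p).trans (mem_octic.mp hp)
  rw [hv, hΦ'] at hp
  rw [h4, hv, aeval_eq_eval, map_mul, hB', hS', map_mul]
  rcases hD' x hx _ (mem_octic.mpr hp) hv with h | h
  · rw [h, zero_pow two_ne_zero, zero_mul]
  · rw [h, zero_mul, mul_zero]

/-- The hypotheses hold for the image in `ℙ⁵` of a member through any given good point. -/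
theorem hyp_nonvacuous (g : Fin 6 → ℂ) (mu : ℂ) (p₀ : Fin 4 → ℂ)
    (h₁ : p₀ 0 * cayley (p₀ 0) (p₀ 1) (p₀ 2) (p₀ 3) ≠ 0) : ∃ la, p₀ ∈ octic g la mu := by
  have h2 : p₀ 0 ≠ 0 := left_ne_zero_of_mul h₁
  have h3 : c3 (p₀ 0) (p₀ 1) (p₀ 2) (p₀ 3) ≠ 0 := cayley_eq _ _ _ _ ▸ right_ne_zero_of_mul h₁
  refine ⟨(-phi g 0 (p₀ 0) (p₀ 1) (p₀ 2) (p₀ 3) / (p₀ 0 * c3 (p₀ 0) (p₀ 1) (p₀ 2) (p₀ 3) ^ 2)
    - 2 * mu * p₀ 1) / p₀ 0, mem_octic.mpr ?_⟩
  rw [phi_lin]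
  field_simp
  ring

end

end Pool.Agent.P.MP_7ebcb6_ag.G8
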