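import Mathlib

/-! Nondegenerate solutions of square polynomial systems lift along specialisations,
and the lift over a valuation ring is unique. -/

open MvPolynomial

namespace Pool.Agent.P.MP_7ebcb6_ag.G8

lemma isAlgebraic_of_unramified (A D : Type) [CommRing A] [IsDomain A] [CommRing D] [IsDomain D]
    [Algebra A D] [FaithfulSMul A D] [Algebra.FormallyUnramified A D] [Algebra.FiniteType A D] :
    Algebra.IsAlgebraic A D := by
  let F := FractionRing A
  let K := FractionRing D
  have hinj : Function.Injective (algebraMap A K) :=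
    (IsFractionRing.injective D K).comp (FaithfulSMul.algebraMap_injective A D)
  let : Algebra F K := (IsFractionRing.lift hinj).toAlgebra
  have : IsScalarTower A F K := IsScalarTower.of_algebraMap_eq fun a =>
    (IsFractionRing.lift_algebraMap hinj a).symm
  have : Algebra.FormallyUnramified A K := Algebra.FormallyUnramified.comp A D K
  have : Algebra.FormallyUnramified F K := Algebra.FormallyUnramified.of_restrictScalars A F K
  have : Algebra.EssFiniteType A K := Algebra.EssFiniteType.comp A D K
  have : Algebra.EssFiniteType F K := Algebra.EssFiniteType.of_comp A F K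
  have : Algebra.IsSeparable F K := Algebra.FormallyUnramified.isSeparable F K
  have : Algebra.IsAlgebraic A K := (IsFractionRing.comap_isAlgebraic_iff (K := F)).mpr
    inferInstance
  exact ⟨fun d => (isAlgebraic_algebraMap_iff (IsFractionRing.injective D K)).mp
    (Algebra.IsAlgebraic.isAlgebraic _)⟩

/-- A nondegenerate solution over a specialisation of the base lifts to the generic point. -/
theorem exists_lift {A L T : Type} [CommRing A] [IsDomain A] [Field L] [IsAlgClosed L] [Field T]
    (ι : A →+* L) (hι : Function.Injective ι) (π : A →+* T) {n : ℕ}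
    (f : Fin n → MvPolynomial (Fin n) A) (x0 : Fin n → T) (h0 : ∀ i, eval₂ π x0 (f i) = 0)
    (hJ : (Matrix.of fun i j => eval₂ π x0 (pderiv j (f i))).det ≠ 0) :
    ∃ x : Fin n → L, (∀ i, eval₂ ι x (f i) = 0) ∧
      ∀ h : MvPolynomial (Fin n) A, eval₂ ι x h = 0 → eval₂ π x0 h = 0 := by
  classical
  let I : Ideal (MvPolynomial (Fin n) A) := Ideal.span (Set.range f)
  let S := MvPolynomial (Fin n) A ⧸ I
  let P : Algebra.PreSubmersivePresentation A S (Fin n) (Fin n) :=
    Algebra.PreSubmersivePresentation.naive id Function.injective_id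
  let B := Localization.Away P.jacobian
  let P' : Algebra.SubmersivePresentation A B (Unit ⊕ Fin n) (Unit ⊕ Fin n) :=
    { __ := (Algebra.PreSubmersivePresentation.localizationAway B P.jacobian).comp P
      jacobian_isUnit := by
        rw [Algebra.PreSubmersivePresentation.comp_jacobian_eq_jacobian_smul_jacobian,
          Algebra.PreSubmersivePresentation.localizationAway_jacobian, Algebra.smul_def]
        exact (IsLocalization.Away.algebraMap_isUnit _).mul
          (IsLocalization.Away.algebraMap_isUnit _) }
  have : Algebra.IsStandardSmoothOfRelativeDimension 0 A B :=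
    P'.isStandardSmoothOfRelativeDimension (by simp [Algebra.Presentation.dimension])
  have : Algebra.Etale A B := inferInstance
  let ψS : S →+* T := Ideal.Quotient.lift I (eval₂Hom π x0) fun a ha => by
    refine Submodule.span_induction (fun x hx => ?_) (map_zero _)
      (fun x y _ _ hx hy => by rw [map_add, hx, hy, add_zero])
      (fun a x _ hx => by rw [smul_eq_mul, map_mul, hx, mul_zero]) ha
    obtain ⟨i, rfl⟩ := hx
    exact h0 i
  have hψJ : IsUnit (ψS P.jacobian) := by
    rw [isUnit_iff_ne_zero, P.jacobian_eq_jacobiMatrix_det]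
    change eval₂Hom π x0 P.jacobiMatrix.det ≠ 0
    rw [RingHom.map_det, ← Matrix.det_transpose]
    refine fun h => hJ (Eq.trans (congrArg Matrix.det ?_) h)
    ext i j
    simp only [Matrix.of_apply, Matrix.transpose_apply, RingHom.mapMatrix_apply, Matrix.map_apply,
      coe_eval₂Hom]
    rw [P.jacobiMatrix_apply]
    rfl
  let ψ : B →+* T := IsLocalization.Away.lift P.jacobian hψJ
  let q : Ideal B := RingHom.ker ψ
  have : q.IsPrime := RingHom.ker_isPrime ψ
  obtain ⟨q', hle, hq', hlo⟩ := Ideal.exists_ideal_le_liesOver_of_le (p := ⊥) (q := q.under A) q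
    bot_le
  let D := B ⧸ q'
  have : FaithfulSMul A D := by
    rw [faithfulSMul_iff_algebraMap_injective, injective_iff_map_eq_zero]
    intro a ha
    have h1 : algebraMap A B a ∈ q' := Ideal.Quotient.eq_zero_iff_mem.mp ha
    have h2 : a ∈ q'.under A := h1
    rw [← hlo.over] at h2
    exact h2
  have : Algebra.IsAlgebraic A D := isAlgebraic_of_unramified A D
  let : Algebra A L := ι.toAlgebra
  have : FaithfulSMul A L := (faithfulSMul_iff_algebraMap_injective A L).mpr hι
  let χ : D →ₐ[A] L := IsAlgClosed.lift
  have hχ : Function.Injective χ := by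
    rw [injective_iff_map_eq_zero]
    intro d hd
    by_contra hne
    refine Ideal.comap_ne_bot_of_algebraic_mem (I := RingHom.ker (χ : D →+* L)) hne hd
      (Algebra.IsAlgebraic.isAlgebraic (R := A) d) (eq_bot_iff.mpr fun a ha => ?_)
    exact hι (((χ.commutes a).symm.trans ha).trans (map_zero ι).symm)
  let θ : MvPolynomial (Fin n) A →+* B := (algebraMap S B).comp (Ideal.Quotient.mk I)
  let Θ : MvPolynomial (Fin n) A →+* L := (χ : D →+* L).comp ((Ideal.Quotient.mk q').comp θ)
  have hΘ : ∀ h, eval₂ ι (fun j => Θ (X j)) h = Θ h := by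
    intro h
    rw [← coe_eval₂Hom]
    refine congrFun (congrArg DFunLike.coe (ringHom_ext (fun a => ?_) fun j => ?_)) h
    · rw [eval₂Hom_C]
      exact (χ.commutes a).symm
    · rw [eval₂Hom_X']
  refine ⟨fun j => Θ (X j), fun i => ?_, fun h hh => ?_⟩
  · rw [hΘ]
    have : Ideal.Quotient.mk I (f i) = 0 :=
      Ideal.Quotient.eq_zero_iff_mem.mpr (Ideal.subset_span ⟨i, rfl⟩)
    simp only [Θ, θ, RingHom.comp_apply, this, map_zero]
  · rw [hΘ] at hh
    have h1 : Ideal.Quotient.mk q' (θ h) = 0 := hχ (by rw [map_zero]; exact hh)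
    have h2 : ψ (θ h) = 0 := hle (Ideal.Quotient.eq_zero_iff_mem.mp h1)
    have h3 : ψ (θ h) = eval₂ π x0 h := by
      simp only [ψ, θ, RingHom.comp_apply, IsLocalization.Away.lift_eq]
      rfl
    rw [← h3, h2]

/-- The infinitesimal part of a polynomial at a dual point. -/
lemma snd_eval₂ {A T σ : Type} [CommRing A] [CommRing T] [Fintype σ] [DecidableEq σ] (π : A →+* T)
    (x v : σ → T) (f : MvPolynomial σ A) :
    eval₂ ((TrivSqZeroExt.inlHom T T).comp π) (fun k => ((x k, v k) : DualNumber T)) f
      = ((eval₂ π x f, ∑ k, eval₂ π x (pderiv k f) * v k) : DualNumber T) := by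
  induction f using MvPolynomial.induction_on with
  | C a =>
    simp only [eval₂_C, pderiv_C, eval₂_zero, zero_mul, Finset.sum_const_zero]
    rfl
  | add p q hp hq =>
    simp only [eval₂_add, hp, hq, map_add, add_mul, Finset.sum_add_distrib]
    rfl
  | mul_X p i hp =>
    have h1 : ∑ k, eval₂ π x (pderiv k (p * X i)) * v k
        = eval₂ π x p * v i + (∑ k, eval₂ π x (pderiv k p) * v k) * x i := by
      simp only [pderiv_mul, eval₂_add, eval₂_mul, eval₂_X, add_mul, Finset.sum_add_distrib,
        pderiv_X, Finset.sum_mul]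
      rw [add_comm]
      congr 1
      · rw [Finset.sum_eq_single i]
        · simp
        · intro k _ hk
          simp [Pi.single_eq_of_ne' hk]
        · simp
      · exact Finset.sum_congr rfl fun k _ => by ring
    rw [eval₂_mul, eval₂_X, hp, h1, eval₂_mul, eval₂_X]
    rfl

/-- The lifting theorem with a right inverse of the Jacobian, in dual numbers. -/
theorem exists_lift_dual {A L T : Type} [CommRing A] [IsDomain A] [Field L] [IsAlgClosed L]
    [Field T] (ι : A →+* L) (hι : Function.Injective ι) (π : A →+* T) {n : ℕ}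
    (f : Fin n → MvPolynomial (Fin n) A) (x0 : Fin n → T)
    (hJ : ∀ j, ∃ v : Fin n → T, ∀ i, eval₂ ((TrivSqZeroExt.inlHom T T).comp π)
      (fun k => ((x0 k, v k) : DualNumber T)) (f i)
        = ((0, if i = j then 1 else 0) : DualNumber T)) :
    ∃ x : Fin n → L, (∀ i, eval₂ ι x (f i) = 0) ∧
      ∀ h : MvPolynomial (Fin n) A, eval₂ ι x h = 0 → eval₂ π x0 h = 0 := by
  choose v hv using hJ
  simp only [snd_eval₂] at hv
  refine exists_lift ι hι π f x0 (fun i => congrArg Prod.fst (hv i i)) ?_
  have : (Matrix.of fun i j => eval₂ π x0 (pderiv j (f i))) * (Matrix.of fun k j => v j k) = 1 := by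
    ext i j
    rw [Matrix.mul_apply, Matrix.one_apply]
    exact congrArg Prod.snd (hv j i)
  exact Matrix.det_ne_zero_of_right_inverse this

lemma exists_taylor {O σ : Type} [CommRing O] [Fintype σ] [DecidableEq σ] (x e : σ → O) (c : O)
    (f : MvPolynomial σ O) : ∃ r, eval (fun k => x k + c * e k) f
      = eval x f + c * (∑ k, eval x (pderiv k f) * e k) + c * c * r := by
  induction f using MvPolynomial.induction_on with
  | C a => exact ⟨0, by simp⟩
  | add p q hp hq =>
    obtain ⟨r, hr⟩ := hp
    obtain ⟨s, hs⟩ := hq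
    refine ⟨r + s, ?_⟩
    simp only [map_add, hr, hs, add_mul, Finset.sum_add_distrib]
    ring
  | mul_X p i hp =>
    obtain ⟨r, hr⟩ := hp
    have h1 : ∑ k, eval x (pderiv k (p * X i)) * e k
        = eval x p * e i + (∑ k, eval x (pderiv k p) * e k) * x i := by
      simp only [pderiv_mul, map_add, map_mul, eval_X, add_mul, Finset.sum_add_distrib,
        pderiv_X, Finset.sum_mul]
      rw [add_comm]
      congr 1
      · rw [Finset.sum_eq_single i]
        · simp
        · intro k _ hk
          simp [Pi.single_eq_of_ne' hk]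
        · simp
      · exact Finset.sum_congr rfl fun k _ => by ring
    refine ⟨(∑ k, eval x (pderiv k p) * e k) * e i + r * (x i + c * e i), ?_⟩
    rw [map_mul, map_mul, eval_X, eval_X, hr, h1]
    ring

lemma exists_dvd_all {O σ : Type} [CommRing O] [IsDomain O] [ValuationRing O] (d : σ → O)
    (s : Finset σ) (hs : s.Nonempty) : ∃ i, ∀ j ∈ s, d i ∣ d j := by
  classical
  induction hs using Finset.Nonempty.cons_induction with
  | singleton a => exact ⟨a, by simp⟩
  | cons a s ha hs ih =>
    obtain ⟨i, hi⟩ := ih
    rcases ValuationRing.dvd_total (d i) (d a) with h | h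
    · exact ⟨i, fun j hj => (Finset.mem_cons.mp hj).elim (fun e => e ▸ h) (hi j)⟩
    · exact ⟨a, fun j hj => (Finset.mem_cons.mp hj).elim (fun e => e ▸ dvd_rfl)
        fun hj => h.trans (hi j hj)⟩

/-- Two solutions over a valuation ring with the same nondegenerate reduction agree. -/
theorem lift_unique {O L : Type} [CommRing O] [IsDomain O] [ValuationRing O] [Field L]
    (π : O →+* L) {n : ℕ} (f : Fin n → MvPolynomial (Fin n) O) (x x' : Fin n → O)
    (hx : ∀ i, eval x (f i) = 0) (hx' : ∀ i, eval x' (f i) = 0) (hπ : ∀ k, π (x k) = π (x' k))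
    (hJ : (Matrix.of fun i j => eval₂ π (fun k => π (x k)) (pderiv j (f i))).det ≠ 0) :
    x = x' := by
  classical
  by_contra hne
  obtain ⟨k0, hk0⟩ := Function.ne_iff.mp hne
  obtain ⟨i0, hi0⟩ := exists_dvd_all (fun k => x' k - x k) Finset.univ ⟨k0, Finset.mem_univ _⟩
  choose e he using fun j => hi0 j (Finset.mem_univ j)
  set c := x' i0 - x i0 with hc
  have hc0 : c ≠ 0 := fun h => hk0 (by
    have := he k0
    rw [h, zero_mul, sub_eq_zero] at this
    exact this.symm)
  have hπc : π c = 0 := by rw [hc, map_sub, hπ, sub_self]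
  have he1 : e i0 = 1 := mul_left_cancel₀ hc0 (by rw [← he i0, mul_one])
  have hx'' : x' = fun k => x k + c * e k := funext fun k => by rw [← he k]; ring
  have hker : (Matrix.of fun i j => eval₂ π (fun k => π (x k)) (pderiv j (f i))).mulVec
      (fun k => π (e k)) = 0 := by
    ext i
    obtain ⟨r, hr⟩ := exists_taylor x e c (f i)
    rw [← hx'', hx, hx'] at hr
    have h2 : ∑ k, eval x (pderiv k (f i)) * e k + c * r = 0 :=
      mul_left_cancel₀ hc0 (by linear_combination -hr)
    have h3 := congrArg π h2
    rw [map_add, map_mul, hπc, zero_mul, add_zero, map_sum, map_zero] at h3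
    rw [Pi.zero_apply, ← h3, Matrix.mulVec, dotProduct]
    refine Finset.sum_congr rfl fun k _ => ?_
    rw [map_mul, Matrix.of_apply, ← eval₂_id, eval₂_comp_left]
    rfl
  have h4 := congrFun (Matrix.eq_zero_of_mulVec_eq_zero hJ hker) i0
  simp [he1] at h4

end Pool.Agent.P.MP_7ebcb6_ag.G8
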