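import Pool.Agent.P.MP_7ebcb6_ag.G8.Stmts

/-! Tools for sums over the places of a finite extension of `ℂ(t)`. -/

open scoped WithZero IntermediateField
open WithZero

namespace Pool.Agent.P.MP_7ebcb6_ag.G8

noncomputable section

section ord

variable {K : Type} [Field K] (w : Valuation K ℤᵐ⁰)

lemma ord_mul {a b : K} (ha : a ≠ 0) (hb : b ≠ 0) : ord w (a * b) = ord w a + ord w b := by
  rw [ord, ord, ord, map_mul, log_mul (by simpa using ha) (by simpa using hb)]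
  ring

lemma ord_prod {ι : Type} (s : Finset ι) {f : ι → K} (hf : ∀ i ∈ s, f i ≠ 0) :
    ord w (∏ i ∈ s, f i) = ∑ i ∈ s, ord w (f i) := by
  classical
  induction s using Finset.induction_on with
  | empty => simp [ord]
  | insert a s ha ih =>
    have h2 := fun i hi => hf i (Finset.mem_insert_of_mem hi)
    rw [Finset.prod_insert ha, Finset.sum_insert ha, ord_mul w (hf a (Finset.mem_insert_self _ _))
      (Finset.prod_ne_zero_iff.mpr h2), ih h2]

variable {w}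

lemma ord_le_ord {a b : K} (ha : a ≠ 0) (h : w a ≤ w b) : ord w b ≤ ord w a := by
  have h1 : w a ≠ 0 := by simpa using ha
  have h2 : w b ≠ 0 := fun h0 => h1 (le_zero_iff.mp (h0 ▸ h))
  rw [ord, ord, neg_le_neg_iff]
  rwa [← exp_log h1, ← exp_log h2, exp_le_exp] at h

lemma ord_nonneg {a : K} (ha : a ≠ 0) (h : w a ≤ 1) : 0 ≤ ord w a := by
  simpa [ord] using ord_le_ord (b := 1) ha (by rwa [map_one])

lemma ord_congr {a b : K} (h : w a = w b) : ord w a = ord w b := by rw [ord, ord, h]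

variable [Algebra ℂ K]

lemma _root_.Pool.Agent.P.MP_7ebcb6_ag.IsPlace.trivialOn (hw : IsPlace w) : w.IsTrivialOn ℂ :=
  ⟨hw.2⟩

lemma exists_support (hK : IsCurveField K) {ι : Type} [Fintype ι] {f : ι → K} (hf : ∀ j, f j ≠ 0) :
    ∃ S : Finset (Valuation K ℤᵐ⁰), (∀ w ∈ S, IsPlace w) ∧ (∀ j, ∑ w ∈ S, ord w (f j) = 0) ∧
      ∀ j w, IsPlace w → w ∉ S → w (f j) = 1 := by
  classical
  choose D hD hsum using fun j => hK.exists_divisor (hf j)
  have hS : ∀ w ∈ Finset.univ.biUnion D, IsPlace w := fun w hw => by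
    obtain ⟨j, -, hj⟩ := Finset.mem_biUnion.mp hw
    exact ((hD j w).mp hj).1
  refine ⟨Finset.univ.biUnion D, hS, fun j => ?_, fun j w hw hwS => ?_⟩
  · rw [← hsum j, eq_comm]
    refine Finset.sum_subset (Finset.subset_biUnion_of_mem D (Finset.mem_univ j))
      fun w hw hwD => ord_eq_zero_of_eq_one ?_
    by_contra h
    exact hwD ((hD j w).mpr ⟨hS w hw, h⟩)
  · by_contra h
    exact hwS (Finset.mem_biUnion.mpr ⟨j, Finset.mem_univ _, (hD j w).mpr ⟨hw, h⟩⟩)

open Classical in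
lemma sum_ite_ord (hK : IsCurveField K) {f : K} (hf : Transcendental ℂ f)
    {S : Finset (Valuation K ℤᵐ⁰)} (hS : ∀ w ∈ S, IsPlace w)
    (hS' : ∀ w, IsPlace w → w ∉ S → w f = 1) :
    ∑ w ∈ S, (if w f < 1 then ord w f else 0) = Module.finrank ℂ⟮f⟯ K := by
  obtain ⟨Z, hZ, hsum⟩ := hK.sum_ord_zeros hf
  rw [← hsum, ← Finset.sum_filter]
  refine Finset.sum_congr (Finset.ext fun w => ?_) fun _ _ => rfl
  rw [Finset.mem_filter, hZ]
  refine ⟨fun h => ⟨hS w h.1, h.2⟩, fun h => ⟨?_, h.2⟩⟩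
  by_contra hn
  exact h.2.ne (hS' w h.1 hn)

end ord

lemma isFam_pack {M ι : Type} [AddCommGroup M] [Fintype ι] {γ : ι → Sp → M}
    (h : ∀ j, IsFam (γ j)) (T : Finset Om) : ∃ K : IntermediateField (RatFunc ℂ) Om,
      FiniteDimensional (RatFunc ℂ) K ∧ (∀ a ∈ T, a ∈ K) ∧
      ∃ γK : ι → Valuation K ℤᵐ⁰ → M, (∀ j sp w, IsPlace w → Lies sp K w → γ j sp = γK j w) ∧
        ∀ j (f : K) (S : Finset (Valuation K ℤᵐ⁰)), f ≠ 0 → (∀ w ∈ S, IsPlace w) →
          (∀ w, IsPlace w → w ∉ S → ord w f = 0) → ∑ w ∈ S, ord w f • γK j w = 0 := by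
  classical
  choose T' hT' using h
  obtain ⟨K, hK, hsub⟩ := exists_finK (T ∪ Finset.univ.biUnion T')
  choose γK h1 h2 using fun j => hT' j K hK fun a ha =>
    hsub a (Finset.mem_union_right _ (Finset.mem_biUnion.mpr ⟨j, Finset.mem_univ _, ha⟩))
  exact ⟨K, hK, fun a ha => hsub a (Finset.mem_union_left _ ha), γK, h1, h2⟩

lemma _root_.Pool.Agent.P.MP_7ebcb6_ag.Lies.tends {sp : Sp}
    {K : IntermediateField (RatFunc ℂ) Om} {w : Valuation K ℤᵐ⁰} (h : Lies sp K w) {a : K}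
    {c : ℂ} (ha : Tends w a c) : Tends sp.v (a : Om) c := (h.lt_one _).mp ha

lemma _root_.Pool.Agent.P.MP_7ebcb6_ag.Lies.one_lt {sp : Sp}
    {K : IntermediateField (RatFunc ℂ) Om} {w : Valuation K ℤᵐ⁰} (h : Lies sp K w) {a : K}
    (ha : 1 < w a) : 1 < sp.v (a : Om) := not_le.mp fun hle => not_le.mpr ha ((h.le_one a).mpr hle)

section lim

variable {L Γ : Type} [Field L] [Algebra ℂ L] [LinearOrderedCommGroupWithZero Γ]
  {v : Valuation L Γ} [v.IsTrivialOn ℂ]

/-- A point of the octic does not tend to a point of `m = n = 0` where `f4` is nonzero. -/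
lemma not_tends_zero {g : Fin 6 → ℂ} {l y m n U : L} {l0 y0 : ℂ} (hU : U ≠ 0)
    (h : phi (fun i => algebraMap ℂ L (g i)) (l * U) U (y * U) m n = 0) (hl : Tends v l l0)
    (hy : Tends v y y0) (hm : v m < v U) (hn : v n < v U) : f4 g y0 = 0 := by
  have h0 : 0 < v U := zero_lt_iff.mpr (by simpa using hU)
  have h1 := phi_smul (fun i => algebraMap ℂ L (g i)) U⁻¹ (l * U) U (y * U) m n
  rw [h, mul_zero, mul_comm l, mul_comm y, inv_mul_cancel_left₀ hU, inv_mul_cancel_left₀ hU,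
    inv_mul_cancel₀ hU] at h1
  have h2 := (tends_phi g hl Tends.one hy (m := U⁻¹ * m) (n := U⁻¹ * n)
    (Tends.zero_iff.mpr (by rwa [map_mul, map_inv₀, inv_mul_lt_one₀ h0]))
    (Tends.zero_iff.mpr (by rwa [map_mul, map_inv₀, inv_mul_lt_one₀ h0]))).eq_zero h1
  rw [phi_zero_zero] at h2
  exact pow_eq_zero_iff two_ne_zero |>.mp h2

end lim

end

end Pool.Agent.P.MP_7ebcb6_ag.G8
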