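import Pool.Agent.P.MP_7ebcb6_ag.G8.Target
import Pool.Agent.P.MP_7ebcb6_ag.G8.Iface

/-! From the relation at the generic point to every point of every member. -/

open scoped LinearAlgebra.Projectivization
open MvPolynomial

namespace Pool.Agent.P.MP_7ebcb6_ag.G8

noncomputable section

lemma Plc.Red.smul {K L : Type} [Field K] [Field L] {pl : Plc K L} {n : ℕ} {P : Fin n → K}
    {Q : Fin n → L} (h : pl.Red P Q) {a : K} (ha : a ≠ 0) : pl.Red (fun i => a * P i) Q := by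
  obtain ⟨h0, c, hc⟩ := h
  exact ⟨h0, c / a, fun i => by rw [← mul_assoc, div_mul_cancel₀ _ ha]; exact hc i⟩

lemma Plc.Red.sg {K L : Type} [Field K] [Field L] {pl : Plc K L} {P : Fin 4 → K}
    {Q : Fin 4 → L} (h : pl.Red P Q) : pl.Red (sg P) (sg Q) := by
  obtain ⟨h0, c, hc⟩ := h
  refine ⟨fun h => h0 (funext fun i => ?_), c, fun i => ?_⟩
  · fin_cases i
    exacts [congrFun h 0, congrFun h 1, neg_eq_zero.mp (congrFun h 2),
      neg_eq_zero.mp (congrFun h 3)]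
  · fin_cases i
    · exact hc 0
    · exact hc 1
    · exact (mul_neg c (P 2)).symm ▸ neg_mem (hc 2)
    · exact (mul_neg c (P 3)).symm ▸ neg_mem (hc 3)

lemma vec_ne_zero {K : Type} [Field K] (y m n : K) : (![1, y, m, n] : Fin 4 → K) ≠ 0 :=
  fun h => one_ne_zero (congrFun h 0)

/-- A class function on the target member induces a class map on the source member. -/
lemma exists_classMap {M : Type} [AddCommGroup M] [IsAddTorsionFree M] (γ : (Fin 4 → ℂ) → M)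
    (hγ : ∀ (c : ℂ) (P : Fin 4 → ℂ), c ≠ 0 → γ (fun i => c * P i) = γ P)
    (hsg : ∀ P, γ (sg P) = γ P) (hbad : ∀ P, badV P = 0 → γ P = 0)
    {g g' : Fin 6 → ℂ} {la mu la' mu' : ℂ}
    (hfam : ∀ P : Fin 4 → Om, phiV (fun i => algebraMap ℂ Om (g' i)) (algebraMap ℂ Om la')
      (algebraMap ℂ Om mu') P = 0 →
      ∃ δ : Sp → M, IsFam δ ∧ ∀ sp Q, (spPl sp).Red P Q → δ sp = γ Q)
    (ρ : Plc ℂ ℂ) (hg : ∀ i, (g i, g' i) ∈ ρ.G) (hla : (la, la') ∈ ρ.G) (hmu : (mu, mu') ∈ ρ.G) :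
    ∃ G : ClassMap g la mu M, ∀ y m n R, ρ.Red ![1, y, m, n] R → G.cl y m n = γ R := by
  have hex : ∀ Q : Fin 4 → ℂ, ∃ a : M, ∀ R, ρ.Red Q R → a = γ R := by
    intro Q
    by_cases hQ : Q = 0
    · exact ⟨0, fun R h => absurd hQ h.ne_zero⟩
    · obtain ⟨R0, h0⟩ := ρ.exists_red hQ
      refine ⟨γ R0, fun R h => ?_⟩
      obtain ⟨c, hc, e⟩ := h0.uniq h
      rw [e, hγ c R hc]
  choose cls hcls using hex
  have hsm : ∀ (c : ℂ) (P : Fin 4 → ℂ), c ≠ 0 → cls (fun i => c * P i) = cls P := by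
    intro c P hc
    by_cases hP : P = 0
    · subst hP
      exact congrArg cls (funext fun i => mul_zero c)
    · obtain ⟨R, hR⟩ := ρ.exists_red hP
      rw [hcls _ R hR, hcls _ R (hR.smul hc)]
  have hb : ∀ Q : Fin 4 → ℂ, Q ≠ 0 → badV Q = 0 → cls Q = 0 := fun Q hQ h => by
    obtain ⟨R, hR⟩ := ρ.exists_red hQ
    rw [hcls _ R hR, hbad R (hR.badV h)]
  have key := fun (P : Fin 4 → Om) => isFam_of_galois cls hsm (fun P =>
    phiV (fun i => algebraMap ℂ Om (g i)) (algebraMap ℂ Om la) (algebraMap ℂ Om mu) P = 0)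
    (fun K η σ h => by
      have h1 : phiV (fun i => algebraMap ℂ K (g i)) (algebraMap ℂ K la) (algebraMap ℂ K mu) η
          = 0 := (map_eq_zero (algebraMap K Om)).mp (by rw [map_phiV]; exact h)
      have h2 := congrArg (σ : K →+* Om) h1
      rw [map_phiV, map_zero] at h2
      simpa only [RingHom.coe_coe, AlgHom.commutes] using h2)
    (fun ι _ P hP hOn hG sp0 sp1 Q0 Q1 h0 h1 hQ0 hQ1 => by
      choose R0 hR0 using fun j => ρ.exists_red (hQ0 j).1
      choose R1 hR1 using fun j => ρ.exists_red (hQ1 j).1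
      simp only [fun j => hcls _ _ (hR0 j), fun j => hcls _ _ (hR1 j)]
      exact fam_main hγ ρ hP hG (fun pl hpl j P' hP' => hfam P'
        (hP'.phiV (fun i => hpl _ _ (hg i)) (hpl _ _ hla) (hpl _ _ hmu) (hOn j)))
        h0 h1 hQ0 hQ1 hR0 hR1) (P := P)
  refine ⟨⟨fun y m n => cls ![1, y, m, n], fun y m n => ?_, fun y m n h => ?_,
    fun y m n h => ?_⟩, fun y m n R hR => hcls _ R hR⟩
  · obtain ⟨R, hR⟩ := ρ.exists_red (vec_ne_zero y m n)
    exact (hcls _ _ hR.sg).trans ((hsg R).trans (hcls _ R hR).symm)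
  · exact hb _ (vec_ne_zero y m n) ((one_mul _).trans h)
  · obtain ⟨δ, hδ, hval⟩ := key ![1, y, m, n] (vec_ne_zero y m n) (by
      rw [← h, phiV]
      simp)
    refine ⟨δ, hδ, fun sp y0 m0 n0 hy hm hn => hval sp _ ⟨vec_ne_zero _ _ _, 1, fun i => ?_⟩,
      fun sp hsp => ?_⟩
    · rw [one_mul]
      fin_cases i
      exacts [Tends.one (v := sp.v), hy, hm, hn]
    · obtain ⟨Q, hQ⟩ := (spPl sp).exists_red (vec_ne_zero y m n)
      rw [hval sp Q hQ]
      obtain ⟨hQ0, c, hc⟩ := hQ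
      refine hb Q hQ0 (mul_eq_zero_of_left ?_ _)
      by_contra hne
      have h1 : sp.v c = 1 := by simpa using (mem_spPl.mp (hc 0)).eq_one hne
      have h2 : ∀ i, sp.v ((![1, y, m, n] : Fin 4 → Om) i) ≤ 1 := fun i => by
        simpa [h1] using (mem_spPl.mp (hc i)).le_one
      rcases hsp with h3 | h3 | h3
      exacts [absurd (h2 1) (not_le.mpr h3), absurd (h2 2) (not_le.mpr h3),
        absurd (h2 3) (not_le.mpr h3)]

lemma class_eq_zero (H : GenericRel) {M : Type} [AddCommGroup M] [IsAddTorsionFree M]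
    (γ : (Fin 4 → ℂ) → M)
    (hγ : ∀ (c : ℂ) (P : Fin 4 → ℂ), c ≠ 0 → γ (fun i => c * P i) = γ P)
    (hsg : ∀ P, γ (sg P) = γ P) (hbad : ∀ P, badV P = 0 → γ P = 0)
    {g' : Fin 6 → ℂ} {la' mu' : ℂ}
    (hfam : ∀ P : Fin 4 → Om, phiV (fun i => algebraMap ℂ Om (g' i)) (algebraMap ℂ Om la')
      (algebraMap ℂ Om mu') P = 0 →
      ∃ δ : Sp → M, IsFam δ ∧ ∀ sp Q, (spPl sp).Red P Q → δ sp = γ Q)
    {q : Fin 4 → ℂ} (hq : phiV g' la' mu' q = 0) : γ q = 0 := by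
  by_cases hb : badV q = 0
  · exact hbad q hb
  have hq0 : q 0 ≠ 0 := left_ne_zero_of_mul hb
  obtain ⟨s', m', n', e⟩ : ∃ s' m' n', q = fun i => q 0 * (![1, s', m', n'] : Fin 4 → ℂ) i :=
    ⟨q 1 / q 0, q 2 / q 0, q 3 / q 0, funext fun i => by
      fin_cases i <;> simp <;> field_simp⟩
  rw [e, phiV_smul, mul_eq_zero_iff_left (pow_ne_zero _ hq0)] at hq
  rw [e, badV_smul, mul_eq_zero_iff_left (pow_ne_zero _ hq0)] at hb
  rw [e, hγ _ _ hq0]
  obtain ⟨g, mu, s, ph, pm, pn, hind, hon, hrel⟩ := H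
  obtain ⟨ρ, hρ⟩ := exists_pl (aeval (R := ℚ) _).toRingHom hind
    (aeval (R := ℚ) ![g' 0, g' 1, g' 2, g' 3, g' 4, g' 5, mu', s', m', n', 0, 0, 0]).toRingHom
  have hv := fun i => hρ (X i)
  simp only [AlgHom.toRingHom_eq_coe, RingHom.coe_coe, aeval_X] at hv
  have hg : ∀ i, (g i, g' i) ∈ ρ.G := fun i => by
    fin_cases i
    exacts [hv 0, hv 1, hv 2, hv 3, hv 4, hv 5]
  have hP : ∀ i, ((![1, s, pm 0, pn 0] : Fin 4 → ℂ) i, (![1, s', m', n'] : Fin 4 → ℂ) i) ∈ ρ.G :=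
    fun i => by
      fin_cases i
      exacts [one_mem _, hv 7, hv 8, hv 9]
  have h1 := ρ.loc _ _ (Plc.mem_badV hP) hb
  have h2 := Plc.mem_phiV hg (zero_mem ρ.G) (zero_mem ρ.G) hP
  have h3 := sub_mem (neg_mem (Plc.mul (Plc.mul h2 h1) h1)) (Plc.mul (hv 6) (hv 7))
  have hc : c3 1 s' m' n' ≠ 0 := right_ne_zero_of_mul hb
  have hla : (ph - mu * s, la') ∈ ρ.G := by
    have e1 := (hon 0).1
    have e2 := (hon 0).2
    rw [phi_lin] at e1
    rw [phiV, phi_lin] at hq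
    simp only [phiV, badV, Matrix.cons_val_zero, Matrix.cons_val_one, Matrix.cons_val, zero_mul,
      add_zero, one_mul, mul_one, Prod.neg_mk, Prod.mk_sub_mk] at h3 hq e1
    have a1 : -(phi g 0 1 s (pm 0) (pn 0) * (c3 1 s (pm 0) (pn 0))⁻¹ * (c3 1 s (pm 0) (pn 0))⁻¹)
        = ph := by
      field_simp
      linear_combination -e1
    have a2 : -(phi g' 0 1 s' m' n' * (c3 1 s' m' n')⁻¹ * (c3 1 s' m' n')⁻¹) - mu' * s' = la' := by
      field_simp
      linear_combination -hq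
    rwa [a1, a2] at h3
  obtain ⟨G, hG⟩ := exists_classMap γ hγ hsg hbad hfam ρ hg hla (hv 6)
  have hz : ∀ i, (pm i)⁻¹ ≠ 0 → ((pm i)⁻¹, 0) ∈ ρ.G → G.cl s (pm i) (pn i) = 0 := by
    intro i h0 hi
    obtain ⟨R, hR⟩ := ρ.exists_red (vec_ne_zero s (pm i) (pn i))
    rw [hG _ _ _ R hR]
    obtain ⟨-, c, hc⟩ := hR
    refine hbad R (mul_eq_zero_of_left (Plc.uniq (hc 0) ?_) _)
    have := Plc.mul (hc 2) hi
    rwa [mul_zero, show c * (![1, s, pm i, pn i] : Fin 4 → ℂ) 2 * (pm i)⁻¹ = c * 1 from by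
      rw [mul_assoc]; exact congrArg _ (mul_inv_cancel₀ fun h => h0 (inv_eq_zero.mpr h))] at this
  have := hrel M G
  rw [Fin.sum_univ_four, hz 1 (hind.ne_zero 10) (hv 10), hz 2 (hind.ne_zero 11) (hv 11),
    hz 3 (hind.ne_zero 12) (hv 12), add_zero, add_zero, add_zero,
    hG _ _ _ _ ⟨vec_ne_zero _ _ _, 1, fun i => by rw [one_mul]; exact hP i⟩] at this
  exact this

theorem main (H : GenericRel) (g : Fin 6 → ℂ) (la mu : ℂ) {n e : ℕ} {d : ℕ × ZMod 2}
    (N : Fin (n + 1) → MvPolynomial (Fin 4) ℂ) (hN : ∀ i, IsWeightedHomogeneous wt4 (N i) d)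
    (R : Fin 6 → MvPolynomial (Fin (n + 1)) ℂ) (hR : ∀ j, (R j).IsHomogeneous e)
    (hinv : ∀ p ∈ octic g la mu, ∃ c, ∀ j, eval (fun i => eval p (N i)) (R j) = c * nu p j)
    (D : closedImage (octic g la mu) N →₀ ℤ) :
    ∃ (k : ℕ) (D' : closedImage (octic g la mu) N →₀ ℤ), 0 < k ∧
      (∀ x ∈ D'.support, Exceptional (octic g la mu) N R x) ∧
      k • D - D' ∈ ratTrivial (closedImage (octic g la mu) N) := by
  have hS : octic g la mu = oct g la (2 * mu) := Set.ext fun _ => mem_octic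
  revert D hinv
  rw [hS]
  intro hinv D
  refine mem_satE (fun x => ?_) D
  by_cases hx : Exceptional (oct g la (2 * mu)) N R x
  · exact toE_eq_zero hx
  obtain ⟨q, hq, hRq⟩ := good_of_not_exc hx
  have := class_eq_zero H (gam g la (2 * mu) N R) (fun c P hc => (gam_smul hN c P hc).2)
    (fun P => (gam_sg hN P).2) (fun P => gam_bad) (fun P => gam_fam hN hR hinv) hq.1
  rwa [gam, dif_pos hq, ← eq_pt_of_not_exc hN hR hinv x hq hRq] at this

end

end Pool.Agent.P.MP_7ebcb6_ag.G8
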