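import Pool.Agent.P.MP_7ebcb6_ag.G8.Fam

/-! Galois orbits of lifted points. -/

namespace Pool.Agent.P.MP_7ebcb6_ag.G8

noncomputable section

variable {n : ℕ} {M : Type} [AddCommGroup M]

lemma finite_orbit (P : Fin n → Om) :
    {Q : Fin n → Om | ∃ τ : Om ≃ₐ[RatFunc ℂ] Om, Q = fun i => τ (P i)}.Finite := by
  refine (Set.Finite.pi' fun i =>
    Polynomial.rootSet_finite (minpoly (RatFunc ℂ) (P i)) Om).subset ?_
  rintro _ ⟨τ, rfl⟩ i
  rw [Polynomial.mem_rootSet_of_ne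
    (minpoly.ne_zero (Algebra.IsAlgebraic.isAlgebraic (P i)).isIntegral),
    Polynomial.aeval_algHom_apply, minpoly.aeval, map_zero]

/-- If a Galois stable condition has exactly one solution tending to each of the points `p k`,
and all other limits at `lam = 0` and all limits at `lam = ∞` are negligible, then the sum of
the classes of the specialised points vanishes. -/
theorem sol_main [IsAddTorsionFree M] {γ : (Fin n → ℂ) → M}
    (hγ : ∀ (c : ℂ) (P : Fin n → ℂ), c ≠ 0 → γ (fun i => c * P i) = γ P) (ρ : Plc ℂ ℂ)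
    (Sol : (Fin n → Om) → Prop) (Bad : (Fin n → ℂ) → Prop)
    (hG : ∀ (τ : Om ≃ₐ[RatFunc ℂ] Om) P, Sol P → Sol fun i => τ (P i))
    (hne : ∀ P, Sol P → P ≠ 0)
    (hfam : ∀ pl : Plc Om Om,
      (∀ a b, (a, b) ∈ ρ.G → (algebraMap ℂ Om a, algebraMap ℂ Om b) ∈ pl.G) → ∀ P P', Sol P →
      pl.Red P P' → ∃ δ : Sp → M, IsFam δ ∧ ∀ sp Q, (spPl sp).Red P' Q → δ sp = γ Q)
    (hbad : ∀ Q R, Bad Q → ρ.Red Q R → γ R = 0)
    {sp0 sp1 : Sp} (h0 : Tends sp0.v lam 0) (h1 : Tends sp1.v lam⁻¹ 0)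
    {κ : Type} [Fintype κ] {p r : κ → Fin n → ℂ} (hinj : Function.Injective p)
    (hr : ∀ k, ρ.Red (p k) (r k))
    (hex : ∀ k, ∃ P, Sol P ∧ ∀ i, Tends sp0.v (P i) (p k i))
    (huniq : ∀ k P P', Sol P → Sol P' → (∀ i, Tends sp0.v (P i) (p k i)) →
      (∀ i, Tends sp0.v (P' i) (p k i)) → P = P')
    (hzero : ∀ P Q, Sol P → (spPl sp0).Red P Q → Bad Q ∨ ∃ k, ∀ i, Tends sp0.v (P i) (p k i))
    (hinf : ∀ P Q, Sol P → (spPl sp1).Red P Q → Bad Q) : ∑ k, γ (r k) = 0 := by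
  classical
  choose L hL hLt using hex
  have hLinj : Function.Injective L := fun k l h =>
    hinj (funext fun i => (hLt k i).unique (h ▸ hLt l i))
  let S : Set (Fin n → Om) := ⋃ k, {Q | ∃ τ : Om ≃ₐ[RatFunc ℂ] Om, Q = fun i => τ (L k i)}
  have hfin : S.Finite := Set.finite_iUnion fun k => finite_orbit (L k)
  let := hfin.fintype
  have hS : ∀ P : S, Sol P := by
    rintro ⟨_, _, ⟨k, rfl⟩, τ, rfl⟩
    exact hG τ _ (hL k)
  have hmap : ∀ (τ : Om ≃ₐ[RatFunc ℂ] Om) (P : S), (fun i => τ (P.1 i)) ∈ S := by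
    rintro τ ⟨_, _, ⟨k, rfl⟩, σ, rfl⟩
    exact Set.mem_iUnion.mpr ⟨k, σ.trans τ, rfl⟩
  have hLS : ∀ k, L k ∈ S := fun k => Set.mem_iUnion.mpr ⟨k, AlgEquiv.refl, rfl⟩
  have e0 : ∀ P : S, ∃ Q R, (spPl sp0).Red P.1 Q ∧ ρ.Red Q R ∧
      γ R = ∑ k, if (⟨L k, hLS k⟩ : S) = P then γ (r k) else 0 := by
    intro P
    by_cases h : ∃ k, L k = P
    · obtain ⟨k, hk⟩ := h
      refine ⟨p k, r k, ⟨(hr k).ne_zero, 1, fun i => ?_⟩, hr k, ?_⟩
      · rw [one_mul, ← hk]; exact hLt k i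
      · rw [Finset.sum_eq_single k, if_pos (Subtype.ext hk)]
        · exact fun l _ hl => if_neg fun e => hl (hLinj ((congrArg Subtype.val e).trans hk.symm))
        · simp
    · obtain ⟨Q, hQ⟩ := (spPl sp0).exists_red (hne _ (hS P))
      obtain ⟨R, hR⟩ := ρ.exists_red hQ.1
      refine ⟨Q, R, hQ, hR, ?_⟩
      rw [Finset.sum_eq_zero fun k _ => if_neg fun e => h ⟨k, congrArg Subtype.val e⟩]
      rcases hzero _ Q (hS P) hQ with hb | ⟨k, hk⟩
      · exact hbad Q R hb hR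
      · exact absurd ⟨k, huniq k _ _ (hL k) (hS P) (hLt k) hk⟩ h
  have e1 : ∀ P : S, ∃ Q R, (spPl sp1).Red P.1 Q ∧ ρ.Red Q R ∧ γ R = 0 := by
    intro P
    obtain ⟨Q, hQ⟩ := (spPl sp1).exists_red (hne _ (hS P))
    obtain ⟨R, hR⟩ := ρ.exists_red hQ.1
    exact ⟨Q, R, hQ, hR, hbad Q R (hinf _ Q (hS P) hQ) hR⟩
  choose Q0 R0 hQ0 hR0 hs0 using e0
  choose Q1 R1 hQ1 hR1 hs1 using e1
  have := fam_main hγ ρ (P := fun P : S => P.1) (fun P => hne _ (hS P))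
    (fun τ => ⟨⟨fun P => ⟨_, hmap τ P⟩, fun P => ⟨_, hmap τ.symm P⟩,
      fun P => Subtype.ext (funext fun i => τ.symm_apply_apply _),
      fun P => Subtype.ext (funext fun i => τ.apply_symm_apply _)⟩, fun _ _ => rfl⟩)
    (fun pl hpl P P' => hfam pl hpl P.1 P' (hS P)) h0 h1 hQ0 hQ1 hR0 hR1
  simp only [hs0, hs1, Finset.sum_const_zero] at this
  rw [Finset.sum_comm] at this
  simpa using this

end

end Pool.Agent.P.MP_7ebcb6_ag.G8
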