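import Pool.Agent.P.MP_7ebcb6_ag.G8.Basic
import Pool.Agent.P.MP_7ebcb6_ag.G8.Lift

/-! A checker for solutions and Jacobians over `F_p(√r)` with all directions packed into one
natural number, and the resulting lifting theorem. -/

namespace Pool.Agent.P.MP_7ebcb6_ag.G8

open Polynomial

/-- The value `a + b √r` modulo `p`, the packed derivatives `da + db √r` and a bound for their
slots. -/
structure PV (p r : ℕ) where
  a : ℕ
  b : ℕ
  da : ℕ
  db : ℕ
  bd : ℕ

namespace PV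

variable {p r : ℕ}

/-- Sum. -/
def add (x y : PV p r) : PV p r :=
  ⟨(x.a + y.a) % p, (x.b + y.b) % p, x.da + y.da, x.db + y.db, x.bd + y.bd⟩
/-- Product. -/
def mul (x y : PV p r) : PV p r :=
  ⟨(x.a * y.a + r * (x.b * y.b)) % p, (x.a * y.b + x.b * y.a) % p,
    x.a * y.da + r * x.b * y.db + (y.a * x.da + r * y.b * x.db),
    x.a * y.db + x.b * y.da + (y.a * x.db + y.b * x.da),
    (x.a + x.b + r * x.b) * y.bd + (y.a + y.b + r * y.b) * x.bd⟩
/-- Negative. -/
def neg (x : PV p r) : PV p r :=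
  ⟨(p - 1) * x.a % p, (p - 1) * x.b % p, (p - 1) * x.da, (p - 1) * x.db, (p - 1) * x.bd⟩

instance : Add (PV p r) := ⟨add⟩
instance : Mul (PV p r) := ⟨mul⟩
instance : Neg (PV p r) := ⟨neg⟩
instance : Sub (PV p r) := ⟨fun x y => x.add y.neg⟩

end PV

/-- The first `k` digits of `c` in base `q`, read in base `B`. -/
def spread (B q : ℕ) : ℕ → ℕ → ℕ
  | 0, _ => 0
  | k + 1, c => c % q + B * spread B q k (c / q)

/-- A list of segments `(offset, length, digits)`, read in base `B`. -/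
def segs (B q : ℕ) : List (ℕ × ℕ × ℕ) → ℕ
  | [] => 0
  | s :: l => B ^ s.1 * spread B q s.2.1 s.2.2 + segs B q l

/-- The value of a variable and the segments of its two derivative vectors. -/
structure VarD where
  a : ℕ
  b : ℕ
  sa : List (ℕ × ℕ × ℕ)
  sb : List (ℕ × ℕ × ℕ)

/-- The packed value of a variable. -/
def VarD.pv (p r B q : ℕ) (d : VarD) : PV p r :=
  ⟨d.a, d.b, segs B q d.sa, segs B q d.sb, q * (d.sa.length + d.sb.length)⟩

/-- The first `k` digits in base `B` are divisible by `p`. -/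
def zeros (B p : ℕ) : ℕ → ℕ → Bool
  | 0, _ => true
  | k + 1, E => (E % B % p == 0) && zeros B p k (E / B)

/-- Value zero, derivative one in direction `i` and zero in the directions after `i`. -/
def rowOK {p r : ℕ} (B n i : ℕ) (x : PV p r) : Bool :=
  (x.a == 0) && (x.b == 0) && Nat.blt x.bd B && (x.da / B ^ i % B % p == 1) &&
    zeros B p (n - (i + 1)) (x.da / B ^ (i + 1)) && zeros B p (n - i) (x.db / B ^ i)

/-- The rows from number `i` on are correct. -/
def rowsOK {p r : ℕ} (B n : ℕ) : ℕ → List (PV p r) → Bool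
  | _, [] => true
  | i, x :: l => rowOK B n i x && rowsOK B n (i + 1) l

/-- The norm of the value is nonzero. -/
def nzOK {p r : ℕ} (x : PV p r) : Bool := !(x.a * x.a % p == r * (x.b * x.b) % p)

lemma rowsOK_append {p r : ℕ} (B n i : ℕ) (l l' : List (PV p r)) :
    rowsOK B n i (l ++ l') = (rowsOK B n i l && rowsOK B n (i + l.length) l') := by
  induction l generalizing i with
  | nil => simp [rowsOK]
  | cons x l ih => simp [rowsOK, ih, Bool.and_assoc, Nat.add_assoc, Nat.add_comm 1]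

lemma rowsOK_get {p r B n : ℕ} {l : List (PV p r)} {i : ℕ} (h : rowsOK B n i l = true) (k : ℕ)
    (hk : k < l.length) : rowOK B n (i + k) l[k] = true := by
  induction l generalizing i k with
  | nil => simp at hk
  | cons x l ih =>
    rw [rowsOK, Bool.and_eq_true] at h
    cases k with
    | zero => exact h.1
    | succ k => simpa [Nat.add_assoc, Nat.add_comm 1] using ih h.2 k (by simpa using hk)

lemma digit_zero {B : ℕ} {P : ℕ[X]} (h : ∀ j, P.coeff j < B) :
    P.eval B % B = P.coeff 0 ∧ P.eval B / B = P.divX.eval B := by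
  have e : P.eval B = P.coeff 0 + B * P.divX.eval B := by
    conv_lhs => rw [← P.divX_mul_X_add]
    simp [add_comm, mul_comm]
  have h0 := h 0
  rw [e, Nat.add_mul_mod_self_left, Nat.mod_eq_of_lt h0, Nat.add_mul_div_left _ _ (by omega),
    Nat.div_eq_of_lt h0, zero_add]
  exact ⟨rfl, rfl⟩

lemma digit_shift {B : ℕ} (i : ℕ) {P : ℕ[X]} (h : ∀ j, P.coeff j < B) :
    ∃ Q : ℕ[X], P.eval B / B ^ i = Q.eval B ∧ ∀ j, Q.coeff j = P.coeff (j + i) := by
  induction i with
  | zero => exact ⟨P, by simp, fun _ => rfl⟩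
  | succ i ih =>
    obtain ⟨Q, h1, h2⟩ := ih
    refine ⟨Q.divX, ?_, fun j => by rw [coeff_divX, h2, Nat.add_assoc, Nat.add_comm 1]⟩
    rw [pow_succ, ← Nat.div_div_eq_div_mul, h1, (digit_zero fun j => (h2 j).trans_lt (h _)).2]

lemma zeros_spec {B p k : ℕ} {P : ℕ[X]} (h : ∀ j, P.coeff j < B)
    (hz : zeros B p k (P.eval B) = true) (j : ℕ) (hj : j < k) : p ∣ P.coeff j := by
  induction k generalizing P j with
  | zero => omega
  | succ k ih =>
    rw [zeros, Bool.and_eq_true, beq_iff_eq, (digit_zero h).1, (digit_zero h).2] at hz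
    cases j with
    | zero => exact Nat.dvd_of_mod_eq_zero hz.1
    | succ j => exact coeff_divX (p := P) ▸ ih (fun j => coeff_divX (p := P) ▸ h _) hz.2 j (by omega)

lemma spread_spec (B : ℕ) {q : ℕ} (hq : 0 < q) (k c : ℕ) :
    ∃ P : ℕ[X], spread B q k c = P.eval B ∧ ∀ j, P.coeff j ≤ q := by
  induction k generalizing c with
  | zero => exact ⟨0, by simp [spread], by simp⟩
  | succ k ih =>
    obtain ⟨P, h1, h2⟩ := ih (c / q)
    refine ⟨C (c % q) + X * P, by simp [spread, h1], fun j => ?_⟩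
    cases j with
    | zero => simpa using (Nat.mod_lt _ hq).le
    | succ j => simpa [coeff_C] using h2 j

lemma segs_spec (B : ℕ) {q : ℕ} (hq : 0 < q) (l : List (ℕ × ℕ × ℕ)) :
    ∃ P : ℕ[X], segs B q l = P.eval B ∧ ∀ j, P.coeff j ≤ q * l.length := by
  induction l with
  | nil => exact ⟨0, by simp [segs], by simp⟩
  | cons s l ih =>
    obtain ⟨P, h1, h2⟩ := ih
    obtain ⟨Q, h3, h4⟩ := spread_spec B hq s.2.1 s.2.2
    refine ⟨X ^ s.1 * Q + P, by simp [segs, h1, h3], fun j => ?_⟩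
    rw [coeff_add, coeff_X_pow_mul', List.length_cons, mul_add, mul_one, add_comm]
    refine add_le_add (h2 j) ?_
    split_ifs
    exacts [h4 _, Nat.zero_le _]

section sem

variable {T : Type} [Field T] {p r B : ℕ} {ω : T}

/-- The packed value describes the dual numbers `z j`. -/
def Rel (B : ℕ) (ω : T) (x : PV p r) (z : ℕ → DualNumber T) : Prop :=
  ∃ P Q : ℕ[X], x.da = P.eval B ∧ x.db = Q.eval B ∧ (∀ j, P.coeff j ≤ x.bd ∧ Q.coeff j ≤ x.bd) ∧
    ∀ j, z j = (((x.a : T) + x.b * ω, (P.coeff j : T) + Q.coeff j * ω) : DualNumber T)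

/-- The field has characteristic `p` and `ω` is a square root of `r`. -/
structure Sem (p r : ℕ) (ω : T) : Prop where
  pos : 0 < p
  char : (p : T) = 0
  sq : ω * ω = r

lemma Sem.cast_mod (H : Sem p r ω) (a : ℕ) : ((a % p : ℕ) : T) = a := by
  conv_rhs => rw [← Nat.mod_add_div a p]
  simp [H.char]

lemma Sem.cast_pred (H : Sem p r ω) : ((p - 1 : ℕ) : T) = -1 := by
  rw [Nat.cast_pred H.pos, H.char, zero_sub]

variable (H : Sem p r ω) {x y : PV p r} {z w : ℕ → DualNumber T}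
include H

lemma Rel.add (h : Rel B ω x z) (h' : Rel B ω y w) : Rel B ω (x.add y) (z + w) := by
  obtain ⟨P, Q, h1, h2, h3, h4⟩ := h
  obtain ⟨P', Q', h1', h2', h3', h4'⟩ := h'
  refine ⟨P + P', Q + Q', by simp [PV.add, h1, h1'], by simp [PV.add, h2, h2'], fun j => ?_,
    fun j => ?_⟩
  · simp only [coeff_add, PV.add]
    exact ⟨add_le_add (h3 j).1 (h3' j).1, add_le_add (h3 j).2 (h3' j).2⟩
  · rw [Pi.add_apply, h4, h4']
    ext <;> simp [PV.add, H.cast_mod] <;> ring

lemma Rel.neg (h : Rel B ω x z) : Rel B ω x.neg (-z) := by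
  obtain ⟨P, Q, h1, h2, h3, h4⟩ := h
  refine ⟨C (p - 1) * P, C (p - 1) * Q, by simp [PV.neg, h1], by simp [PV.neg, h2], fun j => ?_,
    fun j => ?_⟩
  · simp only [coeff_C_mul, PV.neg]
    exact ⟨Nat.mul_le_mul_left _ (h3 j).1, Nat.mul_le_mul_left _ (h3 j).2⟩
  · rw [Pi.neg_apply, h4]
    ext <;> simp [PV.neg, H.cast_mod, H.cast_pred, -eq_natCast, coeff_C_mul] <;> ring

lemma Rel.mul (h : Rel B ω x z) (h' : Rel B ω y w) : Rel B ω (x.mul y) (z * w) := by
  obtain ⟨P, Q, h1, h2, h3, h4⟩ := h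
  obtain ⟨P', Q', h1', h2', h3', h4'⟩ := h'
  refine ⟨C x.a * P' + C (r * x.b) * Q' + (C y.a * P + C (r * y.b) * Q),
    C x.a * Q' + C x.b * P' + (C y.a * Q + C y.b * P), by simp [PV.mul, h1, h1', h2, h2'],
    by simp [PV.mul, h1, h1', h2, h2'], fun j => ?_, fun j => ?_⟩
  · simp only [coeff_add, coeff_C_mul, PV.mul]
    obtain ⟨a1, a2⟩ := h3 j
    obtain ⟨a3, a4⟩ := h3' j
    constructor
    · nlinarith [Nat.mul_le_mul_left x.a a3, Nat.mul_le_mul_left (r * x.b) a4,
        Nat.mul_le_mul_left y.a a1, Nat.mul_le_mul_left (r * y.b) a2, Nat.zero_le (x.b * y.bd),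
        Nat.zero_le (y.b * x.bd)]
    · nlinarith [Nat.mul_le_mul_left x.a a4, Nat.mul_le_mul_left x.b a3,
        Nat.mul_le_mul_left y.a a2, Nat.mul_le_mul_left y.b a1, Nat.zero_le (r * x.b * y.bd),
        Nat.zero_le (r * y.b * x.bd)]
  · rw [Pi.mul_apply, h4, h4']
    ext
    · simp only [TrivSqZeroExt.fst_mul, TrivSqZeroExt.fst_mk, PV.mul, H.cast_mod]
      push_cast
      linear_combination (x.b * y.b : T) * H.sq
    · simp only [DualNumber.snd_mul, TrivSqZeroExt.fst_mk, TrivSqZeroExt.snd_mk, coeff_add,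
        coeff_C_mul]
      push_cast
      linear_combination ((x.b : T) * Q'.coeff j + y.b * Q.coeff j) * H.sq

lemma Rel.row {n i : ℕ} (h : Rel B ω x z) (hx : rowOK B n i x = true) (j : ℕ) (hj : j < n) :
    (z j).fst = 0 ∧ (j = i → (z j).snd = 1) ∧ (i < j → (z j).snd = 0) := by
  obtain ⟨P, Q, h1, h2, h3, h4⟩ := h
  simp only [rowOK, Bool.and_eq_true, beq_iff_eq, Nat.blt_eq, h1, h2] at hx
  obtain ⟨⟨⟨⟨⟨a1, a2⟩, a3⟩, a4⟩, a5⟩, a6⟩ := hx
  have hP := fun j => (h3 j).1.trans_lt a3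
  have hQ := fun j => (h3 j).2.trans_lt a3
  have hd : ∀ {k}, p ∣ k → (k : T) = 0 := by
    rintro _ ⟨c, rfl⟩
    simp [H.char]
  obtain ⟨P1, e1, e1'⟩ := digit_shift i hP
  obtain ⟨P2, e2, e2'⟩ := digit_shift (i + 1) hP
  obtain ⟨Q1, e3, e3'⟩ := digit_shift i hQ
  rw [e1, (digit_zero fun j => (e1' j).trans_lt (hP _)).1, e1', zero_add] at a4
  rw [e2] at a5
  rw [e3] at a6
  have b5 := zeros_spec (fun j => (e2' j).trans_lt (hP _)) a5
  have b6 := zeros_spec (fun j => (e3' j).trans_lt (hQ _)) a6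
  have hq : i ≤ j → (Q.coeff j : T) = 0 := fun hij => hd (by
    have := b6 (j - i) (by omega)
    rwa [e3', Nat.sub_add_cancel hij] at this)
  rw [h4]
  refine ⟨by simp [a1, a2], fun hij => ?_, fun hij => ?_⟩
  · rw [TrivSqZeroExt.snd_mk, hq hij.ge, hij, ← H.cast_mod, a4]
    simp
  · have := b5 (j - (i + 1)) (by omega)
    rw [e2', Nat.sub_add_cancel hij] at this
    rw [TrivSqZeroExt.snd_mk, hq hij.le, hd this]
    simp

lemma Rel.nz [CharP T p] (h : Rel B ω x z) (hx : nzOK x = true) (j : ℕ) : (z j).fst ≠ 0 := by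
  obtain ⟨P, Q, -, -, -, h4⟩ := h
  rw [h4, TrivSqZeroExt.fst_mk]
  intro h0
  simp only [nzOK, Bool.not_eq_true', beq_eq_false_iff_ne] at hx
  refine hx ((CharP.natCast_eq_natCast T p).mp ?_)
  push_cast
  linear_combination ((x.a : T) - x.b * ω) * h0 + (x.b * x.b : T) * H.sq

omit H in
/-- A packed value together with the dual numbers it describes. -/
structure RP (H : Sem p r ω) (B : ℕ) where
  x : PV p r
  z : ℕ → DualNumber T
  h : Rel B ω x z

omit H in
instance {H : Sem p r ω} : Add (RP H B) := ⟨fun u v => ⟨_, _, u.h.add H v.h⟩⟩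
omit H in
instance {H : Sem p r ω} : Mul (RP H B) := ⟨fun u v => ⟨_, _, u.h.mul H v.h⟩⟩
omit H in
instance {H : Sem p r ω} : Neg (RP H B) := ⟨fun u => ⟨_, _, u.h.neg H⟩⟩
omit H in
instance {H : Sem p r ω} : Sub (RP H B) :=
  ⟨fun u v => ⟨u.x.add v.x.neg, u.z - v.z, sub_eq_add_neg u.z v.z ▸ u.h.add H (v.h.neg H)⟩⟩

lemma hom_x : Hom (RP.x : RP H B → PV p r) :=
  ⟨fun _ _ => rfl, fun _ _ => rfl, fun _ => rfl, fun _ _ => rfl⟩
lemma hom_z (j : ℕ) : Hom fun u : RP H B => u.z j :=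
  ⟨fun _ _ => rfl, fun _ _ => rfl, fun _ => rfl, fun _ _ => rfl⟩

end sem

/-- A list of expressions in the variables `x 0, x 1, ...` built with the four operations. -/
abbrev Sys : Type 1 := ∀ (R : Type) [Add R] [Mul R] [Neg R] [Sub R], (ℕ → R) → List R

/-- The expressions commute with maps that respect the four operations. -/
def Sys.Natural (s : Sys) : Prop :=
  ∀ (R S : Type) [Add R] [Mul R] [Neg R] [Sub R] [Add S] [Mul S] [Neg S] [Sub S] (f : R → S),
    Hom f → ∀ x : ℕ → R, (s R x).map f = s S fun k => f (x k)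

/-- The packed value of variable number `k`. -/
def varPV (p r B q : ℕ) (l : List VarD) (k : ℕ) : PV p r := (l.getD k ⟨0, 0, [], []⟩).pv p r B q

open MvPolynomial in
/-- Variable `0` is one, the next `np` variables are parameters, the next `n` are unknowns and
the others are zero.  A solution modulo `p` with invertible Jacobian lifts to independent
complex parameters, and expressions that are nonzero modulo `p` stay nonzero. -/
theorem exists_sol {p r B q np n : ℕ} (hp : p.Prime) (hq : 0 < q) (eqs opens : Sys)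
    (h1 : eqs.Natural) (h2 : opens.Natural) (l : List VarD) (hl : l.length ≤ np + n + 1)
    (hone : (varPV p r B q l 0).a = 1 ∧ (varPV p r B q l 0).b = 0)
    (hpar : ∀ k ≤ np, (varPV p r B q l k).bd = 0)
    (hlen : (eqs (PV p r) (varPV p r B q l)).length = n)
    (hrows : rowsOK B n 0 (eqs (PV p r) (varPV p r B q l)) = true)
    (hnz : (opens (PV p r) (varPV p r B q l)).all nzOK = true)
    (t : Fin np → ℂ) (ht : AlgebraicIndependent ℚ t) :
    ∃ x : ℕ → ℂ, x 0 = 1 ∧ (∀ k : Fin np, x (k + 1) = t k) ∧ (∀ k, np + n < k → x k = 0) ∧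
      (∀ e ∈ eqs ℂ x, e = 0) ∧ ∀ e ∈ opens ℂ x, e ≠ 0 := by
  classical
  have : Fact p.Prime := ⟨hp⟩
  let T := AlgebraicClosure (ZMod p)
  obtain ⟨ω, hω⟩ := IsAlgClosed.exists_pow_nat_eq (r : T) two_pos
  have H : Sem p r ω := ⟨hp.pos, CharP.cast_eq_zero T p, by rw [← hω, sq]⟩
  have hz : ∀ k, ∃ z, Rel B ω (varPV p r B q l k) z := fun k => by
    obtain ⟨P, hP, hP'⟩ := segs_spec B hq (l.getD k ⟨0, 0, [], []⟩).sa
    obtain ⟨Q, hQ, hQ'⟩ := segs_spec B hq (l.getD k ⟨0, 0, [], []⟩).sb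
    exact ⟨_, P, Q, hP, hQ, fun j => ⟨(hP' j).trans (Nat.mul_le_mul_left _ (Nat.le_add_right _ _)),
      (hQ' j).trans (Nat.mul_le_mul_left _ (Nat.le_add_left _ _))⟩, fun _ => rfl⟩
  choose z hz using hz
  let x0 : ℕ → T := fun k => ((varPV p r B q l k).a : T) + (varPV p r B q l k).b * ω
  have hfst : ∀ k j, (z k j).fst = x0 k := fun k j => by
    obtain ⟨P, Q, -, -, -, h⟩ := hz k
    rw [h]
    rfl
  have hsnd : ∀ k j, (varPV p r B q l k).bd = 0 → (z k j).snd = 0 := fun k j hk => by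
    obtain ⟨P, Q, -, -, h', h⟩ := hz k
    rw [h, TrivSqZeroExt.snd_mk, Nat.le_zero.mp ((h' j).1.trans hk.le),
      Nat.le_zero.mp ((h' j).2.trans hk.le)]
    simp
  let A := MvPolynomial (Fin np) ℤ
  let ι : A →+* ℂ := (aeval t : A →ₐ[ℤ] ℂ).toRingHom
  have hι : Function.Injective ι := ht.restrictScalars (algebraMap ℤ ℚ).injective_int
  let π : A →+* T := (aeval fun k : Fin np => x0 (k + 1) : A →ₐ[ℤ] T).toRingHom
  have hιX : ∀ k, ι (MvPolynomial.X k) = t k := fun k => aeval_X _ _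
  have hπX : ∀ k, π (MvPolynomial.X k) = x0 (k + 1) := fun k => aeval_X _ _
  let Y : ℕ → MvPolynomial (Fin n) A := fun k =>
    if k = 0 then 1 else if h : k - 1 < np then MvPolynomial.C (MvPolynomial.X ⟨k - 1, h⟩)
    else if h : k - 1 - np < n then MvPolynomial.X ⟨k - 1 - np, h⟩ else 0
  let Φ : ℕ → MvPolynomial (Fin n) A →+* DualNumber T := fun j =>
    eval₂Hom ((TrivSqZeroExt.inlHom T T).comp π) fun k : Fin n =>
      ((x0 (k + np + 1), (z (k + np + 1) j).snd) : DualNumber T)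
  have hΦ : ∀ j k, Φ j (Y k) = z k j := by
    intro j k
    simp only [Y]
    split_ifs with a1 a2 a3
    · subst a1
      ext
      · simp [hfst, x0, hone.1, hone.2]
      · simp [hsnd 0 j (hpar 0 (Nat.zero_le _))]
    · ext
      · simp [Φ, hπX, hfst, Nat.sub_add_cancel (Nat.pos_of_ne_zero a1)]
      · simp [Φ, hsnd k j (hpar k (by omega))]
    · have : k - 1 - np + np + 1 = k := by omega
      ext <;> simp [Φ, hfst, this]
    · have h0 : varPV p r B q l k = VarD.pv p r B q ⟨0, 0, [], []⟩ := by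
        rw [varPV, List.getD_eq_default _ _ (by omega)]
      ext
      · simp [hfst, x0, h0, VarD.pv]
      · simp [hsnd k j (by simp [h0, VarD.pv])]
  let U : ℕ → RP H B := fun k => ⟨_, _, hz k⟩
  have hrel : ∀ s : Sys, s.Natural → (s _ U).map RP.x = s _ (varPV p r B q l) ∧
      ∀ j, (s _ Y).map (Φ j) = (s _ U).map fun u => u.z j := fun s hs =>
    ⟨hs _ _ _ (hom_x H) U, fun j => by
      rw [hs _ _ _ (hom_z H j) U, hs _ _ _ (hom_of_ringHom (Φ j)) Y]
      simp only [hΦ, U]⟩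
  obtain ⟨e1, e2⟩ := hrel eqs h1
  obtain ⟨o1, o2⟩ := hrel opens h2
  have hU : (eqs _ U).length = n := by rw [← hlen, ← e1, List.length_map]
  have hY : (eqs _ Y).length = n := by simpa [hU] using congrArg List.length (e2 0)
  let f : Fin n → MvPolynomial (Fin n) A := fun i => (eqs _ Y)[i.1]'(hY.symm ▸ i.2)
  have hf : ∀ i j : Fin n, (Φ j (f i)).fst = 0 ∧ (j = i → (Φ j (f i)).snd = 1) ∧
      (i < j → (Φ j (f i)).snd = 0) := by
    intro i j
    have a1 : Φ j (f i) = ((eqs _ U)[i.1]'(hU.symm ▸ i.2)).z j := by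
      have := List.getElem_of_eq (e2 j) (i := i.1) (by simp [hY])
      rwa [List.getElem_map, List.getElem_map] at this
    have a2 := rowsOK_get hrows i.1 (hlen.symm ▸ i.2)
    rw [← List.getElem_of_eq e1 (by simp [hU]), List.getElem_map, zero_add] at a2
    have a3 := Rel.row H ((eqs _ U)[i.1]'(hU.symm ▸ i.2)).h a2 j j.2
    rw [a1]
    exact ⟨a3.1, fun h => a3.2.1 (congrArg _ h), a3.2.2⟩
  have hev : ∀ j h, Φ j h = _ := fun j h => snd_eval₂ π _ _ h
  simp only [hev, TrivSqZeroExt.fst_mk, TrivSqZeroExt.snd_mk] at hf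
  obtain ⟨x, hx, hx'⟩ := exists_lift ι hι π f (fun k => x0 (k + np + 1)) (fun i => (hf i i).1) (by
    have hd : ((Matrix.of fun i k => eval₂ π (fun k : Fin n => x0 (k + np + 1)) (pderiv k (f i)))
        * Matrix.of fun k j : Fin n => (z (k + np + 1) j).snd).det = 1 := by
      exact (Matrix.det_of_isLowerTriangular _ fun i j hij => (hf i j).2.2 hij).trans
        (Finset.prod_eq_one fun i _ => (hf i i).2.1 rfl)
    rw [Matrix.det_mul] at hd
    exact left_ne_zero_of_mul_eq_one hd)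
  have hH := hom_of_ringHom (eval₂Hom ι x)
  refine ⟨fun k => eval₂Hom ι x (Y k), by simp [Y], fun k => by simp [Y, hιX], fun k hk => ?_,
    fun e he => ?_, fun e he h0 => ?_⟩
  · simp only [Y]
    rw [if_neg (by omega), dif_neg (by omega), dif_neg (by omega), map_zero]
  · rw [← h1 _ _ _ hH Y, List.mem_map] at he
    obtain ⟨e, he, rfl⟩ := he
    obtain ⟨i, hi, rfl⟩ := List.getElem_of_mem he
    exact hx ⟨i, hY ▸ hi⟩
  · rw [← h2 _ _ _ hH Y, List.mem_map] at he
    obtain ⟨e, he, rfl⟩ := he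
    have a1 : Φ 0 e ∈ (opens _ U).map fun u => u.z 0 := o2 0 ▸ List.mem_map_of_mem he
    obtain ⟨u, hu, a2⟩ := List.mem_map.mp a1
    refine u.h.nz H (List.all_eq_true.mp hnz _ (o1 ▸ List.mem_map_of_mem hu)) 0 ?_
    rw [a2, hev]
    exact hx' e h0

end Pool.Agent.P.MP_7ebcb6_ag.G8
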