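import Mathlib

/-! Places of a field with values in another field, given by their graphs, and the
extension theorem of Chevalley. -/

open Polynomial

namespace Pool.Agent.P.MP_7ebcb6_ag.G8

variable {K L : Type} [Field K] [Field L]

/-- A place of `K` with values in `L`, given by its graph. -/
structure Plc (K L : Type) [Field K] [Field L] where
  G : Subring (K × L)
  func : ∀ b, (0, b) ∈ G → b = 0
  val : ∀ a, (∃ b, (a, b) ∈ G) ∨ ∃ b, (a⁻¹, b) ∈ G
  loc : ∀ a b, (a, b) ∈ G → b ≠ 0 → (a⁻¹, b⁻¹) ∈ G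

/-- The first projection of a graph. -/
def gfst (G : Subring (K × L)) : G →+* K := (RingHom.fst K L).comp G.subtype

/-- The second projection of a graph. -/
def gsnd (G : Subring (K × L)) : G →+* L := (RingHom.snd K L).comp G.subtype

lemma gfst_injective {G : Subring (K × L)} (h : ∀ b, (0, b) ∈ G → b = 0) :
    Function.Injective (gfst G) := by
  rw [injective_iff_map_eq_zero]
  rintro ⟨⟨a, b⟩, hab⟩ ha
  obtain rfl : a = 0 := ha
  obtain rfl := h b hab
  rfl

lemma loc_of_maximal {G : Subring (K × L)}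
    (hG : Maximal (fun H : Subring (K × L) => ∀ b, (0, b) ∈ H → b = 0) G) {a : K} {b : L}
    (hab : (a, b) ∈ G) (hb : b ≠ 0) : (a⁻¹, b⁻¹) ∈ G := by
  have ha : a ≠ 0 := by
    rintro rfl
    exact hb (hG.prop b hab)
  let H : Subring (K × L) :=
    { carrier := {p | ∃ k : ℕ, p * (a, b) ^ k ∈ G}
      mul_mem' := by
        rintro p q ⟨k, hk⟩ ⟨l, hl⟩
        exact ⟨k + l, by rw [pow_add, mul_mul_mul_comm]; exact mul_mem hk hl⟩
      one_mem' := ⟨0, by simp⟩
      add_mem' := by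
        rintro p q ⟨k, hk⟩ ⟨l, hl⟩
        refine ⟨k + l, ?_⟩
        have : (p + q) * (a, b) ^ (k + l)
            = p * (a, b) ^ k * (a, b) ^ l + q * (a, b) ^ l * (a, b) ^ k := by ring
        rw [this]
        exact add_mem (mul_mem hk (pow_mem hab _)) (mul_mem hl (pow_mem hab _))
      zero_mem' := ⟨0, by simp⟩
      neg_mem' := by
        rintro p ⟨k, hk⟩
        exact ⟨k, by rw [neg_mul]; exact neg_mem hk⟩ }
  have hH : ∀ c, (0, c) ∈ H → c = 0 := by
    rintro c ⟨k, hk⟩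
    rw [Prod.pow_mk, Prod.mk_mul_mk, zero_mul] at hk
    exact (mul_eq_zero.mp (hG.prop _ hk)).resolve_right (pow_ne_zero _ hb)
  refine hG.le_of_ge hH (fun p hp => ⟨0, by simpa using hp⟩) ⟨1, ?_⟩
  rw [pow_one, Prod.mk_mul_mk, inv_mul_cancel₀ ha, inv_mul_cancel₀ hb]
  exact one_mem G

lemma val_of_maximal [IsAlgClosed L] {G : Subring (K × L)}
    (hG : Maximal (fun H : Subring (K × L) => ∀ b, (0, b) ∈ H → b = 0) G) (x : K) :
    (∃ b, (x, b) ∈ G) ∨ ∃ b, (x⁻¹, b) ∈ G := by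
  have hu : ∀ r : G, gsnd G r ≠ 0 → IsUnit r := by
    rintro ⟨⟨a, b⟩, hab⟩ hb
    have ha : a ≠ 0 := by
      rintro rfl
      exact hb (hG.prop b hab)
    have hb' : b ≠ 0 := hb
    exact IsUnit.of_mul_eq_one ⟨_, loc_of_maximal hG hab hb⟩
      (Subtype.ext (Prod.ext (mul_inv_cancel₀ ha) (mul_inv_cancel₀ hb')))
  have : IsLocalRing G := IsLocalRing.of_isUnit_or_isUnit_one_sub_self fun r => by
    by_cases h : gsnd G r = 0
    · exact Or.inr (hu _ (by rw [map_sub, map_one, h, sub_zero]; exact one_ne_zero))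
    · exact Or.inl (hu r h)
  obtain ⟨A, hA, hloc⟩ := IsLocalRing.exists_factor_valuationRing (gfst G)
  have hm : ∀ r : G, gsnd G r = 0 → A.valuation (gfst G r) < 1 := by
    intro r hr
    refine (A.valuation_lt_one_iff ⟨_, hA r⟩).mp fun h => ?_
    have h1 : IsUnit r := (isUnit_map_iff ((gfst G).codRestrict A.toSubring hA) r).mp h
    exact (h1.map (gsnd G)).ne_zero hr
  suffices key : ∀ x ∈ A, ∃ b, (x, b) ∈ G from
    (A.mem_or_inv_mem x).imp (key _) (key _)
  intro x hx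
  let k : Subfield L :=
    { (gsnd G).range with
      inv_mem' := by
        rintro _ ⟨⟨⟨a, b⟩, hab⟩, rfl⟩
        by_cases hb : b = 0
        · exact ⟨0, by subst hb; exact inv_zero.symm⟩
        · exact ⟨⟨_, loc_of_maximal hG hab hb⟩, rfl⟩ }
  let φ : G →+* k := (gsnd G).codRestrict k fun r => ⟨r, rfl⟩
  have hφ : Function.Surjective φ := by
    rintro ⟨_, r, rfl⟩
    exact ⟨r, rfl⟩
  let J : Ideal k[X] := (RingHom.ker (eval₂RingHom (gfst G) x)).map (mapRingHom φ)
  have hJ : J ≠ ⊤ := by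
    intro h
    obtain ⟨p, hp, hp1⟩ := (Ideal.mem_map_iff_of_surjective _ (map_surjective φ hφ)).mp
      ((Ideal.eq_top_iff_one J).mp h)
    have h1 : A.valuation (eval₂ (gfst G) x (p - 1)) < 1 := by
      rw [eval₂_eq_sum_range]
      refine Valuation.map_sum_lt _ one_ne_zero fun i _ => ?_
      have h2 : φ ((p - 1).coeff i) = 0 := by
        have : (p - 1).map φ = 0 := by
          rw [Polynomial.map_sub, Polynomial.map_one, sub_eq_zero]; exact hp1
        rw [← coeff_map, this, coeff_zero]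
      rw [map_mul, map_pow]
      exact mul_lt_one_of_nonneg_of_lt_one_left zero_le (hm _ (congrArg Subtype.val h2))
        (pow_le_one₀ zero_le ((A.valuation_le_one_iff x).mpr hx))
    have h3 : eval₂ (gfst G) x p = 0 := hp
    rw [eval₂_sub, h3, eval₂_one, zero_sub, Valuation.map_neg, map_one] at h1
    exact lt_irrefl _ h1
  obtain ⟨q, hq⟩ := (IsPrincipalIdealRing.principal J).principal
  obtain ⟨β, hβ⟩ := IsAlgClosed.exists_aeval_eq_zero (k := L) q fun h0 => hJ (by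
    rw [hq]; exact Ideal.span_singleton_eq_top.mpr (isUnit_iff_degree_eq_zero.mpr h0))
  let Ψ : G[X] →+* K × L := (eval₂RingHom (gfst G) x).prod (eval₂RingHom (gsnd G) β)
  have hH : ∀ c, (0, c) ∈ Ψ.range → c = 0 := by
    rintro c ⟨p, hp⟩
    have h1 : p.map φ ∈ J := Ideal.mem_map_of_mem (mapRingHom φ) (congrArg Prod.fst hp)
    rw [hq] at h1
    obtain ⟨r, hr⟩ := Ideal.mem_span_singleton'.mp h1
    have h2 : aeval β (p.map φ) = 0 := by rw [← hr, map_mul, hβ, mul_zero]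
    rw [aeval_def, eval₂_map] at h2
    exact (congrArg Prod.snd hp).symm.trans h2
  refine ⟨β, hG.le_of_ge hH (fun p hp => ⟨C ⟨p, hp⟩, ?_⟩) ⟨X, ?_⟩⟩
  · exact Prod.ext (eval₂_C _ _) (eval₂_C _ _)
  · exact Prod.ext (eval₂_X _ _) (eval₂_X _ _)

/-- Chevalley's extension theorem. -/
theorem exists_pl [IsAlgClosed L] {R : Type} [CommRing R] (f : R →+* K)
    (hf : Function.Injective f) (φ : R →+* L) : ∃ pl : Plc K L, ∀ r, (f r, φ r) ∈ pl.G := by
  obtain ⟨G, hle, hG⟩ := zorn_le_nonempty₀ {H : Subring (K × L) | ∀ b, (0, b) ∈ H → b = 0}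
    (fun c hc hch y hy => ⟨sSup c, fun b hb => by
      obtain ⟨H, hH, hb⟩ := (Subring.mem_sSup_of_directedOn ⟨y, hy⟩ hch.directedOn).mp hb
      exact hc hH b hb, fun z hz => le_sSup hz⟩) (f.prod φ).range (by
      rintro b ⟨r, hr⟩
      obtain rfl : r = 0 := hf ((congrArg Prod.fst hr).trans (map_zero f).symm)
      exact (congrArg Prod.snd hr).symm.trans (map_zero φ))
  exact ⟨⟨G, hG.prop, val_of_maximal hG, fun _ _ => loc_of_maximal hG⟩, fun r => hle ⟨r, rfl⟩⟩

namespace Plc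

variable (pl : Plc K L)

lemma fst_injective : Function.Injective (gfst pl.G) := gfst_injective pl.func

instance : IsDomain pl.G := pl.fst_injective.isDomain (gfst pl.G)

instance : ValuationRing pl.G where
  cond' := by
    rintro ⟨⟨a, b⟩, ha⟩ ⟨⟨c, d⟩, hc⟩
    by_cases ha0 : a = 0
    · exact ⟨0, Or.inr (pl.fst_injective (by subst ha0; exact mul_zero c))⟩
    by_cases hc0 : c = 0
    · exact ⟨0, Or.inl (pl.fst_injective (by subst hc0; exact mul_zero a))⟩
    rcases pl.val (c / a) with ⟨e, he⟩ | ⟨e, he⟩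
    · exact ⟨⟨_, he⟩, Or.inl (pl.fst_injective (mul_div_cancel₀ c ha0))⟩
    · refine ⟨⟨_, he⟩, Or.inr (pl.fst_injective ?_)⟩
      change c * (c / a)⁻¹ = a
      field_simp

variable {pl}

lemma uniq {a : K} {b c : L} (hb : (a, b) ∈ pl.G) (hc : (a, c) ∈ pl.G) : b = c :=
  sub_eq_zero.mp (pl.func _ (by simpa using sub_mem hb hc))

lemma mul {a c : K} {b d : L} (h : (a, b) ∈ pl.G) (h' : (c, d) ∈ pl.G) : (a * c, b * d) ∈ pl.G :=
  mul_mem h h'

lemma add {a c : K} {b d : L} (h : (a, b) ∈ pl.G) (h' : (c, d) ∈ pl.G) : (a + c, b + d) ∈ pl.G :=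
  add_mem h h'

lemma ne_zero {a : K} {b : L} (h : (a, b) ∈ pl.G) (hb : b ≠ 0) : a ≠ 0 := by
  rintro rfl
  exact hb (pl.func b h)

/-- The nonzero vector `Q` represents the value of the point `P` at the place. -/
def Red (pl : Plc K L) {n : ℕ} (P : Fin n → K) (Q : Fin n → L) : Prop :=
  Q ≠ 0 ∧ ∃ c, ∀ i, (c * P i, Q i) ∈ pl.G

lemma exists_red (pl : Plc K L) {n : ℕ} {P : Fin n → K} (hP : P ≠ 0) : ∃ Q, pl.Red P Q := by
  classical
  have key : ∀ s : Finset (Fin n), ∃ i, P i ≠ 0 ∧ ∀ j ∈ s, ∃ b, ((P i)⁻¹ * P j, b) ∈ pl.G := by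
    intro s
    induction s using Finset.induction_on with
    | empty =>
      obtain ⟨i, hi⟩ := Function.ne_iff.mp hP
      exact ⟨i, hi, by simp⟩
    | insert a s ha ih =>
      obtain ⟨i, hi, h⟩ := ih
      by_cases ha0 : P a = 0
      · exact ⟨i, hi, fun j hj => (Finset.mem_insert.mp hj).elim
          (fun e => ⟨0, by rw [e, ha0, mul_zero]; exact zero_mem _⟩) (h j)⟩
      rcases pl.val ((P i)⁻¹ * P a) with h1 | ⟨e, he⟩
      · exact ⟨i, hi, fun j hj => (Finset.mem_insert.mp hj).elim (fun e => e ▸ h1) (h j)⟩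
      · refine ⟨a, ha0, fun j hj => (Finset.mem_insert.mp hj).elim
          (fun e => ⟨1, by rw [e, inv_mul_cancel₀ ha0]; exact one_mem _⟩) fun hj => ?_⟩
        obtain ⟨b, hb⟩ := h j hj
        refine ⟨e * b, ?_⟩
        have : (P a)⁻¹ * P j = ((P i)⁻¹ * P a)⁻¹ * ((P i)⁻¹ * P j) := by field_simp
        rw [this]
        exact mul he hb
  obtain ⟨i, hi, h⟩ := key Finset.univ
  choose Q hQ using fun j => h j (Finset.mem_univ j)
  refine ⟨Q, Function.ne_iff.mpr ⟨i, ?_⟩, _, hQ⟩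
  have := hQ i
  rw [inv_mul_cancel₀ hi] at this
  rw [uniq this (one_mem _)]
  exact one_ne_zero

lemma Red.ne_zero {n : ℕ} {P : Fin n → K} {Q : Fin n → L} (h : pl.Red P Q) : P ≠ 0 := by
  rintro rfl
  obtain ⟨h0, c, hc⟩ := h
  exact h0 (funext fun i => pl.func _ (by simpa using hc i))

end Plc

end Pool.Agent.P.MP_7ebcb6_ag.G8
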