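import Pool.Agent.P.MP_7ebcb6_ag.G8.Branch

/-! The selected equations of a curve imply all of them. -/

namespace Pool.Agent.P.MP_7ebcb6_ag.G8

open Polynomial

noncomputable section

lemma z_map {K S : Type} [CommRing K] [CommRing S] (f : K →+* S) :
    (V4.z : V4 K).map f = V4.z := by simp [V4.z, V4.map]

/-- Three linear relations at a point. -/
def Rows3 {K : Type} [CommRing K] (D : Cv K) (q : Pt D.T) : Prop :=
  q.o D.m * q.e D.x1 + 1 * q.o D.x2 + D.y * q.o D.x3 = n1 D.g 1 D.y (q.o D.m) (q.o D.n) ∧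
  1 * q.e D.x1 + q.o D.m * q.o D.x2 + q.o D.n * q.o D.x3 = n2 D.g 1 D.y (q.o D.m) (q.o D.n) ∧
  D.y * q.e D.x1 + q.o D.n * q.o D.x2 + q.o D.m * q.o D.x3 = n3 D.g 1 (q.o D.m)

def Lin (P : ℂ[X]) : Prop := ∃ a b : ℂ, P = C a + X * C b

lemma Lin.eq_zero {P : ℂ[X]} (h : Lin P) (h1 : evalRingHom (-1) P = 0)
    (h2 : evalRingHom 1 P = 0) : P = 0 := by
  obtain ⟨a, b, rfl⟩ := h
  simp only [coe_evalRingHom, eval_add, eval_C, eval_mul, eval_X] at h1 h2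
  have ha : a = 0 := by linear_combination (h1 + h2) / 2
  have hb : b = 0 := by linear_combination (h2 - h1) / 2
  simp [ha, hb]

variable {D : Cv ℂ[X]} (hD : D.ok) {p : Fin 4 → Pt (D.map am).T}
  (hp : Function.Injective fun k => (p k).X1) (hA : am D.T.A ≠ 0) (hB : am D.T.B ≠ 0)
  (hc : am D.T.c ≠ 0) (hy : D.y = X)
include hD hp hA hB hc hy

lemma rows_zero (hnu : am D.T.nu ≠ 0) (hcab : am D.T.cab ≠ 0) (h1a : (D.R1 D.Q).a = 0)
    (h1b : (D.R1 D.Q).b = 0) (h1c : ∃ b, (D.R1 D.Q).c = X * C b)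
    (h1d : ∃ b, (D.R1 D.Q).d = X * C b) (h2 : D.R2 D.Q = V4.z) (h3 : D.R3 = V4.z)
    (hWc : Lin (D.W D.Q).c) (hWd : Lin (D.W D.Q).d) (k : Fin 4) : Rows3 (D.map am) (p k) := by
  have hh := hom_of_ringHom am
  have hO := hD.map am
  have e2 : (D.map am).R2 (D.map am).Q = V4.z := by rw [← hh.cQ, ← hh.cR2, h2, z_map]
  have e3 : (D.map am).R3 = V4.z := by rw [← hh.cR3, h3, z_map]
  have e : D.W D.Q = V4.sm D.y (D.R1 D.Q) :=
    vam_inj (vsub_eq_z (indepO hO.T hp hA hB hc hnu hcab fun k => by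
      rw [Pt.o_sub, hh.cW, hh.sm, hh.cR1, hh.cQ, hO.o_W, e2, e3, Pt.e_z, Pt.o_sm]
      simp [Cv.map]))
  obtain ⟨b, hb⟩ := h1c
  obtain ⟨b', hb'⟩ := h1d
  obtain ⟨c, d, hcd⟩ := hWc
  obtain ⟨c', d', hcd'⟩ := hWd
  rw [e] at hcd hcd'
  simp only [V4.sm, hy, hb, hb'] at hcd hcd'
  have e1 : (D.map am).R1 (D.map am).Q = V4.z := by
    rw [← hh.cQ, ← hh.cR1, show D.R1 D.Q = V4.z from V4.ext h1a h1b
      (by rw [hb, eq_zero_of_sq hcd]; simp [V4.z]) (by rw [hb', eq_zero_of_sq hcd']; simp [V4.z]),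
      z_map]
  refine ⟨?_, ?_, ?_⟩
  · rw [← sub_eq_zero, ← hO.o_R1, e1, Pt.o_z]
  · rw [← sub_eq_zero, ← hO.e_R2, e2, Pt.e_z]
  · rw [← sub_eq_zero, ← hO.e_R3, e3, Pt.e_z]

lemma phi_zero (hr : ∀ k, Rows3 (D.map am) (p k)) {i j : V4 ℂ}
    (hi : (mulEE (D.T.map (evalRingHom (-1))) i
      ((D.mm + D.nn + (D.mn + D.mn)).map (evalRingHom (-1)))).sc 1 = V4.z)
    (hj : (mulEE (D.T.map (evalRingHom 1)) j
      ((D.mm + D.nn - (D.mn + D.mn)).map (evalRingHom 1))).sc 1 = V4.z)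
    (ha : Lin D.E.a) (hb : Lin D.E.b) (hc' : Lin D.E.c) (hd : Lin D.E.d) (k : Fin 4) :
    phi (D.map am).g (D.map am).l 1 lam ((p k).o (D.map am).m) ((p k).o (D.map am).n) = 0 := by
  have hh := hom_of_ringHom am
  have hO := hD.map am
  have ev1 : ∀ k P, Ev.ev hD.T p k (Ev.sc hD.T p P) = am P := fun _ _ => rfl
  have ev2 : ∀ k P, Ev.ev hD.T p k (Ev.of hD.T p P) = (p k).e (P.map am) := fun _ _ => rfl
  have e1 : D.E.map (evalRingHom (-1)) = V4.z :=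
    vanish_at hD.T hp hA hB hc (L := -(1 + D.y)) (by simp [hy]) hi
      (zm (fun i => Ev.sc hD.T p (D.g i)) (Ev.sc hD.T p D.l) (Ev.sc hD.T p D.y) (Ev.of hD.T p D.x1)
        (Ev.of hD.T p D.mm) (Ev.of hD.T p D.mn) (Ev.of hD.T p D.nn) (Ev.of hD.T p D.mx2)
        (Ev.of hD.T p D.mx3) (Ev.of hD.T p D.nx2) (Ev.of hD.T p D.nx3)) fun k => by
      have := syz_m (l := (D.map am).l) (hr k).1 (hr k).2.1 (hr k).2.2
      rw [← hO.e_E, ← hO.e_mm, ← hO.e_mn, ← hO.e_nn, ← hO.e_mx2, ← hO.e_mx3, ← hO.e_nx2,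
        ← hO.e_nx3, ← hh.cE] at this
      simp only [zm, map_add, map_mul, map_sub, map_neg, map_pow, map_one, map_ofNat, ev1, ev2,
        hh.vadd, Pt.e_add] at this ⊢
      exact this
  have e2 : D.E.map (evalRingHom 1) = V4.z :=
    vanish_at hD.T hp hA hB hc (L := -(1 - D.y)) (by simp [hy]) hj
      (zp (fun i => Ev.sc hD.T p (D.g i)) (Ev.sc hD.T p D.l) (Ev.sc hD.T p D.y) (Ev.of hD.T p D.x1)
        (Ev.of hD.T p D.mm) (Ev.of hD.T p D.mn) (Ev.of hD.T p D.nn) (Ev.of hD.T p D.mx2)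
        (Ev.of hD.T p D.mx3) (Ev.of hD.T p D.nx2) (Ev.of hD.T p D.nx3)) fun k => by
      have := syz_p (l := (D.map am).l) (hr k).1 (hr k).2.1 (hr k).2.2
      rw [← hO.e_E, ← hO.e_mm, ← hO.e_mn, ← hO.e_nn, ← hO.e_mx2, ← hO.e_mx3, ← hO.e_nx2,
        ← hO.e_nx3, ← hh.cE] at this
      simp only [zp, map_add, map_mul, map_sub, map_neg, map_pow, map_one, map_ofNat, ev1, ev2,
        hh.vadd, hh.vsub, Pt.e_add, Pt.e_sub] at this ⊢
      exact this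
  simp only [V4.map, V4.z, V4.mk.injEq] at e1 e2
  have e : D.E = V4.z := V4.ext (ha.eq_zero e1.1 e2.1) (hb.eq_zero e1.2.1 e2.2.1)
    (hc'.eq_zero e1.2.2.1 e2.2.2.1) (hd.eq_zero e1.2.2.2 e2.2.2.2)
  have hy' : (D.map am).y = lam := by
    change am D.y = lam
    rw [hy, am_X]
  have := phi_of_E (l := (D.map am).l) (hr k).1 (hr k).2.1 (hr k).2.2
  rw [← hO.e_E, ← hh.cE, e, z_map, Pt.e_z, mul_zero, hy', mul_eq_zero] at this
  refine this.resolve_left ?_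
  have h2 : am (X * X - 1) ≠ 0 := am_ne' (s := 0) (by simp)
  simpa [am_X] using h2

end

end Pool.Agent.P.MP_7ebcb6_ag.G8
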