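import Pool.Agent.P.MP_7ebcb6_ag.G8.Cert0
import Pool.Agent.P.MP_7ebcb6_ag.G8.Cert1
import Pool.Agent.P.MP_7ebcb6_ag.G8.Cert2
import Pool.Agent.P.MP_7ebcb6_ag.G8.Cert3
import Pool.Agent.P.MP_7ebcb6_ag.G8.Cert4
import Pool.Agent.P.MP_7ebcb6_ag.G8.Lift
import Pool.Agent.P.MP_7ebcb6_ag.G8.Poly

/-! The solution modulo 41 lifts to independent complex parameters. -/

namespace Pool.Agent.P.MP_7ebcb6_ag.G8

open MvPolynomial

lemma chkL_append (B n : ℕ) (l l' : List Fa) (i : ℕ) :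
    chkL B n (l ++ l') i = (chkL B n l i && chkL B n l' (i + l.length)) := by
  induction l generalizing i with
  | nil => simp [chkL]
  | cons x l ih => simp [chkL, frc_eq, ih, Bool.and_assoc, Nat.add_assoc, Nat.add_comm 1]

lemma len_sys : (blk oF pF xF 0 [V4.at xF 86, V4.at xF 137, V4.at xF 188]).length = 54 ∧
    (blk oF pF xF 1 [V4.at xF 137, V4.at xF 188]).length = 54 ∧
    (blk oF pF xF 2 [V4.at xF 188]).length = 54 ∧ (blk oF pF xF 3 []).length = 54 ∧
    (glob oF pF xF).length = 16 := by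
  decide +kernel

lemma chk_sys : chkL bB 232 (sys oF pF xF) 0 = true ∧ (sys oF pF xF).length = 232 := by
  obtain ⟨h0, h1, h2, h3, h4⟩ := len_sys
  simp only [sys, chkL_append, List.length_append, h0, h1, h2, h3, h4, Nat.reduceAdd, cert0, cert1,
    cert2, cert3, cert4, Bool.and_self, and_self]

lemma data_size : p0 < 64 ^ 23 ∧ x0 < 64 ^ 232 ∧ dirs.length = 232 := by decide +kernel

lemma pack_zero (B n : ℕ) : pack B n (fun _ => 0) = 0 := by
  simpa using pack_lin B 0 0 n (fun _ => 0) fun _ => 0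

theorem exists_solution (z : Fin 23 → ℂ) (hz : AlgebraicIndependent ℚ z) :
    ∃ P X : ℕ → ℂ, (∀ k : Fin 23, P k = z k) ∧ Zs (sys 1 P X) := by
  have : Fact (Nat.Prime 41) := ⟨by norm_num⟩
  let oG : Gh := ⟨1, fun _ => 0⟩
  let pG : ℕ → Gh := fun k => ⟨p0 / 64 ^ k % 64, fun _ => 0⟩
  let xG : ℕ → Gh := fun k => ⟨x0 / 64 ^ k % 64 % 41, fun j => dirs.getD k 0 / 64 ^ j % 64⟩
  have e1 : (sys oG pG xG).map (Gh.fa bB 232) = sys oF pF xF := by
    rw [(hom_fa _ _).sys]
    simp only [Gh.fa, oG, pG, xG, pack_zero, ← expand_eq]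
    exact congrArg _ (funext fun k => (Fa.mk'_eq _ _ _).symm)
  have hG : (sys oG pG xG).length = 232 := by rw [← chk_sys.2, ← e1, List.length_map]
  have hchk := chkL_sound bB 232 _ 0 (e1 ▸ chk_sys.1)
  let A := MvPolynomial (Fin 23) ℤ
  let ι : A →+* ℂ := (aeval z : A →ₐ[ℤ] ℂ).toRingHom
  have hι : Function.Injective ι := hz.restrictScalars (algebraMap ℤ ℚ).injective_int
  let π : A →+* ZMod 41 := (aeval fun k : Fin 23 => ((pG k).a : ZMod 41) : A →ₐ[ℤ] _).toRingHom
  have hιX : ∀ k, ι (X k) = z k := fun k => aeval_X _ _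
  have hπX : ∀ k, π (X k) = (pG k).a := fun k => aeval_X _ _
  let PY : ℕ → MvPolynomial (Fin 232) A := fun k => if h : k < 23 then C (X ⟨k, h⟩) else 0
  let XY : ℕ → MvPolynomial (Fin 232) A := fun k => if h : k < 232 then X ⟨k, h⟩ else 0
  let Φ : ℕ → MvPolynomial (Fin 232) A →+* DualNumber (ZMod 41) := fun j =>
    eval₂Hom ((TrivSqZeroExt.inlHom _ _).comp π) fun k : Fin 232 => (xG k).du j
  have hP : ∀ j k, Φ j (PY k) = (pG k).du j := by
    intro j k
    simp only [PY]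
    split_ifs with h
    · rw [coe_eval₂Hom, eval₂_C, RingHom.comp_apply, hπX]
      rfl
    · rw [map_zero, Gh.du, show (pG k).a = 0 from congrArg (· % 64) (Nat.div_eq_of_lt
        (data_size.1.trans_le (Nat.pow_le_pow_right (by norm_num) (not_lt.mp h))))]
      rfl
  have hX : ∀ j k, Φ j (XY k) = (xG k).du j := by
    intro j k
    simp only [XY]
    split_ifs with h
    · rw [coe_eval₂Hom, eval₂_X]
    · rw [map_zero, Gh.du, show (xG k).a = 0 from congrArg (· % 64 % 41) (Nat.div_eq_of_lt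
        (data_size.2.1.trans_le (Nat.pow_le_pow_right (by norm_num) (not_lt.mp h)))),
        show (xG k).t j = 0 by
          simp only [xG]
          rw [List.getD_eq_default _ _ (data_size.2.2.trans_le (not_lt.mp h)), Nat.zero_div]]
      rfl
  have e2 : ∀ j, (sys 1 PY XY).map (Φ j) = (sys oG pG xG).map (Gh.du j) := fun j => by
    rw [(hom_du j).sys, (hom_of_ringHom (Φ j)).sys, map_one]
    simp only [hP, hX]
    rfl
  have hY : (sys 1 PY XY).length = 232 := by simpa [hG] using congrArg List.length (e2 0)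
  obtain ⟨f, hf⟩ : ∃ f : Fin 232 → MvPolynomial (Fin 232) A,
      ∀ i, (sys 1 PY XY)[i.1]'(hY.symm ▸ i.2) = f i := ⟨_, fun _ => rfl⟩
  have key : ∀ i j : Fin 232, Φ j (f i) = (0, if i = j then 1 else 0) := fun i j => by
    have h1 := List.getElem_of_eq (e2 j) (i := i.1) (by simp [hY])
    rw [List.getElem_map, List.getElem_map, hchk i _ j j.2, zero_add, hf] at h1
    simpa only [Fin.val_inj] using h1
  obtain ⟨x, hx, -⟩ := exists_lift_dual ι hι π f (fun k => ((xG k).a : ZMod 41))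
    fun j => ⟨fun k => ((xG k).t j : ZMod 41), fun i => key i j⟩
  refine ⟨fun k => eval₂Hom ι x (PY k), fun k => eval₂Hom ι x (XY k), fun k => by
    simp [PY, hιX], fun e he => ?_⟩
  rw [← map_one (eval₂Hom ι x), ← (hom_of_ringHom (eval₂Hom ι x)).sys, List.mem_map] at he
  obtain ⟨e, he, rfl⟩ := he
  obtain ⟨i, hi, rfl⟩ := List.getElem_of_mem he
  exact (congrArg _ (hf ⟨i, hY ▸ hi⟩)).trans (hx _)

end Pool.Agent.P.MP_7ebcb6_ag.G8
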