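import Pool.Agent.P.MP_7ebcb6_ag.G8.Iface
import Pool.Agent.P.MP_7ebcb6_ag.G8.Basic

/-! Two geometric steps used in the proof of `GenericRel`. -/

namespace Pool.Agent.P.MP_7ebcb6_ag.G8

/-- A curve with four branches over the `y`-line on another member of the pencil through the
plane section `y = s`, finite over the affine `y`-line, meets the section in a cycle of class
zero. -/
def ConeLemma : Prop :=
  ∀ (g : Fin 6 → ℂ) (mu s ph t : ℂ) (M : Type) [AddCommGroup M] [IsAddTorsionFree M]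
    (G : ClassMap g (ph - mu * s) mu M) (m n : Fin 4 → Om) (Ψ : M),
    t ≠ mu → f4 g s ≠ 0 →
    (∀ k, phi (fun i => algebraMap ℂ Om (g i))
      (algebraMap ℂ Om ph + algebraMap ℂ Om t * (lam - algebraMap ℂ Om s)) 1 lam (m k) (n k) = 0) →
    (∀ k, c3 1 lam (m k) (n k) ≠ 0) →
    (∀ (sp : Sp) (k : Fin 4), sp.v lam ≤ 1 → sp.v (m k) ≤ 1 ∧ sp.v (n k) ≤ 1) →
    (∀ (sp : Sp) (m0 n0 : Fin 4 → ℂ), Tends sp.v lam s → (∀ k, Tends sp.v (m k) (m0 k)) →
      (∀ k, Tends sp.v (n k) (n0 k)) → ∑ k, G.cl s (m0 k) (n0 k) = Ψ) →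
    Ψ = 0

/-- Twenty points with distinct slopes that are zeros of a nonzero form `ft` on the plane
section `y = s` have class sum zero. -/
def FLemma : Prop :=
  ∀ (g : Fin 6 → ℂ) (mu s ph v0 : ℂ) (f : Fin 17 → ℂ) (M : Type) [AddCommGroup M]
    [IsAddTorsionFree M] (G : ClassMap g (ph - mu * s) mu M) (pm pn : Fin 20 → ℂ),
    f4 g s ≠ 0 → (∀ a, pm a ≠ 0) → (∀ a, phi g ph 1 s (pm a) (pn a) = 0) →
    (∀ a, c3 1 s (pm a) (pn a) ≠ 0) → (∀ a, ft g f 1 s (pm a) (pn a) = 0) →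
    (Function.Injective fun a => pn a / pm a) →
    (∀ U : ℂ, phi g (ph * U) U (s * U) 1 v0 = 0 → ft g f U (s * U) 1 v0 ≠ 0) →
    ∑ a, G.cl s (pm a) (pn a) = 0

end Pool.Agent.P.MP_7ebcb6_ag.G8
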