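import Pool.Agent.P.MP_7ebcb6_ag.G8.Basic

/-! The square polynomial system whose solutions give four genus three curves, a form on the
plane section and four residual points; written over bare ring operations. -/

namespace Pool.Agent.P.MP_7ebcb6_ag.G8

variable {R : Type} [Add R] [Mul R] [Neg R] [Sub R]

/-- Polynomials as coefficient lists. -/
structure Pl (R : Type) where
  c : List R

def padd : List R → List R → List R
  | [], q => q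
  | a :: p, [] => a :: p
  | a :: p, b :: q => (a + b) :: padd p q

def psub : List R → List R → List R
  | [], q => q.map fun b => -b
  | a :: p, [] => a :: p
  | a :: p, b :: q => (a - b) :: psub p q

def pmul : List R → List R → List R
  | [], _ => []
  | _ :: _, [] => []
  | a :: p, b :: q => (a * b) :: padd (q.map fun x => a * x) (pmul p (b :: q))

def pev (z x : R) : List R → R
  | [] => z
  | [a] => a
  | a :: b :: p => a + x * pev z x (b :: p)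

instance : Add (Pl R) := ⟨fun p q => ⟨padd p.c q.c⟩⟩
instance : Sub (Pl R) := ⟨fun p q => ⟨psub p.c q.c⟩⟩
instance : Mul (Pl R) := ⟨fun p q => ⟨pmul p.c q.c⟩⟩
instance : Neg (Pl R) := ⟨fun p => ⟨p.c.map fun b => -b⟩⟩

/-- Vectors of length four. -/
@[ext] structure V4 (R : Type) where
  a : R
  b : R
  c : R
  d : R

instance : Add (V4 R) := ⟨fun x y => ⟨x.a + y.a, x.b + y.b, x.c + y.c, x.d + y.d⟩⟩
instance : Sub (V4 R) := ⟨fun x y => ⟨x.a - y.a, x.b - y.b, x.c - y.c, x.d - y.d⟩⟩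
def V4.sm (k : R) (x : V4 R) : V4 R := ⟨k * x.a, k * x.b, k * x.c, k * x.d⟩
def V4.ac (x : V4 R) (k : R) : V4 R := ⟨x.a + k, x.b, x.c, x.d⟩
def V4.sc (x : V4 R) (k : R) : V4 R := ⟨x.a - k, x.b, x.c, x.d⟩
def V4.map {R S : Type} (f : R → S) (x : V4 R) : V4 S := ⟨f x.a, f x.b, f x.c, f x.d⟩
def V4.l {R : Type} (x : V4 R) : List R := [x.a, x.b, x.c, x.d]
def V4.at {R : Type} (x : ℕ → R) (k : ℕ) : V4 R := ⟨x k, x (k + 1), x (k + 2), x (k + 3)⟩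

/-- The data of a plane quartic `Q1 Q3 = Q2²` with the derived quantities. -/
structure Tb (R : Type) where
  c : R
  A : R
  B : R
  M : R
  a : R
  b : R
  q : R
  r : R
  nu : R
  ka : R
  rho : R
  cab : R
  mar : R
  mbq : R
  p1 : R
  pm : R
  p0 : R

def mkTb (c A B M a b q r nu : R) : Tb R :=
  let ka := A + a * a
  let rho := B + b * b
  ⟨c, A, B, M, a, b, q, r, nu, ka, rho, c - a * b, M - a * r, M - b * q,
    r * ka + q * c - (a * M + a * M), q * rho + r * c - (b * M + b * M),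
    ka * rho + r * q * c + c * c - M * M - (a * b * c + a * b * c)⟩

def Tb.map {R S : Type} (f : R → S) (T : Tb R) : Tb S :=
  ⟨f T.c, f T.A, f T.B, f T.M, f T.a, f T.b, f T.q, f T.r, f T.nu, f T.ka, f T.rho, f T.cab,
    f T.mar, f T.mbq, f T.p1, f T.pm, f T.p0⟩

/-- Product of two even elements. -/
def mulEE (T : Tb R) (x y : V4 R) : V4 R :=
  let k11 := x.b * y.b
  let k12 := x.b * y.c + x.c * y.b
  let k13 := x.b * y.d + x.d * y.b
  let k22 := x.c * y.c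
  let k23 := x.c * y.d + x.d * y.c
  let k33 := x.d * y.d
  ⟨x.a * y.a + T.c * (T.A * (T.B * k12 - T.pm * k13) + T.B * T.p1 * k23
      - (T.p1 * T.pm + T.A * T.B * T.c) * k33) - T.B * T.p0 * k22,
    x.a * y.b + x.b * y.a - T.p1 * k11 - T.p0 * k13 + T.c * (T.B * k23 - T.pm * k33),
    x.a * y.c + x.c * y.a - T.c * (T.A * k13 + T.p1 * k33) - T.pm * k22,
    x.a * y.d + x.d * y.a + T.A * k11 - T.B * k22 - T.p0 * k33⟩

/-- Product of two odd elements. -/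
def mulOO (T : Tb R) (x y : V4 R) : V4 R :=
  let k00 := x.a * y.a
  let k01 := x.a * y.b + x.b * y.a
  let k02 := x.a * y.c + x.c * y.a
  let k03 := x.a * y.d + x.d * y.a
  let k11 := x.b * y.b
  let k12 := x.b * y.c + x.c * y.b
  let k13 := x.b * y.d + x.d * y.b
  let k22 := x.c * y.c
  let k23 := x.c * y.d + x.d * y.c
  let k33 := x.d * y.d
  V4.sm T.nu
  ⟨k00 * (T.cab * T.cab + T.B * (T.a * T.a))
      + k01 * (T.c * (T.mar - T.b * T.q) + T.M * (T.a * T.b))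
      + k02 * (T.B * (T.c * T.q - T.M * T.a)) + k03 * (T.A * (T.c * T.b - T.a * T.rho))
      + k11 * (T.M * T.M - T.c * (T.q * T.r) - T.B * T.ka) + k12 * (T.B * (T.c * T.a - T.b * T.ka))
      + k13 * (T.A * (T.c * T.r - T.M * T.b)) + k22 * (T.B * (T.B * T.ka - T.p0))
      + k23 * (T.A * T.B * T.M) + k33 * (T.A * T.A * T.rho),
    k02 * T.B + k03 * T.mar + k13 * T.cab + k23 * (T.B * T.a) + k33 * (T.A * T.r - T.p1)
      - k00 * T.r - k01 * T.b,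
    k02 * T.cab + k12 * T.mbq + k13 * T.A + k22 * (T.B * T.q - T.pm) + k23 * (T.A * T.b)
      - k01 * T.a - k11 * T.q,
    k00 + k33 * T.A - k11 - k22 * T.B⟩

def mulE1 (T : Tb R) (y : V4 R) : V4 R :=
  ⟨T.A * (y.c * T.B + y.d * T.mar - y.a * T.r - y.b * T.b), T.A * (y.a * T.b - y.d * T.cab),
    -(T.A * (y.a + y.d * T.a)),
    y.a * T.mar + y.b * T.cab + y.c * (T.B * T.a) + y.d * (T.A * T.r - T.p1)⟩

def mulE2 (T : Tb R) (y : V4 R) : V4 R :=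
  ⟨T.B * (y.b * T.a - y.c * T.cab), T.B * (y.c * T.mbq + y.d * T.A - y.a * T.a - y.b * T.q),
    y.a * T.cab + y.b * T.mbq + y.c * (T.B * T.q - T.pm) + y.d * (T.A * T.b),
    -(T.B * (y.b + y.c * T.b))⟩

def mulE3 (T : Tb R) (y : V4 R) : V4 R :=
  ⟨y.a * (T.M * T.M - T.c * (T.q * T.r) - T.A * T.rho)
      + y.b * (T.c * (T.mar - T.b * T.q) + T.M * (T.a * T.b))
      + y.c * (T.B * (T.c * T.q - T.M * T.a)) + y.d * (T.A * (T.c * T.b - T.a * T.rho)),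
    y.c * (T.B * (T.b * T.ka - T.c * T.a)) + y.d * (T.A * (T.M * T.b - T.c * T.r))
      - y.a * (T.c * (T.mar - T.b * T.q) + T.M * (T.a * T.b))
      - y.b * (T.cab * T.cab + T.A * (T.b * T.b)),
    y.a * (T.M * T.a - T.c * T.q) + y.b * (T.b * T.ka - T.c * T.a) - y.c * (T.B * T.ka)
      - y.d * (T.A * T.M),
    y.a * (T.c * T.b - T.a * T.rho) + y.b * (T.c * T.r - T.M * T.b) + y.c * (T.B * T.M)
      + y.d * (T.A * T.rho - T.p0)⟩

/-- Product of an even and an odd element. -/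
def mulEO (T : Tb R) (x y : V4 R) : V4 R :=
  V4.sm x.a y + V4.sm x.b (mulE1 T y) + V4.sm x.c (mulE2 T y) + V4.sm x.d (mulE3 T y)

/-- The functions on the curve. -/
structure Cv (R : Type) where
  T : Tb R
  y : R
  o : R
  l : R
  g : Fin 6 → R
  m : V4 R
  n : V4 R
  x1 : V4 R
  x2 : V4 R
  x3 : V4 R
  mm : V4 R
  mn : V4 R
  nn : V4 R
  mx2 : V4 R
  mx3 : V4 R
  nx2 : V4 R
  nx3 : V4 R

def mkCv (T : Tb R) (y o l : R) (g : Fin 6 → R) (m n x1 x2 x3 : V4 R) : Cv R :=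
  ⟨T, y, o, l, g, m, n, x1, x2, x3, mulOO T m m, mulOO T m n, mulOO T n n, mulOO T m x2,
    mulOO T m x3, mulOO T n x2, mulOO T n x3⟩

def Cv.map {R S : Type} (f : R → S) (C : Cv R) : Cv S :=
  ⟨C.T.map f, f C.y, f C.o, f C.l, fun i => f (C.g i), C.m.map f, C.n.map f, C.x1.map f,
    C.x2.map f, C.x3.map f, C.mm.map f, C.mn.map f, C.nn.map f, C.mx2.map f, C.mx3.map f,
    C.nx2.map f, C.nx3.map f⟩

def Cv.Q (C : Cv R) : V4 R := (C.nn - C.mm).ac (C.y * C.y)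
def Cv.r1 (C : Cv R) : V4 R :=
  V4.sm (C.g 0) (V4.sm C.y C.n - C.m) + V4.sm (C.g 1) (C.n - V4.sm C.y C.m) - V4.sm C.y C.m
def Cv.r2 (C : Cv R) : V4 R :=
  V4.sm (C.g 2) (C.mm.sc (C.y * C.y)) - V4.sm (C.g 3) (C.mn.sc C.y)
    + V4.sm (C.g 4) (C.mm.sc C.o) + C.mn
def Cv.r3 (C : Cv R) : V4 R := V4.sm (C.g 5) (C.mm.sc C.o)
def Cv.R1 (C : Cv R) (z : V4 R) : V4 R :=
  mulEO C.T C.x1 C.m + C.x2 + V4.sm C.y C.x3 + mulEO C.T z C.n + C.r1
def Cv.R2 (C : Cv R) (z : V4 R) : V4 R := C.x1 + C.mx2 + C.nx3 - V4.sm C.y z + C.r2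
def Cv.R3 (C : Cv R) : V4 R := V4.sm C.y C.x1 + C.nx2 + C.mx3 + C.r3
/-- The combination of the rows that has low weight. -/
def Cv.W (C : Cv R) (z : V4 R) : V4 R :=
  mulEO C.T C.x1 C.n + V4.sm C.y C.x2 + mulEO C.T z C.x3 + V4.sm C.y C.r1
    + mulEO C.T C.r2 C.n - mulEO C.T C.r3 C.m

def k24 (g : Fin 6 → R) : R := g 2 + g 4
def ke1 (g : Fin 6 → R) (o y : R) : R := (g 5 - g 3 - o) * y - k24 g
def ke2 (g : Fin 6 → R) (o y : R) : R :=
  (g 3 - o - o) * k24 g + (g 3 + g 5 - o + (g 3 + g 5 - o)) * y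
def ke3 (g : Fin 6 → R) (o y : R) : R := g 5 * g 5 - o - k24 g * k24 g - (k24 g + k24 g) * y
def ke0 (g : Fin 6 → R) (y : R) : R :=
  g 1 * g 3 + g 1 * g 5 + g 2 * g 4 + g 3 * g 5 + g 4 * g 4 - g 0 * g 4 - g 5 * g 5
    + y * (g 0 * g 3 + g 0 * g 5 - g 0 - g 1 * k24 g - g 3 * k24 g - g 2 + g 4
      + y * (g 2 * k24 g + g 5 - g 0 * g 2 - g 1 + y * (g 2 + g 2)))

def Cv.E (C : Cv R) : V4 R :=
  (mulOO C.T (C.x2 - C.x3) (C.x2 + C.x3) - V4.sm (k24 C.g) C.nx3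
    + V4.sm (C.o - C.g 3 + C.g 5) C.nx2 + V4.sm (ke1 C.g C.o C.y) C.x1
    + V4.sm (ke2 C.g C.o C.y) C.mn + V4.sm (ke3 C.g C.o C.y) C.mm
    + V4.sm (C.g 3 + C.g 5) C.nn).ac (ke0 C.g C.y + C.l * (C.y * C.y - C.o))

/-- The curve of one block, over polynomials in `y`. -/
def blkCv (o : R) (g : Fin 6 → R) (s ph nu a : R) (x : ℕ → R) : Cv (Pl R) :=
  mkCv (mkTb ⟨[-x 9, o]⟩ ⟨[x 0, x 1]⟩ ⟨[x 2, x 3]⟩ ⟨[x 4, x 5]⟩ ⟨[a]⟩ ⟨[x 6]⟩ ⟨[x 7]⟩ ⟨[x 8]⟩ ⟨[nu]⟩)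
    ⟨[o - o, o]⟩ ⟨[o]⟩ ⟨[ph - x 26 * s, x 26]⟩ (fun i => ⟨[g i]⟩)
    ⟨⟨[x 10]⟩, ⟨[x 11]⟩, ⟨[]⟩, ⟨[]⟩⟩ ⟨⟨[x 12]⟩, ⟨[x 13]⟩, ⟨[]⟩, ⟨[]⟩⟩
    ⟨⟨[x 14, x 15]⟩, ⟨[x 16]⟩, ⟨[x 17]⟩, ⟨[]⟩⟩ ((V4.at x 18).map fun t => ⟨[t]⟩)
    ((V4.at x 22).map fun t => ⟨[t]⟩)

/-- The truncated conic. -/
def trunc (Q : V4 (Pl R)) : V4 (Pl R) := ⟨⟨Q.a.c.take 2⟩, Q.b, Q.c, ⟨[]⟩⟩

def flat (v : V4 (Pl R)) : List R := v.a.c ++ (v.b.c ++ (v.c.c ++ v.d.c))

/-- The equations of the curve. -/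
def eqCv (C : Cv (Pl R)) : List R :=
  let z := trunc C.Q
  let R1 := C.R1 z
  C.Q.a.c.drop 2 ++ (C.Q.d.c ++ (R1.a.c ++ (R1.b.c ++ (R1.c.c.take 1 ++ (R1.d.c.take 1
    ++ (flat (C.R2 z) ++ (flat C.R3 ++ C.E.a.c.drop 2)))))))

def tbAt (nu a : R) (x : ℕ → R) (y : R) : Tb R :=
  mkTb (y - x 9) (x 0 + y * x 1) (x 2 + y * x 3) (x 4 + y * x 5) a (x 6) (x 7) (x 8) nu

def evAt (z y : R) (v : V4 (Pl R)) : V4 R := v.map fun p => pev z y p.c

/-- Multiplication by the generator modulo the monic quartic with lower coefficients `k`. -/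
def qx (k v : V4 R) : V4 R :=
  ⟨-(k.a * v.d), v.a - k.b * v.d, v.b - k.c * v.d, v.c - k.d * v.d⟩

def qmul (k x y : V4 R) : V4 R :=
  qx k (qx k (qx k (V4.sm x.d y) + V4.sm x.c y) + V4.sm x.b y) + V4.sm x.a y

def qprod (k u : V4 R) : List (V4 R) → V4 R
  | [] => u
  | p :: l => qmul k (qprod k u l) (p - k)

/-- The value of an even element at the points of the fibre. -/
def qev (e1 e2 e3 v : V4 R) : V4 R := (V4.sm v.b e1 + V4.sm v.c e2 + V4.sm v.d e3).ac v.a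

/-- The equations at the fibre `y = s`. -/
def eqFib (o mu s : R) (f : Fin 17 → R) (T : Tb R) (t : R) (k h1 h2 io mm mn x1 mx3 wp : V4 R)
    (ot : List (V4 R)) : List R :=
  let z := o - o
  let e1 := V4.sm T.A h1
  let e2 := V4.sm T.B h2
  let e3 := qmul k e1 h1 + V4.sm T.p1 h1
  let w := qev e1 e2 e3 mm
  let c3 := w - qx k (qx k w) + ⟨-(o + s * s), s + s, z, z⟩
  let d : V4 R := ⟨k.b, k.c + k.c, k.d + k.d + k.d, o + o + (o + o)⟩
  ((qmul k h1 h2).sc T.c).l ++ (((e3 + V4.sm T.pm h2 + qmul k e2 h2).ac T.p0).l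
    ++ ((qev e1 e2 e3 mn - qx k w).l
    ++ (((qmul k (qmul k (V4.sm (T.A * T.B * T.c * (t - mu) * T.nu) io) (qmul k c3 w))
        (qmul k d (qprod k (wp - k) ot))).sc o).l
    ++ (qmul k w (qmul k w ((qx k ((qx k ⟨f 2, f 3, f 4, f 5⟩).ac (f 1))).ac (f 0))
        + ⟨f 6, f 7, f 8, f 9⟩ + qmul k ⟨f 10, f 11, f 12, f 13⟩ (qev e1 e2 e3 x1))
      + qmul k ⟨f 14, f 15, f 16, z⟩ (qev e1 e2 e3 mx3)).l)))

/-- All equations of one block. -/
def block (o : R) (g : Fin 6 → R) (mu s ph : R) (f : Fin 17 → R) (nu a : R) (x : ℕ → R)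
    (wp : V4 R) (ot : List (V4 R)) : List R :=
  let z := o - o
  let C := blkCv o g s ph nu a x
  eqCv C ++ (((mulEE (tbAt nu a x (-o)) (V4.at x 27)
      (evAt z (-o) (C.mm + C.nn + (C.mn + C.mn)))).sc o).l
    ++ (((mulEE (tbAt nu a x o) (V4.at x 31) (evAt z o (C.mm + C.nn - (C.mn + C.mn)))).sc o).l
    ++ eqFib o mu s f (tbAt nu a x s) (x 26) (V4.at x 35) (V4.at x 39) (V4.at x 43) (V4.at x 47)
      (evAt z s C.mm) (evAt z s C.mn) (evAt z s C.x1) (evAt z s C.mx3) wp ot))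

/-- The model functions at `u = 1`, `m² = w`, `n = V m`, odd ones divided by `m`. -/
structure Hat (R : Type) where
  Q : R
  c3 : R
  wV : R
  a22 : R
  a23 : R
  a33 : R
  n2 : R
  n3 : R
  wn : R
  x1 : R
  x2 : R
  x3 : R

def mkHat (o : R) (g : Fin 6 → R) (y w V : R) : Hat R :=
  let Q := y * y + w * (V * V - o)
  let a11 := w * (o - V * V)
  let a12 := V * y - o
  let a13 := V - y
  let a22 := w - y * y
  let wV := w * V
  let a23 := y - wV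
  let a33 := w - o
  let n1 := -(Q * V) - (g 0 * a12 + g 1 * a13 - y)
  let n2 := Q * y - (g 2 * a22 + g 3 * a23 + g 4 * a33 + wV)
  let n3 := -(g 5 * a33)
  let wn := w * n1
  ⟨Q, a11 - (o + y * y) + (y * V + y * V), wV, a22, a23, a33, n2, n3, wn,
    a11 * n1 + a12 * n2 + a13 * n3, a12 * wn + a22 * n2 + a23 * n3, a13 * wn + a23 * n2 + a33 * n3⟩

def Hat.map {R S : Type} (f : R → S) (H : Hat R) : Hat S :=
  ⟨f H.Q, f H.c3, f H.wV, f H.a22, f H.a23, f H.a33, f H.n2, f H.n3, f H.wn, f H.x1, f H.x2,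
    f H.x3⟩

def Hat.g0 (H : Hat R) (o : R) (g : Fin 6 → R) (y w V : R) : R :=
  -w - (g 1 + g 3 + g 5 + g 5) * (y * y - H.wV * V)
    + (g 4 * g 4 - g 3 * g 5 - g 1 * g 5 - g 1 * g 3) * H.a33
    + (g 3 * g 4 - g 2 * g 5 - g 1 * g 2 - g 0 * g 5 - g 0 * g 3) * H.a23
    + g 2 * (g 4 - g 0) * H.a22 + (g 4 + g 4) * (y - V * H.Q)
    + (g 0 + g 2) * (y * y * V + y * y * V - y - H.wV) + g 1 * g 4 * (y + H.wV - V - V)
    + g 0 * g 4 * (o - H.wV * V)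

def Hat.phi (H : Hat R) (o : R) (g : Fin 6 → R) (l y w V : R) : R :=
  w * H.c3 * (H.g0 o g y w V + l * H.c3 + H.Q * H.Q) - (H.wn * H.x1 + H.n2 * H.x2 + H.n3 * H.x3)

def Hat.ft (H : Hat R) (f : Fin 17 → R) (w V : R) : R :=
  H.c3 * (w * (w * (f 0 + V * (f 1 + V * (f 2 + V * (f 3 + V * (f 4 + V * f 5)))))
      + (f 6 + V * (f 7 + V * (f 8 + V * f 9)))))
    + w * (f 10 + V * (f 11 + V * (f 12 + V * f 13))) * H.x1 + (f 14 + V * (f 15 + V * f 16)) * H.x3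

def eqPt (o : R) (g : Fin 6 → R) (s ph : R) (f : Fin 17 → R) (w V : R) : List R :=
  let H := mkHat o g s w V
  [H.phi o g ph s w V, H.ft f w V]

/-- The Bezout identity of the test slope. -/
def eqTest (o : R) (g : Fin 6 → R) (s ph : R) (f : Fin 17 → R) (v : R) (a b : Pl R) : List R :=
  let H : Hat (Pl R) := mkHat ⟨[o]⟩ (fun i => ⟨[g i]⟩) ⟨[s]⟩ ⟨[o - o, o]⟩ ⟨[v]⟩
  (a * H.phi ⟨[o]⟩ (fun i => ⟨[g i]⟩) ⟨[ph]⟩ ⟨[s]⟩ ⟨[o - o, o]⟩ ⟨[v]⟩
    + b * H.ft (fun i => ⟨[f i]⟩) ⟨[o - o, o]⟩ ⟨[v]⟩ - ⟨[o]⟩).c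

def hc3 (o s w V : R) : R := (w * (o - V * V) - (o + s * s) + (s * V + s * V)) * w

def f4' (g : Fin 6 → R) (s : R) : R := s * s * s * s + g 2 * (s * s * s) - g 3 * (s * s) + g 4 * s - g 5

/-- Lower coefficients of the monic quartic with the given roots. -/
def wpol (a b c d : R) : V4 R :=
  ⟨a * b * (c * d), -(a * b * (c + d) + (a + b) * (c * d)), a * b + c * d + (a + b) * (c + d),
    -(a + b + (c + d))⟩

def gOf {R : Type} (P : ℕ → R) : Fin 6 → R := fun i => P i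
def fOf {R : Type} (P X : ℕ → R) : Fin 17 → R := fun i => if i = 0 then P 21 else X (207 + i)

def blk (o : R) (P X : ℕ → R) (i : ℕ) (ot : List (V4 R)) : List R :=
  block o (gOf P) (P 6) (P 7) (X 204) (fOf P X) (P (17 + i)) (P (13 + i)) (fun k => X (51 * i + k))
    (wpol (P 9) (X 205) (X 206) (X 207)) ot

def unitEq (o : R) (P X : ℕ → R) : R :=
  X 231 * (hc3 o (P 7) (P 8) (P 9) * hc3 o (P 7) (P 10) (X 205)
      * (hc3 o (P 7) (P 11) (X 206) * hc3 o (P 7) (P 12) (X 207)))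
    * (f4' (gOf P) (P 7) * (o - P 22 * P 22))
    * ((P 9 - X 205) * (P 9 - X 206) * (P 9 - X 207)
      * ((X 205 - X 206) * (X 205 - X 207) * (X 206 - X 207))) - o

def glob (o : R) (P X : ℕ → R) : List R :=
  eqPt o (gOf P) (P 7) (X 204) (fOf P X) (P 8) (P 9)
    ++ (eqPt o (gOf P) (P 7) (X 204) (fOf P X) (P 10) (X 205)
    ++ (eqPt o (gOf P) (P 7) (X 204) (fOf P X) (P 11) (X 206)
    ++ (eqPt o (gOf P) (P 7) (X 204) (fOf P X) (P 12) (X 207)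
    ++ (eqTest o (gOf P) (P 7) (X 204) (fOf P X) (P 22) ⟨[X 224, X 225, X 226]⟩
      ⟨[X 227, X 228, X 229, X 230]⟩ ++ [unitEq o P X]))))

/-- The system: 23 parameters `P`, 232 unknowns `X`, 232 equations. -/
def sys (o : R) (P X : ℕ → R) : List R :=
  blk o P X 0 [V4.at X 86, V4.at X 137, V4.at X 188] ++ (blk o P X 1 [V4.at X 137, V4.at X 188]
    ++ (blk o P X 2 [V4.at X 188] ++ (blk o P X 3 [] ++ glob o P X)))

end Pool.Agent.P.MP_7ebcb6_ag.G8
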