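import Pool.Agent.P.MP_7ebcb6_ag.G8.Sys

/-! The system commutes with maps that respect the ring operations. -/

namespace Pool.Agent.P.MP_7ebcb6_ag.G8

variable {R S : Type} [Add R] [Mul R] [Neg R] [Sub R] [Add S] [Mul S] [Neg S] [Sub S]
  {f : R → S} (h : Hom f)

def Pl.map {R S : Type} (f : R → S) (p : Pl R) : Pl S := ⟨p.c.map f⟩

include h

lemma Hom.padd : ∀ p q : List R, (padd p q).map f = padd (p.map f) (q.map f)
  | [], _ => rfl
  | _ :: _, [] => rfl
  | a :: p, b :: q => by simp only [G8.padd, List.map_cons, h.add, Hom.padd p q]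

lemma Hom.psub : ∀ p q : List R, (psub p q).map f = psub (p.map f) (q.map f)
  | [], q => by simp only [G8.psub, List.map_nil, List.map_map, Function.comp_def, h.neg]
  | _ :: _, [] => rfl
  | a :: p, b :: q => by simp only [G8.psub, List.map_cons, h.sub, Hom.psub p q]

lemma Hom.pmul : ∀ p q : List R, (pmul p q).map f = pmul (p.map f) (q.map f)
  | [], _ => rfl
  | _ :: _, [] => rfl
  | a :: p, b :: q => by
    simp only [G8.pmul, List.map_cons, h.mul, h.padd, Hom.pmul p (b :: q), List.map_map,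
      Function.comp_def]

lemma Hom.pev (z x : R) : ∀ p : List R, f (pev z x p) = pev (f z) (f x) (p.map f)
  | [] => rfl
  | [_] => rfl
  | a :: b :: p => by simp only [G8.pev, List.map_cons, h.add, h.mul, Hom.pev z x (b :: p)]

lemma Hom.pl : Hom (Pl.map f) where
  add p q := congrArg Pl.mk (h.padd p.c q.c)
  mul p q := congrArg Pl.mk (h.pmul p.c q.c)
  neg p := congrArg Pl.mk (by
    change (p.c.map fun b => -b).map f = (p.c.map f).map fun b => -b
    simp only [List.map_map, Function.comp_def, h.neg])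
  sub p q := congrArg Pl.mk (h.psub p.c q.c)

lemma Hom.vadd (x y : V4 R) : (x + y).map f = x.map f + y.map f :=
  V4.ext (h.add _ _) (h.add _ _) (h.add _ _) (h.add _ _)
lemma Hom.vsub (x y : V4 R) : (x - y).map f = x.map f - y.map f :=
  V4.ext (h.sub _ _) (h.sub _ _) (h.sub _ _) (h.sub _ _)
lemma Hom.sm (k : R) (x : V4 R) : (V4.sm k x).map f = V4.sm (f k) (x.map f) :=
  V4.ext (h.mul _ _) (h.mul _ _) (h.mul _ _) (h.mul _ _)
lemma Hom.ac (x : V4 R) (k : R) : (x.ac k).map f = (x.map f).ac (f k) :=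
  V4.ext (h.add _ _) rfl rfl rfl
lemma Hom.sc (x : V4 R) (k : R) : (x.sc k).map f = (x.map f).sc (f k) :=
  V4.ext (h.sub _ _) rfl rfl rfl

lemma Hom.mkTb (c A B M a b q r nu : R) : (mkTb c A B M a b q r nu).map f
    = mkTb (f c) (f A) (f B) (f M) (f a) (f b) (f q) (f r) (f nu) := by
  simp only [G8.mkTb, Tb.map, h.add, h.mul, h.sub]

lemma Hom.mulEE (T : Tb R) (x y : V4 R) :
    (mulEE T x y).map f = mulEE (T.map f) (x.map f) (y.map f) := by
  simp only [G8.mulEE, V4.map, Tb.map, h.add, h.mul, h.sub]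

lemma Hom.mulOO (T : Tb R) (x y : V4 R) :
    (mulOO T x y).map f = mulOO (T.map f) (x.map f) (y.map f) := by
  simp only [G8.mulOO, V4.sm, V4.map, Tb.map, h.add, h.mul, h.sub]

lemma Hom.mulEO (T : Tb R) (x y : V4 R) :
    (mulEO T x y).map f = mulEO (T.map f) (x.map f) (y.map f) := by
  simp only [G8.mulEO, h.vadd, h.sm]
  simp only [mulE1, mulE2, mulE3, V4.map, Tb.map, h.add, h.mul, h.sub, h.neg]

lemma Hom.mkCv (T : Tb R) (y o l : R) (g : Fin 6 → R) (m n x1 x2 x3 : V4 R) :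
    (mkCv T y o l g m n x1 x2 x3).map f = mkCv (T.map f) (f y) (f o) (f l) (fun i => f (g i))
      (m.map f) (n.map f) (x1.map f) (x2.map f) (x3.map f) := by
  simp only [G8.mkCv, Cv.map, h.mulOO]

variable (C : Cv R) (z : V4 R)

lemma Hom.cQ : C.Q.map f = (C.map f).Q := by simp only [Cv.Q, h.ac, h.vsub, h.mul, Cv.map]
lemma Hom.cr1 : C.r1.map f = (C.map f).r1 := by
  simp only [Cv.r1, h.vadd, h.vsub, h.sm, Cv.map]
lemma Hom.cr2 : C.r2.map f = (C.map f).r2 := by
  simp only [Cv.r2, h.vadd, h.vsub, h.sm, h.sc, h.mul, Cv.map]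
lemma Hom.cr3 : C.r3.map f = (C.map f).r3 := by simp only [Cv.r3, h.sm, h.sc, Cv.map]
lemma Hom.cR1 : (C.R1 z).map f = (C.map f).R1 (z.map f) := by
  simp only [Cv.R1, h.vadd, h.sm, h.mulEO, h.cr1]; rfl
lemma Hom.cR2 : (C.R2 z).map f = (C.map f).R2 (z.map f) := by
  simp only [Cv.R2, h.vadd, h.vsub, h.sm, h.cr2]; rfl
lemma Hom.cR3 : C.R3.map f = (C.map f).R3 := by
  simp only [Cv.R3, h.vadd, h.sm, h.cr3]; rfl
lemma Hom.cW : (C.W z).map f = (C.map f).W (z.map f) := by
  simp only [Cv.W, h.vadd, h.vsub, h.sm, h.mulEO, h.cr1, h.cr2, h.cr3]; rfl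
lemma Hom.cE : C.E.map f = (C.map f).E := by
  simp only [Cv.E, h.vadd, h.vsub, h.sm, h.ac, h.mulOO, k24, ke0, ke1, ke2, ke3, h.add, h.mul,
    h.sub]
  rfl

lemma Hom.blkCv (o : R) (g : Fin 6 → R) (s ph nu a : R) (x : ℕ → R) :
    (blkCv o g s ph nu a x).map (Pl.map f)
      = blkCv (f o) (fun i => f (g i)) (f s) (f ph) (f nu) (f a) fun k => f (x k) := by
  simp only [G8.blkCv, h.pl.mkCv, h.pl.mkTb]
  simp only [Pl.map, V4.map, V4.at, List.map_cons, List.map_nil, h.neg, h.sub, h.mul]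

omit h in
lemma trunc_map (Q : V4 (Pl R)) : (trunc Q).map (Pl.map f) = trunc (Q.map (Pl.map f)) := by
  simp only [trunc, V4.map, Pl.map, List.map_take, List.map_nil]

omit h in
lemma flat_map (v : V4 (Pl R)) : (flat v).map f = flat (v.map (Pl.map f)) := by
  simp only [flat, V4.map, Pl.map, List.map_append]

lemma Hom.eqCv (C : Cv (Pl R)) : (eqCv C).map f = eqCv (C.map (Pl.map f)) := by
  simp only [G8.eqCv, List.map_append, flat_map, ← h.pl.cQ, ← trunc_map, ← h.pl.cR1, ← h.pl.cR2,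
    ← h.pl.cR3, ← h.pl.cE, List.map_take, List.map_drop]
  rfl

lemma Hom.tbAt (nu a : R) (x : ℕ → R) (y : R) :
    (tbAt nu a x y).map f = tbAt (f nu) (f a) (fun k => f (x k)) (f y) := by
  simp only [G8.tbAt, h.mkTb, h.add, h.mul, h.sub]

lemma Hom.evAt (z y : R) (v : V4 (Pl R)) :
    (evAt z y v).map f = evAt (f z) (f y) (v.map (Pl.map f)) := by
  simp only [G8.evAt, V4.map, h.pev, Pl.map]

lemma Hom.qx (k v : V4 R) : (qx k v).map f = qx (k.map f) (v.map f) := by
  simp only [G8.qx, V4.map, h.neg, h.sub, h.mul]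

lemma Hom.qmul (k x y : V4 R) : (qmul k x y).map f = qmul (k.map f) (x.map f) (y.map f) := by
  simp only [G8.qmul, h.vadd, h.qx, h.sm]; rfl

lemma Hom.qprod (k u : V4 R) : ∀ l : List (V4 R),
    (qprod k u l).map f = qprod (k.map f) (u.map f) (l.map (V4.map f))
  | [] => rfl
  | p :: l => by simp only [G8.qprod, h.qmul, h.vsub, List.map_cons, Hom.qprod k u l]

lemma Hom.qev (e1 e2 e3 v : V4 R) :
    (qev e1 e2 e3 v).map f = qev (e1.map f) (e2.map f) (e3.map f) (v.map f) := by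
  simp only [G8.qev, h.ac, h.vadd, h.sm]; rfl

omit h in
lemma l_map (v : V4 R) : v.l.map f = (v.map f).l := rfl

omit h in
lemma mk_map (a b c d : R) : (V4.mk a b c d).map f = ⟨f a, f b, f c, f d⟩ := rfl

lemma Hom.eqFib (o mu s : R) (a : Fin 17 → R) (T : Tb R) (t : R)
    (k h1 h2 io mm mn x1 mx3 wp : V4 R) (ot : List (V4 R)) :
    (eqFib o mu s a T t k h1 h2 io mm mn x1 mx3 wp ot).map f
      = eqFib (f o) (f mu) (f s) (fun i => f (a i)) (T.map f) (f t) (k.map f) (h1.map f)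
        (h2.map f) (io.map f) (mm.map f) (mn.map f) (x1.map f) (mx3.map f) (wp.map f)
        (ot.map (V4.map f)) := by
  simp only [G8.eqFib, List.map_append, l_map, h.sc, h.ac, h.vadd, h.vsub, h.sm, h.qx, h.qmul,
    h.qprod, h.qev, mk_map, h.add, h.mul, h.sub, h.neg]
  rfl

lemma Hom.block (o : R) (g : Fin 6 → R) (mu s ph : R) (a : Fin 17 → R) (nu b : R) (x : ℕ → R)
    (wp : V4 R) (ot : List (V4 R)) :
    (block o g mu s ph a nu b x wp ot).map f = block (f o) (fun i => f (g i)) (f mu) (f s) (f ph)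
      (fun i => f (a i)) (f nu) (f b) (fun k => f (x k)) (wp.map f) (ot.map (V4.map f)) := by
  simp only [G8.block, List.map_append, h.eqCv, h.eqFib, l_map, h.sc, h.mulEE, h.tbAt, h.evAt,
    h.pl.vadd, h.pl.vsub, h.sub, h.neg, ← h.blkCv]
  rfl

lemma Hom.mkHat (o : R) (g : Fin 6 → R) (y w V : R) :
    (mkHat o g y w V).map f = mkHat (f o) (fun i => f (g i)) (f y) (f w) (f V) := by
  simp only [G8.mkHat, Hat.map, h.add, h.mul, h.sub, h.neg]

lemma Hom.hphi (H : Hat R) (o : R) (g : Fin 6 → R) (l y w V : R) :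
    f (H.phi o g l y w V) = (H.map f).phi (f o) (fun i => f (g i)) (f l) (f y) (f w) (f V) := by
  simp only [Hat.phi, Hat.g0, Hat.map, h.add, h.mul, h.sub, h.neg]

lemma Hom.hft (H : Hat R) (a : Fin 17 → R) (w V : R) :
    f (H.ft a w V) = (H.map f).ft (fun i => f (a i)) (f w) (f V) := by
  simp only [Hat.ft, Hat.map, h.add, h.mul]

lemma Hom.eqPt (o : R) (g : Fin 6 → R) (s ph : R) (a : Fin 17 → R) (w V : R) :
    (eqPt o g s ph a w V).map f
      = eqPt (f o) (fun i => f (g i)) (f s) (f ph) (fun i => f (a i)) (f w) (f V) := by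
  simp only [G8.eqPt, List.map_cons, List.map_nil, h.hphi, h.hft, h.mkHat]

lemma Hom.eqTest (o : R) (g : Fin 6 → R) (s ph : R) (c : Fin 17 → R) (v : R) (a b : Pl R) :
    (eqTest o g s ph c v a b).map f = eqTest (f o) (fun i => f (g i)) (f s) (f ph)
      (fun i => f (c i)) (f v) (a.map f) (b.map f) := by
  change (Pl.map f _).c = _
  simp only [G8.eqTest, h.pl.sub, h.pl.add, h.pl.mul, h.pl.hphi, h.pl.hft, h.pl.mkHat]
  simp only [Pl.map, List.map_cons, List.map_nil, h.sub]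

lemma Hom.blk (o : R) (P X : ℕ → R) (i : ℕ) (ot : List (V4 R)) :
    (blk o P X i ot).map f
      = blk (f o) (fun k => f (P k)) (fun k => f (X k)) i (ot.map (V4.map f)) := by
  simp only [G8.blk, h.block, wpol, mk_map, h.add, h.mul, h.neg, fOf, apply_ite f]
  rfl

lemma Hom.glob (o : R) (P X : ℕ → R) :
    (glob o P X).map f = glob (f o) (fun k => f (P k)) fun k => f (X k) := by
  simp only [G8.glob, List.map_append, h.eqPt, h.eqTest, List.map_cons, List.map_nil, unitEq, hc3,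
    f4', h.add, h.mul, h.sub, fOf, apply_ite f, Pl.map]
  rfl

lemma Hom.sys (o : R) (P X : ℕ → R) :
    (sys o P X).map f = sys (f o) (fun k => f (P k)) fun k => f (X k) := by
  simp only [G8.sys, List.map_append, h.blk, h.glob]
  rfl

end Pool.Agent.P.MP_7ebcb6_ag.G8
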