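import Pool.Agent.P.MP_7ebcb6_ag.G8.Tbl

/-! Syzygies between the rows and the last equation of a curve. -/

namespace Pool.Agent.P.MP_7ebcb6_ag.G8

variable {K : Type} [CommRing K]

/-- The function whose vanishing puts the curve on the octic. -/
def eE (g : Fin 6 → K) (l y M N Z1 Z2 Z3 : K) : K :=
  (Z2 - Z3) * (Z2 + Z3) - k24 g * (N * Z3) + (1 - g 3 + g 5) * (N * Z2) + ke1 g 1 y * Z1
    + ke2 g 1 y * (M * N) + ke3 g 1 y * (M * M) + (g 3 + g 5) * (N * N)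
    + (ke0 g y + l * (y * y - 1))

def zm (g : Fin 6 → K) (l y x1 mm mn nn mx2 mx3 nx2 nx3 : K) : K :=
  (-y + 1) * mm * mm + (-y + g 2 + g 4 - g 5 + 2) * mn * mm + (y + 2 * g 2 - g 3 + 2 * g 4 - 2 *
  g 5 + 1) * mm * nn + (y ^ (3 : ℕ) + y ^ (2 : ℕ) * g 1 + y ^ (2 : ℕ) * g 4 + y ^ (2 : ℕ) * g 5 -
  y * l + y * g 0 * g 2 + y * g 0 + y * g 1 * g 2 + y * g 1 * g 3 + y * g 1 * g 4 + y * g 2 * g 5
  + y * g 2 - 2 * y * g 5 + l + g 0 * g 4 - g 0 * g 5 - g 1 * g 3 - g 1 * g 5 - g 2 * g 5 - g 3 *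
  g 5) * mm + (y + g 2 - 2 * g 3 + g 4 - g 5) * mn * nn + (y) * mn * x1 + (y ^ (3 : ℕ) - y ^ (2 :
  ℕ) * g 0 + y ^ (2 : ℕ) * g 1 - y ^ (2 : ℕ) * g 2 - y ^ (2 : ℕ) * g 3 + y ^ (2 : ℕ) * g 4 + y ^
  (2 : ℕ) * g 5 - 2 * y * l + y * g 0 * g 2 - y * g 0 * g 3 - y * g 0 * g 4 + 2 * y * g 0 + y * g
  1 * g 2 + y * g 1 * g 3 + y * g 1 * g 4 + y * g 2 * g 5 + 2 * y * g 2 - 2 * y * g 5 + 2 * l + 2
  * g 0 * g 4 - g 0 * g 5 - 2 * g 1 * g 3 - g 1 * g 5 - g 2 * g 5 - g 3 * g 5 - g 5) * mn + (1) *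
  mx2 * x1 + (-1) * mx3 * x1 + (-y ^ (2 : ℕ) - y * g 2 - g 4) * mx2 + (-y * g 3 - y * g 4 + g 4 +
  g 5) * mx3 + (-g 3) * nn * nn + (y) * nn * x1 + (-y ^ (2 : ℕ) * g 0 - y ^ (2 : ℕ) * g 2 - y ^
  (2 : ℕ) * g 3 - y * l - y * g 0 * g 3 - y * g 0 * g 4 + y * g 0 + y * g 2 + l + g 0 * g 4 - g 1
  * g 3 - g 5) * nn + (1) * nx2 * x1 + (-1) * nx3 * x1 + (-y ^ (2 : ℕ) - y * g 2 - g 4) * nx2 +
  (-y * g 3 - y * g 4 + g 4 + g 5) * nx3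

def zp (g : Fin 6 → K) (l y x1 mm mn nn mx2 mx3 nx2 nx3 : K) : K :=
  (y + 1) * mm * mm + (-y + g 2 + g 4 + g 5 - 2) * mn * mm + (-y - 2 * g 2 - g 3 - 2 * g 4 - 2 *
  g 5 + 1) * mm * nn + (-y ^ (3 : ℕ) + y ^ (2 : ℕ) * g 1 - y ^ (2 : ℕ) * g 4 + y ^ (2 : ℕ) * g 5
  + y * l - y * g 0 * g 2 + y * g 0 + y * g 1 * g 2 - y * g 1 * g 3 + y * g 1 * g 4 + y * g 2 * g
  5 + y * g 2 + 2 * y * g 5 + l + g 0 * g 4 + g 0 * g 5 - g 1 * g 3 - g 1 * g 5 + g 2 * g 5 - g 3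
  * g 5) * mm + (y + g 2 + 2 * g 3 + g 4 + g 5) * mn * nn + (-y) * mn * x1 + (y ^ (3 : ℕ) - y ^
  (2 : ℕ) * g 0 - y ^ (2 : ℕ) * g 1 - y ^ (2 : ℕ) * g 2 + y ^ (2 : ℕ) * g 3 + y ^ (2 : ℕ) * g 4 -
  y ^ (2 : ℕ) * g 5 - 2 * y * l + y * g 0 * g 2 + y * g 0 * g 3 - y * g 0 * g 4 - 2 * y * g 0 - y
  * g 1 * g 2 + y * g 1 * g 3 - y * g 1 * g 4 - y * g 2 * g 5 - 2 * y * g 2 - 2 * y * g 5 - 2 * l
  - 2 * g 0 * g 4 - g 0 * g 5 + 2 * g 1 * g 3 + g 1 * g 5 - g 2 * g 5 + g 3 * g 5 + g 5) * mn +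
  (1) * mx2 * x1 + (1) * mx3 * x1 + (y ^ (2 : ℕ) + y * g 2 - g 4) * mx2 + (y * g 3 - y * g 4 - g
  4 + g 5) * mx3 + (-g 3) * nn * nn + (y) * nn * x1 + (y ^ (2 : ℕ) * g 0 + y ^ (2 : ℕ) * g 2 - y
  ^ (2 : ℕ) * g 3 + y * l - y * g 0 * g 3 + y * g 0 * g 4 + y * g 0 + y * g 2 + l + g 0 * g 4 - g
  1 * g 3 - g 5) * nn + (-1) * nx2 * x1 + (-1) * nx3 * x1 + (-y ^ (2 : ℕ) - y * g 2 + g 4) * nx2
  + (-y * g 3 + y * g 4 + g 4 - g 5) * nx3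

variable {g : Fin 6 → K} {l y M N Z1 Z2 Z3 : K}

lemma syz_m (h1 : M * Z1 + 1 * Z2 + y * Z3 = n1 g 1 y M N)
    (h2 : 1 * Z1 + M * Z2 + N * Z3 = n2 g 1 y M N) (h3 : y * Z1 + N * Z2 + M * Z3 = n3 g 1 M) :
    (M * M + N * N + (M * N + M * N)) * eE g l y M N Z1 Z2 Z3 = -(1 + y) * zm g l y Z1 (M * M) (M * N)
      (N * N) (M * Z2) (M * Z3) (N * Z2) (N * Z3) := by
  simp only [n1, n2, n3, r1, r2, r3, a12, a13, a22, a23, a33, qQ] at h1 h2 h3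
  simp only [eE, zm, k24, ke0, ke1, ke2, ke3]
  linear_combination
    (M + N) * (-y ^ (2 : ℕ) - y * g 2 - y * g 3 - y * g 4 + g 5) * h1 + (M + N) * (-y * M - y * N
    - M * g 2 - M * g 4 - M * g 5 - N * g 2 - N * g 4 + Z2 - Z3) * h2 + (M + N) * (y * M + y * N
    + M * g 2 + M * g 4 + M * g 5 - N * g 3 + N * g 5 + N + Z2 - Z3) * h3

lemma syz_p (h1 : M * Z1 + 1 * Z2 + y * Z3 = n1 g 1 y M N)
    (h2 : 1 * Z1 + M * Z2 + N * Z3 = n2 g 1 y M N) (h3 : y * Z1 + N * Z2 + M * Z3 = n3 g 1 M) :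
    (M * M + N * N - (M * N + M * N)) * eE g l y M N Z1 Z2 Z3 = -(1 - y) * zp g l y Z1 (M * M) (M * N)
      (N * N) (M * Z2) (M * Z3) (N * Z2) (N * Z3) := by
  simp only [n1, n2, n3, r1, r2, r3, a12, a13, a22, a23, a33, qQ] at h1 h2 h3
  simp only [eE, zp, k24, ke0, ke1, ke2, ke3]
  linear_combination
    (M - N) * (y ^ (2 : ℕ) + y * g 2 - y * g 3 + y * g 4 - g 5) * h1 + (M - N) * (-y * M + y * N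
    - M * g 2 - M * g 4 + M * g 5 + N * g 2 + N * g 4 + Z2 + Z3) * h2 + (M - N) * (-y * M + y * N
    - M * g 2 - M * g 4 + M * g 5 + N * g 3 - N * g 5 - N - Z2 - Z3) * h3

lemma phi_of_E (h1 : M * Z1 + 1 * Z2 + y * Z3 = n1 g 1 y M N)
    (h2 : 1 * Z1 + M * Z2 + N * Z3 = n2 g 1 y M N) (h3 : y * Z1 + N * Z2 + M * Z3 = n3 g 1 M) :
    (y * y - 1) * phi g l 1 y M N = c3 1 y M N ^ 2 * eE g l y M N Z1 Z2 Z3 := by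
  obtain ⟨e1, e2, e3⟩ := x_of_rows g 1 y M N h1 h2 h3
  have key : (y * y - 1) * (fp g l 1 y M N + M * (qQ y M N * qQ y M N) - n1 g 1 y M N * Z1
      - n2 g 1 y M N * Z2 - n3 g 1 M * Z3) = c3 1 y M N * eE g l y M N Z1 Z2 Z3 := by
    simp only [n1, n2, n3, r1, r2, r3, a12, a13, a22, a23, a33, qQ] at h1 h2 h3
    simp only [eE, k24, ke0, ke1, ke2, ke3, fp, g0, c3, n1, n2, n3, r1, r2, r3, a12, a13, a22, a23,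
      a33, qQ]
    linear_combination
      (y * M ^ (2 : ℕ) * g 3 + y * M ^ (2 : ℕ) - y * M * N * g 2 - y * M * N * g 4 - y * M * Z3 -
      2 * y * N ^ (2 : ℕ) - y * N * Z2 - y * g 5 + M ^ (2 : ℕ) * g 2 + M ^ (2 : ℕ) * g 4 - M * N
      * g 3 + M * N * g 5 + M * N + 2 * M * Z2 + 2 * N * Z3 + Z1) * h1 + (-y ^ (3 : ℕ) * M - y ^
      (2 : ℕ) * M * g 2 + y ^ (2 : ℕ) * Z2 + y * M ^ (3 : ℕ) - y * M * N ^ (2 : ℕ) + 2 * y * M *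
      g 1 + y * M * g 5 + y * M - 2 * y * N * g 0 + 2 * y * N * g 2 + 2 * y * N * g 4 + M ^ (3 :
      ℕ) * g 2 + M ^ (3 : ℕ) * g 4 - M ^ (2 : ℕ) * N * g 5 + 2 * M ^ (2 : ℕ) * N - M ^ (2 : ℕ) *
      Z2 - M * N ^ (2 : ℕ) * g 2 - M * N ^ (2 : ℕ) * g 4 - M * N * Z3 - M * Z1 + 2 * M * g 0 - M
      * g 2 - 2 * M * g 4 - 2 * N ^ (3 : ℕ) - 2 * N * g 1 - Z2) * h2 + (y ^ (3 : ℕ) * N - y ^ (2
      : ℕ) * M * g 1 - y ^ (2 : ℕ) * M * g 3 + y ^ (2 : ℕ) * M * g 5 - 2 * y ^ (2 : ℕ) * M + y ^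
      (2 : ℕ) * N * g 0 - y * M ^ (2 : ℕ) * N - y * M * g 0 - y * M * g 2 - y * M * g 4 + y * N ^
      (3 : ℕ) + y * N * g 1 + 2 * y * N * g 3 - 2 * y * N * g 5 - y * Z2 - M ^ (3 : ℕ) * g 5 + M
      ^ (2 : ℕ) * N * g 2 + M ^ (2 : ℕ) * N * g 4 + M ^ (2 : ℕ) * Z3 - M * N ^ (2 : ℕ) * g 3 + M
      * N ^ (2 : ℕ) * g 5 + M * N ^ (2 : ℕ) + M * N * Z2 + M * g 5 - Z3) * h3
  rw [phi, e1, e2, e3]
  linear_combination c3 1 y M N * key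

end Pool.Agent.P.MP_7ebcb6_ag.G8
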