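import Pool.Agent.P.MP_7ebcb6_ag.G8.Model

/-! Polynomial identities for the octic model. -/

namespace Pool.Agent.P.MP_7ebcb6_ag.G8

set_option maxRecDepth 4000

variable {R K : Type} [CommRing R] [CommRing K]

/-- The quartic whose square is the restriction of the octic to the line `m = n = 0`. -/
def f4 (g : Fin 6 → R) (y : R) : R := y ^ 4 + g 2 * y ^ 3 - g 3 * y ^ 2 + g 4 * y - g 5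

/-- The five linear relations between the functions `xi_1, xi_2, xi_3, tau`. -/
def Rows (g : Fin 6 → R) (l u y m n X1 X2 X3 T : R) : Prop :=
  m * X1 + u * X2 + y * X3 = n1 g u y m n ∧ u * X1 + m * X2 + n * X3 = n2 g u y m n ∧
    y * X1 + n * X2 + m * X3 = n3 g u m ∧ u * T = m * qQ y m n + n * X1 - y * X2 ∧
    fp g l u y m n + r1 g u y m n * X1 + r2 g u y m n * X2 + r3 g u m * X3 + qQ y m n * T = 0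

lemma phi_even (g : Fin 6 → R) (l y m n : R) : ∃ f3 f2 f1 : R, ∀ x : R,
    phi g (l * x) x (y * x) m n = f4 g y ^ 2 * x ^ 8 + f3 * x ^ 6 + f2 * x ^ 4 + f1 * x ^ 2
      + (m ^ 2 - n ^ 2) ^ 4 := by
  refine ⟨
      ((-4) * (y ^ (6 : ℕ) * m ^ (2 : ℕ)) + (4) * (y ^ (6 : ℕ) * n ^ (2 : ℕ)) + (-6 * g 2 - 2 * g
      4) * (y ^ (5 : ℕ) * m ^ (2 : ℕ)) + (-2 * g 1 + 2 * g 3 - 4) * (y ^ (5 : ℕ) * m * n) + (2 *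
      g 0 + 4 * g 2) * (y ^ (5 : ℕ) * n ^ (2 : ℕ)) + y ^ (4 : ℕ) * m ^ (2 : ℕ) * l + (-g 0 * g 2
      + 3 * g 1 - 3 * g 2 ^ (2 : ℕ) - g 2 * g 4 + 5 * g 3 + 4 * g 5 + 1) * (y ^ (4 : ℕ) * m ^ (2
      : ℕ)) + (-6 * g 0 - 2 * g 1 * g 2 + 2 * g 2 * g 3 - 8 * g 2 + 2 * g 4) * (y ^ (4 : ℕ) * m *
      n)) + ((2 * g 0 * g 2 + 2 * g 1 - 4 * g 3) * (y ^ (4 : ℕ) * n ^ (2 : ℕ)) + (g 0 * g 3 + g 0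
      * g 5 + 3 * g 0 + 3 * g 1 * g 2 - g 1 * g 4 + 4 * g 2 * g 3 + 3 * g 2 * g 5 + 3 * g 2 + g 3
      * g 4 - 6 * g 4) * (y ^ (3 : ℕ) * m ^ (2 : ℕ)) + (-4) * (y ^ (3 : ℕ) * m * n * l) + (-2 * g
      0 * g 2 + 2 * g 1 * g 3 - 4 * g 1 - 2 * g 2 * g 4 - 2 * g 3 ^ (2 : ℕ) + 4 * g 3 - 4 * g 5)
      * (y ^ (3 : ℕ) * m * n) + (-2 * g 0 * g 3 + 4 * g 0 + 2 * g 1 * g 2 + 4 * g 2) * (y ^ (3 :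
      ℕ) * n ^ (2 : ℕ)) + (2) * (y ^ (2 : ℕ) * m ^ (2 : ℕ) * l) + (g 0 * g 2 - g 0 * g 4 - 3 * g
      1 * g 3 + g 1 * g 5 + g 1 - 3 * g 2 * g 4 - g 3 ^ (2 : ℕ) - 3 * g 3 * g 5 - g 3 - g 4 ^ (2
      : ℕ) + 6 * g 5) * (y ^ (2 : ℕ) * m ^ (2 : ℕ)) + (2 * g 0 * g 3 - 4 * g 0 * g 5 - 4 * g 0 -
      4 * g 1 * g 2 + 2 * g 1 * g 4 - 4 * g 2 + 4 * g 3 * g 4) * (y ^ (2 : ℕ) * m * n)) + ((4) *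
      (y ^ (2 : ℕ) * n ^ (2 : ℕ) * l) + (2 * g 0 * g 4 - 2 * g 1 * g 3) * (y ^ (2 : ℕ) * n ^ (2 :
      ℕ)) + (-g 0 * g 3 + 3 * g 0 * g 5 + g 0 + g 1 * g 2 + g 1 * g 4 + 3 * g 2 * g 5 + g 2 + g 3
      * g 4 + 4 * g 4 * g 5) * (y * m ^ (2 : ℕ)) + (-4) * (y * m * n * l) + (-2 * g 0 * g 4 + 4 *
      g 1 * g 3 - 2 * g 1 * g 5 - 2 * g 3 * g 5 - 2 * g 4 ^ (2 : ℕ)) * (y * m * n) + (2 * g 0 * g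
      5 - 2 * g 1 * g 4) * (y * n ^ (2 : ℕ)) + m ^ (2 : ℕ) * l + (g 0 * g 4 - g 1 * g 3 - g 1 * g
      5 - g 3 * g 5 - 3 * g 5 ^ (2 : ℕ)) * m ^ (2 : ℕ)) + ((-2 * g 0 * g 5 + 2 * g 4 * g 5) * (m
      * n) + (2 * g 1 * g 5) * n ^ (2 : ℕ)),
      ((6) * (y ^ (4 : ℕ) * m ^ (4 : ℕ)) + (-12) * (y ^ (4 : ℕ) * m ^ (2 : ℕ) * n ^ (2 : ℕ)) +
      (6) * (y ^ (4 : ℕ) * n ^ (4 : ℕ)) + (6 * g 2 + 4 * g 4) * (y ^ (3 : ℕ) * m ^ (4 : ℕ)) + (4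
      * g 1 - 4 * g 3 + 8) * (y ^ (3 : ℕ) * m ^ (3 : ℕ) * n) + (-4 * g 0 - 8 * g 2 - 4 * g 4) *
      (y ^ (3 : ℕ) * m ^ (2 : ℕ) * n ^ (2 : ℕ)) + (-4 * g 1 + 4 * g 3 - 8) * (y ^ (3 : ℕ) * m * n
      ^ (3 : ℕ)) + (4 * g 0 + 2 * g 2) * (y ^ (3 : ℕ) * n ^ (4 : ℕ))) + ((-2) * (y ^ (2 : ℕ) * m
      ^ (4 : ℕ) * l) + (2 * g 0 * g 2 - g 1 ^ (2 : ℕ) + g 1 * g 3 - g 1 * g 5 - 5 * g 1 + 3 * g 2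
      ^ (2 : ℕ) + 2 * g 2 * g 4 + g 3 * g 5 - 3 * g 3 - 6 * g 5) * (y ^ (2 : ℕ) * m ^ (4 : ℕ)) +
      (2 * g 0 * g 1 - g 0 * g 3 + g 0 * g 5 + 11 * g 0 + g 1 * g 2 + g 1 * g 4 - 4 * g 2 * g 3 -
      3 * g 2 * g 5 + 13 * g 2 - g 3 * g 4 + 2 * g 4) * (y ^ (2 : ℕ) * m ^ (3 : ℕ) * n) + (2) *
      (y ^ (2 : ℕ) * m ^ (2 : ℕ) * n ^ (2 : ℕ) * l) + (-g 0 ^ (2 : ℕ) - 3 * g 0 * g 2 - g 0 * g 4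
      + g 1 ^ (2 : ℕ) - 2 * g 1 * g 3 + 2 * g 1 + g 2 * g 4 + g 3 ^ (2 : ℕ) - 2 * g 3 + 6) * (y ^
      (2 : ℕ) * m ^ (2 : ℕ) * n ^ (2 : ℕ)) + (-2 * g 0 * g 1 + 2 * g 0 * g 3 - 12 * g 0 - 4 * g 2
      + 4 * g 4) * (y ^ (2 : ℕ) * m * n ^ (3 : ℕ)) + (g 0 ^ (2 : ℕ) + 4 * g 1 - 2 * g 3) * (y ^
      (2 : ℕ) * n ^ (4 : ℕ)) + (-2 * g 0 * g 1 - g 0 * g 3 - 3 * g 0 * g 5 - 5 * g 0 - 3 * g 1 *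
      g 2 - g 1 * g 4 - 2 * g 2 * g 3 - 3 * g 2 * g 5 - 3 * g 2 - g 3 * g 4 - 2 * g 4 * g 5 + 2 *
      g 4) * (y * m ^ (4 : ℕ))) + ((4) * (y * m ^ (3 : ℕ) * n * l) + (2 * g 0 ^ (2 : ℕ) + 2 * g 0
      * g 2 + 4 * g 0 * g 4 + 2 * g 1 ^ (2 : ℕ) + 2 * g 1 * g 5 + 2 * g 1 + 2 * g 2 * g 4 + 2 * g
      3 ^ (2 : ℕ) + 2 * g 3 * g 5 - 2 * g 3 + 2 * g 4 ^ (2 : ℕ) - 4) * (y * m ^ (3 : ℕ) * n) +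
      (-g 0 * g 3 + g 0 * g 5 + 7 * g 0 + g 1 * g 2 - g 1 * g 4 + 3 * g 2 * g 5 - g 2 - 3 * g 3 *
      g 4 - 2 * g 4) * (y * m ^ (2 : ℕ) * n ^ (2 : ℕ)) + (-4) * (y * m * n ^ (3 : ℕ) * l) + (-2 *
      g 0 ^ (2 : ℕ) - 2 * g 0 * g 4 - 2 * g 1 ^ (2 : ℕ) + 2 * g 1 * g 3 - 4 * g 1 + 4 * g 3 + 4 *
      g 5) * (y * m * n ^ (3 : ℕ)) + (2 * g 0 * g 1 - 2 * g 4) * (y * n ^ (4 : ℕ)) + (-2) * (m ^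
      (4 : ℕ) * l) + (-g 0 ^ (2 : ℕ) - g 0 * g 2 - g 0 * g 4 + 2 * g 1 * g 3 + 2 * g 1 * g 5 + g
      2 * g 4 + 2 * g 3 * g 5 + 3 * g 5 ^ (2 : ℕ) + 1) * m ^ (4 : ℕ)) + ((2 * g 0 * g 1 + g 0 * g
      3 + g 0 * g 5 - g 0 + g 1 * g 2 - g 1 * g 4 - 3 * g 2 * g 5 + g 2 - g 3 * g 4 - 4 * g 4 * g
      5 + 2 * g 4) * (m ^ (3 : ℕ) * n) + (2) * (m ^ (2 : ℕ) * n ^ (2 : ℕ) * l) + (g 0 ^ (2 : ℕ) -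
      g 1 ^ (2 : ℕ) - 3 * g 1 * g 3 - 3 * g 1 * g 5 + g 1 + g 3 * g 5 - g 3 + g 4 ^ (2 : ℕ) - 6 *
      g 5) * (m ^ (2 : ℕ) * n ^ (2 : ℕ)) + (-2 * g 0 * g 1 + 2 * g 1 * g 4) * (m * n ^ (3 : ℕ)) +
      (g 1 ^ (2 : ℕ) + 2 * g 5) * n ^ (4 : ℕ)),
      ((-4) * (y ^ (2 : ℕ) * m ^ (6 : ℕ)) + (12) * (y ^ (2 : ℕ) * m ^ (4 : ℕ) * n ^ (2 : ℕ)) +
      (-12) * (y ^ (2 : ℕ) * m ^ (2 : ℕ) * n ^ (4 : ℕ)) + (4) * (y ^ (2 : ℕ) * n ^ (6 : ℕ)) + (-2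
      * g 2 - 2 * g 4) * (y * m ^ (6 : ℕ)) + (-2 * g 1 + 2 * g 3 - 4) * (y * m ^ (5 : ℕ) * n) +
      (2 * g 0 + 4 * g 2 + 4 * g 4) * (y * m ^ (4 : ℕ) * n ^ (2 : ℕ)) + (4 * g 1 - 4 * g 3 + 8) *
      (y * m ^ (3 : ℕ) * n ^ (3 : ℕ))) + ((-4 * g 0 - 2 * g 2 - 2 * g 4) * (y * m ^ (2 : ℕ) * n ^
      (4 : ℕ)) + (-2 * g 1 + 2 * g 3 - 4) * (y * m * n ^ (5 : ℕ)) + (2 * g 0) * (y * n ^ (6 : ℕ))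
      + m ^ (6 : ℕ) * l + (-g 0 * g 2 - g 1 * g 3 - g 1 * g 5 - g 2 ^ (2 : ℕ) - g 2 * g 4 - g 3 *
      g 5 - g 5 ^ (2 : ℕ) - 2) * m ^ (6 : ℕ) + (g 0 * g 3 + g 0 * g 5 - 3 * g 0 + g 1 * g 2 + g 1
      * g 4 + 2 * g 2 * g 3 + 3 * g 2 * g 5 - 5 * g 2 + g 3 * g 4 + 2 * g 4 * g 5 - 2 * g 4) * (m
      ^ (5 : ℕ) * n) + (-2) * (m ^ (4 : ℕ) * n ^ (2 : ℕ) * l) + (g 0 * g 2 - g 0 * g 4 + g 1 * g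
      3 + g 1 * g 5 + 3 * g 1 - g 2 * g 4 - g 3 ^ (2 : ℕ) - g 3 * g 5 + 5 * g 3 - g 4 ^ (2 : ℕ) +
      6 * g 5) * (m ^ (4 : ℕ) * n ^ (2 : ℕ))) + ((-g 0 * g 3 - g 0 * g 5 + 5 * g 0 - g 1 * g 2 -
      g 1 * g 4 - g 2 * g 5 + 3 * g 2 + g 3 * g 4 - 2 * g 4) * (m ^ (3 : ℕ) * n ^ (3 : ℕ)) + m ^
      (2 : ℕ) * n ^ (4 : ℕ) * l + (g 0 * g 4 - 5 * g 1 - 3 * g 3 - 4 * g 5 + 1) * (m ^ (2 : ℕ) *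
      n ^ (4 : ℕ)) + (-2 * g 0 + 2 * g 4) * (m * n ^ (5 : ℕ)) + (2 * g 1) * n ^ (6 : ℕ)), fun x => ?_⟩
  simp only [f4, phi, fp, g0, x1, x2, x3, n1, n2, n3, r1, r2, r3, a11, a12, a13, a22, a23, a33,
    c3, qQ]
  ring

lemma tab1 (f : R →+* K) (g : Fin 6 → R) (l u y m n : R) : ∃ p : Fin 5 → R,
    ∀ X1 X2 X3 T : K, Rows (fun i => f (g i)) (f l) (f u) (f y) (f m) (f n) X1 X2 X3 T →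
      c3 (f u) (f y) (f m) (f n) * (X1 ^ 2 + f (p 0) + f (p 1) * X1 + f (p 2) * X2
        + f (p 3) * X3 + f (p 4) * T) = 0 := by
  refine ⟨![
      ((-g 2 * g 4 - g 5 ^ (2 : ℕ)) * u ^ (4 : ℕ) + (g 2 * g 3 - g 2 * g 5) * (u ^ (3 : ℕ) * y) +
      (-g 2 ^ (2 : ℕ) - g 5) * (u ^ (2 : ℕ) * y ^ (2 : ℕ)) + (g 0 * g 2 + g 1 * g 3 + g 1 * g 5 +
      g 2 ^ (2 : ℕ) + g 2 * g 4 + g 3 * g 5 + g 5 ^ (2 : ℕ)) * (u ^ (2 : ℕ) * m ^ (2 : ℕ)) + (-g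
      0 * g 3 - g 0 * g 5 - g 1 * g 2 - g 1 * g 4 - g 2 * g 3 - g 2 * g 5 + g 2) * (u ^ (2 : ℕ) *
      m * n) + (g 0 * g 4 - g 5) * (u ^ (2 : ℕ) * n ^ (2 : ℕ)) + (-g 2) * (u * y ^ (3 : ℕ)) + (g
      2 + g 4) * (u * y * m ^ (2 : ℕ))) + ((-g 1 - g 3 - 2 * g 5) * (u * y * m * n) + (g 0) * (u
      * y * n ^ (2 : ℕ)) + (-1) * (u * m ^ (2 : ℕ) * l) + u * n ^ (2 : ℕ) * l),
      (g 2 - g 4) * u ^ (2 : ℕ) + (g 3 + g 5) * (u * y),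
      (g 3 + g 5) * (u * n),
      (g 2 + g 4) * (u * n),
      u * m], fun X1 X2 X3 T h => ?_⟩
  obtain ⟨h1, h2, h3, h4, h5⟩ := h
  simp only [Matrix.cons_val, map_add, map_sub, map_mul, map_neg, map_pow, map_ofNat, map_one,
    map_zero, fp, g0, n1, n2, n3, r1, r2, r3, a11, a12, a13, a22, a23, a33, c3, qQ] at *
  generalize f u = u, f y = y, f m = m, f n = n, f l = l, f (g 0) = a0, f (g 1) = a1,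
    f (g 2) = a2, f (g 3) = a3, f (g 4) = a4, f (g 5) = a5 at *
  linear_combination
    (((a2 - a4) * (u ^ (2 : ℕ) * m ^ (2 : ℕ)) + (-a3 - a5) * (u ^ (2 : ℕ) * m * n) + (2 * a4) *
      (u ^ (2 : ℕ) * n ^ (2 : ℕ)) + (a3 + a5 + 1) * (u * y * m ^ (2 : ℕ)) + (-a2 - a4) * (u * y *
      m * n) + (-1) * (y ^ (2 : ℕ) * m * n) + m ^ (3 : ℕ) * n + m ^ (2 : ℕ) * X1) + ((-1) * (m *
      n ^ (3 : ℕ)) + (-1) * (n ^ (2 : ℕ) * X1))) * h1 +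
    (((-a2) * (u ^ (3 : ℕ) * m) + (a5) * (u ^ (3 : ℕ) * n) + (-a5) * (u ^ (2 : ℕ) * y * m) + (2
      * a2) * (u ^ (2 : ℕ) * y * n) + (-a2) * (u * y ^ (2 : ℕ) * m) + (a2 + a4) * (u * m ^ (3 :
      ℕ)) + (-a2 - a4) * (u * m * n ^ (2 : ℕ)) + (-1) * (u * m * X1)) + (y * n * X1)) * h2 +
    (((-a5) * (u ^ (3 : ℕ) * m) + (-a4) * (u ^ (3 : ℕ) * n) + (-a2 + a4) * (u ^ (2 : ℕ) * y * m)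
      + (a3 + 2 * a5) * (u ^ (2 : ℕ) * y * n) + (-a3 - a5 - 1) * (u * y ^ (2 : ℕ) * m) + (a2) *
      (u * y ^ (2 : ℕ) * n) + (a5) * (u * m ^ (3 : ℕ)) + (-a5) * (u * m * n ^ (2 : ℕ))) + (u * n
      * X1 + y ^ (3 : ℕ) * n + (-1) * (y * m ^ (2 : ℕ) * n) + (-1) * (y * m * X1) + y * n ^ (3 :
      ℕ))) * h3 +
    ((-1) * (u ^ (2 : ℕ) * m ^ (2 : ℕ)) + (2) * (u * y * m * n) + (-1) * (y ^ (2 : ℕ) * n ^ (2 :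
      ℕ)) + m ^ (2 : ℕ) * n ^ (2 : ℕ) + (-1) * n ^ (4 : ℕ)) * h4 +
    ((-1) * (u * m ^ (2 : ℕ)) + u * n ^ (2 : ℕ)) * h5

lemma tab2 (f : R →+* K) (g : Fin 6 → R) (l u y m n : R) : ∃ p : Fin 5 → R,
    ∀ X1 X2 X3 T : K, Rows (fun i => f (g i)) (f l) (f u) (f y) (f m) (f n) X1 X2 X3 T →
      c3 (f u) (f y) (f m) (f n) * (X2 ^ 2 + f (p 0) + f (p 1) * X1 + f (p 2) * X2
        + f (p 3) * X3 + f (p 4) * T) = 0 := by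
  refine ⟨![
      ((-g 0 * g 4 + g 4 ^ (2 : ℕ) - g 5 ^ (2 : ℕ)) * u ^ (4 : ℕ) + (g 0 * g 3 + g 0 * g 5 - g 1
      * g 4 - g 3 * g 4) * (u ^ (3 : ℕ) * y) + (-g 0 * g 2 + g 2 * g 4 + g 5) * (u ^ (2 : ℕ) * y
      ^ (2 : ℕ)) + (g 0 * g 2 + g 1 * g 3 + g 1 * g 5 - g 2 * g 4 + g 3 * g 5 - g 4 ^ (2 : ℕ) + g
      5 ^ (2 : ℕ)) * (u ^ (2 : ℕ) * m ^ (2 : ℕ)) + (-g 0 * g 3 + g 0 + g 3 * g 4 - 2 * g 4) * (u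
      ^ (2 : ℕ) * m * n) + (g 5) * (u ^ (2 : ℕ) * n ^ (2 : ℕ)) + (g 2) * (u * y ^ (3 : ℕ)) + u *
      y ^ (2 : ℕ) * l) + ((-g 2 - g 4) * (u * y * m ^ (2 : ℕ)) + (g 1 + g 3 + 2 * g 5) * (u * y *
      m * n) + (-g 0) * (u * y * n ^ (2 : ℕ)) + (-1) * (u * m ^ (2 : ℕ) * l)),
      (g 0 - g 4) * u ^ (2 : ℕ) + (g 1 + g 5) * (u * y),
      (g 1 + g 5) * (u * n),
      (g 0 - g 4) * (u * n),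
      u * m], fun X1 X2 X3 T h => ?_⟩
  obtain ⟨h1, h2, h3, h4, h5⟩ := h
  simp only [Matrix.cons_val, map_add, map_sub, map_mul, map_neg, map_pow, map_ofNat, map_one,
    map_zero, fp, g0, n1, n2, n3, r1, r2, r3, a11, a12, a13, a22, a23, a33, c3, qQ] at *
  generalize f u = u, f y = y, f m = m, f n = n, f l = l, f (g 0) = a0, f (g 1) = a1,
    f (g 2) = a2, f (g 3) = a3, f (g 4) = a4, f (g 5) = a5 at *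
  linear_combination
    ((a5) * (u ^ (3 : ℕ) * y) + (-a4) * (u ^ (2 : ℕ) * m ^ (2 : ℕ)) + (-a5) * (u ^ (2 : ℕ) * m *
      n) + (a4) * (u * y * m * n) + (-1) * (u * m * X2) + y * n * X2) * h1 +
    (((-a0 + a4) * (u ^ (3 : ℕ) * m) + (-a1 - a5) * (u ^ (2 : ℕ) * y * m) + (2 * a0 - 2 * a4) *
      (u ^ (2 : ℕ) * y * n) + (a1 + a5 - 1) * (u * m ^ (2 : ℕ) * n) + (-a0 + a4) * (u * m * n ^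
      (2 : ℕ)) + y ^ (3 : ℕ) * m + (-1) * (y ^ (2 : ℕ) * X2) + (-1) * (y * m ^ (3 : ℕ))) + (y * m
      * n ^ (2 : ℕ) + m ^ (2 : ℕ) * X2)) * h2 +
    (((-a5) * (u ^ (3 : ℕ) * m) + (a4) * (u ^ (2 : ℕ) * y * m) + (a1 + 2 * a5) * (u ^ (2 : ℕ) *
      y * n) + (-a5) * (u * y ^ (2 : ℕ) * m) + (-a0) * (u * y ^ (2 : ℕ) * n) + u * y * X2 + (a5)
      * (u * m ^ (3 : ℕ)) + (a0 - a4) * (u * m ^ (2 : ℕ) * n)) + ((-a1 - a5 + 1) * (u * m * n ^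
      (2 : ℕ)) + (-1) * (y ^ (3 : ℕ) * n) + y * m ^ (2 : ℕ) * n + (-1) * (y * n ^ (3 : ℕ)) + (-1)
      * (m * n * X2))) * h3 +
    ((-1) * (u ^ (2 : ℕ) * m ^ (2 : ℕ)) + (2) * (u * y * m * n) + (-1) * y ^ (4 : ℕ) + y ^ (2 :
      ℕ) * m ^ (2 : ℕ) + (-1) * (y ^ (2 : ℕ) * n ^ (2 : ℕ))) * h4 +
    (u * y ^ (2 : ℕ) + (-1) * (u * m ^ (2 : ℕ))) * h5

lemma tab3 (f : R →+* K) (g : Fin 6 → R) (l u y m n : R) : ∃ p : Fin 5 → R,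
    ∀ X1 X2 X3 T : K, Rows (fun i => f (g i)) (f l) (f u) (f y) (f m) (f n) X1 X2 X3 T →
      c3 (f u) (f y) (f m) (f n) * (X3 ^ 2 + f (p 0) + f (p 1) * X1 + f (p 2) * X2
        + f (p 3) * X3 + f (p 4) * T) = 0 := by
  refine ⟨![
      ((-g 1 * g 3 - g 1 * g 5 - g 2 * g 4 - g 3 * g 5) * u ^ (4 : ℕ) + (g 0 + g 1 * g 2 + g 2 *
      g 3 + g 2 - g 4) * (u ^ (3 : ℕ) * y) + u ^ (3 : ℕ) * l + (g 1 - g 2 ^ (2 : ℕ)) * (u ^ (2 :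
      ℕ) * y ^ (2 : ℕ)) + (g 0 * g 2 + g 1 * g 3 + g 1 * g 5 + g 2 ^ (2 : ℕ) + g 2 * g 4 + g 3 *
      g 5 + 1) * (u ^ (2 : ℕ) * m ^ (2 : ℕ)) + (-g 0 * g 3 + g 0 - g 2 * g 3 + 2 * g 2) * (u ^ (2
      : ℕ) * m * n) + (-g 3) * (u ^ (2 : ℕ) * n ^ (2 : ℕ)) + (-g 2) * (u * y ^ (3 : ℕ))) + ((g 2
      + g 4) * (u * y * m ^ (2 : ℕ)) + (g 1 - g 3 + 2) * (u * y * m * n) + (-g 0) * (u * y * n ^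
      (2 : ℕ)) + (-1) * (u * m ^ (2 : ℕ) * l)),
      (g 0 + g 2) * u ^ (2 : ℕ) + (g 1 + g 3 + 1) * (u * y),
      (g 1 + g 3 - 1) * (u * n),
      (g 0 + g 2) * (u * n),
      u * m], fun X1 X2 X3 T h => ?_⟩
  obtain ⟨h1, h2, h3, h4, h5⟩ := h
  simp only [Matrix.cons_val, map_add, map_sub, map_mul, map_neg, map_pow, map_ofNat, map_one,
    map_zero, fp, g0, n1, n2, n3, r1, r2, r3, a11, a12, a13, a22, a23, a33, c3, qQ] at *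
  generalize f u = u, f y = y, f m = m, f n = n, f l = l, f (g 0) = a0, f (g 1) = a1,
    f (g 2) = a2, f (g 3) = a3, f (g 4) = a4, f (g 5) = a5 at *
  linear_combination
    (((a2) * (u ^ (2 : ℕ) * m ^ (2 : ℕ)) + (-a3 + 1) * (u ^ (2 : ℕ) * m * n) + u ^ (2 : ℕ) * X1
      + (a3 + 1) * (u * y * m ^ (2 : ℕ)) + (-a2) * (u * y * m * n) + (-2) * (u * y * n ^ (2 : ℕ))
      + u * m * X2 + (2) * (u * n * X3)) + ((-1) * (y * m * X3))) * h1 +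
    (((a0 - a2 - a4) * (u ^ (3 : ℕ) * m) + (-2 * a1) * (u ^ (3 : ℕ) * n) + (a1 + 1) * (u ^ (2 :
      ℕ) * y * m) + (2 * a2) * (u ^ (2 : ℕ) * y * n) + (-1) * (u ^ (2 : ℕ) * X2) + (-a2) * (u * y
      ^ (2 : ℕ) * m) + (a2 + a4) * (u * m ^ (3 : ℕ)) + (a1 + 1) * (u * m ^ (2 : ℕ) * n)) + ((-a0
      - a2) * (u * m * n ^ (2 : ℕ)) + (-1) * (u * m * X1) + (-2) * (u * n ^ (3 : ℕ)) + (-1) * (m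
      * n * X3))) * h2 +
    ((-a0 - a2) * (u ^ (2 : ℕ) * y * m) + (2 * a1 + 2 * a3) * (u ^ (2 : ℕ) * y * n) + (-1) * (u
      ^ (2 : ℕ) * X3) + (-a1 - a3 - 2) * (u * y ^ (2 : ℕ) * m) + (a0 + a2) * (u * m ^ (2 : ℕ) *
      n) + (-a1 - a3 + 2) * (u * m * n ^ (2 : ℕ)) + m ^ (2 : ℕ) * X3) * h3 +
    ((-1) * (u ^ (2 : ℕ) * y ^ (2 : ℕ)) + (-1) * (u ^ (2 : ℕ) * n ^ (2 : ℕ)) + (2) * (u * y * m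
      * n)) * h4 +
    (u ^ (3 : ℕ) + (-1) * (u * m ^ (2 : ℕ))) * h5

lemma tab4 (f : R →+* K) (g : Fin 6 → R) (l u y m n : R) : ∃ p : Fin 5 → R,
    ∀ X1 X2 X3 T : K, Rows (fun i => f (g i)) (f l) (f u) (f y) (f m) (f n) X1 X2 X3 T →
      f u * c3 (f u) (f y) (f m) (f n) * (T ^ 2 + f (p 0) + f (p 1) * X1 + f (p 2) * X2
        + f (p 3) * X3 + f (p 4) * T) = 0 := by
  refine ⟨![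
      ((g 0 * g 4 + g 2 * g 4 - g 5 ^ (2 : ℕ)) * u ^ (4 : ℕ) + (-g 0 * g 3 + g 0 * g 5 + g 1 * g
      4 - g 2 * g 3 + g 2 * g 5 + g 3 * g 4 + 2 * g 4 * g 5) * (u ^ (3 : ℕ) * y) + (g 0 * g 2 - g
      0 * g 4 - g 1 * g 3 + g 1 * g 5 + g 2 ^ (2 : ℕ) - g 2 * g 4 - g 3 ^ (2 : ℕ) - g 3 * g 5 + g
      4 ^ (2 : ℕ)) * (u ^ (2 : ℕ) * y ^ (2 : ℕ)) + (-g 4) * (u ^ (2 : ℕ) * y * l) + (-g 0 ^ (2 :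
      ℕ) - 2 * g 0 * g 2 - g 0 * g 4 + g 1 * g 3 + g 1 * g 5 - g 2 ^ (2 : ℕ) + g 3 * g 5 + 2 * g
      5 ^ (2 : ℕ)) * (u ^ (2 : ℕ) * m ^ (2 : ℕ)) + (2 * g 0 * g 1 + 2 * g 0 * g 3 + g 0 * g 5 - g
      0 + g 1 * g 2 - g 1 * g 4 + g 2 * g 3 - g 2 * g 5 - g 2 - g 3 * g 4 - 2 * g 4 * g 5) * (u ^
      (2 : ℕ) * m * n) + (-g 1 ^ (2 : ℕ) - g 1 * g 3 - g 1 * g 5 + g 3 * g 5 + g 4 ^ (2 : ℕ)) *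
      (u ^ (2 : ℕ) * n ^ (2 : ℕ)) + (g 0 * g 3 + g 0 * g 5 + g 0 + g 1 * g 2 - g 1 * g 4 + 2 * g
      2 * g 3 + g 2 * g 5 + g 2 - g 3 * g 4) * (u * y ^ (3 : ℕ))) + ((g 3) * (u * y ^ (2 : ℕ) *
      l) + (-2 * g 0 * g 1 - g 0 * g 3 - 3 * g 0 * g 5 - 3 * g 0 - 3 * g 1 * g 2 - g 1 * g 4 - 2
      * g 2 * g 3 - 3 * g 2 * g 5 - 3 * g 2 - g 3 * g 4 - 2 * g 4 * g 5) * (u * y * m ^ (2 : ℕ))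
      + (2 * g 0 ^ (2 : ℕ) + 2 * g 0 * g 2 + 2 * g 1 ^ (2 : ℕ) + 4 * g 1 * g 3 + 4 * g 1 * g 5 +
      2 * g 3 ^ (2 : ℕ) + 4 * g 3 * g 5) * (u * y * m * n) + (-2 * g 0 * g 1 - g 0 * g 3 - g 0 *
      g 5 + g 0 - g 1 * g 2 - g 1 * g 4 - g 2 * g 5 + g 2 - g 3 * g 4) * (u * y * n ^ (2 : ℕ)) +
      (-1) * (u * m ^ (2 : ℕ) * l) + (g 0) * (u * m * n * l) + (-g 1) * (u * n ^ (2 : ℕ) * l) +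
      (-g 0 * g 2 + g 1 - g 2 ^ (2 : ℕ) + g 2 * g 4 + g 3 + 2 * g 5) * y ^ (4 : ℕ)) + ((-g 2) *
      (y ^ (3 : ℕ) * l) + (2 * g 0 * g 2 - g 1 ^ (2 : ℕ) + g 1 * g 3 - g 1 * g 5 - 3 * g 1 + 2 *
      g 2 ^ (2 : ℕ) + g 3 * g 5 - g 3 - g 4 ^ (2 : ℕ) - 4 * g 5) * (y ^ (2 : ℕ) * m ^ (2 : ℕ)) +
      (2 * g 0 * g 1 - g 0 * g 3 + g 0 * g 5 + 3 * g 0 - g 1 * g 2 - g 1 * g 4 - 2 * g 2 * g 3 -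
      3 * g 2 * g 5 + 3 * g 2 + g 3 * g 4 - 2 * g 4) * (y ^ (2 : ℕ) * m * n) + (-g 0 ^ (2 : ℕ) -
      g 0 * g 2 + g 0 * g 4 + g 2 * g 4) * (y ^ (2 : ℕ) * n ^ (2 : ℕ)) + (g 2 + g 4) * (y * m ^
      (2 : ℕ) * l) + (g 1 - g 3 + 2) * (y * m * n * l) + (-g 0) * (y * n ^ (2 : ℕ) * l) + (-g 0 *
      g 2 - g 1 * g 3 - g 1 * g 5 - g 2 ^ (2 : ℕ) - g 2 * g 4 - g 3 * g 5 - g 5 ^ (2 : ℕ) - 1) *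
      m ^ (4 : ℕ)) + ((g 0 * g 3 + g 0 * g 5 - g 0 + g 1 * g 2 + g 1 * g 4 + 2 * g 2 * g 3 + 3 *
      g 2 * g 5 - 3 * g 2 + g 3 * g 4 + 2 * g 4 * g 5) * (m ^ (3 : ℕ) * n) + (g 0 * g 2 - g 0 * g
      4 + g 1 * g 3 + g 1 * g 5 + g 1 - g 2 * g 4 - g 3 ^ (2 : ℕ) - g 3 * g 5 + 3 * g 3 - g 4 ^
      (2 : ℕ) + 4 * g 5) * (m ^ (2 : ℕ) * n ^ (2 : ℕ)) + (-g 0 * g 3 - g 0 * g 5 + g 0 - g 1 * g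
      2 - g 1 * g 4 - g 2 * g 5 + g 2 + g 3 * g 4 - 2 * g 4) * (m * n ^ (3 : ℕ)) + (g 0 * g 4 - g
      1 - g 3 - 2 * g 5) * n ^ (4 : ℕ)),
      (-g 0 - g 2) * u ^ (2 : ℕ) + (-g 1 - g 3) * (u * y) + (-2 * g 4) * y ^ (2 : ℕ) + y * l +
      (-2 * g 4) * n ^ (2 : ℕ),
      (-g 1 - g 3) * (u * n) + (-2 * g 0 - 2 * g 2) * (y * n) + (-1) * (n * l),
      (-g 0 - g 2) * (u * n) + (-2 * g 1 - 2 * g 3 - 4 * g 5) * (y * n),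
      (-1) * (m * l)], fun X1 X2 X3 T h => ?_⟩
  obtain ⟨h1, h2, h3, h4, h5⟩ := h
  simp only [Matrix.cons_val, map_add, map_sub, map_mul, map_neg, map_pow, map_ofNat, map_one,
    map_zero, fp, g0, n1, n2, n3, r1, r2, r3, a11, a12, a13, a22, a23, a33, c3, qQ] at *
  generalize f u = u, f y = y, f m = m, f n = n, f l = l, f (g 0) = a0, f (g 1) = a1,
    f (g 2) = a2, f (g 3) = a3, f (g 4) = a4, f (g 5) = a5 at *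
  linear_combination
    (((-a0 - a2 - a4) * (u ^ (3 : ℕ) * m ^ (2 : ℕ)) + (a1 + a3 + a5) * (u ^ (3 : ℕ) * m * n) +
      (a5) * (u ^ (2 : ℕ) * y ^ (3 : ℕ)) + (-a1 - a5) * (u ^ (2 : ℕ) * y * m ^ (2 : ℕ)) + (3 * a0
      + 3 * a2) * (u ^ (2 : ℕ) * y * m * n) + (-2 * a1 - 2 * a3 - 3 * a5) * (u ^ (2 : ℕ) * y * n
      ^ (2 : ℕ)) + u ^ (2 : ℕ) * m * n * l + (-a0 - a2 - 2 * a4) * (u * y ^ (2 : ℕ) * m ^ (2 :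
      ℕ))) + ((3 * a1 + 2 * a3 + 4 * a5) * (u * y ^ (2 : ℕ) * m * n) + (-2 * a0 - 2 * a2 + 2 *
      a4) * (u * y ^ (2 : ℕ) * n ^ (2 : ℕ)) + u * y * m * T + (-2) * (u * y * n ^ (2 : ℕ) * l) +
      (a0 + a2 + a4) * (u * m ^ (4 : ℕ)) + (-a1 - a3 - a5 + 1) * (u * m ^ (3 : ℕ) * n) + (-a0 - 2
      * a4) * (u * m ^ (2 : ℕ) * n ^ (2 : ℕ)) + (a1) * (u * m * n ^ (3 : ℕ))) + ((2 * a4) * (u *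
      n ^ (4 : ℕ)) + (-a1 - a5 - 1) * (y ^ (3 : ℕ) * m ^ (2 : ℕ)) + (a0) * (y ^ (3 : ℕ) * m * n)
      + y ^ (2 : ℕ) * m * n * l + (-1) * (y ^ (2 : ℕ) * n * T) + (a1 + a5 + 1) * (y * m ^ (4 :
      ℕ)) + (-a0) * (y * m ^ (3 : ℕ) * n) + (-a1 - a5 - 1) * (y * m ^ (2 : ℕ) * n ^ (2 : ℕ))) +
      ((a0) * (y * m * n ^ (3 : ℕ)) + (-1) * (m ^ (3 : ℕ) * n * l) + m ^ (2 : ℕ) * n * T + m * n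
      ^ (3 : ℕ) * l + (-1) * (n ^ (3 : ℕ) * T))) * h1 +
    (((a0 + a2) * (u ^ (4 : ℕ) * m) + (a1 + a3 + a5) * (u ^ (3 : ℕ) * y * m) + (-2 * a0 - 2 *
      a2) * (u ^ (3 : ℕ) * y * n) + (a4) * (u ^ (2 : ℕ) * y ^ (2 : ℕ) * m) + (-2 * a1 - 2 * a3 -
      3 * a5) * (u ^ (2 : ℕ) * y ^ (2 : ℕ) * n) + (-1) * (u ^ (2 : ℕ) * y * m * l) + (-a0 + a4) *
      (u ^ (2 : ℕ) * m ^ (3 : ℕ)) + (-a3 - a5) * (u ^ (2 : ℕ) * m ^ (2 : ℕ) * n)) + ((a0 + a2 +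
      a4) * (u ^ (2 : ℕ) * m * n ^ (2 : ℕ)) + (a5) * (u ^ (2 : ℕ) * n ^ (3 : ℕ)) + (a3) * (u * y
      ^ (3 : ℕ) * m) + (2 * a0 + 2 * a2 - 2 * a4) * (u * y ^ (3 : ℕ) * n) + (2) * (u * y ^ (2 :
      ℕ) * n * l) + (-a1 - a3 - a5 - 1) * (u * y * m ^ (3 : ℕ)) + (-a0 - 2 * a2) * (u * y * m ^
      (2 : ℕ) * n) + (2 * a1 + 3 * a3 + 4 * a5) * (u * y * m * n ^ (2 : ℕ))) + ((-2 * a4) * (u *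
      y * n ^ (3 : ℕ)) + (-1) * (u * m * n * T) + (-a2) * (y ^ (4 : ℕ) * m) + (-1) * (y ^ (3 : ℕ)
      * m * l) + y ^ (3 : ℕ) * T + (2 * a2 + a4) * (y ^ (2 : ℕ) * m ^ (3 : ℕ)) + (-a3 - a5 + 1) *
      (y ^ (2 : ℕ) * m ^ (2 : ℕ) * n) + (-a2) * (y ^ (2 : ℕ) * m * n ^ (2 : ℕ))) + (y * m ^ (3 :
      ℕ) * l + (-1) * (y * m ^ (2 : ℕ) * T) + (-1) * (y * m * n ^ (2 : ℕ) * l) + y * n ^ (2 : ℕ)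
      * T + (-a2 - a4) * m ^ (5 : ℕ) + (a3 + a5 - 1) * (m ^ (4 : ℕ) * n) + (a2 + a4) * (m ^ (3 :
      ℕ) * n ^ (2 : ℕ)) + (-a3 - a5 + 1) * (m ^ (2 : ℕ) * n ^ (3 : ℕ)))) * h2 +
    (((-a5) * (u ^ (4 : ℕ) * m) + (a0 + a2 + a4) * (u ^ (3 : ℕ) * y * m) + (2 * a5) * (u ^ (3 :
      ℕ) * y * n) + (a1 - a5) * (u ^ (2 : ℕ) * y ^ (2 : ℕ) * m) + (-2 * a0 - 2 * a2 - a4) * (u ^
      (2 : ℕ) * y ^ (2 : ℕ) * n) + (2 * a5) * (u ^ (2 : ℕ) * m ^ (3 : ℕ)) + (-a2 - a4) * (u ^ (2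
      : ℕ) * m ^ (2 : ℕ) * n) + (a3 - a5) * (u ^ (2 : ℕ) * m * n ^ (2 : ℕ))) + ((-a4) * (u ^ (2 :
      ℕ) * n ^ (3 : ℕ)) + (a0 + a2 + 2 * a4) * (u * y ^ (3 : ℕ) * m) + (-a1 - a3) * (u * y ^ (3 :
      ℕ) * n) + (-1) * (u * y ^ (2 : ℕ) * T) + (-a0 - a2 - a4) * (u * y * m ^ (3 : ℕ)) + (-2 *
      a5) * (u * y * m ^ (2 : ℕ) * n) + (2 * a0 + 2 * a2 + 2 * a4) * (u * y * m * n ^ (2 : ℕ)) +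
      (-a1 - a3) * (u * y * n ^ (3 : ℕ))) + (u * n ^ (2 : ℕ) * T + (a1 + 1) * (y ^ (4 : ℕ) * m) +
      (-a0 + a2) * (y ^ (4 : ℕ) * n) + (-a1 + a5 - 1) * (y ^ (2 : ℕ) * m ^ (3 : ℕ)) + (a0 - 2 *
      a2 - a4) * (y ^ (2 : ℕ) * m ^ (2 : ℕ) * n) + (a1 + a3) * (y ^ (2 : ℕ) * m * n ^ (2 : ℕ)) +
      (-a0 + a2) * (y ^ (2 : ℕ) * n ^ (3 : ℕ)) + (-a5) * m ^ (5 : ℕ)) + ((a2 + a4) * (m ^ (4 : ℕ)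
      * n) + (-a3 + a5 + 1) * (m ^ (3 : ℕ) * n ^ (2 : ℕ)) + (-a2 - a4) * (m ^ (2 : ℕ) * n ^ (3 :
      ℕ)) + (a3 - 1) * (m * n ^ (4 : ℕ)))) * h3 +
    (((-a5) * (u ^ (3 : ℕ) * y ^ (2 : ℕ)) + (-a4) * (u ^ (3 : ℕ) * m * n) + (a5) * (u ^ (3 : ℕ)
      * n ^ (2 : ℕ)) + (a4) * (u ^ (2 : ℕ) * y ^ (3 : ℕ)) + (a0 - a4) * (u ^ (2 : ℕ) * y * m ^ (2
      : ℕ)) + (-a1 + a3) * (u ^ (2 : ℕ) * y * m * n) + (a4) * (u ^ (2 : ℕ) * y * n ^ (2 : ℕ)) + u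
      ^ (2 : ℕ) * m ^ (2 : ℕ) * l) + ((-1) * (u ^ (2 : ℕ) * m * T) + (-a3) * (u * y ^ (4 : ℕ)) +
      (a1 + a3 + a5 + 1) * (u * y ^ (2 : ℕ) * m ^ (2 : ℕ)) + (-2 * a0 - a2) * (u * y ^ (2 : ℕ) *
      m * n) + (a1 - a3) * (u * y ^ (2 : ℕ) * n ^ (2 : ℕ)) + (-2) * (u * y * m * n * l) + (2) *
      (u * y * n * T) + (a0 + a2 + a4) * (u * m ^ (3 : ℕ) * n)) + ((-a1 - a3 - a5 + 1) * (u * m ^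
      (2 : ℕ) * n ^ (2 : ℕ)) + (-a0) * (u * m * n ^ (3 : ℕ)) + (a1) * (u * n ^ (4 : ℕ)) + (a2) *
      y ^ (5 : ℕ) + (-2 * a2 - a4) * (y ^ (3 : ℕ) * m ^ (2 : ℕ)) + (-a1 + a3 - 2) * (y ^ (3 : ℕ)
      * m * n) + (a0 + a2) * (y ^ (3 : ℕ) * n ^ (2 : ℕ)) + y ^ (2 : ℕ) * m ^ (2 : ℕ) * l) + ((-1)
      * (y ^ (2 : ℕ) * m * T) + (a2 + a4) * (y * m ^ (4 : ℕ)) + (a1 - a3 + 2) * (y * m ^ (3 : ℕ)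
      * n) + (-a0 - a2 - a4) * (y * m ^ (2 : ℕ) * n ^ (2 : ℕ)) + (-a1 + a3 - 2) * (y * m * n ^ (3
      : ℕ)) + (a0) * (y * n ^ (4 : ℕ)) + (-1) * (m ^ (4 : ℕ) * l) + m ^ (3 : ℕ) * T) + (m ^ (2 :
      ℕ) * n ^ (2 : ℕ) * l + (-1) * (m * n ^ (2 : ℕ) * T))) * h4 +
    ((-1) * (u ^ (2 : ℕ) * m ^ (2 : ℕ)) + y ^ (4 : ℕ) + (-2) * (y ^ (2 : ℕ) * m ^ (2 : ℕ)) + (2)
      * (y ^ (2 : ℕ) * n ^ (2 : ℕ)) + m ^ (4 : ℕ) + (-2) * (m ^ (2 : ℕ) * n ^ (2 : ℕ)) + n ^ (4 :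
      ℕ)) * h5

end Pool.Agent.P.MP_7ebcb6_ag.G8
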