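import Pool.Agent.P.MP_7ebcb6_ag.G8.Alg
import Pool.Agent.P.MP_7ebcb6_ag.G8.Emb

/-! The class map of a projective model, modulo the exceptional points. -/

open scoped LinearAlgebra.Projectivization
open MvPolynomial

namespace Pool.Agent.P.MP_7ebcb6_ag.G8

noncomputable section

variable {n : ℕ}

/-- Cycles with a multiple rationally equivalent to a cycle supported on `E`. -/
def satE (X : Set (ℙ ℂ (Fin (n + 1) → ℂ))) (E : ℙ ℂ (Fin (n + 1) → ℂ) → Prop) :
    AddSubgroup (X →₀ ℤ) where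
  carrier := {D | ∃ (k : ℕ) (D' : X →₀ ℤ), 0 < k ∧ (∀ x ∈ D'.support, E x) ∧
    k • D - D' ∈ ratTrivial X}
  zero_mem' := ⟨1, 0, one_pos, by simp, by simp⟩
  add_mem' := by
    classical
    rintro a b ⟨k, A, hk, hA, ha⟩ ⟨l, B, hl, hB, hb⟩
    refine ⟨k * l, l • A + k • B, Nat.mul_pos hk hl, fun x hx => ?_, ?_⟩
    · rcases Finset.mem_union.mp (Finsupp.support_add hx) with h | h
      · exact hA x (Finsupp.support_smul h)
      · exact hB x (Finsupp.support_smul h)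
    · have : (k * l) • (a + b) - (l • A + k • B) = l • (k • a - A) + k • (l • b - B) := by module
      rw [this]
      exact add_mem (nsmul_mem ha l) (nsmul_mem hb k)
  neg_mem' := by
    rintro a ⟨k, A, hk, hA, ha⟩
    refine ⟨k, -A, hk, fun x hx => hA x (Finsupp.support_neg A ▸ hx), ?_⟩
    rw [smul_neg, ← neg_sub']
    exact neg_mem ha

/-- Zero-cycles modulo rational equivalence, torsion and cycles on `E`. -/
abbrev CycE (X : Set (ℙ ℂ (Fin (n + 1) → ℂ))) (E : ℙ ℂ (Fin (n + 1) → ℂ) → Prop) : Type :=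
  (X →₀ ℤ) ⧸ satE X E

instance (X : Set (ℙ ℂ (Fin (n + 1) → ℂ))) (E : ℙ ℂ (Fin (n + 1) → ℂ) → Prop) :
    IsAddTorsionFree (CycE X E) where
  nsmul_right_injective k hk a b h := by
    obtain ⟨a, rfl⟩ := QuotientAddGroup.mk_surjective a
    obtain ⟨b, rfl⟩ := QuotientAddGroup.mk_surjective b
    have h' : ((k • a : X →₀ ℤ) : CycE X E) = (k • b : X →₀ ℤ) := h
    rw [QuotientAddGroup.eq] at h' ⊢
    obtain ⟨m, A, hm, hA, hx⟩ := h'
    refine ⟨m * k, A, Nat.mul_pos hm (Nat.pos_of_ne_zero hk), hA, ?_⟩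
    rw [mul_nsmul', nsmul_add, smul_neg]
    exact hx

/-- The projection from cycles modulo rational equivalence and torsion. -/
def toE (X : Set (ℙ ℂ (Fin (n + 1) → ℂ))) (E : ℙ ℂ (Fin (n + 1) → ℂ) → Prop) :
    Cyc X →+ CycE X E :=
  QuotientAddGroup.map _ _ (AddMonoidHom.id _) fun _ ⟨k, hk, h⟩ => ⟨k, 0, hk, by simp, by simpa⟩

lemma toE_eq_zero {X : Set (ℙ ℂ (Fin (n + 1) → ℂ))} {E : ℙ ℂ (Fin (n + 1) → ℂ) → Prop} {x : X}
    (h : E x) : toE X E (ptCl x) = 0 :=
  (QuotientAddGroup.eq_zero_iff _).mpr ⟨1, Finsupp.single x 1, one_pos, fun y hy => by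
    rw [Finset.mem_singleton.mp (Finsupp.support_single_subset hy)]; exact h, by simp⟩

lemma mem_satE {X : Set (ℙ ℂ (Fin (n + 1) → ℂ))} {E : ℙ ℂ (Fin (n + 1) → ℂ) → Prop}
    (h : ∀ x : X, toE X E (ptCl x) = 0) (D : X →₀ ℤ) : D ∈ satE X E := by
  induction D using Finsupp.induction_linear with
  | zero => exact zero_mem _
  | add a b ha hb => exact add_mem ha hb
  | single x k =>
    have := zsmul_mem ((QuotientAddGroup.eq_zero_iff _).mp (h x)) k
    simpa using this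

lemma isFam_map {M M' : Type} [AddCommGroup M] [AddCommGroup M'] (f : M →+ M') {γ : Sp → M}
    (h : IsFam γ) : IsFam fun sp => f (γ sp) := by
  obtain ⟨T, hT⟩ := h
  refine ⟨T, fun K hK hsub => ?_⟩
  obtain ⟨g, h1, h2⟩ := hT K hK hsub
  refine ⟨fun w => f (g w), fun sp w hw hl => congrArg f (h1 sp w hw hl), fun a S ha hS hS' => ?_⟩
  simp only [← map_zsmul, ← map_sum, h2 a S ha hS hS', map_zero]

lemma mem_graph {K L : Type} [Field K] [Field L] {G : Subring (K × L)} (z : G) :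
    (gfst G z, gsnd G z) ∈ G := z.2

lemma Plc.mem_badV {K L : Type} [Field K] [Field L] {pl : Plc K L} {P : Fin 4 → K} {Q : Fin 4 → L}
    (h : ∀ i, (P i, Q i) ∈ pl.G) : (badV P, badV Q) ∈ pl.G := by
  have := mem_graph (badV fun i => (⟨_, h i⟩ : pl.G))
  rw [map_badV, map_badV] at this
  exact this

lemma Plc.mem_phiV {K L : Type} [Field K] [Field L] {pl : Plc K L} {g : Fin 6 → K} {g' : Fin 6 → L}
    {la mu : K} {la' mu' : L} {P : Fin 4 → K} {Q : Fin 4 → L} (hg : ∀ i, (g i, g' i) ∈ pl.G)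
    (hla : (la, la') ∈ pl.G) (hmu : (mu, mu') ∈ pl.G) (h : ∀ i, (P i, Q i) ∈ pl.G) :
    (phiV g la mu P, phiV g' la' mu' Q) ∈ pl.G := by
  have := mem_graph (phiV (fun i => (⟨_, hg i⟩ : pl.G)) ⟨_, hla⟩ ⟨_, hmu⟩ fun i => ⟨_, h i⟩)
  rw [map_phiV, map_phiV] at this
  exact this

lemma Plc.Red.badV {K L : Type} [Field K] [Field L] {pl : Plc K L} {P : Fin 4 → K} {Q : Fin 4 → L}
    (h : pl.Red P Q) (h0 : badV P = 0) : badV Q = 0 := by
  obtain ⟨-, c, hc⟩ := h
  have := Plc.mem_badV hc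
  rw [badV_smul, h0, mul_zero] at this
  exact pl.func _ this

lemma Plc.Red.phiV {K L : Type} [Field K] [Field L] {pl : Plc K L} {g : Fin 6 → K} {g' : Fin 6 → L}
    {la mu : K} {la' mu' : L} {P : Fin 4 → K} {Q : Fin 4 → L} (hg : ∀ i, (g i, g' i) ∈ pl.G)
    (hla : (la, la') ∈ pl.G) (hmu : (mu, mu') ∈ pl.G) (h : pl.Red P Q)
    (h0 : phiV g la mu P = 0) : phiV g' la' mu' Q = 0 := by
  obtain ⟨-, c, hc⟩ := h
  have := Plc.mem_phiV hg hla hmu hc
  rw [phiV_smul, h0, mul_zero] at this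
  exact pl.func _ this

/-- The invariant quadrics as polynomials. -/
def nuP : Fin 6 → MvPolynomial (Fin 4) ℂ :=
  ![X 0 ^ 2, X 0 * X 1, X 1 ^ 2, X 2 ^ 2, X 2 * X 3, X 3 ^ 2]

lemma eval_nuP (p : Fin 4 → ℂ) (j : Fin 6) : eval p (nuP j) = nu p j := by
  fin_cases j <;> simp [nuP, nu]

lemma nuP_smul (c : Om) (P : Fin 4 → Om) (j : Fin 6) :
    aeval (fun i => c * P i) (nuP j) = c ^ 2 * aeval P (nuP j) := by
  fin_cases j <;> simp [nuP] <;> ring

lemma mk_eq_of_smul {v w : Fin (n + 1) → ℂ} (hv : v ≠ 0) (hw : w ≠ 0) {c : ℂ}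
    (h : ∀ i, v i = c * w i) : Projectivization.mk ℂ v hv = Projectivization.mk ℂ w hw :=
  (Projectivization.mk_eq_mk_iff' ℂ v w hv hw).mpr ⟨c, funext fun i => (h i).symm⟩

section model

variable (g : Fin 6 → ℂ) (la mu : ℂ) (N : Fin (n + 1) → MvPolynomial (Fin 4) ℂ)
  (R : Fin 6 → MvPolynomial (Fin (n + 1)) ℂ)

/-- The cone over the octic. -/
def oct : Set (Fin 4 → ℂ) := {p | phiV g la mu p = 0}

/-- Points of the octic off the bad quartic and off the base locus. -/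
def Good (p : Fin 4 → ℂ) : Prop :=
  phiV g la mu p = 0 ∧ badV p ≠ 0 ∧ (fun i => eval p (N i)) ≠ 0

/-- The image of a good point. -/
def Good.pt {g : Fin 6 → ℂ} {la mu : ℂ} {N : Fin (n + 1) → MvPolynomial (Fin 4) ℂ}
    {p : Fin 4 → ℂ} (h : Good g la mu N p) : closedImage (oct g la mu) N :=
  ⟨Projectivization.mk ℂ _ h.2.2, fun _ _ _ hZ => hZ _ ⟨p, h.1, h.2.2, rfl⟩⟩

open Classical in
/-- The class of the image of a point. -/
def gam (p : Fin 4 → ℂ) : CycE (closedImage (oct g la mu) N) (Exceptional (oct g la mu) N R) :=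
  if h : Good g la mu N p then toE _ _ (ptCl h.pt) else 0

variable {g la mu N R} {d : ℕ × ZMod 2} {e : ℕ}

lemma gam_eq {p q : Fin 4 → ℂ} (h1 : phiV g la mu p = 0 ↔ phiV g la mu q = 0)
    (h2 : badV p = 0 ↔ badV q = 0) {c : ℂ} (hc : c ≠ 0) (h3 : ∀ i, eval p (N i) = c * eval q (N i)) :
    (Good g la mu N p ↔ Good g la mu N q) ∧ gam g la mu N R p = gam g la mu N R q := by
  have key : Good g la mu N p ↔ Good g la mu N q := by
    refine and_congr h1 (and_congr h2.not (not_congr ?_))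
    simp only [funext_iff, h3, Pi.zero_apply, mul_eq_zero, hc, false_or]
  refine ⟨key, ?_⟩
  unfold gam
  by_cases h : Good g la mu N p
  · rw [dif_pos h, dif_pos (key.mp h)]
    exact congrArg _ (congrArg _ (Subtype.ext (mk_eq_of_smul _ _ h3)))
  · rw [dif_neg h, dif_neg (mt key.mpr h)]

lemma gam_smul (hN : ∀ i, IsWeightedHomogeneous wt4 (N i) d) (c : ℂ) (p : Fin 4 → ℂ) (hc : c ≠ 0) :
    (Good g la mu N (fun i => c * p i) ↔ Good g la mu N p) ∧
      gam g la mu N R (fun i => c * p i) = gam g la mu N R p :=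
  gam_eq (by simp [phiV_smul, hc]) (by simp [badV_smul, hc]) (pow_ne_zero d.1 hc)
    fun i => N_smul (hN i) c p

lemma gam_sg (hN : ∀ i, IsWeightedHomogeneous wt4 (N i) d) (p : Fin 4 → ℂ) :
    (Good g la mu N (sg p) ↔ Good g la mu N p) ∧ gam g la mu N R (sg p) = gam g la mu N R p :=
  gam_eq (by rw [phiV_sg]) (by rw [badV_sg, neg_eq_zero]) (pow_ne_zero d.2.val (by simp))
    fun i => N_sg (hN i) p

lemma gam_bad {p : Fin 4 → ℂ} (h : badV p = 0) : gam g la mu N R p = 0 :=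
  by rw [gam, dif_neg fun hg => hg.2.1 h]

lemma good_of_not_exc {z : ℙ ℂ (Fin (n + 1) → ℂ)} (h : ¬ Exceptional (oct g la mu) N R z) :
    ∃ q, Good g la mu N q ∧ ∀ j, eval z.rep (R j) = nu q j := by
  simp only [Exceptional, not_forall, not_or] at h
  obtain ⟨q, hq, hR, hb, i, hi⟩ := h
  exact ⟨q, ⟨hq, by rwa [cayley_eq] at hb, Function.ne_iff.mpr ⟨i, hi⟩⟩, congrFun hR⟩

lemma gam_fam (hN : ∀ i, IsWeightedHomogeneous wt4 (N i) d) (hR : ∀ j, (R j).IsHomogeneous e)
    (hinv : ∀ p ∈ oct g la mu, ∃ c, ∀ j, eval (fun i => eval p (N i)) (R j) = c * nu p j)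
    {P : Fin 4 → Om}
    (hP : phiV (fun i => algebraMap ℂ Om (g i)) (algebraMap ℂ Om la) (algebraMap ℂ Om mu) P = 0) :
    ∃ δ : Sp → CycE _ _, IsFam δ ∧ ∀ sp Q, (spPl sp).Red P Q → δ sp = gam g la mu N R Q := by
  have hlim : ∀ {sp : Sp} {c : Om} {Q : Fin 4 → ℂ}, (∀ i, Tends sp.v (c * P i) (Q i)) →
      ∀ i, Tends sp.v (c ^ d.1 * aeval P (N i)) (eval Q (N i)) := fun h i =>
    N_smul (hN i) _ P ▸ Tends.mv_aeval h (N i)
  by_cases h0 : (fun i => aeval P (N i)) = 0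
  · refine ⟨fun _ => 0, IsFam.zero, fun sp Q ⟨_, c, hc⟩ => ?_⟩
    rw [gam, dif_neg fun hg => ?_]
    exact hg.2.2 (funext fun i => (hlim hc i).eq_zero (by rw [congrFun h0 i]; simp))
  have hη : ∀ (F : MvPolynomial (Fin (n + 1)) ℂ) (k : ℕ), F.IsHomogeneous k →
      (∀ z ∈ {z | ∃ p ∈ oct g la mu, ∃ h : (fun i => eval p (N i)) ≠ 0,
        z = Projectivization.mk ℂ _ h}, eval z.rep F = 0) →
      aeval (fun i => aeval P (N i)) F = 0 := by
    intro F k hF hZ
    obtain ⟨i, hi⟩ := Function.ne_iff.mp h0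
    have := aeval_eq_zero_of_octic (F := N i * aeval N F) (fun p hp => ?_) hP
    · rw [map_mul, ← AlgHom.comp_apply, comp_aeval] at this
      exact (mul_eq_zero.mp this).resolve_left hi
    · rw [map_mul]
      by_cases h : (fun i => eval p (N i)) = 0
      · rw [congrFun h i, Pi.zero_apply, zero_mul]
      · obtain ⟨a, ha⟩ := Projectivization.exists_smul_eq_mk_rep ℂ _ h
        have h1 := hZ _ ⟨p, hp, h, rfl⟩
        have h2 := aeval_smul_homog hF (a : ℂ) fun i => eval p (N i)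
        rw [← ha] at h1
        have h3 : (a : ℂ) ^ k * aeval (fun i => eval p (N i)) F = 0 := h2.symm.trans h1
        have h4 : eval p (aeval N F) = aeval (fun i => eval p (N i)) F := by
          rw [← aeval_eq_eval, ← AlgHom.comp_apply, comp_aeval]
        rw [h4, (mul_eq_zero.mp h3).resolve_left (pow_ne_zero _ a.ne_zero), mul_zero]
  obtain ⟨γ0, hγ0, hval⟩ := exists_fam _ h0 hη
  refine ⟨fun sp => toE _ _ (γ0 sp), isFam_map _ hγ0, fun sp Q hQ => ?_⟩
  obtain ⟨hQ0, c, hc⟩ := id hQ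
  unfold gam
  split_ifs with hg
  · exact congrArg _ (hval sp hg.pt (hasVal_mk hg.2.2 (hlim hc)))
  obtain ⟨r, hr, a, ha⟩ := (spPl sp).exists_red h0
  have hx := hasVal_mk hr ha
  refine (congrArg _ (hval sp ⟨_, hx.mem hη⟩ hx)).trans (toE_eq_zero ?_)
  by_contra hne
  obtain ⟨q, hq, hRq⟩ := good_of_not_exc hne
  obtain ⟨b, hb⟩ := hx
  have hmin : ∀ j k, aeval (fun i => aeval P (N i)) (R j) * aeval P (nuP k)
      = aeval (fun i => aeval P (N i)) (R k) * aeval P (nuP j) := by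
    intro j k
    have := aeval_eq_zero_of_octic (F := aeval N (R j) * nuP k - aeval N (R k) * nuP j)
      (fun p hp => ?_) hP
    · rwa [map_sub, map_mul, map_mul, ← AlgHom.comp_apply, ← AlgHom.comp_apply _ (aeval N),
        comp_aeval, sub_eq_zero] at this
    · obtain ⟨t, ht⟩ := hinv p hp
      have h4 : ∀ F, eval p (aeval N F) = eval (fun i => eval p (N i)) F := fun F => by
        rw [← aeval_eq_eval, ← AlgHom.comp_apply, comp_aeval, aeval_eq_eval]
      rw [map_sub, map_mul, map_mul, h4, h4, ht, ht, eval_nuP, eval_nuP]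
      ring
  have hlimR : ∀ j k, Tends sp.v (b ^ e * aeval (fun i => aeval P (N i)) (R j)
      * (c ^ 2 * aeval P (nuP k))) (nu q j * nu Q k) := fun j k => by
    rw [← hRq, ← eval_nuP, ← nuP_smul, ← aeval_smul_homog (hR j)]
    exact (Tends.mv_aeval hb _).mul (Tends.mv_aeval hc _)
  obtain ⟨t, ht, h | h⟩ := eq_of_nu hQ0 hq.2.1 fun j k =>
    (hlimR j k).eq_of_eq (hlimR k j) (by linear_combination b ^ e * c ^ 2 * hmin j k)
  · exact hg (h ▸ (gam_smul (R := R) hN t q ht).1.mpr hq)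
  · exact hg (h ▸ (gam_smul (R := R) hN t _ ht).1.mpr ((gam_sg (R := R) hN q).1.mpr hq))

lemma eq_pt_of_not_exc (hN : ∀ i, IsWeightedHomogeneous wt4 (N i) d)
    (hR : ∀ j, (R j).IsHomogeneous e)
    (hinv : ∀ p ∈ oct g la mu, ∃ c, ∀ j, eval (fun i => eval p (N i)) (R j) = c * nu p j)
    (x : closedImage (oct g la mu) N) {q : Fin 4 → ℂ} (hq : Good g la mu N q)
    (hRq : ∀ j, eval x.1.rep (R j) = nu q j) : x = hq.pt := by
  have hex : ∀ i j, ∃ S : MvPolynomial (Fin 6) ℂ, S.IsHomogeneous d.1 ∧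
      ∀ p, eval (nu p) S = eval p (N i * N j) := fun i j => exists_comp_nu (by
    have := (hN i).mul (hN j)
    rwa [show d + d = (2 * d.1, 0) from Prod.ext (two_mul _).symm (CharTwo.add_self_eq_zero _)]
      at this)
  choose S hS hS' using hex
  have h4 : ∀ (v : Fin (n + 1) → ℂ) (F : MvPolynomial (Fin 6) ℂ),
      eval v (aeval R F) = aeval (fun j => eval v (R j)) F := fun v F => by
    rw [← aeval_eq_eval, ← AlgHom.comp_apply, comp_aeval]
  obtain ⟨j, hj⟩ := Function.ne_iff.mp hq.2.2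
  have hj' : eval q (N j) ≠ 0 := hj
  have key : ∀ i, x.1.rep i * eval q (N j) = x.1.rep j * eval q (N i) := by
    intro i
    have := x.2 (X i * aeval R (S j j) - X j * aeval R (S i j)) (1 + e * d.1)
      (((isHomogeneous_X _ _).mul ((hS j j).aeval R hR)).sub
        ((isHomogeneous_X _ _).mul ((hS i j).aeval R hR))) ?_
    · rw [map_sub, map_mul, map_mul, h4, h4, eval_X, eval_X, funext hRq, aeval_eq_eval,
        hS', hS', map_mul, map_mul] at this
      exact mul_right_cancel₀ hj' (by linear_combination this)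
    · rintro _ ⟨p, hp, h, rfl⟩
      obtain ⟨a, ha⟩ := Projectivization.exists_smul_eq_mk_rep ℂ _ h
      obtain ⟨t, ht⟩ := hinv p hp
      have h5 : (fun k => eval ((a : ℂ) • fun i => eval p (N i)) (R k))
          = fun k => (a ^ e * t) * nu p k := funext fun k => by
        rw [mul_assoc, ← ht]
        exact aeval_smul_homog (hR k) (a : ℂ) fun i => eval p (N i)
      rw [← ha, map_sub, map_mul, map_mul, h4, h4, eval_X, eval_X, Units.smul_def, h5,
        aeval_smul_homog (hS _ _), aeval_smul_homog (hS _ _), aeval_eq_eval, hS', hS', map_mul,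
        map_mul]
      simp only [Pi.smul_apply, smul_eq_mul]
      ring
  refine Subtype.ext ((x.1.mk_rep).symm.trans (mk_eq_of_smul _ _ (c := x.1.rep j / eval q (N j))
    fun i => ?_))
  field_simp
  exact key i

end model

end

end Pool.Agent.P.MP_7ebcb6_ag.G8
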