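import Pool.Agent.P.MP_7ebcb6_ag.G8.SysNat

/-! The multiplication tables compute products of functions on the curve. -/

namespace Pool.Agent.P.MP_7ebcb6_ag.G8

variable {K : Type} [CommRing K]

def Tb.ok (T : Tb K) : Prop := T = mkTb T.c T.A T.B T.M T.a T.b T.q T.r T.nu

lemma ok_mkTb (c A B M a b q r nu : K) : (mkTb c A B M a b q r nu).ok := rfl

/-- The value of an even element. -/
def evE (T : Tb K) (X1 X2 : K) (v : V4 K) : K :=
  v.a + v.b * (T.A * X1) + v.c * (T.B * X2) + v.d * (T.A * X1 * X1 + T.p1 * X1)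

/-- A point of the plane quartic. -/
def OnE (T : Tb K) (X1 X2 : K) : Prop :=
  X1 * X2 = T.c ∧ T.A * X1 * X1 + T.p1 * X1 + T.p0 + T.pm * X2 + T.B * X2 * X2 = 0

/-- A point of the double cover. -/
structure Pt (T : Tb K) where
  X1 : K
  X2 : K
  s1 : K
  s3 : K
  on : OnE T X1 X2
  h11 : s1 * s1 = T.nu * (T.ka + T.q * X2 + X2 * X2)
  h13 : s1 * s3 = T.nu * (T.M + T.a * X1 + T.b * X2)
  h33 : s3 * s3 = T.nu * (T.rho + T.r * X1 + X1 * X1)
  hA : (T.M + T.a * X1 + T.b * X2) * s1 = (T.ka + T.q * X2 + X2 * X2) * s3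
  hB : (T.rho + T.r * X1 + X1 * X1) * s1 = (T.M + T.a * X1 + T.b * X2) * s3

variable {T : Tb K}

def Pt.e (p : Pt T) (v : V4 K) : K := evE T p.X1 p.X2 v

/-- The value of an odd element. -/
def Pt.o (p : Pt T) (v : V4 K) : K :=
  v.a * (p.X1 * p.s1 - T.a * p.s3) + v.b * (p.X2 * p.s3 - T.b * p.s1) + v.c * (T.B * p.s1)
    + v.d * (T.A * p.s3)

lemma evE_mul (hT : T.ok) {X1 X2 : K} (h : OnE T X1 X2) (x y : V4 K) :
    evE T X1 X2 (mulEE T x y) = evE T X1 X2 x * evE T X1 X2 y := by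
  obtain ⟨c, A, B, M, a, b, q, r, nu, ka, rho, cab, mar, mbq, p1, pm, p0⟩ := T
  simp only [Tb.ok, mkTb, Tb.mk.injEq, true_and] at hT
  obtain ⟨rfl, rfl, rfl, rfl, rfl, rfl, rfl, rfl⟩ := hT
  obtain ⟨hc, hf⟩ := h
  simp only at hc hf
  subst hc
  simp only [evE, mulEE]
  linear_combination
    -((x.b * y.d + x.d * y.b) * (X1 * A) + x.c * y.c * (B) + x.d * y.d * (X1 * X1 * A + X1 * (X1
    * X2) * q + X1 * A * r - 2 * X1 * M * a + X1 * a * a * r)) * hf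

lemma Pt.e_mulOO (hT : T.ok) (p : Pt T) (x y : V4 K) : p.e (mulOO T x y) = p.o x * p.o y := by
  obtain ⟨c, A, B, M, a, b, q, r, nu, ka, rho, cab, mar, mbq, p1, pm, p0⟩ := T
  simp only [Tb.ok, mkTb, Tb.mk.injEq, true_and] at hT
  obtain ⟨rfl, rfl, rfl, rfl, rfl, rfl, rfl, rfl⟩ := hT
  obtain ⟨X1, X2, s1, s3, ⟨hc, hf⟩, h11, h13, h33, hA, hB⟩ := p
  simp only at hc hf h11 h13 h33
  subst hc
  simp only [Pt.e, Pt.o, evE, mulOO, V4.sm]
  linear_combination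
    -nu * (x.b * y.b * (1) + x.c * y.c * (B)) * hf - (x.a * y.a * (X1 * X1) + (x.a * y.b + x.b *
    y.a) * (-X1 * b) + (x.a * y.c + x.c * y.a) * (X1 * B) + x.b * y.b * (b * b) + (x.b * y.c +
    x.c * y.b) * (-B * b) + x.c * y.c * (B * B)) * h11 - (x.a * y.a * (-2 * X1 * a) + (x.a * y.b
    + x.b * y.a) * ((X1 * X2) + a * b) + (x.a * y.c + x.c * y.a) * (-B * a) + (x.a * y.d + x.d *
    y.a) * (X1 * A) + x.b * y.b * (-2 * X2 * b) + (x.b * y.c + x.c * y.b) * (X2 * B) + (x.b *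
    y.d + x.d * y.b) * (-A * b) + (x.c * y.d + x.d * y.c) * (A * B)) * h13 - (x.a * y.a * (a *
    a) + (x.a * y.b + x.b * y.a) * (-X2 * a) + (x.a * y.d + x.d * y.a) * (-A * a) + x.b * y.b *
    (X2 * X2) + (x.b * y.d + x.d * y.b) * (X2 * A) + x.d * y.d * (A * A)) * h33

lemma vadd_def (x y : V4 K) : x + y = ⟨x.a + y.a, x.b + y.b, x.c + y.c, x.d + y.d⟩ := rfl
lemma vsub_def (x y : V4 K) : x - y = ⟨x.a - y.a, x.b - y.b, x.c - y.c, x.d - y.d⟩ := rfl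

lemma Pt.o_mulEO (hT : T.ok) (p : Pt T) (x y : V4 K) : p.o (mulEO T x y) = p.e x * p.o y := by
  obtain ⟨c, A, B, M, a, b, q, r, nu, ka, rho, cab, mar, mbq, p1, pm, p0⟩ := T
  simp only [Tb.ok, mkTb, Tb.mk.injEq, true_and] at hT
  obtain ⟨rfl, rfl, rfl, rfl, rfl, rfl, rfl, rfl⟩ := hT
  obtain ⟨X1, X2, s1, s3, ⟨hc, hf⟩, h11, h13, h33, hA, hB⟩ := p
  simp only at hc hA hB
  subst hc
  simp only [Pt.e, Pt.o, evE, mulEO, mulE1, mulE2, mulE3, V4.sm, vadd_def]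
  linear_combination
    -(x.b * y.d * (-X1 * A) + x.c * y.b * (-B) + x.c * y.c * (-B * b) + x.d * y.a * (-X1 * M +
    X1 * a * r) + x.d * y.b * (-X1 * (X1 * X2) + X1 * a * b) + x.d * y.c * (-X1 * B * a) + x.d *
    y.d * (-X1 * X1 * A - X1 * A * r)) * hA - (x.b * y.a * (A) + x.b * y.d * (A * a) + x.c * y.c
    * (X2 * B) + x.d * y.a * (X1 * A + (X1 * X2) * q - M * a) + x.d * y.b * ((X1 * X2) * a - A *
    b - a * a * b) + x.d * y.c * (A * B + B * a * a) + x.d * y.d * (X1 * A * a + A * M)) * hB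

end Pool.Agent.P.MP_7ebcb6_ag.G8
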